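import Pool.Agent.H48.EP.Csc

/-!
# [H48 EP GP2] Pairs of consecutive prime gaps in almost all directions
-/

set_option autoImplicit false

namespace Pool.Agent.H48.EP

open Finset Filter Pool.Agent.H62.EX

/-- the next prime -/
theorem nth_next {p q : ℕ} (hp : p.Prime) (hq : q.Prime) (hpq : p < q) (h : ∀ y : ℕ, p < y → y < q → ¬ y.Prime) :
    Nat.nth Nat.Prime (Nat.count Nat.Prime p + 1) = q := by
  have h1 : Nat.nth Nat.Prime (Nat.count Nat.Prime p) = p := Nat.nth_count hp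
  have h2 : Nat.nth Nat.Prime (Nat.count Nat.Prime q) = q := Nat.nth_count hq
  have hmono : StrictMono (Nat.nth Nat.Prime) := Nat.nth_strictMono Nat.infinite_setOfPred_prime
  have h3 : Nat.count Nat.Prime p < Nat.count Nat.Prime q := Nat.count_strict_mono hp hpq
  have h4 : (Nat.nth Nat.Prime (Nat.count Nat.Prime p + 1)).Prime := Nat.prime_nth_prime _
  have h5 : p < Nat.nth Nat.Prime (Nat.count Nat.Prime p + 1) := by
    calc p = Nat.nth Nat.Prime (Nat.count Nat.Prime p) := h1.symm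
      _ < _ := hmono (Nat.lt_succ_self _)
  have h6 : Nat.nth Nat.Prime (Nat.count Nat.Prime p + 1) ≤ q := by
    calc Nat.nth Nat.Prime (Nat.count Nat.Prime p + 1) ≤ Nat.nth Nat.Prime (Nat.count Nat.Prime q) := hmono.monotone h3
      _ = q := h2
  by_contra hne
  exact h _ h5 (lt_of_le_of_ne h6 hne) h4

theorem onePair_univ : OnePair (univ : Finset (Fin 2)) := by
  intro i _ i' _ l _ l' _ h1 h2
  have e1 := congrArg Fin.val h1
  have e2 := congrArg Fin.val h2
  rw [Fin.val_succ, Fin.val_castSucc] at e1 e2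
  have b1 := i'.isLt
  have b2 := l'.isLt
  apply Fin.ext
  omega

open Classical in
/-- for almost all pairs `(u, v)` there is a bounded `m` such that `(m u, m v)` is a pair of consecutive prime gaps infinitely often -/
theorem gaps2 (W s : ℕ) (hW : 0 < W) (hs : Nat.Coprime s W) : ∃ m₂ : ℕ, ∀ ε : ℝ, 0 < ε → ∃ B : ℕ, ∀ z : ℕ, B ≤ z → ∀ b₁ b₂ : ℕ,
    (((Ioc b₁ (b₁ + z) ×ˢ Ioc b₂ (b₂ + z)).filter (fun w : ℕ × ℕ => ¬ ∃ m : ℕ, 1 ≤ m ∧ m ≤ m₂ ∧
      {n : ℕ | Nat.nth Nat.Prime (n + 1) = Nat.nth Nat.Prime n + m * w.1 ∧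
        Nat.nth Nat.Prime (n + 2) = Nat.nth Nat.Prime (n + 1) + m * w.2 ∧ Nat.nth Nat.Prime n ≡ s [MOD W] ∧
        Nat.nth Nat.Prime (n + 1) ≡ s [MOD W] ∧ Nat.nth Nat.Prime (n + 2) ≡ s [MOD W]}.Infinite)).card : ℝ) ≤ ε * (z : ℝ) ^ 2 := by
  obtain ⟨m₂, H⟩ := consec 2 1 (by norm_num) W s hW hs (fun _ => 0)
  refine ⟨m₂, fun ε hε => ?_⟩
  obtain ⟨X₀, hX⟩ := H (ε / 4) (by positivity)
  refine ⟨X₀, fun z hz b₁ b₂ => ?_⟩
  have h1 := hX (2 * z) ![b₁, b₁ + b₂] (by omega)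
  have h2 : ε / 4 * ((2 * z : ℕ) : ℝ) ^ 2 = ε * (z : ℝ) ^ 2 := by
    push_cast
    ring
  rw [h2] at h1
  refine le_trans (Nat.cast_le.2 ?_) h1
  refine card_le_card_of_injOn (fun w : ℕ × ℕ => (![w.1, w.1 + w.2] : Fin 2 → ℕ)) (fun w hw => ?_) ?_
  · rw [mem_coe, mem_filter, mem_product, mem_Ioc, mem_Ioc] at hw
    obtain ⟨⟨⟨hu1, hu2⟩, ⟨hv1, hv2⟩⟩, hw2⟩ := hw
    rw [mem_coe, mem_filter, Fintype.mem_piFinset]
    refine ⟨fun j => ?_, ?_, fun hg => hw2 ?_⟩
    · rw [mem_Icc]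
      fin_cases j
      · show b₁ + 1 ≤ w.1 ∧ w.1 ≤ b₁ + 2 * z
        omega
      · show b₁ + b₂ + 1 ≤ w.1 + w.2 ∧ w.1 + w.2 ≤ b₁ + b₂ + 2 * z
        omega
    · intro i j hij
      have hi : i = 0 := by
        apply Fin.ext
        have h5 : i.val < j.val := hij
        have h6 := j.isLt
        show i.val = 0
        omega
      have hj : j = 1 := by
        apply Fin.ext
        have h5 : i.val < j.val := hij
        have h6 := j.isLt
        show j.val = 1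
        omega
      rw [hi, hj]
      show w.1 < w.1 + w.2
      omega
    · obtain ⟨m, hm1, hm2, hm3⟩ := hg
      obtain ⟨q, hq⟩ := hm3 univ onePair_univ
      refine ⟨m, hm1, hm2, ?_⟩
      obtain ⟨T, hT⟩ : ∃ T : Set ℕ, T = {p : ℕ | Pat W s (fun _ => (0 : Fin 1)) q univ
        (Fin.cons 0 (fun j => m * (![w.1, w.1 + w.2] : Fin 2 → ℕ) j) : Fin 3 → ℕ) p} := ⟨_, rfl⟩
      have hTinf : T.Infinite := by
        rw [hT]
        exact hq
      have hTp : ∀ p ∈ T, p.Prime ∧ (p + m * w.1).Prime ∧ (p + m * (w.1 + w.2)).Prime ∧ p ≡ s [MOD W] ∧ p + m * w.1 ≡ s [MOD W] ∧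
          p + m * (w.1 + w.2) ≡ s [MOD W] ∧ (∀ y : ℕ, p < y → y < p + m * w.1 → ¬ y.Prime) ∧
          (∀ y : ℕ, p + m * w.1 < y → y < p + m * (w.1 + w.2) → ¬ y.Prime) := by
        intro p hp
        rw [hT] at hp
        obtain ⟨hp1, hp2⟩ := hp
        have a0 := hp1 0
        have a1 := hp1 1
        have a2 := hp1 2
        have c0 := hp2 0 (mem_univ _)
        have c1 := hp2 1 (mem_univ _)
        refine ⟨a0.1, a1.1, a2.1, a0.2.2, a1.2.2, a2.2.2, fun y h3 h4 h5 => c0 y h3 h4 ⟨h5, ?_⟩, fun y h3 h4 h5 => c1 y h3 h4 ⟨h5, ?_⟩⟩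
        · exact Subsingleton.elim _ _
        · exact Subsingleton.elim _ _
      have hinj : Set.InjOn (Nat.count Nat.Prime) T := by
        intro p hp p' hp' h3
        have h4 : Nat.nth Nat.Prime (Nat.count Nat.Prime p) = p := Nat.nth_count (hTp p hp).1
        have h5 : Nat.nth Nat.Prime (Nat.count Nat.Prime p') = p' := Nat.nth_count (hTp p' hp').1
        rw [← h4, ← h5, h3]
      refine (hTinf.image hinj).mono ?_
      rintro _ ⟨p, hp, rfl⟩
      obtain ⟨k1, k2, k3, k4, k5, k6, k7, k8⟩ := hTp p hp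
      have e0 : Nat.nth Nat.Prime (Nat.count Nat.Prime p) = p := Nat.nth_count k1
      have hmu : 0 < m * w.1 := Nat.mul_pos (by omega) (by omega)
      have hmv : 0 < m * w.2 := Nat.mul_pos (by omega) (by omega)
      have hsum : m * (w.1 + w.2) = m * w.1 + m * w.2 := by ring
      have e1 : Nat.nth Nat.Prime (Nat.count Nat.Prime p + 1) = p + m * w.1 := nth_next k1 k2 (by omega) k7
      have e2 : Nat.nth Nat.Prime (Nat.count Nat.Prime p + 2) = p + m * (w.1 + w.2) := by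
        have h3 := nth_next k2 k3 (by omega) k8
        have h4 : Nat.count Nat.Prime (p + m * w.1) = Nat.count Nat.Prime p + 1 := by
          apply (Nat.nth_strictMono Nat.infinite_setOfPred_prime).injective
          rw [e1, Nat.nth_count k2]
        rw [h4] at h3
        exact h3
      show Nat.nth Nat.Prime (Nat.count Nat.Prime p + 1) = Nat.nth Nat.Prime (Nat.count Nat.Prime p) + m * w.1 ∧
        Nat.nth Nat.Prime (Nat.count Nat.Prime p + 2) = Nat.nth Nat.Prime (Nat.count Nat.Prime p + 1) + m * w.2 ∧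
        Nat.nth Nat.Prime (Nat.count Nat.Prime p) ≡ s [MOD W] ∧
        Nat.nth Nat.Prime (Nat.count Nat.Prime p + 1) ≡ s [MOD W] ∧ Nat.nth Nat.Prime (Nat.count Nat.Prime p + 2) ≡ s [MOD W]
      rw [e0, e1, e2]
      refine ⟨rfl, by rw [hsum]; ring, k4, k5, k6⟩
  · intro w _ w' _ h
    have h3 : w.1 = w'.1 := congrFun h 0
    have h4 : w.1 + w.2 = w'.1 + w'.2 := congrFun h 1
    exact Prod.ext h3 (by omega)

end Pool.Agent.H48.EP
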