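import Pool.Agent.H48.EP.Av

/-!
# [H48 EP KST] Blow-up of configurations

Proof.  Induction on `V` (e.g. on finsets of coordinates, or `Option V`), Jensen for `x ^ s` (`inner_le_nnorm_mul_nnorm`, `inner_mul_le_norm_mul_norm`,
`Real.pow_arith_mean_le_arith_mean_pow`): for `f : X × Y → [0,1]`, `E_{x_1, …, x_s} E_y ∏_j f(x_j, y) = E_y (E_x f(x, y))^s ≥ (E f)^s`; then the same for
`(x_1, …, x_s; y) ↦ ∏_j f(x_j, y)` and the next coordinate.
-/

set_option autoImplicit false

namespace Pool.Agent.H48.EP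

open Finset

/-- Jensen -/
private theorem jen {X : Type} [Fintype X] [Nonempty X] {g : X → ℝ} (hg : ∀ x, 0 ≤ g x) (k : ℕ) :
    Ex g ^ k ≤ Ex (fun x => g x ^ k) := by
  have hc : (0 : ℝ) < Fintype.card X := by exact_mod_cast Fintype.card_pos
  have h1 := Real.pow_arith_mean_le_arith_mean_pow univ (fun _ : X => (Fintype.card X : ℝ)⁻¹) g
    (fun _ _ => (inv_pos.2 hc).le)
    (by
      rw [sum_const, nsmul_eq_mul, card_univ]
      exact mul_inv_cancel₀ hc.ne')
    (fun x _ => hg x) k
  rw [← mul_sum, ← mul_sum] at h1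
  unfold Ex
  rw [div_eq_inv_mul, div_eq_inv_mul]
  exact h1

/-- independence -/
private theorem ex_pow {X : Type} [Fintype X] (h : X → ℝ) (s : ℕ) :
    Ex (fun a : Fin s → X => ∏ j, h (a j)) = Ex h ^ s := by
  unfold Ex
  rw [div_pow, Fintype.sum_pow, Fintype.card_fun, Fintype.card_fin]
  push_cast
  rfl

private theorem ex_cons {U : Type} [Fintype U] {n : ℕ} (G : (Fin (n + 1) → U) → ℝ) :
    Ex G = Ex (fun a : U => Ex (fun y : Fin n → U => G (Fin.cons a y))) := by
  rw [← Ex_equiv (Fin.consEquiv fun _ : Fin (n + 1) => U) G]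
  exact Ex_prod (fun p : U × (Fin n → U) => G (Fin.cons p.1 p.2))

private theorem prod_cons {s n : ℕ} (G : (Fin (n + 1) → Fin s) → ℝ) :
    ∏ t, G t = ∏ t0 : Fin s, ∏ t : Fin n → Fin s, G (Fin.cons t0 t) := by
  rw [← Equiv.prod_comp (Fin.consEquiv fun _ : Fin (n + 1) => Fin s) G]
  exact Fintype.prod_prod_type (f := fun p : Fin s × (Fin n → Fin s) => G (Fin.cons p.1 p.2))

private theorem blow_fin {X : Type} [Fintype X] [Nonempty X] (s : ℕ) : ∀ (n : ℕ)
    (f : (Fin n → X) → ℝ), (∀ x, 0 ≤ f x) →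
    Ex f ^ (s ^ n) ≤ Ex (fun u : Fin n → Fin s → X => ∏ t : Fin n → Fin s, f (fun v => u v (t v))) := by
  intro n
  induction n with
  | zero =>
    intro f hf
    have h1 : ∀ y : Fin 0 → X, f y = f (fun i => i.elim0) := fun y => by
      rw [Subsingleton.elim y]
    have e1 : Ex f = f (fun i => i.elim0) := by
      rw [Ex_congr h1]
      exact Ex_const _
    have e2 : Ex (fun u : Fin 0 → Fin s → X => ∏ t : Fin 0 → Fin s, f (fun v => u v (t v))) =
        f (fun i => i.elim0) := by
      have h2 : ∀ u : Fin 0 → Fin s → X, ∏ t : Fin 0 → Fin s, f (fun v => u v (t v)) =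
          f (fun i => i.elim0) := by
        intro u
        rw [Fintype.prod_unique]
        exact h1 _
      rw [Ex_congr h2]
      exact Ex_const _
    rw [e1, e2, pow_zero, pow_one]
  | succ n ih =>
    intro f hf
    set G : X → (Fin n → Fin s → X) → ℝ := fun x y =>
      ∏ t : Fin n → Fin s, f (Fin.cons x (fun v => y v (t v))) with hG
    have hG0 : ∀ x y, 0 ≤ G x y := fun x y => prod_nonneg fun t _ => hf _
    have e1 : Ex (fun u : Fin (n + 1) → Fin s → X => ∏ t : Fin (n + 1) → Fin s, f (fun v => u v (t v))) =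
        Ex (fun y : Fin n → Fin s → X => Ex (fun x : X => G x y) ^ s) := by
      rw [ex_cons, Ex_comm]
      refine Ex_congr fun y => ?_
      rw [← ex_pow]
      refine Ex_congr fun a => ?_
      rw [prod_cons]
      refine prod_congr rfl fun t0 _ => ?_
      refine prod_congr rfl fun t _ => ?_
      have h3 : (fun v => (Fin.cons a y : Fin (n + 1) → Fin s → X) v
          ((Fin.cons t0 t : Fin (n + 1) → Fin s) v)) =
          (Fin.cons (a t0) (fun v => y v (t v)) : Fin (n + 1) → X) := by
        funext v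
        refine Fin.cases ?_ (fun i => ?_) v
        · rfl
        · rfl
      rw [h3]
    rw [e1]
    have h1 : Ex f = Ex (fun x : X => Ex (fun z : Fin n → X => f (Fin.cons x z))) := ex_cons f
    have hz : ∀ x : X, 0 ≤ Ex (fun z : Fin n → X => f (Fin.cons x z)) := fun x =>
      Ex_nonneg fun z => hf _
    have h2 : Ex f ^ (s ^ n) ≤ Ex (fun x : X => Ex (fun y : Fin n → Fin s → X => G x y)) := by
      rw [h1]
      refine (jen hz _).trans ?_
      exact Ex_mono fun x => ih (fun z => f (Fin.cons x z)) (fun z => hf _)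
    have h0 : 0 ≤ Ex f := Ex_nonneg hf
    calc Ex f ^ (s ^ (n + 1)) = (Ex f ^ (s ^ n)) ^ s := by rw [pow_succ, pow_mul]
      _ ≤ (Ex (fun x : X => Ex (fun y : Fin n → Fin s → X => G x y))) ^ s :=
          pow_le_pow_left₀ (pow_nonneg h0 _) h2 s
      _ = (Ex (fun y : Fin n → Fin s → X => Ex (fun x : X => G x y))) ^ s := by rw [Ex_comm]
      _ ≤ Ex (fun y : Fin n → Fin s → X => Ex (fun x : X => G x y) ^ s) :=
          jen (fun y => Ex_nonneg fun x => hG0 x y) s

theorem blowup {V X : Type} [Fintype V] [DecidableEq V] [Fintype X] [Nonempty X] (s : ℕ) (hs : 1 ≤ s) (F : Set (V → X)) :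
    dn F ^ (s ^ Fintype.card V) ≤ dn {u : V × Fin s → X | ∀ t : V → Fin s, (fun v => u (v, t v)) ∈ F} := by
  classical
  set f : (V → X) → ℝ := F.indicator (fun _ => (1 : ℝ)) with hf
  have hf0 : ∀ x, 0 ≤ f x := fun x => Set.indicator_nonneg (fun _ _ => zero_le_one) x
  set e : V ≃ Fin (Fintype.card V) := Fintype.equivFin V with he
  have h1 := blow_fin (X := X) s (Fintype.card V) (fun y => f (y ∘ e)) (fun y => hf0 _)
  have h2 : Ex (fun y : Fin (Fintype.card V) → X => f (y ∘ e)) = dn F := by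
    have := Ex_reindex (β := X) e.symm f
    rw [Equiv.symm_symm] at this
    exact this
  have h3 : Ex (fun u : Fin (Fintype.card V) → Fin s → X => ∏ t : Fin (Fintype.card V) → Fin s,
      (fun y => f (y ∘ e)) (fun v => u v (t v))) =
      dn {u : V × Fin s → X | ∀ t : V → Fin s, (fun v => u (v, t v)) ∈ F} := by
    unfold dn
    rw [← Ex_equiv ((Equiv.curry V (Fin s) X).trans (Equiv.arrowCongr e (Equiv.refl (Fin s → X))))]
    refine Ex_congr fun u => ?_
    rw [← Equiv.prod_comp (Equiv.arrowCongr e (Equiv.refl (Fin s)))]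
    have h4 : ∀ t : V → Fin s, (fun y => f (y ∘ e)) (fun v =>
        ((Equiv.curry V (Fin s) X).trans (Equiv.arrowCongr e (Equiv.refl (Fin s → X)))) u v
          ((Equiv.arrowCongr e (Equiv.refl (Fin s))) t v)) = f (fun v => u (v, t v)) := by
      intro t
      have h5 : (fun v => ((Equiv.curry V (Fin s) X).trans
          (Equiv.arrowCongr e (Equiv.refl (Fin s → X)))) u v
          ((Equiv.arrowCongr e (Equiv.refl (Fin s))) t v)) ∘ e = (fun v => u (v, t v)) := by
        funext v
        simp [Equiv.arrowCongr, Equiv.curry, Function.curry]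
      show f (_ ∘ e) = _
      rw [h5]
    rw [prod_congr rfl fun t _ => h4 t]
    by_cases hu : ∀ t : V → Fin s, (fun v => u (v, t v)) ∈ F
    · rw [Set.indicator_of_mem (show u ∈ {u : V × Fin s → X | ∀ t : V → Fin s, (fun v => u (v, t v)) ∈ F} from hu)]
      refine prod_eq_one fun t _ => ?_
      rw [hf, Set.indicator_of_mem (hu t)]
    · rw [Set.indicator_of_notMem (show u ∉ {u : V × Fin s → X | ∀ t : V → Fin s, (fun v => u (v, t v)) ∈ F} from hu)]
      push Not at hu
      obtain ⟨t, ht⟩ := hu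
      refine prod_eq_zero (mem_univ t) ?_
      rw [hf, Set.indicator_of_notMem ht]
  rw [h2, h3] at h1
  exact h1

end Pool.Agent.H48.EP
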