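import Pool.Agent.H48.EP.Wrg

/-!
# [H48 EP CUT] Counting in linear hypergraphs

`e a : K → V`, `a ∈ Λ`: the edges, two different edges share at most one vertex.
Proof.  (1) `Cut η g` implies `|Ex (g x ∏ i, u i (x i))| ≤ η` for all `u i : X → [0,1]` (replace one `u i` at a time by an indicator: the expression is
affine in `u i`, so it is at most (at least) the value for `u i` = indicator of the set where the coefficient is positive (negative)).
(2) Replace `f a` by `g a` for one edge `a` after the other.  Fix the variables outside `range (e a)`: every other factor depends on at most one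
variable `x (e a i)` and is in `[0,1]`, also the indicators of the `B v`; the product of all factors depending on `x (e a i)` is `u i (x (e a i))` (the factors which
depend on none of them are a constant in `[0,1]`).  The average over `x ∘ e a` is then at most `η` by (1).
-/

set_option autoImplicit false

namespace Pool.Agent.H48.EP

open Finset

section cut

variable {K X : Type} [Fintype K] [DecidableEq K] [Fintype X]

/-- one variable: the expression is linear in `v` -/
theorem cut_lin (g : (K → X) → ℝ) (u : K → X → ℝ) (i₀ : K) :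
    ∃ c : X → ℝ, ∀ v : X → ℝ,
      Ex (fun x : K → X => g x * ∏ i, (Function.update u i₀ v) i (x i)) = ∑ y, v y * c y := by
  classical
  refine ⟨fun y => Ex (fun x : K → X => if x i₀ = y then g x * ∏ i ∈ univ.erase i₀, u i (x i) else 0), fun v => ?_⟩
  have h1 : ∀ x : K → X, g x * ∏ i, (Function.update u i₀ v) i (x i) =
      ∑ y, v y * (if x i₀ = y then g x * ∏ i ∈ univ.erase i₀, u i (x i) else 0) := by
    intro x
    rw [← mul_prod_erase univ _ (mem_univ i₀), Function.update_self, sum_eq_single (x i₀)]
    · rw [if_pos rfl, prod_congr rfl (g := fun i => u i (x i)) (fun i hi => by rw [Function.update_of_ne (ne_of_mem_erase hi)])]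
      ring
    · intro y _ hy
      rw [if_neg (fun h => hy h.symm), mul_zero]
    · intro h
      exact absurd (mem_univ _) h
  rw [Ex_congr h1, Ex_sum]
  exact sum_congr rfl fun y _ => Ex_mul_left _ _

/-- one general function replaced by an indicator -/
theorem cut_step (g : (K → X) → ℝ) (u : K → X → ℝ) (hu : ∀ i y, 0 ≤ u i y ∧ u i y ≤ 1) (i₀ : K) (η : ℝ)
    (h : ∀ A : Set X, |Ex (fun x : K → X => g x * ∏ i, (Function.update u i₀ (A.indicator fun _ => (1 : ℝ))) i (x i))| ≤ η) :
    |Ex (fun x : K → X => g x * ∏ i, u i (x i))| ≤ η := by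
  classical
  obtain ⟨c, hc⟩ := cut_lin g u i₀
  have h0 : Ex (fun x : K → X => g x * ∏ i, u i (x i)) = ∑ y, u i₀ y * c y := by
    rw [← hc (u i₀), Function.update_eq_self]
  rw [h0, abs_le]
  constructor
  · have h1 := h {y | c y ≤ 0}
    rw [hc, abs_le] at h1
    refine h1.1.trans (sum_le_sum fun y _ => ?_)
    by_cases hy : c y ≤ 0
    · rw [Set.indicator_of_mem (show y ∈ {y | c y ≤ 0} from hy)]
      nlinarith [(hu i₀ y).2]
    · rw [Set.indicator_of_notMem (show y ∉ {y | c y ≤ 0} from hy), zero_mul]
      exact mul_nonneg (hu i₀ y).1 (not_le.1 hy).le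
  · have h1 := h {y | 0 ≤ c y}
    rw [hc, abs_le] at h1
    refine le_trans (sum_le_sum fun y _ => ?_) h1.2
    by_cases hy : 0 ≤ c y
    · rw [Set.indicator_of_mem (show y ∈ {y | 0 ≤ c y} from hy)]
      nlinarith [(hu i₀ y).2]
    · rw [Set.indicator_of_notMem (show y ∉ {y | 0 ≤ c y} from hy), zero_mul]
      nlinarith [(hu i₀ y).1, not_le.1 hy]

theorem cut_fun (g : (K → X) → ℝ) (η : ℝ) (hg : Cut η g) (s : Finset K) :
    ∀ u : K → X → ℝ, (∀ i y, 0 ≤ u i y ∧ u i y ≤ 1) → (∀ i, i ∉ s → ∃ A : Set X, u i = A.indicator fun _ => (1 : ℝ)) →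
      |Ex (fun x : K → X => g x * ∏ i, u i (x i))| ≤ η := by
  classical
  induction s using Finset.induction_on with
  | empty =>
    intro u _ hA
    choose A hA' using fun i => hA i (notMem_empty i)
    have h := hg A
    rw [Ex_congr (g := fun x : K → X => g x * ∏ i, (A i).indicator (fun _ => (1 : ℝ)) (x i))
      (fun x => by rw [prod_congr rfl (fun i _ => by rw [hA' i])])]
    exact h
  | insert i₀ s hi ih =>
    intro u hu hA
    refine cut_step g u hu i₀ η fun A => ih _ ?_ ?_
    · intro i y
      rcases eq_or_ne i i₀ with rfl | hne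
      · rw [Function.update_self]
        exact ⟨Set.indicator_nonneg (fun _ _ => zero_le_one) y, Set.indicator_le_self' (fun _ _ => zero_le_one) y⟩
      · rw [Function.update_of_ne hne]
        exact hu i y
    · intro i his
      rcases eq_or_ne i i₀ with rfl | hne
      · exact ⟨A, by rw [Function.update_self]⟩
      · obtain ⟨A', hA'⟩ := hA i (fun h => by
          rcases mem_insert.1 h with h | h
          · exact hne h
          · exact his h)
        exact ⟨A', by rw [Function.update_of_ne hne, hA']⟩

/-- products of functions of one variable -/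
def PF (Φ : (K → X) → ℝ) : Prop :=
  ∃ (c : ℝ) (u : K → X → ℝ), 0 ≤ c ∧ c ≤ 1 ∧ (∀ i y, 0 ≤ u i y ∧ u i y ≤ 1) ∧ ∀ t, Φ t = c * ∏ i, u i (t i)

theorem PF_const (c : ℝ) (h0 : 0 ≤ c) (h1 : c ≤ 1) : PF (fun _ : K → X => c) :=
  ⟨c, fun _ _ => 1, h0, h1, fun _ _ => ⟨zero_le_one, le_rfl⟩, fun t => by rw [prod_const_one, mul_one]⟩

theorem PF_mul {Φ Ψ : (K → X) → ℝ} (h : PF Φ) (h' : PF Ψ) : PF (fun t => Φ t * Ψ t) := by
  obtain ⟨c, u, hc0, hc1, hu, h⟩ := h
  obtain ⟨c', u', hc0', hc1', hu', h'⟩ := h'
  refine ⟨c * c', fun i y => u i y * u' i y, mul_nonneg hc0 hc0', mul_le_one₀ hc1 hc0' hc1',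
    fun i y => ⟨mul_nonneg (hu i y).1 (hu' i y).1, mul_le_one₀ (hu i y).2 (hu' i y).1 (hu' i y).2⟩, fun t => ?_⟩
  show Φ t * Ψ t = c * c' * ∏ i, (u i (t i) * u' i (t i))
  rw [h t, h' t, prod_mul_distrib]
  ring

theorem PF_single (i : K) (w : X → ℝ) (hw : ∀ y, 0 ≤ w y ∧ w y ≤ 1) : PF (fun t : K → X => w (t i)) := by
  refine ⟨1, Function.update (fun _ _ => 1) i w, zero_le_one, le_rfl, ?_, ?_⟩
  · intro i' y
    rcases eq_or_ne i' i with rfl | hne
    · rw [Function.update_self]
      exact hw y
    · rw [Function.update_of_ne hne]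
      exact ⟨zero_le_one, le_rfl⟩
  · intro t
    rw [one_mul, prod_eq_single i]
    · rw [Function.update_self]
    · intro i' _ hne
      rw [Function.update_of_ne hne]
    · intro h
      exact absurd (mem_univ _) h

theorem PF_prod {J : Type} (s : Finset J) (Φ : J → (K → X) → ℝ) (h : ∀ j ∈ s, PF (Φ j)) : PF (fun t => ∏ j ∈ s, Φ j t) := by
  classical
  induction s using Finset.induction_on with
  | empty => simpa using PF_const (K := K) (X := X) 1 zero_le_one le_rfl
  | insert j s hj ih =>
    have h1 : PF (fun t => Φ j t * ∏ j ∈ s, Φ j t) := PF_mul (h j (mem_insert_self _ _)) (ih fun j' hj' => h j' (mem_insert_of_mem hj'))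
    have h2 : (fun t => ∏ j ∈ insert j s, Φ j t) = fun t => Φ j t * ∏ j ∈ s, Φ j t := by
      funext t
      rw [prod_insert hj]
    rw [h2]
    exact h1

theorem cut_PF (g : (K → X) → ℝ) (η : ℝ) (hg : Cut η g) (Φ : (K → X) → ℝ) (h : PF Φ) : |Ex (fun t => g t * Φ t)| ≤ η := by
  obtain ⟨c, u, hc0, hc1, hu, h⟩ := h
  have h1 := cut_fun g η hg univ u hu (fun i hi => absurd (mem_univ i) hi)
  rw [Ex_congr (g := fun t => c * (g t * ∏ i, u i (t i))) (fun t => by rw [h t]; ring), Ex_mul_left, abs_mul, abs_of_nonneg hc0]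
  exact (mul_le_of_le_one_left (abs_nonneg _) hc1).trans h1

end cut

theorem swap_one {V K Λ X : Type} [Fintype V] [DecidableEq V] [Fintype K] [DecidableEq K] [Fintype Λ] [DecidableEq Λ] [Fintype X] [Nonempty X]
    (e : Λ → K → V) (he : ∀ a, Function.Injective (e a))
    (hlin : ∀ a b, a ≠ b → ∀ i j i' j', e a i = e b i' → e a j = e b j' → i = j)
    (h : Λ → (K → X) → ℝ) (hh : ∀ a x, 0 ≤ h a x ∧ h a x ≤ 1) (η : ℝ) (a₀ : Λ) (g : (K → X) → ℝ)
    (hcut : Cut η g) (B : V → Set X) :
    |Ex (fun x : V → X => g (x ∘ e a₀) * ((∏ v, (B v).indicator (fun _ => (1 : ℝ)) (x v)) * ∏ a ∈ univ.erase a₀, h a (x ∘ e a)))| ≤ η := by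
  classical
  rw [Ex_extend (e a₀) (he a₀)]
  refine (abs_Ex_le _).trans (Ex_le_const fun x => ?_)
  rw [Ex_congr (g := fun t : K → X => g t * ((∏ v, (B v).indicator (fun _ => (1 : ℝ)) (Function.extend (e a₀) t x v)) *
    ∏ a ∈ univ.erase a₀, h a (Function.extend (e a₀) t x ∘ e a)))
    (fun t => by rw [show Function.extend (e a₀) t x ∘ e a₀ = t from funext fun i => (he a₀).extend_apply t x i])]
  refine cut_PF g η hcut _ (PF_mul (PF_prod _ _ fun v _ => ?_) (PF_prod _ _ fun a ha => ?_))
  · by_cases hv : ∃ i, e a₀ i = v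
    · obtain ⟨i, rfl⟩ := hv
      rw [show (fun t : K → X => (B (e a₀ i)).indicator (fun _ => (1 : ℝ)) (Function.extend (e a₀) t x (e a₀ i))) =
        fun t => (B (e a₀ i)).indicator (fun _ => (1 : ℝ)) (t i) from by
          funext t
          rw [(he a₀).extend_apply]]
      exact PF_single i _ fun y => ⟨Set.indicator_nonneg (fun _ _ => zero_le_one) y, Set.indicator_le_self' (fun _ _ => zero_le_one) y⟩
    · rw [show (fun t : K → X => (B v).indicator (fun _ => (1 : ℝ)) (Function.extend (e a₀) t x v)) =
        fun _ => (B v).indicator (fun _ => (1 : ℝ)) (x v) from by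
          funext t
          rw [Function.extend_apply' _ _ _ hv]]
      exact PF_const _ (Set.indicator_nonneg (fun _ _ => zero_le_one) _) (Set.indicator_le_self' (fun _ _ => zero_le_one) _)
  · have hne : a ≠ a₀ := ne_of_mem_erase ha
    by_cases hj : ∃ j i, e a j = e a₀ i
    · obtain ⟨j, i, hji⟩ := hj
      rw [show (fun t : K → X => h a (Function.extend (e a₀) t x ∘ e a)) =
        fun t => (fun y : X => h a (fun j' => if j' = j then y else x (e a j'))) (t i) from by
          funext t
          show h a _ = h a _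
          congr 1
          funext j'
          show Function.extend (e a₀) t x (e a j') = _
          by_cases hjj : j' = j
          · rw [if_pos hjj, hjj, hji, (he a₀).extend_apply]
          · rw [if_neg hjj, Function.extend_apply']
            rintro ⟨i', hi'⟩
            exact hjj (hlin a a₀ hne j' j i' i hi'.symm hji)]
      exact PF_single i (fun y : X => h a (fun j' => if j' = j then y else x (e a j'))) fun y => hh a _
    · rw [show (fun t : K → X => h a (Function.extend (e a₀) t x ∘ e a)) = fun _ => h a (x ∘ e a) from by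
          funext t
          congr 1
          funext j'
          show Function.extend (e a₀) t x (e a j') = x (e a j')
          rw [Function.extend_apply']
          rintro ⟨i', hi'⟩
          exact hj ⟨j', i', hi'.symm⟩]
      exact PF_const _ (hh a _).1 (hh a _).2

theorem count_swap {V K Λ X : Type} [Fintype V] [DecidableEq V] [Fintype K] [DecidableEq K] [Fintype Λ] [DecidableEq Λ] [Fintype X] [Nonempty X]
    (e : Λ → K → V) (he : ∀ a, Function.Injective (e a))
    (hlin : ∀ a b, a ≠ b → ∀ i j i' j', e a i = e b i' → e a j = e b j' → i = j)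
    (f g : Λ → (K → X) → ℝ) (hf : ∀ a x, 0 ≤ f a x ∧ f a x ≤ 1) (hg : ∀ a x, 0 ≤ g a x ∧ g a x ≤ 1) (η : ℝ)
    (hcut : ∀ a, Cut η (fun x => f a x - g a x)) (B : V → Set X) :
    |Ex (fun x : V → X => (∏ v, (B v).indicator (fun _ => (1 : ℝ)) (x v)) * ∏ a, f a (x ∘ e a)) -
      Ex (fun x : V → X => (∏ v, (B v).indicator (fun _ => (1 : ℝ)) (x v)) * ∏ a, g a (x ∘ e a))| ≤ Fintype.card Λ * η := by
  classical
  have key : ∀ S : Finset Λ,
      |Ex (fun x : V → X => (∏ v, (B v).indicator (fun _ => (1 : ℝ)) (x v)) * ∏ a, f a (x ∘ e a)) -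
        Ex (fun x : V → X => (∏ v, (B v).indicator (fun _ => (1 : ℝ)) (x v)) * ∏ a, (if a ∈ S then g a else f a) (x ∘ e a))| ≤ S.card * η := by
    intro S
    induction S using Finset.induction_on with
    | empty =>
      simp
    | insert a₀ S ha ih =>
      have h1 := swap_one e he hlin (fun a => if a ∈ S then g a else f a) (fun a x => by
        by_cases h : a ∈ S
        · simp only [if_pos h]
          exact hg a x
        · simp only [if_neg h]
          exact hf a x) η a₀ _ (hcut a₀) B
      have h2 : Ex (fun x : V → X => (∏ v, (B v).indicator (fun _ => (1 : ℝ)) (x v)) * ∏ a, (if a ∈ S then g a else f a) (x ∘ e a)) -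
          Ex (fun x : V → X => (∏ v, (B v).indicator (fun _ => (1 : ℝ)) (x v)) * ∏ a, (if a ∈ insert a₀ S then g a else f a) (x ∘ e a)) =
          Ex (fun x : V → X => (f a₀ (x ∘ e a₀) - g a₀ (x ∘ e a₀)) * ((∏ v, (B v).indicator (fun _ => (1 : ℝ)) (x v)) *
            ∏ a ∈ univ.erase a₀, (if a ∈ S then g a else f a) (x ∘ e a))) := by
        rw [← Ex_sub]
        refine Ex_congr fun x => ?_
        rw [← mul_prod_erase univ (fun a => (if a ∈ S then g a else f a) (x ∘ e a)) (mem_univ a₀),
          ← mul_prod_erase univ (fun a => (if a ∈ insert a₀ S then g a else f a) (x ∘ e a)) (mem_univ a₀),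
          prod_congr rfl (s₁ := univ.erase a₀) (f := fun a => (if a ∈ insert a₀ S then g a else f a) (x ∘ e a))
            (g := fun a => (if a ∈ S then g a else f a) (x ∘ e a))
            (fun a ha' => by
              have hne : a ≠ a₀ := ne_of_mem_erase ha'
              by_cases h : a ∈ S
              · simp only [if_pos h, if_pos (mem_insert_of_mem h)]
              · simp only [if_neg h, if_neg (fun h' => (mem_insert.1 h').elim hne h)])]
        simp only [if_neg ha, if_pos (mem_insert_self a₀ S)]
        ring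
      have h3 := abs_sub_le
        (Ex (fun x : V → X => (∏ v, (B v).indicator (fun _ => (1 : ℝ)) (x v)) * ∏ a, f a (x ∘ e a)))
        (Ex (fun x : V → X => (∏ v, (B v).indicator (fun _ => (1 : ℝ)) (x v)) * ∏ a, (if a ∈ S then g a else f a) (x ∘ e a)))
        (Ex (fun x : V → X => (∏ v, (B v).indicator (fun _ => (1 : ℝ)) (x v)) * ∏ a, (if a ∈ insert a₀ S then g a else f a) (x ∘ e a)))
      rw [h2] at h3
      rw [card_insert_of_notMem ha]
      push_cast
      linarith
  have h := key univ
  simp only [mem_univ, if_true] at h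
  exact h

end Pool.Agent.H48.EP
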