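import Pool.Agent.H48.EP.Srg
import Pool.Agent.H48.EP.Cut

/-!
# [H48 EP REM] The removal lemma for linear hypergraphs, dual form

`T`: a family of configurations, dense and edge disjoint; then there are many configurations.
Proof.  `L = |Λ|` (`L = 0`: everything is a configuration, `c = 1`), `k = |K|`, `n = |V|`.  `κ' = τ/(4L)`, `κ₂ = (κ'^L/(2L))²`, `κ = κ₂ τ/(8L)`, `s q = τ/(8 L k q)` (`s = 1` if `k = 0`),
`η q = κ'^L (s q)^n / (4 L)`.  `strong_reg K Λ κ η` for the indicators `f a` of `F a` gives `P`, `P'`.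
(1) Remove from `F a` the `y` (a) with `cn (P ∘ ·) (f a) y < κ'`: at most `κ' |X|^k` (they are a union of cells); (b) with some `y i` in a part of `P` of size `< s q |X|`: at most
`k q s q |X|^k ≤ τ/(8L) |X|^k`; (c) in a cell `c` of `P` where the average of `(cn P' - cn P)²` is `> κ₂`: at most `κ/κ₂ |X|^k = τ/(8L) |X|^k`.  In all at most `τ/2 |X|^k`, less than `|T|`;
since `x ↦ x ∘ e a` is injective on `T`, some `x ∈ T` has all its edges not removed.
(2) `B v` = part of `P` containing `x v`, `μ = dn (box) ≥ (s q)^n` (every vertex is in an edge).  By `count_swap`: `Ex (1_box ∏ f a) ≥ Ex (1_box ∏ cn P' (f a)) - L η q`, and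
`∏ cn P' ≥ ∏ d_a - ∑_a |cn P' (f a) - d_a|` on the box, `d_a ≥ κ'` the value of `cn P (f a)` in the cell; averages over the box of a function of `x ∘ e a` are
averages over the cell (product structure, `e a` injective): `≥ μ (κ'^L - L κ₂^(1/2)) = μ κ'^L / 2` (Cauchy-Schwarz).  Total `≥ (s q)^n κ'^L / 4 ≥ c := (s Q)^n κ'^L / 4`.
-/

set_option autoImplicit false

namespace Pool.Agent.H48.EP

open Finset

private theorem ind_nonneg {X : Type*} (A : Set X) (x : X) : 0 ≤ A.indicator (fun _ => (1 : ℝ)) x :=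
  Set.indicator_nonneg (fun _ _ => zero_le_one) x

private theorem ind_le_one {X : Type*} (A : Set X) (x : X) : A.indicator (fun _ => (1 : ℝ)) x ≤ 1 :=
  Set.indicator_le_self' (fun _ _ => zero_le_one) x

/-- a function times the indicator of the fibre of `z` -/
private theorem Ex_fib {Z Q : Type} [Fintype Z] [Nonempty Z] (π : Z → Q) (f : Z → ℝ) (z : Z) :
    Ex (fun z' => ({z' | π z' = π z} : Set Z).indicator (fun _ => (1 : ℝ)) z' * f z') =
      cn π f z * Ex (fun z' => ({z' | π z' = π z} : Set Z).indicator (fun _ => (1 : ℝ)) z') := by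
  classical
  have e1 : ∑ z', ({z' | π z' = π z} : Set Z).indicator (fun _ => (1 : ℝ)) z' * f z' =
      ∑ z' ∈ univ.filter (fun z' => π z' = π z), f z' := by
    rw [sum_filter]
    refine sum_congr rfl fun z' _ => ?_
    by_cases h : π z' = π z
    · rw [Set.indicator_of_mem (show z' ∈ {z' | π z' = π z} from h), if_pos h, one_mul]
    · rw [Set.indicator_of_notMem (show z' ∉ {z' | π z' = π z} from h), if_neg h, zero_mul]
  have e2 : ∑ z', ({z' | π z' = π z} : Set Z).indicator (fun _ => (1 : ℝ)) z' =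
      ((univ.filter (fun z' => π z' = π z)).card : ℝ) := by
    rw [card_eq_sum_ones, Nat.cast_sum, sum_filter]
    refine sum_congr rfl fun z' _ => ?_
    by_cases h : π z' = π z
    · rw [Set.indicator_of_mem (show z' ∈ {z' | π z' = π z} from h), if_pos h, Nat.cast_one]
    · rw [Set.indicator_of_notMem (show z' ∉ {z' | π z' = π z} from h), if_neg h]
  have h0 : ((univ.filter (fun z' => π z' = π z)).card : ℝ) ≠ 0 := by
    have : 0 < (univ.filter (fun z' => π z' = π z)).card :=
      card_pos.2 ⟨z, mem_filter.2 ⟨mem_univ _, rfl⟩⟩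
    exact_mod_cast this.ne'
  unfold Ex
  rw [e1, e2]
  have e3 : cn π f z = (∑ z' ∈ univ.filter (fun z' => π z' = π z), f z') /
      ((univ.filter (fun z' => π z' = π z)).card : ℝ) := by
    unfold cn
    congr 1
  rw [e3]
  field_simp

/-- the cell of `y` as a product -/
private theorem prod_ind {K X : Type} [Fintype K] {q : ℕ} (P : X → Fin q) (y t : K → X) :
    ∏ i, ({w | P w = P (y i)} : Set X).indicator (fun _ => (1 : ℝ)) (t i) =
      ({t | P ∘ t = P ∘ y} : Set (K → X)).indicator (fun _ => (1 : ℝ)) t := by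
  by_cases h : P ∘ t = P ∘ y
  · rw [Set.indicator_of_mem (show t ∈ {t | P ∘ t = P ∘ y} from h)]
    refine prod_eq_one fun i _ => ?_
    exact Set.indicator_of_mem (show t i ∈ {w | P w = P (y i)} from congrFun h i) _
  · rw [Set.indicator_of_notMem (show t ∉ {t | P ∘ t = P ∘ y} from h)]
    obtain ⟨i, hi⟩ := Function.ne_iff.1 h
    exact prod_eq_zero (mem_univ i)
      (Set.indicator_of_notMem (show t i ∉ {w | P w = P (y i)} from hi) _)

private theorem Ex_prod_fun {V X : Type} [Fintype V] [DecidableEq V] [Fintype X]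
    (f : V → X → ℝ) : Ex (fun x : V → X => ∏ v, f v (x v)) = ∏ v, Ex (f v) := by
  unfold Ex
  have h1 : ∏ v, ∑ w, f v w = ∑ x : V → X, ∏ v, f v (x v) := by
    rw [prod_univ_sum, Fintype.piFinset_univ]
  rw [← h1, prod_div_distrib, prod_const, Fintype.card_fun, card_univ]
  push_cast
  rfl

/-- product structure of the box -/
private theorem Ex_box {V K X : Type} [Fintype V] [DecidableEq V] [Fintype K] [DecidableEq K]
    [Fintype X] (σ : K → V) (hσ : Function.Injective σ) (B : V → X → ℝ) :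
    ∃ ω : ℝ, (∀ v x, 0 ≤ B v x) → 0 ≤ ω ∧ ∀ h : (K → X) → ℝ,
      Ex (fun x : V → X => (∏ v, B v (x v)) * h (x ∘ σ)) =
        ω * Ex (fun t : K → X => (∏ i, B (σ i) (t i)) * h t) := by
  refine ⟨Ex (fun x : V → X => ∏ v ∈ (univ.image σ)ᶜ, B v (x v)), fun hB => ⟨?_, ?_⟩⟩
  · exact Ex_nonneg fun x => prod_nonneg fun v _ => hB v _
  intro h
  rw [Ex_extend σ hσ]
  have e1 : ∀ (x : V → X) (t : K → X),
      (∏ v, B v (Function.extend σ t x v)) * h (Function.extend σ t x ∘ σ) =
        (∏ v ∈ (univ.image σ)ᶜ, B v (x v)) * ((∏ i, B (σ i) (t i)) * h t) := by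
    intro x t
    rw [Function.extend_comp hσ, ← prod_mul_prod_compl (univ.image σ), prod_image (fun i _ j _ hij => hσ hij)]
    have a1 : ∏ i, B (σ i) (Function.extend σ t x (σ i)) = ∏ i, B (σ i) (t i) :=
      prod_congr rfl fun i _ => by rw [hσ.extend_apply]
    have a2 : ∏ v ∈ (univ.image σ)ᶜ, B v (Function.extend σ t x v) =
        ∏ v ∈ (univ.image σ)ᶜ, B v (x v) := by
      refine prod_congr rfl fun v hv => ?_
      rw [Function.extend_apply']
      rintro ⟨i, rfl⟩
      rw [mem_compl] at hv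
      exact hv (mem_image_of_mem _ (mem_univ _))
    rw [a1, a2]
    ring
  have e2 : ∀ x : V → X, Ex (fun t : K → X =>
      (∏ v, B v (Function.extend σ t x v)) * h (Function.extend σ t x ∘ σ)) =
        Ex (fun t : K → X => (∏ i, B (σ i) (t i)) * h t) *
          (∏ v ∈ (univ.image σ)ᶜ, B v (x v)) := by
    intro x
    rw [Ex_congr (e1 x), Ex_mul_left, mul_comm]
  rw [Ex_congr e2, Ex_mul_left, mul_comm]

private theorem prod_sub_le {Λ : Type} (S : Finset Λ) (u v : Λ → ℝ)
    (hu : ∀ a, 0 ≤ u a ∧ u a ≤ 1) (hv : ∀ a, 0 ≤ v a ∧ v a ≤ 1) :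
    ∏ a ∈ S, v a - ∑ a ∈ S, |u a - v a| ≤ ∏ a ∈ S, u a := by
  classical
  induction S using Finset.induction_on with
  | empty => simp
  | insert a S ha ih =>
    rw [prod_insert ha, prod_insert ha, sum_insert ha]
    have p0 : 0 ≤ ∏ b ∈ S, u b := prod_nonneg fun b _ => (hu b).1
    have p1 : ∏ b ∈ S, u b ≤ 1 := prod_le_one (fun b _ => (hu b).1) fun b _ => (hu b).2
    have h1 := hu a
    have h2 := hv a
    have h3 : v a * (∏ b ∈ S, v b - ∑ b ∈ S, |u b - v b|) ≤ v a * ∏ b ∈ S, u b :=
      mul_le_mul_of_nonneg_left ih h2.1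
    have h4 : (v a - u a) * ∏ b ∈ S, u b ≤ |u a - v a| := by
      have h5 : v a - u a ≤ |u a - v a| := by rw [abs_sub_comm]; exact le_abs_self _
      calc (v a - u a) * ∏ b ∈ S, u b ≤ |u a - v a| * ∏ b ∈ S, u b :=
            mul_le_mul_of_nonneg_right h5 p0
        _ ≤ |u a - v a| * 1 := mul_le_mul_of_nonneg_left p1 (abs_nonneg _)
        _ = |u a - v a| := mul_one _
    have h6 : v a * ∑ b ∈ S, |u b - v b| ≤ ∑ b ∈ S, |u b - v b| := by
      have : 0 ≤ ∑ b ∈ S, |u b - v b| := sum_nonneg fun b _ => abs_nonneg _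
      nlinarith
    nlinarith

/-- small parts: density of the points in small parts -/
private theorem dn_small {X : Type} [Fintype X] [Nonempty X] {q : ℕ} (P : X → Fin q) {s : ℝ} (hs : 0 ≤ s) :
    dn {w | dn {w' | P w' = P w} < s} ≤ q * s := by
  classical
  have h1 : dn {w | dn {w' | P w' = P w} < s} ≤
      ∑ j : Fin q, dn {w | dn {w' | P w' = P w} < s ∧ P w = j} := by
    unfold dn
    rw [← Ex_sum]
    refine Ex_mono fun w => ?_
    by_cases hw : w ∈ {w | Ex (({w' | P w' = P w} : Set X).indicator fun _ => (1 : ℝ)) < s}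
    · rw [Set.indicator_of_mem hw]
      refine le_trans ?_ (single_le_sum (fun j _ => ind_nonneg _ w) (mem_univ (P w)))
      rw [Set.indicator_of_mem]
      exact ⟨hw, rfl⟩
    · rw [Set.indicator_of_notMem hw]
      exact sum_nonneg fun j _ => ind_nonneg _ w
  refine h1.trans ?_
  have h2 : ∀ j ∈ (univ : Finset (Fin q)), dn {w | dn {w' | P w' = P w} < s ∧ P w = j} ≤ s := by
    intro j _
    by_cases hne : ∃ w, dn {w' | P w' = P w} < s ∧ P w = j
    · obtain ⟨w, hw1, hw2⟩ := hne
      refine (dn_mono ?_).trans hw1.le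
      rintro w' ⟨_, h⟩
      exact h.trans hw2.symm
    · have : {w | dn {w' | P w' = P w} < s ∧ P w = j} = ∅ := by
        rw [Set.eq_empty_iff_forall_notMem]
        intro w hw
        exact hne ⟨w, hw⟩
      rw [this]
      unfold dn
      rw [Set.indicator_empty]
      unfold Ex
      simpa using hs
  refine (sum_le_sum h2).trans (le_of_eq ?_)
  rw [sum_const, card_univ, Fintype.card_fin, nsmul_eq_mul]

private theorem dn_coord {K X : Type} [Fintype K] [DecidableEq K] [Fintype X] [Nonempty X]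
    (i : K) (S : Set X) : dn {y : K → X | y i ∈ S} = dn S := by
  classical
  unfold dn
  have hinj : Function.Injective (fun _ : Unit => i) := fun _ _ _ => rfl
  rw [Ex_extend (fun _ : Unit => i) hinj]
  have e1 : ∀ x : K → X, Ex (fun t : Unit → X => ({y : K → X | y i ∈ S} : Set (K → X)).indicator
      (fun _ => (1 : ℝ)) (Function.extend (fun _ : Unit => i) t x)) =
      Ex (S.indicator (fun _ => (1 : ℝ))) := by
    intro x
    rw [← Ex_equiv (Equiv.funUnique Unit X) (S.indicator (fun _ => (1 : ℝ)))]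
    refine Ex_congr fun t => ?_
    have e2 : Function.extend (fun _ : Unit => i) t x i = t () := hinj.extend_apply t x ()
    by_cases h : t () ∈ S
    · rw [Set.indicator_of_mem (show Function.extend (fun _ : Unit => i) t x ∈
        {y : K → X | y i ∈ S} from by rw [Set.mem_ofPred_eq, e2]; exact h),
        Set.indicator_of_mem (show (Equiv.funUnique Unit X) t ∈ S from h)]
    · rw [Set.indicator_of_notMem (show Function.extend (fun _ : Unit => i) t x ∉
        {y : K → X | y i ∈ S} from by rw [Set.mem_ofPred_eq, e2]; exact h),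
        Set.indicator_of_notMem (show (Equiv.funUnique Unit X) t ∉ S from h)]
  rw [Ex_congr e1, Ex_const]

theorem removal {V K Λ : Type} [Fintype V] [DecidableEq V] [Fintype K] [DecidableEq K] [Fintype Λ] [DecidableEq Λ]
    (e : Λ → K → V) (he : ∀ a, Function.Injective (e a))
    (hlin : ∀ a b, a ≠ b → ∀ i j i' j', e a i = e b i' → e a j = e b j' → i = j)
    (hcov : ∀ v, ∃ a i, e a i = v) (τ : ℝ) (hτ : 0 < τ) :
    ∃ c : ℝ, 0 < c ∧ ∀ (X : Type) [Fintype X] [Nonempty X] (F : Λ → Set (K → X)) (T : Set (V → X)),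
      (∀ x ∈ T, ∀ a, x ∘ e a ∈ F a) → (∀ a, Set.InjOn (fun x : V → X => x ∘ e a) T) →
        τ * (Fintype.card X : ℝ) ^ Fintype.card K ≤ T.ncard → c ≤ dn {x : V → X | ∀ a, x ∘ e a ∈ F a} := by
  classical
  rcases isEmpty_or_nonempty Λ with hΛ | hΛ
  · refine ⟨1, one_pos, ?_⟩
    intro X _ _ F T h1 h2 h3
    have : {x : V → X | ∀ a, x ∘ e a ∈ F a} = Set.univ :=
      Set.eq_univ_of_forall fun x a => (hΛ.false a).elim
    rw [this, dn_univ]
  set L : ℝ := (Fintype.card Λ : ℝ) with hLdef
  have hL : 0 < L := by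
    rw [hLdef]
    exact_mod_cast Fintype.card_pos
  set k : ℝ := (Fintype.card K : ℝ) with hkdef
  have hk : 0 ≤ k := Nat.cast_nonneg _
  set κ' : ℝ := τ / (4 * L) with hκ'def
  have hκ' : 0 < κ' := by positivity
  set δ : ℝ := κ' ^ (Fintype.card Λ) / (2 * L) with hδdef
  have hδ : 0 < δ := by positivity
  set κ : ℝ := δ ^ 2 * (τ / (8 * L)) with hκdef
  have hκ : 0 < κ := by positivity
  let s : ℕ → ℝ := fun q => τ / (8 * L * (k + 1) * (q + 1))
  have hs : ∀ q, 0 < s q := fun q => by simp only [s]; positivity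
  let η : ℕ → ℝ := fun q => κ' ^ (Fintype.card Λ) * (s q) ^ (Fintype.card V) / (4 * L)
  have hη : ∀ q, 0 < η q := fun q => by
    have := hs q
    simp only [η]; positivity
  obtain ⟨Q, hQ⟩ := strong_reg K Λ κ hκ η hη
  refine ⟨(s Q) ^ (Fintype.card V) * κ' ^ (Fintype.card Λ) / 4, by have := hs Q; positivity, ?_⟩
  intro X _ _ F T hT hinj hcard
  let f : Λ → (K → X) → ℝ := fun a => (F a).indicator (fun _ => (1 : ℝ))
  have hf : ∀ a x, 0 ≤ f a x ∧ f a x ≤ 1 := fun a x => ⟨ind_nonneg _ x, ind_le_one _ x⟩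
  obtain ⟨q, q', P, P', ρ, hq1, hqQ, hPP, hcut, hL2⟩ := hQ X f hf
  set πP : (K → X) → (K → Fin q) := fun y => P ∘ y with hπP
  set πP' : (K → X) → (K → Fin q') := fun y => P' ∘ y with hπP'
  -- removed sets
  let D1 : Λ → Set (K → X) := fun a => {y | y ∈ F a ∧ cn πP (f a) y < κ'}
  let D2 : Set (K → X) := {y | ∃ i, y i ∈ {w | dn {w' | P w' = P w} < s q}}
  let D3 : Λ → Set (K → X) := fun a =>
    {y | δ ^ 2 < cn πP (fun z => (cn πP' (f a) z - cn πP (f a) z) ^ 2) y}
  have hD1 : ∀ a, dn (D1 a) ≤ κ' := by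
    intro a
    have e1 : dn (D1 a) = Ex (fun y => f a y *
        ({y | cn πP (f a) y < κ'} : Set (K → X)).indicator (fun _ => (1 : ℝ)) y) := by
      unfold dn
      refine Ex_congr fun y => ?_
      by_cases h1 : y ∈ F a
      · by_cases h2 : cn πP (f a) y < κ'
        · rw [Set.indicator_of_mem (show y ∈ D1 a from ⟨h1, h2⟩),
            Set.indicator_of_mem (show y ∈ {y | cn πP (f a) y < κ'} from h2)]
          simp only [f]
          rw [Set.indicator_of_mem h1, mul_one]
        · rw [Set.indicator_of_notMem (show y ∉ D1 a from fun h => h2 h.2),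
            Set.indicator_of_notMem (show y ∉ {y | cn πP (f a) y < κ'} from h2), mul_zero]
      · rw [Set.indicator_of_notMem (show y ∉ D1 a from fun h => h1 h.1)]
        simp only [f]
        rw [Set.indicator_of_notMem h1, zero_mul]
    rw [e1, ← Ex_cn_mul πP (f a)]
    · refine Ex_le_const fun y => ?_
      by_cases h2 : cn πP (f a) y < κ'
      · rw [Set.indicator_of_mem (show y ∈ {y | cn πP (f a) y < κ'} from h2), mul_one]
        exact h2.le
      · rw [Set.indicator_of_notMem (show y ∉ {y | cn πP (f a) y < κ'} from h2), mul_zero]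
        exact hκ'.le
    · intro z z' hzz
      have e2 := cn_eq_of_eq πP (f a) hzz
      by_cases h2 : cn πP (f a) z < κ'
      · rw [Set.indicator_of_mem (show z ∈ {y | cn πP (f a) y < κ'} from h2),
          Set.indicator_of_mem (show z' ∈ {y | cn πP (f a) y < κ'} from e2.symm.trans_lt h2)]
      · rw [Set.indicator_of_notMem (show z ∉ {y | cn πP (f a) y < κ'} from h2),
          Set.indicator_of_notMem (show z' ∉ {y | cn πP (f a) y < κ'} from fun h3 => h2 (e2.trans_lt h3))]
  have hD2 : dn D2 ≤ τ / (8 * L) := by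
    have e1 : dn D2 ≤ ∑ i : K, dn {y : K → X | y i ∈ {w | dn {w' | P w' = P w} < s q}} := by
      unfold dn
      rw [← Ex_sum]
      refine Ex_mono fun y => ?_
      by_cases h : y ∈ D2
      · rw [Set.indicator_of_mem h]
        obtain ⟨i, hi⟩ := h
        refine le_trans ?_ (single_le_sum (fun j _ => ind_nonneg _ y) (mem_univ i))
        rw [Set.indicator_of_mem]
        exact hi
      · rw [Set.indicator_of_notMem h]
        exact sum_nonneg fun j _ => ind_nonneg _ y
    have e2 : ∑ i : K, dn {y : K → X | y i ∈ {w | dn {w' | P w' = P w} < s q}} ≤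
        ∑ _i : K, (q * s q) := sum_le_sum fun i _ => by
      rw [dn_coord]
      exact dn_small P (hs q).le
    refine e1.trans (e2.trans ?_)
    rw [sum_const, card_univ, nsmul_eq_mul, ← hkdef]
    simp only [s]
    have hq0 : (0 : ℝ) ≤ q := Nat.cast_nonneg _
    rw [show k * (q * (τ / (8 * L * (k + 1) * (q + 1)))) =
      (τ / (8 * L)) * ((k / (k + 1)) * (q / (q + 1))) by field_simp]
    have t1 : k / (k + 1) ≤ 1 := by rw [div_le_one (by linarith)]; linarith
    have t2 : (q : ℝ) / (q + 1) ≤ 1 := by rw [div_le_one (by linarith)]; linarith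
    have t3 : (k / (k + 1)) * (q / (q + 1)) ≤ 1 := by
      have : 0 ≤ (q : ℝ) / (q + 1) := by positivity
      nlinarith [mul_le_mul_of_nonneg_right t1 this]
    have t4 : 0 < τ / (8 * L) := by positivity
    nlinarith
  have hD3 : ∀ a, dn (D3 a) ≤ τ / (8 * L) := by
    intro a
    have e1 : δ ^ 2 * dn (D3 a) ≤
        Ex (cn πP (fun z => (cn πP' (f a) z - cn πP (f a) z) ^ 2)) := by
      unfold dn
      rw [← Ex_mul_left]
      refine Ex_mono fun y => ?_
      by_cases h : y ∈ D3 a
      · rw [Set.indicator_of_mem h, mul_one]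
        exact le_of_lt h
      · rw [Set.indicator_of_notMem h, mul_zero]
        refine (cn_mem πP (f := fun z => (cn πP' (f a) z - cn πP (f a) z) ^ 2) ?_ y).1
        intro z
        have a1 := cn_mem πP' (hf a) z
        have a2 := cn_mem πP (hf a) z
        exact ⟨sq_nonneg _, by nlinarith [a1.1, a1.2, a2.1, a2.2]⟩
    have e2 : Ex (cn πP (fun z => (cn πP' (f a) z - cn πP (f a) z) ^ 2)) =
        Ex (fun z => (cn πP' (f a) z - cn πP (f a) z) ^ 2) := by
      have := Ex_cn_mul πP (fun z => (cn πP' (f a) z - cn πP (f a) z) ^ 2) (fun _ => 1)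
        (fun _ _ _ => rfl)
      simpa only [mul_one] using this
    rw [e2] at e1
    have e3 := e1.trans (hL2 a)
    rw [hκdef] at e3
    exact le_of_mul_le_mul_left e3 (by positivity)
  -- a configuration without removed edges
  obtain ⟨x, hxT, hx⟩ : ∃ x ∈ T, ∀ a, x ∘ e a ∉ D1 a ∧ x ∘ e a ∉ D2 ∧ x ∘ e a ∉ D3 a := by
    by_contra hcon
    push Not at hcon
    let D : Λ → Set (K → X) := fun a => D1 a ∪ (D2 ∪ D3 a)
    have hTsub : T ⊆ ⋃ a ∈ (univ : Finset Λ), {x | x ∈ T ∧ x ∘ e a ∈ D a} := by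
      intro x hx
      obtain ⟨a, ha⟩ := hcon x hx
      rw [Set.mem_iUnion₂]
      refine ⟨a, mem_univ _, hx, ?_⟩
      by_cases g1 : x ∘ e a ∈ D1 a
      · exact Or.inl g1
      · by_cases g2 : x ∘ e a ∈ D2
        · exact Or.inr (Or.inl g2)
        · exact Or.inr (Or.inr (ha g1 g2))
    have c1 : (T.ncard : ℝ) ≤ ∑ a : Λ, (({x | x ∈ T ∧ x ∘ e a ∈ D a} : Set (V → X)).ncard : ℝ) := by
      have := (Set.ncard_le_ncard hTsub (Set.toFinite _)).trans
        (Finset.set_ncard_biUnion_le univ _)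
      exact_mod_cast this
    have c2 : ∀ a : Λ, (({x | x ∈ T ∧ x ∘ e a ∈ D a} : Set (V → X)).ncard : ℝ) ≤ ((D a).ncard : ℝ) := by
      intro a
      have := Set.ncard_le_ncard_of_injOn (s := {x | x ∈ T ∧ x ∘ e a ∈ D a}) (t := D a)
        (fun x : V → X => x ∘ e a) (fun x hx => hx.2)
        (fun x hx y hy hxy => hinj a hx.1 hy.1 hxy) (Set.toFinite _)
      exact_mod_cast this
    have c3 : ∀ a : Λ, ((D a).ncard : ℝ) ≤ (τ / (2 * L)) * (Fintype.card X : ℝ) ^ Fintype.card K := by
      intro a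
      rw [← dn_mul_card, Fintype.card_fun]
      push_cast
      refine mul_le_mul_of_nonneg_right ?_ (by positivity)
      have g1 : dn (D a) ≤ dn (D1 a) + (dn D2 + dn (D3 a)) := by
        unfold dn
        rw [← Ex_add, ← Ex_add]
        refine Ex_mono fun y => ?_
        by_cases h : y ∈ D a
        · rw [Set.indicator_of_mem h]
          rcases h with h | h | h
          · rw [Set.indicator_of_mem h]
            linarith [ind_nonneg D2 y, ind_nonneg (D3 a) y]
          · rw [Set.indicator_of_mem h]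
            linarith [ind_nonneg (D1 a) y, ind_nonneg (D3 a) y]
          · rw [Set.indicator_of_mem h]
            linarith [ind_nonneg (D1 a) y, ind_nonneg D2 y]
        · rw [Set.indicator_of_notMem h]
          linarith [ind_nonneg (D1 a) y, ind_nonneg D2 y, ind_nonneg (D3 a) y]
      have g2 := hD1 a
      have g3 := hD3 a
      have g4 : κ' + (τ / (8 * L) + τ / (8 * L)) = τ / (2 * L) := by
        rw [hκ'def]; field_simp; ring
      linarith
    have c4 : (T.ncard : ℝ) ≤ (τ / 2) * (Fintype.card X : ℝ) ^ Fintype.card K := by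
      refine c1.trans ((sum_le_sum fun a _ => (c2 a).trans (c3 a)).trans (le_of_eq ?_))
      rw [sum_const, card_univ, nsmul_eq_mul, ← hLdef]
      field_simp
    have c5 : (0 : ℝ) < (Fintype.card X : ℝ) ^ Fintype.card K := by
      have : (0 : ℝ) < Fintype.card X := by exact_mod_cast Fintype.card_pos
      positivity
    have c6 := hcard.trans c4
    nlinarith
  -- the box
  let B : V → Set X := fun v => {w | P w = P (x v)}
  have hBs : ∀ v, s q ≤ dn (B v) := by
    intro v
    obtain ⟨a, i, rfl⟩ := hcov v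
    have h2 := (hx a).2.1
    by_contra hcon
    push Not at hcon
    exact h2 ⟨i, hcon⟩
  set μ : ℝ := Ex (fun x' : V → X => ∏ v, (B v).indicator (fun _ => (1 : ℝ)) (x' v)) with hμ
  have hμs : (s q) ^ (Fintype.card V) ≤ μ := by
    rw [hμ, Ex_prod_fun (fun v => (B v).indicator (fun _ => (1 : ℝ))), ← card_univ, ← prod_const]
    exact prod_le_prod (fun v _ => (hs q).le) fun v _ => hBs v
  have hμ0 : 0 < μ := lt_of_lt_of_le (pow_pos (hs q) _) hμs
  let d : Λ → ℝ := fun a => cn πP (f a) (x ∘ e a)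
  have hd : ∀ a, κ' ≤ d a := by
    intro a
    by_contra hcon
    push Not at hcon
    exact (hx a).1 ⟨hT x hxT a, hcon⟩
  have hd01 : ∀ a, 0 ≤ d a ∧ d a ≤ 1 := fun a => cn_mem πP (hf a) _
  have hdev : ∀ a, Ex (fun x' : V → X => (∏ v, (B v).indicator (fun _ => (1 : ℝ)) (x' v)) *
      |cn πP' (f a) (x' ∘ e a) - d a|) ≤ δ * μ := by
    intro a
    obtain ⟨ω, hω⟩ := Ex_box (e a) (he a) (fun v => (B v).indicator (fun _ => (1 : ℝ)))
    obtain ⟨hω0, hω⟩ := hω (fun v x => ind_nonneg _ x)
    have b1 := hω (fun t => |cn πP' (f a) t - d a|)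
    have b2 := hω (fun _ => 1)
    simp only [mul_one] at b2
    rw [b1, hμ, b2]
    -- the cell
    have b3 : ∀ t : K → X, ∏ i, (B (e a i)).indicator (fun _ => (1 : ℝ)) (t i) =
        ({t | πP t = πP (x ∘ e a)} : Set (K → X)).indicator (fun _ => (1 : ℝ)) t :=
      fun t => prod_ind P (x ∘ e a) t
    have b4 : Ex (fun t : K → X => (∏ i, (B (e a i)).indicator (fun _ => (1 : ℝ)) (t i)) *
        |cn πP' (f a) t - d a|) ≤
        δ * Ex (fun t : K → X => ∏ i, (B (e a i)).indicator (fun _ => (1 : ℝ)) (t i)) := by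
      simp only [b3]
      set m : ℝ := Ex (fun t : K → X =>
        ({t | πP t = πP (x ∘ e a)} : Set (K → X)).indicator (fun _ => (1 : ℝ)) t) with hm
      have hm0 : 0 ≤ m := Ex_nonneg fun t => ind_nonneg _ t
      have b5 := Ex_fib πP (fun z => (cn πP' (f a) z - cn πP (f a) z) ^ 2) (x ∘ e a)
      rw [← hm] at b5
      have b6 : cn πP (fun z => (cn πP' (f a) z - cn πP (f a) z) ^ 2) (x ∘ e a) ≤ δ ^ 2 := by
        by_contra hcon
        push Not at hcon
        exact (hx a).2.2 hcon
      have b7 : Ex (fun t : K → X =>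
          ({t | πP t = πP (x ∘ e a)} : Set (K → X)).indicator (fun _ => (1 : ℝ)) t *
            |cn πP' (f a) t - d a|) ≤
          Ex (fun t : K → X => (1 / (2 * δ)) *
            (({t | πP t = πP (x ∘ e a)} : Set (K → X)).indicator (fun _ => (1 : ℝ)) t *
              (cn πP' (f a) t - cn πP (f a) t) ^ 2) +
            (δ / 2) * ({t | πP t = πP (x ∘ e a)} : Set (K → X)).indicator (fun _ => (1 : ℝ)) t) := by
        refine Ex_mono fun t => ?_
        by_cases ht : πP t = πP (x ∘ e a)
        · rw [Set.indicator_of_mem (show t ∈ {t | πP t = πP (x ∘ e a)} from ht), one_mul, one_mul,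
            mul_one]
          have b8 : cn πP (f a) t = d a := cn_eq_of_eq πP (f a) ht
          rw [b8]
          set z := |cn πP' (f a) t - d a| with hz
          have b9 : (cn πP' (f a) t - d a) ^ 2 = z ^ 2 := by rw [hz, sq_abs]
          rw [b9]
          have b10 : 1 / (2 * δ) * z ^ 2 + δ / 2 - z = (z - δ) ^ 2 / (2 * δ) := by
            field_simp; ring
          have b11 : 0 ≤ (z - δ) ^ 2 / (2 * δ) := by positivity
          linarith
        · rw [Set.indicator_of_notMem (show t ∉ {t | πP t = πP (x ∘ e a)} from ht)]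
          simp
      refine b7.trans ?_
      rw [Ex_add, Ex_mul_left, Ex_mul_left, b5, ← hm]
      have b12 : 1 / (2 * δ) * (cn πP (fun z => (cn πP' (f a) z - cn πP (f a) z) ^ 2) (x ∘ e a) * m) ≤
          1 / (2 * δ) * (δ ^ 2 * m) :=
        mul_le_mul_of_nonneg_left (mul_le_mul_of_nonneg_right b6 hm0) (by positivity)
      have b13 : 1 / (2 * δ) * (δ ^ 2 * m) = δ / 2 * m := by field_simp
      linarith
    calc ω * Ex (fun t : K → X => (∏ i, (B (e a i)).indicator (fun _ => (1 : ℝ)) (t i)) *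
        |cn πP' (f a) t - d a|) ≤
        ω * (δ * Ex (fun t : K → X => ∏ i, (B (e a i)).indicator (fun _ => (1 : ℝ)) (t i))) :=
          mul_le_mul_of_nonneg_left b4 hω0
      _ = δ * (ω * Ex (fun t : K → X => ∏ i, (B (e a i)).indicator (fun _ => (1 : ℝ)) (t i))) := by
          ring
  -- lower bound for the product of the cell averages
  have hlow : μ * (κ' ^ (Fintype.card Λ) / 2) ≤
      Ex (fun x' : V → X => (∏ v, (B v).indicator (fun _ => (1 : ℝ)) (x' v)) *
        ∏ a, cn πP' (f a) (x' ∘ e a)) := by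
    have g1 : Ex (fun x' : V → X => κ' ^ (Fintype.card Λ) *
        (∏ v, (B v).indicator (fun _ => (1 : ℝ)) (x' v)) -
        ∑ a : Λ, (∏ v, (B v).indicator (fun _ => (1 : ℝ)) (x' v)) *
          |cn πP' (f a) (x' ∘ e a) - d a|) ≤
        Ex (fun x' : V → X => (∏ v, (B v).indicator (fun _ => (1 : ℝ)) (x' v)) *
          ∏ a, cn πP' (f a) (x' ∘ e a)) := by
      refine Ex_mono fun x' => ?_
      set β : ℝ := ∏ v, (B v).indicator (fun _ => (1 : ℝ)) (x' v) with hβ
      have hβ0 : 0 ≤ β := prod_nonneg fun v _ => ind_nonneg _ _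
      rw [← mul_sum]
      have g2 := prod_sub_le (univ : Finset Λ) (fun a => cn πP' (f a) (x' ∘ e a)) d
        (fun a => cn_mem πP' (hf a) _) hd01
      have g3 : κ' ^ (Fintype.card Λ) ≤ ∏ a, d a := by
        rw [← card_univ, ← prod_const]
        exact prod_le_prod (fun a _ => hκ'.le) fun a _ => hd a
      have g4 : κ' ^ (Fintype.card Λ) - ∑ a, |cn πP' (f a) (x' ∘ e a) - d a| ≤
          ∏ a, cn πP' (f a) (x' ∘ e a) := by linarith
      calc κ' ^ (Fintype.card Λ) * β - β * ∑ a, |cn πP' (f a) (x' ∘ e a) - d a| =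
          β * (κ' ^ (Fintype.card Λ) - ∑ a, |cn πP' (f a) (x' ∘ e a) - d a|) := by ring
        _ ≤ β * ∏ a, cn πP' (f a) (x' ∘ e a) := mul_le_mul_of_nonneg_left g4 hβ0
    rw [Ex_sub, Ex_mul_left, Ex_sum, ← hμ] at g1
    have g5 : ∑ a : Λ, Ex (fun x' : V → X => (∏ v, (B v).indicator (fun _ => (1 : ℝ)) (x' v)) *
          |cn πP' (f a) (x' ∘ e a) - d a|) ≤ L * (δ * μ) := by
      refine (sum_le_sum fun a _ => hdev a).trans (le_of_eq ?_)
      rw [sum_const, card_univ, nsmul_eq_mul, ← hLdef]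
    have g6 : L * (δ * μ) = μ * (κ' ^ (Fintype.card Λ) / 2) := by
      rw [hδdef]; field_simp
    linarith
  have hswap := count_swap e he hlin f (fun a => cn πP' (f a)) hf (fun a y => cn_mem πP' (hf a) y)
    (η q) hcut B
  rw [abs_le, ← hLdef] at hswap
  have hηq : L * η q = κ' ^ (Fintype.card Λ) * (s q) ^ (Fintype.card V) / 4 := by
    simp only [η]; field_simp
  have hmain : (s q) ^ (Fintype.card V) * κ' ^ (Fintype.card Λ) / 4 ≤
      Ex (fun x' : V → X => (∏ v, (B v).indicator (fun _ => (1 : ℝ)) (x' v)) *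
        ∏ a, f a (x' ∘ e a)) := by
    have m1 : (s q) ^ (Fintype.card V) * (κ' ^ (Fintype.card Λ) / 2) ≤
        μ * (κ' ^ (Fintype.card Λ) / 2) :=
      mul_le_mul_of_nonneg_right hμs (by positivity)
    have m2 := hswap.1
    rw [hηq] at m2
    linarith
  have hsQ : s Q ≤ s q := by
    simp only [s]
    have : (q : ℝ) ≤ Q := by exact_mod_cast hqQ
    apply div_le_div_of_nonneg_left hτ.le (by positivity)
    apply mul_le_mul_of_nonneg_left _ (by positivity)
    linarith
  refine le_trans ?_ (hmain.trans ?_)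
  · have := pow_le_pow_left₀ (hs Q).le hsQ (Fintype.card V)
    have h2 : 0 < κ' ^ (Fintype.card Λ) := by positivity
    have h3 := mul_le_mul_of_nonneg_right this h2.le
    linarith
  · unfold dn
    refine Ex_mono fun x' => ?_
    by_cases h : ∀ a, x' ∘ e a ∈ F a
    · rw [Set.indicator_of_mem (show x' ∈ {x : V → X | ∀ a, x ∘ e a ∈ F a} from h)]
      exact mul_le_one₀ (prod_le_one (fun v _ => ind_nonneg _ _) fun v _ => ind_le_one _ _)
        (prod_nonneg fun a _ => (hf a _).1) (prod_le_one (fun a _ => (hf a _).1) fun a _ => (hf a _).2)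
    · rw [Set.indicator_of_notMem (show x' ∉ {x : V → X | ∀ a, x ∘ e a ∈ F a} from h)]
      push Not at h
      obtain ⟨a, ha⟩ := h
      have : ∏ a, f a (x' ∘ e a) = 0 := prod_eq_zero (mem_univ a) (by
        simp only [f]; exact Set.indicator_of_notMem ha _)
      rw [this, mul_zero]

end Pool.Agent.H48.EP
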