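import Pool.Agent.H48.EP.Tri
import Pool.Agent.H48.EP.Rem
import Pool.Agent.H48.EP.Kst

/-!
# [H48 EP ABN] Many configurations of clusters

Proof.  `K = 2 k n + 1`, `N = K z`.  `trivial_copies` and `removal` (`τ = ε / K^(k+1)`: `|T| = z |E| ≥ ε z^(k+1) = τ N^(k+1)`) give `c₁ ≤ dn {x | ∀ a, x ∘ e a ∈ FE}`, `blowup` gives
`c₁^(s^m) ≤ dn {u : Fin m × Fin s → Fin N | all choices are in}`; the `u` with two equal values have density `≤ (m s)² / N ≤ c₁^(s^m) / 2` for `z ≥ z₀`.  `v p = ρ + R * u p ≤ R N`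
(since `ρ < R`, `u p ≤ N - 1`): `|𝓗| ≥ c₁^(s^m) / 2 * N^(m s) = c (R N)^(m s)`, `c = c₁^(s^m) / (2 R^(m s))`.  For a choice `t i` on an edge `a` extend it to all points (`e a`
injective).
-/

set_option autoImplicit false

namespace Pool.Agent.H48.EP

open Finset

/-- almost all maps into a large set are injective -/
theorem inj_count (P : Type) [Fintype P] (N : ℕ) (hN : Fintype.card P ≤ N) (hN0 : 0 < N) :
    (N : ℝ) ^ Fintype.card P * (1 - (Fintype.card P : ℝ) ^ 2 / N) ≤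
      ({u : P → Fin N | Function.Injective u}.ncard : ℝ) := by
  classical
  have h1 : {u : P → Fin N | Function.Injective u}.ncard = N.descFactorial (Fintype.card P) := by
    have h2 := Fintype.card_embedding_eq (α := P) (β := Fin N)
    rw [Fintype.card_fin] at h2
    rw [← h2, ← Nat.card_coe_set_eq, ← Nat.card_eq_fintype_card]
    exact Nat.card_congr (Equiv.subtypeInjectiveEquivEmbedding P (Fin N))
  have hNr : (0 : ℝ) < N := by exact_mod_cast hN0
  have hNp : (Fintype.card P : ℝ) ≤ N := by exact_mod_cast hN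
  have h3 : ((N + 1 - Fintype.card P : ℕ) : ℝ) ^ Fintype.card P ≤
      (N.descFactorial (Fintype.card P) : ℝ) := by
    exact_mod_cast Nat.pow_sub_le_descFactorial N (Fintype.card P)
  rw [h1]
  refine le_trans ?_ h3
  have h4 : ((N + 1 - Fintype.card P : ℕ) : ℝ) = N + 1 - Fintype.card P := by
    rw [Nat.cast_sub (by omega)]
    push_cast
    ring
  rw [h4]
  have h5 : (N : ℝ) - Fintype.card P ≤ N + 1 - Fintype.card P := by linarith
  refine le_trans ?_ (pow_le_pow_left₀ (by linarith) h5 _)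
  have h6 : (N : ℝ) - Fintype.card P = N * (1 + -(Fintype.card P / N : ℝ)) := by
    field_simp
    ring
  rw [h6, mul_pow]
  refine mul_le_mul_of_nonneg_left ?_ (by positivity)
  have h7 : (Fintype.card P : ℝ) / N ≤ 1 := by
    rw [div_le_one hNr]
    exact hNp
  have h8 := one_add_mul_le_pow (a := -(Fintype.card P / N : ℝ)) (by linarith) (Fintype.card P)
  refine le_trans (le_of_eq ?_) h8
  ring

/-- a dense family of maps contains many injective ones -/
theorem inj_dense (P : Type) [Fintype P] [DecidableEq P] (N : ℕ) (hN : Fintype.card P ≤ N) (hN0 : 0 < N) (c : ℝ)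
    (hc : 2 * (Fintype.card P : ℝ) ^ 2 ≤ c * N) (U : Set (P → Fin N)) (hU : c ≤ dn U) :
    c / 2 * (N : ℝ) ^ Fintype.card P ≤ ((U ∩ {u : P → Fin N | Function.Injective u}).ncard : ℝ) := by
  classical
  have hNr : (0 : ℝ) < N := by exact_mod_cast hN0
  have h1 := inj_count P N hN hN0
  have hcardX : (Fintype.card (P → Fin N) : ℝ) = (N : ℝ) ^ Fintype.card P := by
    rw [Fintype.card_fun, Fintype.card_fin]
    push_cast
    rfl
  have h2 : c * (N : ℝ) ^ Fintype.card P ≤ (U.ncard : ℝ) := by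
    rw [← dn_mul_card, hcardX]
    exact mul_le_mul_of_nonneg_right hU (by positivity)
  have h3 := Set.ncard_inter_add_ncard_union U {u : P → Fin N | Function.Injective u}
  have h4 : (U ∪ {u : P → Fin N | Function.Injective u}).ncard ≤ Fintype.card (P → Fin N) := by
    rw [← Nat.card_eq_fintype_card]
    exact Set.ncard_le_card _
  have h3' : ((U ∩ {u : P → Fin N | Function.Injective u}).ncard : ℝ) +
      ((U ∪ {u : P → Fin N | Function.Injective u}).ncard : ℝ) =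
      (U.ncard : ℝ) + ({u : P → Fin N | Function.Injective u}.ncard : ℝ) := by exact_mod_cast h3
  have h4' : ((U ∪ {u : P → Fin N | Function.Injective u}).ncard : ℝ) ≤
      (N : ℝ) ^ Fintype.card P := by
    rw [← hcardX]
    exact_mod_cast h4
  have h5 : (Fintype.card P : ℝ) ^ 2 / N ≤ c / 2 := by
    rw [div_le_div_iff₀ hNr (by norm_num)]
    linarith
  have h6 : (0 : ℝ) ≤ (N : ℝ) ^ Fintype.card P := by positivity
  have h7 : (N : ℝ) ^ Fintype.card P * ((Fintype.card P : ℝ) ^ 2 / N) ≤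
      (N : ℝ) ^ Fintype.card P * (c / 2) := mul_le_mul_of_nonneg_left h5 h6
  rw [mul_sub, mul_one] at h1
  linarith

theorem abund {k : ℕ} {δ : ℝ} (S : Sys k δ) (s : ℕ) (hs : 1 ≤ s) (R ρ : ℕ) (hρ : ρ < R) (ε : ℝ) (hε : 0 < ε) :
    ∃ (c : ℝ) (z₀ : ℕ), 0 < c ∧ ∀ z : ℕ, z₀ ≤ z → ∀ E : Finset (Fin k → ℤ), (∀ b ∈ E, ∀ i, |b i| ≤ z) →
      ε * (z : ℝ) ^ k ≤ E.card → ∃ 𝓗 : Finset (Fin S.m × Fin s → ℕ),
        (∀ v ∈ 𝓗, (∀ p, v p ≤ R * ((2 * k * S.n + 1) * z)) ∧ Function.Injective v ∧ (∀ p, v p % R = ρ) ∧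
          ∀ (a : Fin S.L) (t : Fin (k + 1) → Fin s), ∃ b ∈ E, ∀ i : Fin k,
            (v (S.e a i.succ, t i.succ) : ℤ) - (v (S.e a 0, t 0) : ℤ) = R * (S.μ a * b i)) ∧
        c * ((R * ((2 * k * S.n + 1) * z) : ℕ) : ℝ) ^ (S.m * s) ≤ 𝓗.card := by
  classical
  obtain ⟨K, hK⟩ : ∃ K, K = 2 * k * S.n + 1 := ⟨_, rfl⟩
  have hK0 : 0 < K := by omega
  have hKr : (0 : ℝ) < K := by exact_mod_cast hK0
  have hR : 0 < R := by omega
  have hRr : (0 : ℝ) < R := by exact_mod_cast hR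
  obtain ⟨c₁, hc₁, hrem⟩ := removal S.e S.inj S.lin S.cov (ε / (K : ℝ) ^ (k + 1)) (by positivity)
  obtain ⟨c₂, hc₂⟩ : ∃ c₂, c₂ = c₁ ^ (s ^ S.m) := ⟨_, rfl⟩
  have hc₂0 : 0 < c₂ := by
    rw [hc₂]
    positivity
  obtain ⟨w, hw⟩ : ∃ w, w = S.m * s := ⟨_, rfl⟩
  refine ⟨c₂ / (2 * (R : ℝ) ^ w), ⌈2 * (w : ℝ) ^ 2 / c₂⌉₊ + w + 1, by positivity, ?_⟩
  intro z hz E hE hEc
  rw [← hK, ← hw]
  have hz1 : 1 ≤ z := by omega
  have hzr : (0 : ℝ) < z := by exact_mod_cast hz1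
  obtain ⟨N, hN⟩ : ∃ N, N = K * z := ⟨_, rfl⟩
  have hzN : z ≤ N := by
    rw [hN]
    exact Nat.le_mul_of_pos_left z hK0
  have hN0 : 0 < N := by omega
  have hNe : Nonempty (Fin N) := ⟨⟨0, hN0⟩⟩
  have hTr := trivial_copies S z hz1 E hE
  rw [← hK, ← hN] at hTr
  obtain ⟨T, hT1, hT2, hT3⟩ := hTr
  rw [← hN]
  have h1 := hrem (Fin N) (fun a => FE (S.μ a) E) T hT1 hT2 (by
    rw [Fintype.card_fin, Fintype.card_fin, hT3, hN]
    push_cast
    rw [mul_pow, ← mul_assoc, div_mul_cancel₀ _ (by positivity), pow_succ]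
    calc ε * ((z : ℝ) ^ k * z) = z * (ε * (z : ℝ) ^ k) := by ring
      _ ≤ z * E.card := mul_le_mul_of_nonneg_left hEc hzr.le)
  have h2 := blowup (V := Fin S.m) (X := Fin N) s hs {x | ∀ a, x ∘ S.e a ∈ FE (S.μ a) E}
  rw [Fintype.card_fin] at h2
  have h3 : c₂ ≤ dn {u : Fin S.m × Fin s → Fin N | ∀ t : Fin S.m → Fin s,
      (fun v => u (v, t v)) ∈ {x : Fin S.m → Fin N | ∀ a, x ∘ S.e a ∈ FE (S.μ a) E}} := by
    rw [hc₂]
    exact (pow_le_pow_left₀ hc₁.le h1 _).trans h2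
  obtain ⟨U, hU⟩ : ∃ U : Set (Fin S.m × Fin s → Fin N), U = {u : Fin S.m × Fin s → Fin N |
      ∀ t : Fin S.m → Fin s,
      (fun v => u (v, t v)) ∈ {x : Fin S.m → Fin N | ∀ a, x ∘ S.e a ∈ FE (S.μ a) E}} := ⟨_, rfl⟩
  rw [← hU] at h3
  have hcardP : Fintype.card (Fin S.m × Fin s) = w := by
    rw [Fintype.card_prod, Fintype.card_fin, Fintype.card_fin, hw]
  have h4 := inj_dense (Fin S.m × Fin s) N (by rw [hcardP]; omega) hN0 c₂ (by
    rw [hcardP]
    have h5 : 2 * (w : ℝ) ^ 2 / c₂ ≤ N := by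
      refine (Nat.le_ceil _).trans ?_
      have : ⌈2 * (w : ℝ) ^ 2 / c₂⌉₊ ≤ N := by omega
      exact_mod_cast this
    rw [div_le_iff₀ hc₂0] at h5
    linarith) U h3
  rw [hcardP] at h4
  have hfin : (U ∩ {u : Fin S.m × Fin s → Fin N | Function.Injective u}).Finite := Set.toFinite _
  have hφ : Function.Injective (fun (u : Fin S.m × Fin s → Fin N) (p : Fin S.m × Fin s) =>
      ρ + R * (u p : ℕ)) := by
    intro u u' h
    funext p
    have h5 := congrFun h p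
    simp only [add_right_inj] at h5
    exact Fin.ext (Nat.eq_of_mul_eq_mul_left hR h5)
  refine ⟨hfin.toFinset.image (fun (u : Fin S.m × Fin s → Fin N) (p : Fin S.m × Fin s) =>
      ρ + R * (u p : ℕ)), ?_, ?_⟩
  · intro v hv
    obtain ⟨u, hu, rfl⟩ := mem_image.1 hv
    rw [Set.Finite.mem_toFinset] at hu
    obtain ⟨huU, huI⟩ := hu
    rw [hU] at huU
    refine ⟨fun p => ?_, ?_, fun p => ?_, ?_⟩
    · have h5 : (u p : ℕ) + 1 ≤ N := (u p).2
      calc ρ + R * (u p : ℕ) ≤ R + R * (u p : ℕ) := by omega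
        _ = R * ((u p : ℕ) + 1) := by ring
        _ ≤ R * N := Nat.mul_le_mul_left R h5
    · intro p p' h
      simp only [add_right_inj] at h
      exact huI (Fin.ext (Nat.eq_of_mul_eq_mul_left hR h))
    · show (ρ + R * (u p : ℕ)) % R = ρ
      rw [Nat.add_mul_mod_self_left, Nat.mod_eq_of_lt hρ]
    · intro a t
      have h5 := huU (Function.extend (S.e a) t (fun _ => ⟨0, hs⟩)) a
      obtain ⟨b, hb, hb'⟩ := h5
      refine ⟨b, hb, fun i => ?_⟩
      have h6 := hb' i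
      simp only [Function.comp_apply, (S.inj a).extend_apply] at h6
      push_cast
      rw [← h6]
      ring
  · rw [card_image_of_injective _ hφ, ← Set.ncard_eq_toFinset_card _ hfin]
    refine le_trans (le_of_eq ?_) h4
    push_cast
    rw [mul_pow]
    field_simp

end Pool.Agent.H48.EP
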