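import Mathlib

/-!
# [H48 EP AV] Averages over finite types
-/

set_option autoImplicit false

namespace Pool.Agent.H48.EP

open Finset

/-- average over a finite type -/
noncomputable def Ex {X : Type*} [Fintype X] (f : X → ℝ) : ℝ := (∑ x, f x) / Fintype.card X

/-- density of a set -/
noncomputable def dn {X : Type*} [Fintype X] (A : Set X) : ℝ := Ex (A.indicator (fun _ => (1 : ℝ)))

section basic

variable {X Y : Type*} [Fintype X] [Fintype Y]

theorem Ex_add (f g : X → ℝ) : Ex (fun x => f x + g x) = Ex f + Ex g := by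
  unfold Ex
  rw [sum_add_distrib, add_div]

theorem Ex_sub (f g : X → ℝ) : Ex (fun x => f x - g x) = Ex f - Ex g := by
  unfold Ex
  rw [sum_sub_distrib, sub_div]

theorem Ex_mul_left (c : ℝ) (f : X → ℝ) : Ex (fun x => c * f x) = c * Ex f := by
  unfold Ex
  rw [← mul_sum, mul_div_assoc]

theorem Ex_const [Nonempty X] (c : ℝ) : Ex (fun _ : X => c) = c := by
  unfold Ex
  rw [sum_const, nsmul_eq_mul, card_univ]
  have : (Fintype.card X : ℝ) ≠ 0 := by exact_mod_cast Fintype.card_ne_zero
  field_simp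

theorem Ex_mono {f g : X → ℝ} (h : ∀ x, f x ≤ g x) : Ex f ≤ Ex g := by
  unfold Ex
  exact div_le_div_of_nonneg_right (sum_le_sum fun x _ => h x) (Nat.cast_nonneg _)

theorem Ex_nonneg {f : X → ℝ} (h : ∀ x, 0 ≤ f x) : 0 ≤ Ex f := by
  unfold Ex
  exact div_nonneg (sum_nonneg fun x _ => h x) (Nat.cast_nonneg _)

theorem Ex_le_const [Nonempty X] {f : X → ℝ} {c : ℝ} (h : ∀ x, f x ≤ c) : Ex f ≤ c :=
  (Ex_mono h).trans_eq (Ex_const c)

theorem le_Ex_const [Nonempty X] {f : X → ℝ} {c : ℝ} (h : ∀ x, c ≤ f x) : c ≤ Ex f :=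
  (Ex_const c).symm.trans_le (Ex_mono h)

theorem Ex_congr {f g : X → ℝ} (h : ∀ x, f x = g x) : Ex f = Ex g := by
  rw [funext h]

theorem Ex_sum {J : Type*} (s : Finset J) (f : J → X → ℝ) :
    Ex (fun x => ∑ j ∈ s, f j x) = ∑ j ∈ s, Ex (f j) := by
  unfold Ex
  rw [sum_comm, sum_div]

theorem abs_Ex_le (f : X → ℝ) : |Ex f| ≤ Ex (fun x => |f x|) := by
  unfold Ex
  rw [abs_div, Nat.abs_cast]
  exact div_le_div_of_nonneg_right (abs_sum_le_sum_abs _ _) (Nat.cast_nonneg _)

theorem exists_Ex_le [Nonempty X] (f : X → ℝ) : ∃ x, Ex f ≤ f x := by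
  by_contra hcon
  push Not at hcon
  have h1 : ∑ x, f x < ∑ _x : X, Ex f := sum_lt_sum_of_nonempty univ_nonempty fun x _ => hcon x
  rw [sum_const, nsmul_eq_mul, card_univ] at h1
  have h2 : (0 : ℝ) < Fintype.card X := by exact_mod_cast Fintype.card_pos
  unfold Ex at h1
  rw [mul_div_cancel₀ _ h2.ne'] at h1
  exact lt_irrefl _ h1

theorem Ex_equiv (e : X ≃ Y) (f : Y → ℝ) : Ex (fun x => f (e x)) = Ex f := by
  unfold Ex
  rw [Fintype.card_congr e, Equiv.sum_comp e]

theorem Ex_prod (f : X × Y → ℝ) : Ex f = Ex (fun x => Ex (fun y => f (x, y))) := by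
  unfold Ex
  rw [Fintype.sum_prod_type, Fintype.card_prod, Nat.cast_mul, ← sum_div, div_div, mul_comm]

theorem Ex_comm (f : X → Y → ℝ) : Ex (fun x => Ex (fun y => f x y)) = Ex (fun y => Ex (fun x => f x y)) := by
  rw [← Ex_prod (fun p : X × Y => f p.1 p.2), ← Ex_prod (fun p : Y × X => f p.2 p.1),
    ← Ex_equiv (Equiv.prodComm Y X) (fun p : X × Y => f p.1 p.2)]
  rfl

/-- maps with fibres of equal size -/
theorem Ex_map [Nonempty X] [DecidableEq Y] (π : X → Y) (c : ℕ) (h : ∀ y, (univ.filter (fun x => π x = y)).card = c) (f : Y → ℝ) :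
    Ex (fun x => f (π x)) = Ex f := by
  have hs : ∑ x, f (π x) = c * ∑ y, f y := by
    rw [← sum_fiberwise (s := univ) (g := π) (f := fun x => f (π x)), mul_sum]
    refine sum_congr rfl fun y _ => ?_
    rw [sum_congr rfl (g := fun _ => f y) (fun x hx => by rw [(mem_filter.1 hx).2]), sum_const, h y, nsmul_eq_mul]
  have hc : (Fintype.card X : ℝ) = c * Fintype.card Y := by
    have h1 := card_eq_sum_card_fiberwise (s := (univ : Finset X)) (t := (univ : Finset Y)) (f := π) (fun _ _ => mem_coe.2 (mem_univ _))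
    rw [card_univ] at h1
    rw [h1, sum_congr rfl (fun y _ => h y), sum_const, card_univ, smul_eq_mul]
    push_cast
    ring
  have hc0 : (c : ℝ) ≠ 0 := by
    rintro h0
    rw [h0, zero_mul] at hc
    exact Fintype.card_ne_zero (α := X) (by exact_mod_cast hc)
  unfold Ex
  rw [hs, hc, mul_div_mul_left _ _ hc0]

theorem dn_nonneg (A : Set X) : 0 ≤ dn A := Ex_nonneg fun x => Set.indicator_nonneg (fun _ _ => zero_le_one) x

theorem dn_mono {A B : Set X} (h : A ⊆ B) : dn A ≤ dn B :=
  Ex_mono fun x => Set.indicator_le_indicator_of_subset h (fun _ => zero_le_one) x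

theorem dn_le_one (A : Set X) : dn A ≤ 1 := by
  rcases isEmpty_or_nonempty X with h | h
  · unfold dn Ex
    simp
  · exact Ex_le_const fun x => Set.indicator_le_self' (fun _ _ => zero_le_one) x

theorem dn_univ [Nonempty X] : dn (Set.univ : Set X) = 1 := by
  unfold dn
  rw [Set.indicator_univ]
  exact Ex_const 1

theorem dn_mul_card (A : Set X) : dn A * Fintype.card X = A.ncard := by
  classical
  rcases isEmpty_or_nonempty X with h | h
  · rw [Fintype.card_eq_zero, Set.eq_empty_of_isEmpty A]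
    simp
  · unfold dn Ex
    have h2 : (Fintype.card X : ℝ) ≠ 0 := by exact_mod_cast Fintype.card_ne_zero
    rw [div_mul_cancel₀ _ h2, Set.ncard_eq_toFinset_card', Finset.cast_card,
      ← sum_subset (subset_univ A.toFinset) (f := A.indicator fun _ => (1 : ℝ))]
    · refine sum_congr rfl fun x hx => ?_
      rw [Set.indicator_of_mem (Set.mem_toFinset.1 hx)]
    · intro x _ hx
      rw [Set.indicator_of_notMem (fun h => hx (Set.mem_toFinset.2 h))]

theorem dn_compl [Nonempty X] (A : Set X) : dn Aᶜ = 1 - dn A := by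
  unfold dn
  rw [eq_sub_iff_add_eq, ← Ex_add]
  conv_rhs => rw [← Ex_const (X := X) 1]
  refine Ex_congr fun x => ?_
  by_cases hx : x ∈ A
  · rw [Set.indicator_of_notMem (by simpa using hx), Set.indicator_of_mem hx, zero_add]
  · rw [Set.indicator_of_mem (by simpa using hx), Set.indicator_of_notMem hx, add_zero]

theorem nonempty_of_dn_pos {A : Set X} (h : 0 < dn A) : A.Nonempty := by
  rw [Set.nonempty_iff_ne_empty]
  rintro rfl
  unfold dn at h
  rw [Set.indicator_empty] at h
  unfold Ex at h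
  simp at h

/-- Markov -/
theorem markov {f : X → ℝ} (h1 : ∀ x, f x ≤ 1) {c : ℝ} (hc : 0 ≤ c) : Ex f ≤ dn {x | c ≤ f x} + c := by
  rcases isEmpty_or_nonempty X with h | h
  · unfold dn Ex
    simpa using hc
  · unfold dn
    rw [← Ex_const (X := X) c, ← Ex_add, Ex_const]
    refine Ex_mono fun x => ?_
    by_cases hx : c ≤ f x
    · rw [Set.indicator_of_mem (show x ∈ {x | c ≤ f x} from hx)]
      linarith [h1 x]
    · rw [Set.indicator_of_notMem (show x ∉ {x | c ≤ f x} from hx)]
      linarith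

/-- pigeonhole -/
theorem exists_fibre {J : Type*} [Fintype J] [Nonempty J] (A : Set X) (g : X → J) :
    ∃ j, dn A ≤ Fintype.card J * dn {x | x ∈ A ∧ g x = j} := by
  classical
  by_contra hcon
  push Not at hcon
  have h1 : dn A = ∑ j, dn {x | x ∈ A ∧ g x = j} := by
    unfold dn
    rw [← Ex_sum]
    refine Ex_congr fun x => ?_
    by_cases hx : x ∈ A
    · rw [Set.indicator_of_mem hx, sum_eq_single (g x)]
      · rw [Set.indicator_of_mem (show x ∈ {y | y ∈ A ∧ g y = g x} from ⟨hx, rfl⟩)]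
      · intro j _ hj
        rw [Set.indicator_of_notMem]
        rintro ⟨_, h⟩
        exact hj h.symm
      · intro h
        exact absurd (mem_univ _) h
    · rw [Set.indicator_of_notMem hx, sum_eq_zero]
      intro j _
      rw [Set.indicator_of_notMem]
      rintro ⟨h, _⟩
      exact hx h
  have h2 : (0 : ℝ) < Fintype.card J := by exact_mod_cast Fintype.card_pos
  have h3 : ∑ j, (Fintype.card J : ℝ) * dn {x | x ∈ A ∧ g x = j} < ∑ _j : J, dn A :=
    sum_lt_sum_of_nonempty univ_nonempty fun j _ => hcon j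
  rw [← mul_sum, ← h1, sum_const, nsmul_eq_mul, card_univ] at h3
  exact lt_irrefl _ h3

end basic

section arrows

variable {ι κ β : Type*} [Fintype ι] [DecidableEq ι] [Fintype κ] [DecidableEq κ] [Fintype β]

theorem Ex_sumElim (f : (ι ⊕ κ → β) → ℝ) : Ex f = Ex (fun y : ι → β => Ex (fun z : κ → β => f (Sum.elim y z))) := by
  rw [← Ex_prod (fun p : (ι → β) × (κ → β) => f (Sum.elim p.1 p.2)), ← Ex_equiv (Equiv.sumArrowEquivProdArrow ι κ β)]
  refine Ex_congr fun x => ?_
  congr 1
  funext i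
  rcases i with i | i <;> rfl

theorem Ex_reindex (e : ι ≃ κ) (f : (κ → β) → ℝ) : Ex (fun x : ι → β => f (x ∘ e.symm)) = Ex f := by
  rw [← Ex_equiv (Equiv.arrowCongr e (Equiv.refl β)) f]
  rfl

/-- replacing the coordinates in the range of `σ` by new ones -/
theorem Ex_extend (σ : κ → ι) (hσ : Function.Injective σ) (G : (ι → β) → ℝ) :
    Ex G = Ex (fun x : ι → β => Ex (fun t : κ → β => G (Function.extend σ t x))) := by
  classical
  -- `ι = κ ⊕ complement`
  let τ : κ ⊕ {i // i ∉ Set.range σ} ≃ ι :=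
    (Equiv.sumCongr (Equiv.ofInjective σ hσ) (Equiv.refl _)).trans (Equiv.sumCompl (fun i => i ∈ Set.range σ))
  have hl : ∀ k, τ (Sum.inl k) = σ k := fun k => rfl
  have hr : ∀ k, τ (Sum.inr k) = k.1 := fun k => rfl
  have key : ∀ (y : κ → β) (z : {i // i ∉ Set.range σ} → β) (t : κ → β),
      Function.extend σ t (Sum.elim y z ∘ τ.symm) = Sum.elim t z ∘ τ.symm := by
    intro y z t
    funext i
    obtain ⟨j, rfl⟩ := τ.surjective i
    rcases j with j | j
    · rw [Function.comp_apply, Equiv.symm_apply_apply, Sum.elim_inl, hl, hσ.extend_apply]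
    · rw [Function.comp_apply, Equiv.symm_apply_apply, Sum.elim_inr, hr, Function.extend_apply' _ _ _ (fun ⟨a, ha⟩ => j.2 ⟨a, ha⟩),
        Function.comp_apply, show τ.symm j.1 = Sum.inr j from by rw [← hr, Equiv.symm_apply_apply], Sum.elim_inr]
  rw [← Ex_reindex τ G, Ex_sumElim, ← Ex_reindex τ (fun x : ι → β => Ex (fun t : κ → β => G (Function.extend σ t x))), Ex_sumElim]
  rcases isEmpty_or_nonempty (κ → β) with h | h
  · unfold Ex
    simp
  · rw [Ex_comm, Ex_comm (fun (y : κ → β) (z : {i // i ∉ Set.range σ} → β) =>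
      Ex (fun t : κ → β => G (Function.extend σ t (Sum.elim y z ∘ τ.symm))))]
    refine Ex_congr fun z => ?_
    rw [← Ex_const (X := κ → β) (Ex (fun x : κ → β => G (Sum.elim x z ∘ τ.symm)))]
    refine Ex_congr fun y => Ex_congr fun t => ?_
    rw [key]

end arrows

/-- splitting off `a` coordinates -/
theorem exists_split {ι : Type} [Fintype ι] {a : ℕ} (h : a ≤ Fintype.card ι) :
    Nonempty (Fin a ⊕ Fin (Fintype.card ι - a) ≃ ι) := by
  classical
  refine ⟨Fintype.equivOfCardEq ?_⟩
  rw [Fintype.card_sum, Fintype.card_fin, Fintype.card_fin]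
  omega

end Pool.Agent.H48.EP
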