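import Pool.Agent.H48.EP.Stp

/-!
# [H48 EP DHJ] Density Hales-Jewett for all alphabets

Proof of `dhj_next`: let `δ* = inf {δ > 0 | DHJat (Option α) δ}` (`2` is in the set: `2 ≤ dn A` is impossible); if `δ* > 0` take `γ` from `dhj_step h (δ*/2)`, `δ'` with
`δ*/2 ≤ δ' < δ* < δ' + γ`.  (`DHJat` is monotone in `δ`.)  If `δ* = 0` every `δ > 0` is above an element of the set.
`dhj`: induction, `Fin 1`: the only function is in `A` (index type not empty: diagonal line); `Option (Fin (k+1)) ≃ Fin (k+2)` (transport along an equivalence of alphabets).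
-/

set_option autoImplicit false

namespace Pool.Agent.H48.EP

open Finset Combinatorics

theorem DHJat.mono {α : Type} [Fintype α] {δ δ' : ℝ} (h : DHJat α δ) (hd : δ ≤ δ') : DHJat α δ' := by
  obtain ⟨n₀, hn⟩ := h
  exact ⟨n₀, fun ι _ _ hι A hA => hn ι hι A (hd.trans hA)⟩

theorem DHJat.congr {α β : Type} [Fintype α] [Fintype β] (e : α ≃ β) {δ : ℝ} (h : DHJat α δ) : DHJat β δ := by
  obtain ⟨n₀, hn⟩ := h
  refine ⟨n₀, fun ι _ _ hι A hA => ?_⟩
  have h1 : dn {x : ι → α | e ∘ x ∈ A} = dn A := by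
    unfold dn
    rw [← Ex_equiv (Equiv.arrowCongr (Equiv.refl ι) e) (A.indicator fun _ => (1 : ℝ))]
    refine Ex_congr fun x => ?_
    by_cases hx : e ∘ x ∈ A
    · rw [Set.indicator_of_mem (show x ∈ {x : ι → α | e ∘ x ∈ A} from hx), Set.indicator_of_mem]
      exact hx
    · rw [Set.indicator_of_notMem (show x ∉ {x : ι → α | e ∘ x ∈ A} from hx), Set.indicator_of_notMem]
      exact hx
  obtain ⟨l, hl⟩ := hn ι hι {x : ι → α | e ∘ x ∈ A} (h1 ▸ hA)
  refine ⟨l.map e, fun b => ?_⟩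
  have h2 := hl (e.symm b)
  have h3 : l.map e (e (e.symm b)) = e ∘ l (e.symm b) := Line.map_apply e l (e.symm b)
  rw [Equiv.apply_symm_apply] at h3
  rw [h3]
  exact h2

theorem dhj_next {α : Type} [Fintype α] [Nonempty α] (h : ∀ δ : ℝ, 0 < δ → DHJat α δ) (δ : ℝ) (hδ : 0 < δ) :
    DHJat (Option α) δ := by
  set S : Set ℝ := {s | 0 < s ∧ DHJat (Option α) s} with hS
  have h2 : (2 : ℝ) ∈ S := by
    refine ⟨by norm_num, 0, fun ι _ _ _ A hA => ?_⟩
    have := dn_le_one A
    linarith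
  have hb : BddBelow S := ⟨0, fun s hs => hs.1.le⟩
  have h0 : sInf S ≤ 0 := by
    by_contra hcon
    push Not at hcon
    obtain ⟨γ, hγ, hst⟩ := dhj_step h (sInf S / 2) (by linarith)
    obtain ⟨s, hs, hs2⟩ := exists_lt_of_csInf_lt ⟨2, h2⟩ (show sInf S < sInf S + γ by linarith)
    have h3 : DHJat (Option α) (max (sInf S / 2) (s - γ) + γ) :=
      hs.2.mono (by linarith [le_max_right (sInf S / 2) (s - γ)])
    have h4 := hst _ (le_max_left _ _) h3
    have h5 : max (sInf S / 2) (s - γ) ∈ S := ⟨lt_of_lt_of_le (by linarith) (le_max_left _ _), h4⟩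
    have h6 := csInf_le hb h5
    have h7 : max (sInf S / 2) (s - γ) < sInf S := max_lt (by linarith) (by linarith)
    linarith
  obtain ⟨s, hs, hs2⟩ := exists_lt_of_csInf_lt ⟨2, h2⟩ (show sInf S < δ by linarith)
  exact hs.2.mono hs2.le

theorem dhj (k : ℕ) (δ : ℝ) (hδ : 0 < δ) : DHJat (Fin (k + 1)) δ := by
  induction k generalizing δ with
  | zero =>
    refine ⟨1, fun ι _ _ hι A hA => ?_⟩
    have hne : Nonempty ι := Fintype.card_pos_iff.1 (by omega)
    obtain ⟨x, hx⟩ := nonempty_of_dn_pos (lt_of_lt_of_le hδ hA)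
    refine ⟨Line.diagonal _ ι, fun a => ?_⟩
    have h1 : Line.diagonal (Fin (0 + 1)) ι a = x := funext fun i => by
      have e1 := (Line.diagonal (Fin (0 + 1)) ι a i).isLt
      have e2 := (x i).isLt
      exact Fin.ext (by omega)
    rwa [h1]
  | succ k ih =>
    exact (dhj_next (fun δ hδ => ih δ hδ) δ hδ).congr (finSuccEquiv (k + 1)).symm

end Pool.Agent.H48.EP
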