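import Pool.Agent.H48.EP.Sys
import Pool.Agent.H48.EP.Dhj

/-!
# [H48 EP SYW] The system of words (from density Hales-Jewett)

Proof.  `n ≥ 1` from `dhj k δ`; points: the words `Fin n → Fin (k+1)`; simplices: the combinatorial lines, `e l i = l i`; `c w j` = number of letters `j.succ` in `w`;
`μ l` = number of wildcards.  Linear: if `l i = l' i'` and `l j = l' j'` with `i ≠ j`, the wildcards of `l` are the coordinates where `l i`, `l j` differ, so
`l'` has the same wildcards (`i' ≠ j'`), the same fixed letters: `l = l'`.  Covering: make one coordinate a wildcard.  Finite types: `Fintype.equivFin` for the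
words, `Line` is finite (injective `idxFun`).
-/

set_option autoImplicit false

namespace Pool.Agent.H48.EP

open Finset Combinatorics

private theorem line_wild {β ι : Type} {l : Line β ι} {i j : β} (hij : i ≠ j) (x : ι) :
    l.idxFun x = none ↔ l i x ≠ l j x := by
  rw [Line.coe_apply, Line.coe_apply]
  cases h : l.idxFun x with
  | none => simpa using hij
  | some a => simp

private theorem line_inj {β ι : Type} (l : Line β ι) : Function.Injective fun i => l i := by
  intro i j hij
  by_contra hne
  obtain ⟨x, hx⟩ := l.proper
  exact (line_wild hne x).1 hx (congrFun hij x)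

private theorem line_lin {β ι : Type} {l l' : Line β ι} {i j i' j' : β} (hij : i ≠ j)
    (h1 : l i = l' i') (h2 : l j = l' j') : l = l' := by
  have hij' : i' ≠ j' := by
    rintro rfl
    exact hij (line_inj l (h1.trans h2.symm))
  have hw : ∀ x, l.idxFun x = none ↔ l'.idxFun x = none := fun x => by
    rw [line_wild hij, line_wild hij', h1, h2]
  apply Line.ext
  funext x
  cases h : l.idxFun x with
  | none => exact ((hw x).1 h).symm
  | some a =>
    cases h' : l'.idxFun x with
    | none =>
      rw [(hw x).2 h'] at h
      exact absurd h (by simp)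
    | some b =>
      have := congrFun h1 x
      rw [Line.coe_apply, Line.coe_apply, h, h'] at this
      simpa using this

private theorem count_line {k n : ℕ} (l : Line (Fin (k + 1)) (Fin n)) (i : Fin (k + 1))
    (j : Fin k) : (univ.filter fun x => l i x = j.succ).card =
      (univ.filter fun x => l.idxFun x = some j.succ).card +
        if i = j.succ then (univ.filter fun x => l.idxFun x = none).card else 0 := by
  classical
  by_cases hij : i = j.succ
  · rw [if_pos hij, ← card_union_of_disjoint]
    · congr 1
      ext x
      simp only [mem_filter, mem_univ, true_and, mem_union]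
      rw [Line.coe_apply]
      cases h : l.idxFun x with
      | none => simpa using hij
      | some a => simp
    · rw [disjoint_left]
      intro x hx hx'
      simp only [mem_filter, mem_univ, true_and] at hx hx'
      rw [hx] at hx'
      exact absurd hx' (by simp)
  · rw [if_neg hij, add_zero]
    congr 1
    ext x
    simp only [mem_filter, mem_univ, true_and]
    rw [Line.coe_apply]
    cases h : l.idxFun x with
    | none => simpa using hij
    | some a => simp

theorem sys_words (k : ℕ) (hk : 1 ≤ k) (δ : ℝ) (hδ : 0 < δ) : Nonempty (Sys k δ) := by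
  classical
  obtain ⟨n₀, hn₀⟩ := dhj k δ hδ
  obtain ⟨n, hn, hn1⟩ : ∃ n : ℕ, n₀ ≤ n ∧ 1 ≤ n := ⟨max n₀ 1, le_max_left _ _, le_max_right _ _⟩
  have hfin : Finite (Line (Fin (k + 1)) (Fin n)) :=
    Finite.of_injective (fun l => l.idxFun) fun l l' h => Line.ext h
  let _ : Fintype (Line (Fin (k + 1)) (Fin n)) := Fintype.ofFinite _
  let e₁ := Fintype.equivFin (Fin n → Fin (k + 1))
  let e₂ := Fintype.equivFin (Line (Fin (k + 1)) (Fin n))
  refine ⟨{
    m := Fintype.card (Fin n → Fin (k + 1))
    L := Fintype.card (Line (Fin (k + 1)) (Fin n))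
    n := n
    e := fun a i => e₁ ((e₂.symm a) i)
    c := fun v j => (univ.filter fun x => e₁.symm v x = j.succ).card
    μ := fun a => (univ.filter fun x => (e₂.symm a).idxFun x = none).card
    hm := Fintype.card_pos
    inj := ?_
    lin := ?_
    cov := ?_
    cle := ?_
    μpos := ?_
    μle := ?_
    smp := ?_
    dense := ?_ }⟩
  · intro a i j hij
    exact line_inj _ (e₁.injective hij)
  · intro a b hab i j i' j' h1 h2
    by_contra hij
    exact hab (e₂.symm.injective (line_lin hij (e₁.injective h1) (e₁.injective h2)))
  · intro v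
    let x₀ : Fin n := ⟨0, hn1⟩
    let l : Line (Fin (k + 1)) (Fin n) :=
      ⟨fun x => if x = x₀ then none else some (e₁.symm v x), ⟨x₀, if_pos rfl⟩⟩
    refine ⟨e₂ l, e₁.symm v x₀, ?_⟩
    rw [Equiv.symm_apply_apply, ← Equiv.eq_symm_apply]
    funext x
    rw [Line.coe_apply]
    show Option.getD (if x = x₀ then none else some (e₁.symm v x)) _ = _
    by_cases hx : x = x₀
    · rw [if_pos hx, hx]
      rfl
    · rw [if_neg hx]
      rfl
  · intro v j
    exact (card_le_univ _).trans_eq (Fintype.card_fin n)
  · intro a
    obtain ⟨x, hx⟩ := (e₂.symm a).proper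
    exact card_pos.2 ⟨x, mem_filter.2 ⟨mem_univ _, hx⟩⟩
  · intro a
    exact (card_le_univ _).trans_eq (Fintype.card_fin n)
  · intro a i j
    simp only [Equiv.symm_apply_apply]
    rw [count_line, count_line, if_neg (Fin.succ_ne_zero j).symm, add_zero]
    congr 1
    by_cases hij : i = j
    · rw [if_pos hij, if_pos (by rw [hij])]
    · rw [if_neg hij, if_neg fun h => hij (Fin.succ_injective _ h)]
  · intro S hS
    have hpos : (0 : ℝ) < Fintype.card (Fin n → Fin (k + 1)) := by
      exact_mod_cast Fintype.card_pos
    have hA : δ ≤ dn {w : Fin n → Fin (k + 1) | e₁ w ∈ S} := by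
      have h1 := dn_mul_card {w : Fin n → Fin (k + 1) | e₁ w ∈ S}
      have h2 : {w : Fin n → Fin (k + 1) | e₁ w ∈ S}.ncard = S.card := by
        have h3 : {w : Fin n → Fin (k + 1) | e₁ w ∈ S} = e₁.symm '' (S : Set (Fin _)) := by
          ext w
          simp only [Set.mem_image, mem_coe]
          constructor
          · intro hw
            exact ⟨e₁ w, hw, e₁.symm_apply_apply w⟩
          · rintro ⟨v, hv, rfl⟩
            show e₁ (e₁.symm v) ∈ S
            rwa [Equiv.apply_symm_apply]
        rw [h3, Set.ncard_image_of_injective _ e₁.symm.injective, Set.ncard_coe_finset]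
      rw [h2] at h1
      exact le_of_mul_le_mul_right (hS.trans_eq h1.symm) hpos
    obtain ⟨l, hl⟩ := hn₀ (Fin n) (by rw [Fintype.card_fin]; exact hn) _ hA
    refine ⟨e₂ l, fun i => ?_⟩
    rw [Equiv.symm_apply_apply]
    exact hl i

end Pool.Agent.H48.EP
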