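import Pool.Agent.H48.EP.Fn1
import Pool.Agent.H48.EP.Abn
import Pool.Agent.H48.EP.SyW

/-!
# [H48 EP BAN] Bounded dilations in every cube of `ℤ^k` (upper Banach density)
-/

set_option autoImplicit false

namespace Pool.Agent.H48.EP

open Finset Filter Pool.Agent.H34.RR Pool.Agent.H61.UN Pool.Agent.H21.MT Pool.Agent.H92.MM

/-- one coincidence is rare -/
theorem coin {P : Type} [Fintype P] [DecidableEq P] (N : ℕ) (hN0 : 0 < N) (p q : P) (hpq : p ≠ q) (a b : ℤ) :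
    dn {u : P → Fin N | ((u p : ℕ) : ℤ) + a = ((u q : ℕ) : ℤ) + b} ≤ 1 / N := by
  classical
  have hNe : Nonempty (Fin N) := ⟨⟨0, hN0⟩⟩
  have hNr : (0 : ℝ) < N := by exact_mod_cast hN0
  have hinj : Function.Injective (fun _ : Unit => p) := fun _ _ _ => rfl
  unfold dn
  rw [Ex_extend (fun _ : Unit => p) hinj]
  refine Ex_le_const fun x => ?_
  have h1 : Ex (fun t : Unit → Fin N => ({u : P → Fin N | ((u p : ℕ) : ℤ) + a = ((u q : ℕ) : ℤ) + b}).indicator (fun _ => (1 : ℝ))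
      (Function.extend (fun _ : Unit => p) t x)) =
      dn {t : Unit → Fin N | ((t () : ℕ) : ℤ) + a = ((x q : ℕ) : ℤ) + b} := by
    refine Ex_congr fun t => ?_
    have e1 : Function.extend (fun _ : Unit => p) t x p = t () := hinj.extend_apply t x ()
    have e2 : Function.extend (fun _ : Unit => p) t x q = x q := by
      rw [Function.extend_apply']
      rintro ⟨_, h⟩
      exact hpq h
    by_cases h : ((t () : ℕ) : ℤ) + a = ((x q : ℕ) : ℤ) + b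
    · rw [Set.indicator_of_mem (show t ∈ {t : Unit → Fin N | ((t () : ℕ) : ℤ) + a = ((x q : ℕ) : ℤ) + b} from h),
        Set.indicator_of_mem]
      show (((Function.extend (fun _ : Unit => p) t x p : Fin N) : ℕ) : ℤ) + a = (((Function.extend (fun _ : Unit => p) t x q : Fin N) : ℕ) : ℤ) + b
      rw [e1, e2]
      exact h
    · rw [Set.indicator_of_notMem (show t ∉ {t : Unit → Fin N | ((t () : ℕ) : ℤ) + a = ((x q : ℕ) : ℤ) + b} from h),
        Set.indicator_of_notMem]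
      intro h2
      apply h
      have h3 : (((Function.extend (fun _ : Unit => p) t x p : Fin N) : ℕ) : ℤ) + a = (((Function.extend (fun _ : Unit => p) t x q : Fin N) : ℕ) : ℤ) + b := h2
      rw [e1, e2] at h3
      exact h3
  rw [h1]
  have h2 := dn_mul_card {t : Unit → Fin N | ((t () : ℕ) : ℤ) + a = ((x q : ℕ) : ℤ) + b}
  have h3 : {t : Unit → Fin N | ((t () : ℕ) : ℤ) + a = ((x q : ℕ) : ℤ) + b}.ncard ≤ 1 := by
    rw [Set.ncard_le_one_iff]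
    intro t t' ht ht'
    have h4 : ((t () : ℕ) : ℤ) + a = ((x q : ℕ) : ℤ) + b := ht
    have h5 : ((t' () : ℕ) : ℤ) + a = ((x q : ℕ) : ℤ) + b := ht'
    have h6 : ((t () : ℕ) : ℤ) = (t' () : ℕ) := by linarith
    funext i
    have h7 : (t () : ℕ) = (t' () : ℕ) := by exact_mod_cast h6
    exact Fin.ext h7
  have h4 : (({t : Unit → Fin N | ((t () : ℕ) : ℤ) + a = ((x q : ℕ) : ℤ) + b}.ncard : ℕ) : ℝ) ≤ 1 := by exact_mod_cast h3
  rw [← h2, Fintype.card_fun, Fintype.card_unit, pow_one, Fintype.card_fin] at h4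
  rw [le_div_iff₀ hNr]
  exact h4

/-- a dense family contains a map without coincidences -/
theorem exists_avoid {P : Type} [Fintype P] [DecidableEq P] (N : ℕ) (hN0 : 0 < N) (c : ℝ)
    (hc : (Fintype.card P : ℝ) ^ 2 < c * N) (U : Set (P → Fin N)) (hU : c ≤ dn U) (τ : P → ℤ) :
    ∃ u ∈ U, Function.Injective (fun p => ((u p : ℕ) : ℤ) + τ p) := by
  classical
  have hNr : (0 : ℝ) < N := by exact_mod_cast hN0
  by_contra hcon
  push Not at hcon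
  have h1 : dn U ≤ ∑ pq ∈ (univ : Finset (P × P)).filter (fun pq => pq.1 ≠ pq.2),
      dn {u : P → Fin N | ((u pq.1 : ℕ) : ℤ) + τ pq.1 = ((u pq.2 : ℕ) : ℤ) + τ pq.2} := by
    unfold dn
    rw [← Ex_sum]
    refine Ex_mono fun u => ?_
    have h0 : ∀ pq ∈ (univ : Finset (P × P)).filter (fun pq => pq.1 ≠ pq.2), (0 : ℝ) ≤
        ({u : P → Fin N | ((u pq.1 : ℕ) : ℤ) + τ pq.1 = ((u pq.2 : ℕ) : ℤ) + τ pq.2}).indicator (fun _ => (1 : ℝ)) u :=
      fun pq _ => Set.indicator_nonneg (fun _ _ => zero_le_one) u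
    by_cases hu : u ∈ U
    · rw [Set.indicator_of_mem hu]
      have h2 := hcon u hu
      rw [Function.Injective] at h2
      push Not at h2
      obtain ⟨p, q, hpq, hne⟩ := h2
      refine le_trans ?_ (single_le_sum h0 (mem_filter.2 ⟨mem_univ (p, q), hne⟩))
      rw [Set.indicator_of_mem (show u ∈ {u : P → Fin N | ((u p : ℕ) : ℤ) + τ p = ((u q : ℕ) : ℤ) + τ q} from hpq)]
    · rw [Set.indicator_of_notMem hu]
      exact sum_nonneg h0
  have h2 : ∑ pq ∈ (univ : Finset (P × P)).filter (fun pq => pq.1 ≠ pq.2),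
      dn {u : P → Fin N | ((u pq.1 : ℕ) : ℤ) + τ pq.1 = ((u pq.2 : ℕ) : ℤ) + τ pq.2} ≤
      ((univ : Finset (P × P)).filter (fun pq => pq.1 ≠ pq.2)).card • (1 / (N : ℝ)) :=
    sum_le_card_nsmul _ _ _ fun pq hpq => coin N hN0 pq.1 pq.2 (mem_filter.1 hpq).2 _ _
  have h3 : (((univ : Finset (P × P)).filter (fun pq => pq.1 ≠ pq.2)).card : ℝ) ≤ (Fintype.card P : ℝ) ^ 2 := by
    have h4 : ((univ : Finset (P × P)).filter (fun pq => pq.1 ≠ pq.2)).card ≤ Fintype.card P * Fintype.card P := by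
      refine (card_filter_le _ _).trans (le_of_eq ?_)
      rw [card_univ, Fintype.card_prod]
    have h5 : (((univ : Finset (P × P)).filter (fun pq => pq.1 ≠ pq.2)).card : ℝ) ≤ ((Fintype.card P * Fintype.card P : ℕ) : ℝ) := by
      exact_mod_cast h4
    refine h5.trans (le_of_eq ?_)
    push_cast
    ring
  rw [nsmul_eq_mul] at h2
  have h4 : c ≤ (Fintype.card P : ℝ) ^ 2 * (1 / (N : ℝ)) := by
    refine (hU.trans (h1.trans h2)).trans ?_
    exact mul_le_mul_of_nonneg_right h3 (by positivity)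
  rw [mul_one_div, le_div_iff₀ hNr] at h4
  linarith

/-- one configuration of clusters, with arbitrary shifts of the clusters -/
theorem one_conf {k : ℕ} {δ : ℝ} (S : Sys k δ) (s : ℕ) (hs : 1 ≤ s) (ε : ℝ) (hε : 0 < ε) :
    ∃ z₀ : ℕ, ∀ z : ℕ, z₀ ≤ z → ∀ E : Finset (Fin k → ℤ), (∀ b ∈ E, ∀ i, |b i| ≤ z) →
      ε * (z : ℝ) ^ k ≤ E.card → ∀ τ : Fin S.m → ℤ, ∃ u : Fin S.m × Fin s → ℤ,
        (∀ p, 0 ≤ u p ∧ u p ≤ ((2 * k * S.n + 1) * z : ℕ)) ∧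
        Function.Injective (fun p => u p + τ p.1) ∧ ∀ (a : Fin S.L) (t : Fin (k + 1) → Fin s), ∃ b ∈ E, ∀ i : Fin k,
            u (S.e a i.succ, t i.succ) - u (S.e a 0, t 0) = S.μ a * b i := by
  classical
  obtain ⟨K, hK⟩ : ∃ K, K = 2 * k * S.n + 1 := ⟨_, rfl⟩
  have hK0 : 0 < K := by omega
  have hKr : (0 : ℝ) < K := by exact_mod_cast hK0
  obtain ⟨c₁, hc₁, hrem⟩ := removal S.e S.inj S.lin S.cov (ε / (K : ℝ) ^ (k + 1)) (by positivity)
  obtain ⟨c₂, hc₂⟩ : ∃ c₂, c₂ = c₁ ^ (s ^ S.m) := ⟨_, rfl⟩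
  have hc₂0 : 0 < c₂ := by
    rw [hc₂]
    positivity
  obtain ⟨w, hw⟩ : ∃ w, w = S.m * s := ⟨_, rfl⟩
  refine ⟨⌈(w : ℝ) ^ 2 / c₂⌉₊ + 1, ?_⟩
  intro z hz E hE hEc τ
  have hz1 : 1 ≤ z := by omega
  have hzr : (0 : ℝ) < z := by exact_mod_cast hz1
  obtain ⟨N, hN⟩ : ∃ N, N = K * z := ⟨_, rfl⟩
  have hzN : z ≤ N := by
    rw [hN]
    exact Nat.le_mul_of_pos_left z hK0
  have hN0 : 0 < N := by omega
  have hNe : Nonempty (Fin N) := ⟨⟨0, hN0⟩⟩
  have hTr := trivial_copies S z hz1 E hE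
  rw [← hK, ← hN] at hTr
  obtain ⟨T, hT1, hT2, hT3⟩ := hTr
  have h1 := hrem (Fin N) (fun a => FE (S.μ a) E) T hT1 hT2 (by
    rw [Fintype.card_fin, Fintype.card_fin, hT3, hN]
    push_cast
    rw [mul_pow, ← mul_assoc, div_mul_cancel₀ _ (by positivity), pow_succ]
    calc ε * ((z : ℝ) ^ k * z) = z * (ε * (z : ℝ) ^ k) := by ring
      _ ≤ z * E.card := mul_le_mul_of_nonneg_left hEc hzr.le)
  have h2 := blowup (V := Fin S.m) (X := Fin N) s hs {x | ∀ a, x ∘ S.e a ∈ FE (S.μ a) E}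
  rw [Fintype.card_fin] at h2
  have h3 : c₂ ≤ dn {u : Fin S.m × Fin s → Fin N | ∀ t : Fin S.m → Fin s,
      (fun v => u (v, t v)) ∈ {x : Fin S.m → Fin N | ∀ a, x ∘ S.e a ∈ FE (S.μ a) E}} := by
    rw [hc₂]
    exact (pow_le_pow_left₀ hc₁.le h1 _).trans h2
  have hcardP : Fintype.card (Fin S.m × Fin s) = w := by
    rw [Fintype.card_prod, Fintype.card_fin, Fintype.card_fin, hw]
  obtain ⟨u, hu, huinj⟩ := exists_avoid (P := Fin S.m × Fin s) N hN0 c₂ (by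
    rw [hcardP]
    have h5 : (w : ℝ) ^ 2 / c₂ < N := by
      refine lt_of_le_of_lt (Nat.le_ceil _) ?_
      have : ⌈(w : ℝ) ^ 2 / c₂⌉₊ < N := by omega
      exact_mod_cast this
    rw [div_lt_iff₀ hc₂0] at h5
    linarith) _ h3 (fun p => τ p.1)
  refine ⟨fun p => ((u p : ℕ) : ℤ), fun p => ⟨Nat.cast_nonneg _, ?_⟩, huinj, fun a t => ?_⟩
  · have h6 := (u p).2
    have h7 : (u p : ℕ) ≤ (2 * k * S.n + 1) * z := by
      rw [← hK, ← hN]
      exact h6.le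
    show (((u p : Fin N) : ℕ) : ℤ) ≤ (((2 * k * S.n + 1) * z : ℕ) : ℤ)
    exact_mod_cast h7
  -- extend the choice
  have hsel : ∃ t' : Fin S.m → Fin s, ∀ i, t' (S.e a i) = t i := by
    refine ⟨Function.extend (S.e a) t (fun _ => ⟨0, hs⟩), fun i => ?_⟩
    exact (S.inj a).extend_apply t _ i
  obtain ⟨t', ht'⟩ := hsel
  obtain ⟨b, hb, hbd⟩ := hu t' a
  refine ⟨b, hb, fun i => ?_⟩
  have h5 := hbd i
  simp only [Function.comp_apply, ht'] at h5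
  exact h5

/-- many blocks with exactly one prime for ONE configuration -/
theorem one_prime (m : ℕ) (hm : 1 ≤ m) : ∃ s wd : ℕ, 1 ≤ s ∧ ∀ R : ℕ, 0 < R → primorial wd ∣ R →
    ∀ v : Fin m × Fin s → ℕ, Function.Injective v → (∀ i, Nat.Coprime (v i) R) → ∀ N₀ : ℕ, ∃ N : ℕ, N₀ ≤ N ∧ R ∣ N ∧
      1 < wc (fun _ => 100 / (m : ℝ)) v N := by
  classical
  have hm0 : (0 : ℝ) < m := by exact_mod_cast hm
  obtain ⟨s, a, wd, hs, -, -, h⟩ := box_class1 m hm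
  refine ⟨s, wd, hs, fun R hR hRw v hv hvR N₀ => ?_⟩
  obtain ⟨c, hc, hx⟩ := h (fun _ => 100 / (m : ℝ)) (fun _ => by positivity) (by
    rw [sum_const, card_univ, Fintype.card_fin, nsmul_eq_mul, mul_div_cancel₀ _ hm0.ne']) R hR hRw
  obtain ⟨L, hL⟩ : ∃ L : ℕ, L = ∑ p, v p + 1 := ⟨_, rfl⟩
  have hvL : ∀ p, v p ≤ L := by
    intro p
    have := single_le_sum (f := v) (fun _ _ => Nat.zero_le _) (mem_univ p)
    omega
  have hev := (hx.and ((Real.tendsto_log_atTop.eventually_ge_atTop (L : ℝ)).and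
    ((Real.tendsto_log_atTop.eventually_gt_atTop 0).and (eventually_ge_atTop (((N₀ : ℝ) + 1) ^ 2)))))
  obtain ⟨x, hx1, hx2, hx3, hx4⟩ := hev.exists
  have hx0 : 0 < x := lt_of_lt_of_le (by positivity) hx4
  have h2 := hx1 L (by omega) hx2 v (mem_IJ.2 ⟨hvL, hv⟩) hvR
  have h3 : 0 < c * x / Real.log x ^ (m * s) := by positivity
  by_contra hcon
  push Not at hcon
  have h4 : (Tx x).filter (fun N => R ∣ N ∧ (∀ i, Rgh (x ^ a) (N + v i)) ∧ 1 < wc (fun _ => 100 / (m : ℝ)) v N) = ∅ := by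
    rw [filter_eq_empty_iff]
    intro N hN h5
    unfold Tx at hN
    have h6 := (mem_Ioc.1 hN).1
    have h7 : (N₀ : ℝ) + 1 ≤ Real.sqrt x := by
      rw [← Real.sqrt_sq (show (0 : ℝ) ≤ (N₀ : ℝ) + 1 by positivity)]
      exact Real.sqrt_le_sqrt hx4
    have h8 : N₀ + 1 ≤ ⌊Real.sqrt x⌋₊ := by
      refine Nat.le_floor ?_
      push_cast
      exact h7
    have h9 := hcon N (by omega) h5.1
    linarith [h5.2.2]
  rw [h4, sum_empty] at h2
  linarith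

/-- `a` has a multiple `m a`, `m ≤ m₀`, with infinitely many prime patterns of one colour -/
def Gdd {k r : ℕ} (W s₀ : ℕ) (χ : ℕ → Fin r) (m₀ : ℕ) (a : Fin k → ℤ) : Prop :=
  ∃ m : ℕ, 1 ≤ m ∧ m ≤ m₀ ∧ ∃ q : Fin r,
    {p : ℕ | Pr W s₀ χ q p ∧ ∀ j, ∃ p' : ℕ, (p' : ℤ) = p + m * a j ∧ Pr W s₀ χ q p'}.Infinite

open Classical in
/-- **bounded dilations, upper Banach density** -/
theorem banach (k r : ℕ) (hk : 1 ≤ k) (W s₀ : ℕ) (hW : 0 < W) (hs₀ : Nat.Coprime s₀ W) : ∃ m₀ : ℕ, ∀ ε : ℝ, 0 < ε → ∃ B : ℕ,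
    ∀ (χ : ℕ → Fin r) (z : ℕ), B ≤ z → ∀ b : Fin k → ℤ,
      (((Fintype.piFinset (fun j : Fin k => Ioc (b j) (b j + z))).filter (fun a => ¬ Gdd W s₀ χ m₀ a)).card : ℝ) ≤ ε * (z : ℝ) ^ k := by
  rcases Nat.eq_zero_or_pos r with hr | hr
  · subst hr
    exact ⟨0, fun ε _ => ⟨0, fun χ => (χ 0).elim0⟩⟩
  have hr0 : (0 : ℝ) < r := by exact_mod_cast hr
  obtain ⟨S⟩ := sys_words k hk (1 / (100 * (r : ℝ))) (by positivity)
  obtain ⟨s, wd, hs, hsv⟩ := one_prime S.m S.hm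
  obtain ⟨R, hRd⟩ : ∃ R : ℕ, R = W * primorial wd := ⟨_, rfl⟩
  have hR : 0 < R := by rw [hRd]; exact Nat.mul_pos hW (primorial_pos wd)
  have hRw : primorial wd ∣ R := by rw [hRd]; exact Dvd.intro_left _ rfl
  have hWR : W ∣ R := by rw [hRd]; exact Dvd.intro _ rfl
  have : NeZero W := ⟨hW.ne'⟩
  obtain ⟨ρ, hρ1, hρ2, hρ3⟩ := Nat.forall_exists_prime_gt_and_modEq R hW.ne' hs₀
  have hρR := Nat.coprime_of_lt_prime hR.ne' hρ1 hρ2
  refine ⟨R * S.n, fun ε hε => ?_⟩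
  obtain ⟨z₀, hz₀⟩ := one_conf S s hs ε hε
  refine ⟨z₀, fun χ z hz b => ?_⟩
  by_contra hcon
  rw [not_le] at hcon
  obtain ⟨E, hE⟩ : ∃ E : Finset (Fin k → ℤ), E = (Fintype.piFinset (fun j : Fin k => Ioc (b j) (b j + z))).filter
      (fun a => ¬ Gdd W s₀ χ (R * S.n) a) := ⟨_, rfl⟩
  rw [← hE] at hcon
  -- the translate
  obtain ⟨E', hE'⟩ : ∃ E' : Finset (Fin k → ℤ), E' = E.image (fun a => a - b) := ⟨_, rfl⟩
  have hEc : E'.card = E.card := by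
    rw [hE']
    exact card_image_of_injective _ (fun x y h => sub_left_injective h)
  have hEz : ∀ a ∈ E', ∀ i, |a i| ≤ z := by
    intro a ha i
    rw [hE', mem_image] at ha
    obtain ⟨a', ha', rfl⟩ := ha
    rw [hE, mem_filter, Fintype.mem_piFinset] at ha'
    have h1 := mem_Ioc.1 (ha'.1 i)
    rw [Pi.sub_apply, abs_le]
    constructor
    · have : (0 : ℤ) ≤ z := Nat.cast_nonneg _
      linarith [h1.1]
    · linarith [h1.2]
  obtain ⟨u, -, hu1, hu2⟩ := hz₀ z hz E' hEz (by rw [hEc]; exact hcon.le) (fun v => ∑ i, (S.c v i : ℤ) * b i)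
  obtain ⟨w, hw⟩ : ∃ w : Fin S.m × Fin s → ℤ, w = fun p => u p + ∑ i, (S.c p.1 i : ℤ) * b i := ⟨_, rfl⟩
  have hw1 : Function.Injective w := by rw [hw]; exact hu1
  obtain ⟨Mb, hMb⟩ : ∃ Mb : ℤ, Mb = ∑ p, |w p| := ⟨_, rfl⟩
  have hwM : ∀ p, 0 ≤ w p + Mb := by
    intro p
    have h1 := single_le_sum (f := fun p => |w p|) (fun _ _ => abs_nonneg _) (mem_univ p)
    have h2 := neg_abs_le (w p)
    rw [hMb]
    linarith
  obtain ⟨v, hv⟩ : ∃ v : Fin S.m × Fin s → ℕ, v = fun p => ρ + R * (w p + Mb).toNat := ⟨_, rfl⟩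
  have hvz : ∀ p, (v p : ℤ) = ρ + R * (w p + Mb) := by
    intro p
    rw [hv]
    push_cast
    rw [Int.toNat_of_nonneg (hwM p)]
  have hRz : (0 : ℤ) < R := by exact_mod_cast hR
  have hv1 : Function.Injective v := by
    intro p p' hpp
    apply hw1
    have h1 : (v p : ℤ) = v p' := by rw [hpp]
    rw [hvz, hvz] at h1
    have h2 : (R : ℤ) * (w p + Mb) = R * (w p' + Mb) := by linarith
    have h3 := mul_left_cancel₀ hRz.ne' h2
    linarith
  have hv2 : ∀ p, v p ≡ ρ [MOD R] := by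
    intro p
    rw [hv]
    show (ρ + R * (w p + Mb).toNat) % R = ρ % R
    rw [Nat.add_mul_mod_self_left]
  have hv3 : ∀ p, Nat.Coprime (v p) R := by
    intro p
    have h4 : Nat.gcd ρ R = 1 := hρR
    show Nat.gcd (v p) R = 1
    rw [← h4]
    exact Nat.ModEq.gcd_eq (hv2 p)
  have hv4 : ∀ (a : Fin S.L) (t : Fin (k + 1) → Fin s), ∃ a₁ ∈ E, ∀ i : Fin k,
      (v (S.e a i.succ, t i.succ) : ℤ) - (v (S.e a 0, t 0) : ℤ) = ((R * S.μ a : ℕ) : ℤ) * a₁ i := by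
    intro a t
    obtain ⟨b', hb', hbd⟩ := hu2 a t
    rw [hE', mem_image] at hb'
    obtain ⟨a₁, ha₁, rfl⟩ := hb'
    refine ⟨a₁, ha₁, fun i => ?_⟩
    rw [hvz, hvz, hw]
    have h1 := hbd i
    have h2 : ∑ j, (S.c (S.e a i.succ) j : ℤ) * b j = ∑ j, (S.c (S.e a 0) j : ℤ) * b j + S.μ a * b i := by
      rw [← sub_eq_iff_eq_add', ← sum_sub_distrib, sum_eq_single i]
      · rw [S.smp, if_pos rfl]
        push_cast
        ring
      · intro j _ hj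
        rw [S.smp, if_neg (Ne.symm hj), Nat.add_zero, sub_self]
      · intro hh
        exact absurd (mem_univ _) hh
    dsimp only
    rw [h2]
    rw [Pi.sub_apply] at h1
    push_cast
    linear_combination (R : ℤ) * h1
  -- primes
  have hp : ∀ N₀ : ℕ, ∃ N : ℕ, N₀ ≤ N ∧ ∃ x : Fin r × Fin S.L × (Fin (k + 1) → Fin s), ∀ j, Pr W s₀ χ x.1 (N + v (S.e x.2.1 j, x.2.2 j)) := by
    intro N₀
    obtain ⟨N, hN, hRN, hwc⟩ := hsv R hR hRw v hv1 hv3 N₀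
    obtain ⟨q, a, t, hat⟩ := pick hr S χ N v hwc
    refine ⟨N, hN, (q, a, t), fun j => ⟨(hat j).1, (hat j).2, ?_⟩⟩
    have h4 : N ≡ 0 [MOD W] := Nat.modEq_zero_iff_dvd.2 (hWR.trans hRN)
    have h6 := h4.add ((hv2 (S.e a j, t j)).of_dvd hWR)
    rw [Nat.zero_add] at h6
    exact h6.trans hρ3
  obtain ⟨x, hx⟩ : ∃ x : Fin r × Fin S.L × (Fin (k + 1) → Fin s), ∀ N₀ : ℕ, ∃ N : ℕ, N₀ ≤ N ∧
      ∀ j, Pr W s₀ χ x.1 (N + v (S.e x.2.1 j, x.2.2 j)) := by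
    by_contra hcon2
    push Not at hcon2
    choose f hf using hcon2
    obtain ⟨N, hN, x, hx⟩ := hp (∑ x, f x)
    have h1 := single_le_sum (f := f) (fun _ _ => Nat.zero_le _) (mem_univ x)
    obtain ⟨j, hj⟩ := hf x N (h1.trans hN)
    exact hj (hx j)
  obtain ⟨q, a, t⟩ := x
  obtain ⟨a₁, ha₁, hd⟩ := hv4 a t
  have hbad := (mem_filter.1 (hE ▸ ha₁)).2
  apply hbad
  refine ⟨R * S.μ a, Nat.mul_pos hR (S.μpos a), Nat.mul_le_mul_left R (S.μle a), q, ?_⟩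
  rw [← Set.not_finite] 
  intro hfin
  obtain ⟨Bd, hBd⟩ := hfin.bddAbove
  obtain ⟨N, hN, hx2⟩ := hx (Bd + 1)
  have h1 : N + v (S.e a 0, t 0) ≤ Bd := hBd (by
    refine ⟨hx2 0, fun j => ⟨N + v (S.e a j.succ, t j.succ), ?_, hx2 j.succ⟩⟩
    have h3 := hd j
    push_cast
    push_cast at h3
    linarith)
  omega

end Pool.Agent.H48.EP
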