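import Pool.Agent.H48.EP.Av

/-!
# [H48 EP CND] Averages over the fibres of a map

`cn π f z` is the average of `f` over the fibre of `π` through `z`.
-/

set_option autoImplicit false

namespace Pool.Agent.H48.EP

open Finset

open Classical in
/-- average over the fibre -/
noncomputable def cn {Z Q : Type*} [Fintype Z] (π : Z → Q) (f : Z → ℝ) (z : Z) : ℝ :=
  (∑ z' ∈ univ.filter (fun z' => π z' = π z), f z') / ((univ.filter (fun z' => π z' = π z)).card : ℝ)

variable {Z Q Q' : Type*} [Fintype Z]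

theorem cn_eq_of_eq (π : Z → Q) (f : Z → ℝ) {z z' : Z} (h : π z = π z') : cn π f z = cn π f z' := by
  unfold cn
  rw [h]

open Classical in
private theorem fib_pos (π : Z → Q) (z : Z) : (0 : ℝ) < ((univ.filter (fun z' => π z' = π z)).card : ℝ) := by
  have : z ∈ univ.filter (fun z' => π z' = π z) := mem_filter.2 ⟨mem_univ _, rfl⟩
  exact_mod_cast card_pos.2 ⟨z, this⟩

theorem cn_mem (π : Z → Q) {f : Z → ℝ} (h : ∀ z, 0 ≤ f z ∧ f z ≤ 1) (z : Z) : 0 ≤ cn π f z ∧ cn π f z ≤ 1 := by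
  classical
  unfold cn
  refine ⟨div_nonneg (sum_nonneg fun z' _ => (h z').1) (Nat.cast_nonneg _), ?_⟩
  have h1 := fib_pos π z
  have h0 : ∀ S : Finset Z, S = univ.filter (fun z' => π z' = π z) → (0 : ℝ) < (S.card : ℝ) := by
    intro S hS
    rw [hS]
    exact h1
  rw [div_le_one (h0 _ (Finset.ext fun z' => by simp only [mem_filter]))]
  calc ∑ z' ∈ univ.filter (fun z' => π z' = π z), f z' ≤ ∑ z' ∈ univ.filter (fun z' => π z' = π z), (1 : ℝ) :=
        sum_le_sum fun z' _ => (h z').2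
    _ = _ := by rw [sum_const, nsmul_eq_mul, mul_one]

/-- `g` is constant on the fibres -/
theorem Ex_cn_mul (π : Z → Q) (f g : Z → ℝ) (hg : ∀ z z', π z = π z' → g z = g z') :
    Ex (fun z => cn π f z * g z) = Ex (fun z => f z * g z) := by
  classical
  unfold Ex
  congr 1
  have h1 : ∀ z, cn π f z * g z = ∑ z', if π z' = π z then f z' * g z' / ((univ.filter (fun y => π y = π z')).card : ℝ) else 0 := by
    intro z
    unfold cn
    rw [div_mul_eq_mul_div, sum_mul, sum_div, sum_filter]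
    refine sum_congr rfl fun z' _ => ?_
    by_cases h : π z' = π z
    · rw [if_pos h, if_pos h, hg z' z h, h]
    · rw [if_neg h, if_neg h]
  rw [sum_congr rfl (fun z _ => h1 z), sum_comm]
  refine sum_congr rfl fun z' _ => ?_
  rw [← sum_filter, sum_const, nsmul_eq_mul]
  have h2 : univ.filter (fun x => π z' = π x) = univ.filter (fun y => π y = π z') := by
    ext x
    simp only [mem_filter, mem_univ, true_and]
    exact eq_comm
  rw [h2]
  have h3 := fib_pos π z'
  have h4 : ((univ.filter (fun y => π y = π z')).card : ℝ) ≠ 0 := by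
    have h0 : ∀ S : Finset Z, S = univ.filter (fun y => π y = π z') → (S.card : ℝ) ≠ 0 := by
      intro S hS
      rw [hS]
      exact h3.ne'
    exact h0 _ (Finset.ext fun z' => by simp only [mem_filter])
  field_simp

/-- Pythagoras for a refinement `π = ρ ∘ π'` -/
theorem pyth (π' : Z → Q') (ρ : Q' → Q) (f : Z → ℝ) :
    Ex (fun z => (cn π' f z - cn (ρ ∘ π') f z) ^ 2) = Ex (fun z => cn π' f z ^ 2) - Ex (fun z => cn (ρ ∘ π') f z ^ 2) := by
  have hb : ∀ z z', π' z = π' z' → cn (ρ ∘ π') f z = cn (ρ ∘ π') f z' := fun z z' h =>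
    cn_eq_of_eq _ _ (by rw [Function.comp_apply, Function.comp_apply, h])
  have h1 := Ex_cn_mul π' f (cn (ρ ∘ π') f) hb
  have h2 := Ex_cn_mul (ρ ∘ π') f (cn (ρ ∘ π') f) (fun z z' h => cn_eq_of_eq _ _ h)
  have h3 : Ex (fun z => (cn π' f z - cn (ρ ∘ π') f z) ^ 2) =
      Ex (fun z => (cn π' f z ^ 2 - 2 * (cn π' f z * cn (ρ ∘ π') f z)) + cn (ρ ∘ π') f z ^ 2) :=
    Ex_congr fun z => by ring
  rw [h3, Ex_add, Ex_sub, Ex_mul_left, h1, ← h2]
  have h4 : Ex (fun z => cn (ρ ∘ π') f z * cn (ρ ∘ π') f z) = Ex (fun z => cn (ρ ∘ π') f z ^ 2) :=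
    Ex_congr fun z => by ring
  rw [h4]
  ring

private theorem cs (h : Z → ℝ) : (Ex (fun z => |h z|)) ^ 2 ≤ Ex (fun z => h z ^ 2) := by
  unfold Ex
  rcases isEmpty_or_nonempty Z with hZ | hZ
  · simp
  · have hc : (0 : ℝ) < Fintype.card Z := by exact_mod_cast Fintype.card_pos
    have h1 := sq_sum_le_card_mul_sum_sq (s := (univ : Finset Z)) (f := fun z => |h z|)
    rw [card_univ] at h1
    have h2 : ∑ z, |h z| ^ 2 = ∑ z, h z ^ 2 := sum_congr rfl fun z _ => sq_abs _
    rw [h2] at h1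
    rw [div_pow, div_le_div_iff₀ (by positivity) hc]
    calc (∑ z, |h z|) ^ 2 * (Fintype.card Z : ℝ) ≤ ((Fintype.card Z : ℝ) * ∑ z, h z ^ 2) * (Fintype.card Z : ℝ) :=
          mul_le_mul_of_nonneg_right h1 hc.le
      _ = (∑ z, h z ^ 2) * (Fintype.card Z : ℝ) ^ 2 := by ring

/-- energy increment: `g` is constant on the fibres of the finer map and correlates with `f - cn π f` -/
theorem energy (π' : Z → Q') (ρ : Q' → Q) {f g : Z → ℝ} (hg : ∀ z z', π' z = π' z' → g z = g z') (hg1 : ∀ z, |g z| ≤ 1)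
    {η : ℝ} (hη : 0 ≤ η) (h : η ≤ |Ex (fun z => (f z - cn (ρ ∘ π') f z) * g z)|) :
    Ex (fun z => cn (ρ ∘ π') f z ^ 2) + η ^ 2 ≤ Ex (fun z => cn π' f z ^ 2) := by
  have h1 := Ex_cn_mul π' f g hg
  have h2 : Ex (fun z => (f z - cn (ρ ∘ π') f z) * g z) = Ex (fun z => (cn π' f z - cn (ρ ∘ π') f z) * g z) := by
    have e1 : Ex (fun z => (f z - cn (ρ ∘ π') f z) * g z) = Ex (fun z => f z * g z - cn (ρ ∘ π') f z * g z) :=
      Ex_congr fun z => by ring
    have e2 : Ex (fun z => (cn π' f z - cn (ρ ∘ π') f z) * g z) =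
        Ex (fun z => cn π' f z * g z - cn (ρ ∘ π') f z * g z) := Ex_congr fun z => by ring
    rw [e1, e2, Ex_sub, Ex_sub, h1]
  rw [h2] at h
  have h3 : η ≤ Ex (fun z => |cn π' f z - cn (ρ ∘ π') f z|) := by
    refine h.trans ((abs_Ex_le _).trans (Ex_mono fun z => ?_))
    rw [abs_mul]
    exact mul_le_of_le_one_right (abs_nonneg _) (hg1 z)
  have h4 : η ^ 2 ≤ (Ex (fun z => |cn π' f z - cn (ρ ∘ π') f z|)) ^ 2 := pow_le_pow_left₀ hη h3 2
  have h5 := cs (fun z => cn π' f z - cn (ρ ∘ π') f z)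
  have h6 := pyth π' ρ f
  linarith

end Pool.Agent.H48.EP
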