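import Pool.Agent.H34.EY.InfA

/-!
# [H48 EP CSC] Consecutive primes in bounded dilations of almost all tuples

From `thm_inf` (H34/EY/InfA): almost all increasing tuples `a ∈ V ^ k`, `V` a Bohr set, show (infinitely often) primes `p + a_j` which are consecutive for
the gaps of `G`; and every tuple has a bounded multiple in `V ^ k` (pigeonhole).  So almost all increasing tuples have a bounded multiple with this property.
-/

set_option autoImplicit false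

namespace Pool.Agent.H48.EP

open Finset Filter Pool.Agent.H62.EX

/-- simultaneous approximation by a bounded multiplier -/
theorem dirichlet_mul (k J : ℕ) (ρ : ℝ) (hρ : 0 < ρ) : ∃ m₂ : ℕ, 1 ≤ m₂ ∧ ∀ (α : Fin J → ℝ) (a : Fin k → ℕ), ∃ m : ℕ, 1 ≤ m ∧ m ≤ m₂ ∧
    ∀ j i, ∃ n : ℤ, |((m * a j : ℕ) : ℝ) * α i - n| < ρ := by
  classical
  obtain ⟨N, hN⟩ : ∃ N : ℕ, 1 / ρ < N := exists_nat_gt _
  have hN0r : (0 : ℝ) < N := lt_trans (by positivity) hN
  have hN0 : 0 < N := by exact_mod_cast hN0r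
  have hNρ : (1 : ℝ) / N < ρ := by
    rw [div_lt_iff₀ hN0r]
    rw [div_lt_iff₀ hρ] at hN
    linarith
  refine ⟨N ^ (k * J), Nat.one_le_pow _ _ hN0, fun α a => ?_⟩
  obtain ⟨f, hf⟩ : ∃ f : ℕ → (Fin k × Fin J → Fin N), ∀ m p, ((f m p : ℕ) : ℤ) = ⌊(N : ℝ) * Int.fract ((m : ℝ) * a p.1 * α p.2)⌋ := by
    have h1 : ∀ (m : ℕ) (p : Fin k × Fin J), ∃ x : Fin N, ((x : ℕ) : ℤ) = ⌊(N : ℝ) * Int.fract ((m : ℝ) * a p.1 * α p.2)⌋ := by
      intro m p
      have h2 : 0 ≤ ⌊(N : ℝ) * Int.fract ((m : ℝ) * a p.1 * α p.2)⌋ := Int.floor_nonneg.2 (mul_nonneg hN0r.le (Int.fract_nonneg _))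
      have h3 : ⌊(N : ℝ) * Int.fract ((m : ℝ) * a p.1 * α p.2)⌋ < (N : ℤ) := by
        rw [Int.floor_lt]
        have h4 := Int.fract_lt_one ((m : ℝ) * a p.1 * α p.2)
        push_cast
        nlinarith
      refine ⟨⟨⌊(N : ℝ) * Int.fract ((m : ℝ) * a p.1 * α p.2)⌋.toNat, by omega⟩, ?_⟩
      show ((⌊(N : ℝ) * Int.fract ((m : ℝ) * a p.1 * α p.2)⌋.toNat : ℕ) : ℤ) = _
      rw [Int.toNat_of_nonneg h2]
    choose g hg using h1
    exact ⟨g, hg⟩
  have hcard : Fintype.card (Fin k × Fin J → Fin N) < (range (N ^ (k * J) + 1)).card := by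
    rw [Fintype.card_fun, Fintype.card_fin, Fintype.card_prod, Fintype.card_fin, Fintype.card_fin, card_range]
    omega
  obtain ⟨x, hx, y, hy, hxy, hfxy⟩ := Finset.exists_ne_map_eq_of_card_lt_of_maps_to hcard (f := f) (fun m _ => mem_univ _)
  have key : ∀ x y : ℕ, x < y → y ≤ N ^ (k * J) → f x = f y → ∃ m : ℕ, 1 ≤ m ∧ m ≤ N ^ (k * J) ∧
      ∀ j i, ∃ n : ℤ, |((m * a j : ℕ) : ℝ) * α i - n| < ρ := by
    intro x y hlt hy2 hfe
    refine ⟨y - x, by omega, by omega, fun j i => ?_⟩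
    have h1 := hf x (j, i)
    have h2 := hf y (j, i)
    rw [hfe] at h1
    rw [h1] at h2
    obtain ⟨A, hA⟩ : ∃ A : ℝ, A = (x : ℝ) * a j * α i := ⟨_, rfl⟩
    obtain ⟨B, hB⟩ : ∃ B : ℝ, B = (y : ℝ) * a j * α i := ⟨_, rfl⟩
    have h3 : ⌊(N : ℝ) * Int.fract A⌋ = ⌊(N : ℝ) * Int.fract B⌋ := by
      rw [hA, hB]
      exact h2
    have h4 := Int.abs_sub_lt_one_of_floor_eq_floor h3
    have h5 : |Int.fract A - Int.fract B| < 1 / N := by
      rw [← mul_sub, abs_mul, abs_of_pos hN0r] at h4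
      rw [lt_div_iff₀ hN0r]
      linarith
    refine ⟨⌊B⌋ - ⌊A⌋, ?_⟩
    have h6 : (((y - x) * a j : ℕ) : ℝ) * α i - ((⌊B⌋ - ⌊A⌋ : ℤ) : ℝ) = -(Int.fract A - Int.fract B) := by
      have h7 : (((y - x : ℕ) : ℝ)) = y - x := by
        rw [Nat.cast_sub hlt.le]
      rw [Nat.cast_mul, h7]
      have h8 : Int.fract A = A - ⌊A⌋ := rfl
      have h9 : Int.fract B = B - ⌊B⌋ := rfl
      rw [h8, h9]
      push_cast
      rw [hA, hB]
      ring
    rw [h6, abs_neg]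
    exact h5.trans hNρ
  rw [mem_range] at hx hy
  rcases lt_or_gt_of_ne hxy with h | h
  · exact key x y h (by omega) hfxy
  · exact key y x h (by omega) hfxy.symm

open Classical in
/-- almost all increasing tuples have a bounded multiple which shows, infinitely often, primes `≡ s₀ (mod W)` of one colour, consecutive among the primes of
this colour for the gaps of `G` -/
theorem consec (k r : ℕ) (hk : 1 ≤ k) (W s₀ : ℕ) (hW : 0 < W) (hs₀ : Nat.Coprime s₀ W) (χ : ℕ → Fin r) : ∃ m₂ : ℕ,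
    ∀ ε : ℝ, 0 < ε → ∃ X₀ : ℕ, ∀ (z : ℕ) (b : Fin k → ℕ), X₀ ≤ z →
      (((Fintype.piFinset (fun j : Fin k => Icc (b j + 1) (b j + z))).filter (fun a : Fin k → ℕ => StrictMono a ∧
        ¬ ∃ m : ℕ, 1 ≤ m ∧ m ≤ m₂ ∧ ∀ G : Finset (Fin k), OnePair G → ∃ q : Fin r,
          {p : ℕ | Pat W s₀ χ q G (Fin.cons 0 (fun j => m * a j) : Fin (k + 1) → ℕ) p}.Infinite)).card : ℝ) ≤ ε * (z : ℝ) ^ k := by
  obtain ⟨D, h1⟩ := Pool.Agent.H34.EY.thm_inf k r hk
  obtain ⟨𝓜, -, h𝓜, J, α, ρ, hρ, H⟩ := h1 W s₀ hW hs₀ χ Set.univ Set.infinite_univ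
  obtain ⟨m₂, hm₂, hdir⟩ := dirichlet_mul k J ρ hρ
  have hm₂r : (1 : ℝ) ≤ m₂ := by exact_mod_cast hm₂
  refine ⟨m₂, fun ε hε => ?_⟩
  obtain ⟨X₀, hX⟩ := H (ε / (m₂ : ℝ) ^ (k + 1)) (by positivity)
  refine ⟨X₀, fun z b hz => ?_⟩
  -- the exceptional sets of the multiples
  obtain ⟨Bad, hBad⟩ : ∃ Bad : (Fin k → ℕ) → Prop, Bad = fun (a : Fin k → ℕ) => StrictMono a ∧
      (∀ j i, ∃ n : ℤ, |(a j : ℝ) * α i - n| < ρ) ∧
        ¬ ∀ G : Finset (Fin k), OnePair G → ∃ (q : Fin r) (c : ℝ) (M₁ : ℕ), 0 < c ∧ ∀ M ∈ 𝓜, M₁ ≤ M →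
          c * M ≤ Real.log M ^ D * ({n : ℕ | n < M ∧ Pat W s₀ χ q G (Fin.cons 0 a : Fin (k + 1) → ℕ)
            (Nat.nth Nat.Prime n)}.ncard : ℝ) := ⟨_, rfl⟩
  obtain ⟨S, hS⟩ : ∃ S : ℕ → Finset (Fin k → ℕ), S = fun m => (Fintype.piFinset (fun j : Fin k => Icc (m * b j + 1) (m * b j + m * z))).filter
      (fun a => Bad a) := ⟨_, rfl⟩
  have hScard : ∀ m ∈ Icc 1 m₂, ((S m).card : ℝ) ≤ ε / m₂ * (z : ℝ) ^ k := by
    intro m hm
    rw [mem_Icc] at hm
    have h2 := hX (m * z) (fun j => m * b j) (hz.trans (Nat.le_mul_of_pos_left z (by omega)))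
    have h3 : ((S m).card : ℝ) ≤ ε / (m₂ : ℝ) ^ (k + 1) * ((m * z : ℕ) : ℝ) ^ k := by
      refine le_trans (Nat.cast_le.2 (card_le_card fun a ha => ?_)) h2
      rw [hS] at ha
      obtain ⟨ha1, ha2⟩ := mem_filter.1 ha
      rw [hBad] at ha2
      exact mem_filter.2 ⟨ha1, ha2⟩
    refine h3.trans ?_
    have h4 : ((m : ℝ)) ^ k ≤ (m₂ : ℝ) ^ k := pow_le_pow_left₀ (Nat.cast_nonneg _) (by exact_mod_cast hm.2) k
    have h5 : ((m * z : ℕ) : ℝ) ^ k ≤ (m₂ : ℝ) ^ k * (z : ℝ) ^ k := by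
      push_cast
      rw [mul_pow]
      exact mul_le_mul_of_nonneg_right h4 (by positivity)
    calc ε / (m₂ : ℝ) ^ (k + 1) * ((m * z : ℕ) : ℝ) ^ k ≤ ε / (m₂ : ℝ) ^ (k + 1) * ((m₂ : ℝ) ^ k * (z : ℝ) ^ k) :=
          mul_le_mul_of_nonneg_left h5 (by positivity)
      _ = ε / m₂ * (z : ℝ) ^ k := by
          have h6 : (m₂ : ℝ) ≠ 0 := by positivity
          rw [pow_succ]
          field_simp
  -- a good multiple shows the pattern infinitely often
  have hgood : ∀ a : Fin k → ℕ, (∀ G : Finset (Fin k), OnePair G → ∃ (q : Fin r) (c : ℝ) (M₁ : ℕ), 0 < c ∧ ∀ M ∈ 𝓜, M₁ ≤ M →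
          c * M ≤ Real.log M ^ D * ({n : ℕ | n < M ∧ Pat W s₀ χ q G (Fin.cons 0 a : Fin (k + 1) → ℕ)
            (Nat.nth Nat.Prime n)}.ncard : ℝ)) → ∀ G : Finset (Fin k), OnePair G → ∃ q : Fin r,
          {p : ℕ | Pat W s₀ χ q G (Fin.cons 0 a : Fin (k + 1) → ℕ) p}.Infinite := by
    intro a ha G hG
    obtain ⟨q, c, M₁, hc, hM⟩ := ha G hG
    refine ⟨q, fun hfin => ?_⟩
    obtain ⟨T, hT⟩ : ∃ T : Set ℕ, T = {n : ℕ | Pat W s₀ χ q G (Fin.cons 0 a : Fin (k + 1) → ℕ) (Nat.nth Nat.Prime n)} := ⟨_, rfl⟩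
    have hTfin : T.Finite := by
      refine Set.Finite.of_finite_image (hfin.subset ?_) ((Nat.nth_injective Nat.infinite_setOfPred_prime).injOn (s := T))
      rintro _ ⟨n, hn, rfl⟩
      rw [hT] at hn
      exact hn
    have hle : ∀ M : ℕ, ({n : ℕ | n < M ∧ Pat W s₀ χ q G (Fin.cons 0 a : Fin (k + 1) → ℕ) (Nat.nth Nat.Prime n)}.ncard : ℝ) ≤ T.ncard := by
      intro M
      refine Nat.cast_le.2 (Set.ncard_le_ncard (fun n hn => ?_) hTfin)
      rw [hT]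
      exact hn.2
    have hlog : Tendsto (fun M : ℕ => Real.log (M : ℝ) ^ D / (M : ℝ)) atTop (nhds 0) := by
      have h7 := (Real.isLittleO_pow_log_id_atTop (n := D)).tendsto_div_nhds_zero.comp tendsto_natCast_atTop_atTop (α := ℕ)
      exact h7
    obtain ⟨M₂, hM₂⟩ := eventually_atTop.1 ((tendsto_order.1 hlog).2 (c / (T.ncard + 1)) (by positivity))
    obtain ⟨M, hM𝓜, hMM⟩ := h𝓜.exists_gt (M₁ + M₂ + 1)
    have hMpos : (0 : ℝ) < M := by
      have : 0 < M := by omega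
      exact_mod_cast this
    have h8 := hM M hM𝓜 (by omega)
    have h9 := hM₂ M (by omega)
    rw [div_lt_iff₀ hMpos] at h9
    have h10 : 0 ≤ Real.log (M : ℝ) ^ D := pow_nonneg (Real.log_natCast_nonneg M) _
    have h11 : c * M ≤ c / (T.ncard + 1) * M * T.ncard := by
      calc c * M ≤ Real.log M ^ D * _ := h8
        _ ≤ Real.log M ^ D * T.ncard := mul_le_mul_of_nonneg_left (hle M) h10
        _ ≤ c / (T.ncard + 1) * M * T.ncard := mul_le_mul_of_nonneg_right h9.le (Nat.cast_nonneg _)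
    have h12 : c / (T.ncard + 1) * M * T.ncard < c * M := by
      have h13 : (0 : ℝ) ≤ (T.ncard : ℝ) := Nat.cast_nonneg _
      have h14 : c / ((T.ncard : ℝ) + 1) * M * T.ncard = c * M * (T.ncard / (T.ncard + 1)) := by ring
      rw [h14]
      have h15 : (T.ncard : ℝ) / (T.ncard + 1) < 1 := by
        rw [div_lt_one (by positivity)]
        linarith
      have h16 : 0 < c * M := mul_pos hc hMpos
      nlinarith
    exact absurd h11 (not_le.2 h12)
  -- every exceptional tuple has a multiple in one of the exceptional sets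
  have hsub : (Fintype.piFinset (fun j : Fin k => Icc (b j + 1) (b j + z))).filter (fun a : Fin k → ℕ => StrictMono a ∧
        ¬ ∃ m : ℕ, 1 ≤ m ∧ m ≤ m₂ ∧ ∀ G : Finset (Fin k), OnePair G → ∃ q : Fin r,
          {p : ℕ | Pat W s₀ χ q G (Fin.cons 0 (fun j => m * a j) : Fin (k + 1) → ℕ) p}.Infinite) ⊆
      (Icc 1 m₂).biUnion (fun m => (Fintype.piFinset (fun j : Fin k => Icc (b j + 1) (b j + z))).filter (fun a => (fun j => m * a j) ∈ S m)) := by
    intro a ha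
    rw [mem_filter] at ha
    obtain ⟨ha1, ha2, ha3⟩ := ha
    obtain ⟨m, hm1, hm2, hm3⟩ := hdir α a
    rw [mem_biUnion]
    refine ⟨m, mem_Icc.2 ⟨hm1, hm2⟩, mem_filter.2 ⟨ha1, ?_⟩⟩
    rw [hS, mem_filter, Fintype.mem_piFinset, hBad]
    refine ⟨fun j => ?_, ?_, hm3, fun hg => ha3 ⟨m, hm1, hm2, hgood _ hg⟩⟩
    · have h2 := mem_Icc.1 (Fintype.mem_piFinset.1 ha1 j)
      rw [mem_Icc]
      constructor
      · have h3 : m * (b j + 1) ≤ m * a j := Nat.mul_le_mul_left m h2.1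
        have h4 : m * (b j + 1) = m * b j + m := by ring
        omega
      · have h3 : m * a j ≤ m * (b j + z) := Nat.mul_le_mul_left m h2.2
        rw [mul_add] at h3
        exact h3
    · intro i j hij
      exact Nat.mul_lt_mul_of_pos_left (ha2 hij) (by omega)
  have hle : ∀ m ∈ Icc 1 m₂, (((Fintype.piFinset (fun j : Fin k => Icc (b j + 1) (b j + z))).filter (fun a => (fun j => m * a j) ∈ S m)).card : ℝ) ≤
      ε / m₂ * (z : ℝ) ^ k := by
    intro m hm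
    refine le_trans (Nat.cast_le.2 ?_) (hScard m hm)
    rw [mem_Icc] at hm
    refine card_le_card_of_injOn (fun a j => m * a j) (fun a ha => ?_) ?_
    · rw [mem_coe, mem_filter] at ha
      exact ha.2
    · intro a _ a' _ h
      funext j
      exact Nat.eq_of_mul_eq_mul_left (by omega) (congrFun h j)
  calc _ ≤ (((Icc 1 m₂).biUnion (fun m => (Fintype.piFinset (fun j : Fin k => Icc (b j + 1) (b j + z))).filter
        (fun a => (fun j => m * a j) ∈ S m))).card : ℝ) := Nat.cast_le.2 (card_le_card hsub)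
    _ ≤ ((∑ m ∈ Icc 1 m₂, ((Fintype.piFinset (fun j : Fin k => Icc (b j + 1) (b j + z))).filter
        (fun a => (fun j => m * a j) ∈ S m)).card : ℕ) : ℝ) := Nat.cast_le.2 card_biUnion_le
    _ = ∑ m ∈ Icc 1 m₂, (((Fintype.piFinset (fun j : Fin k => Icc (b j + 1) (b j + z))).filter
        (fun a => (fun j => m * a j) ∈ S m)).card : ℝ) := by push_cast; rfl
    _ ≤ ∑ m ∈ Icc 1 m₂, ε / m₂ * (z : ℝ) ^ k := sum_le_sum hle
    _ = ε * (z : ℝ) ^ k := by
        rw [sum_const, Nat.card_Icc, nsmul_eq_mul, Nat.add_sub_cancel]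
        have h6 : (m₂ : ℝ) ≠ 0 := by positivity
        field_simp

end Pool.Agent.H48.EP
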