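import Pool.Agent.H48.EP.Cub
import Pool.Agent.H34.EQ.Sv

/-!
# [H48 EP CUT2] Bounded dilations at every scale and in every cube, uniform constants

`m ≤ m₁ W` with `m₁` depending on `k`, `r` only; the side `B` of the cubes depends on `k`, `r`, `ε` only.
-/

set_option autoImplicit false

namespace Pool.Agent.H48.EP

open Finset Filter Pool.Agent.H34.RR Pool.Agent.H61.UN Pool.Agent.H21.MT Pool.Agent.H92.MM

/-- `many_primes` with `wd` before `A` -/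
theorem many_primes2 (m : ℕ) (hm : 1 ≤ m) : ∃ s wd : ℕ, 1 ≤ s ∧ ∀ A : ℕ, ∀ R : ℕ, 0 < R → primorial wd ∣ R →
    ∀ᶠ X : ℕ in atTop, ∀ v : Fin m × Fin s → ℕ, Function.Injective v → (∀ i, (v i : ℝ) ≤ Real.log X ^ A) →
      (∀ i, Nat.Coprime (v i) R) → (X : ℝ) ≤ Real.log X ^ (m * s + 2) *
        {N : ℕ | (N : ℝ) ≤ X / 2 ∧ R ∣ N ∧ 1 < wc (fun _ => 100 / (m : ℝ)) v N}.ncard := by
  classical
  obtain ⟨s, hs, h⟩ := many_primes m hm
  refine ⟨s, m * s, hs, fun A R hR hRw => ?_⟩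
  obtain ⟨wd, h⟩ := h (A + 1)
  have hcard : Fintype.card (Fin m × Fin s) = m * s := by
    rw [Fintype.card_prod, Fintype.card_fin, Fintype.card_fin]
  have hRp : ∀ p : ℕ, p.Prime → p ≤ Fintype.card (Fin m × Fin s) → p ∣ R := by
    intro p hp hpc
    rw [hcard] at hpc
    refine dvd_trans ?_ hRw
    exact dvd_prod_of_mem (fun p => p) (mem_filter.2 ⟨mem_range.2 (Nat.lt_succ_iff.2 hpc), hp⟩)
  have hR'0 : 0 < R * primorial wd := Nat.mul_pos hR (primorial_pos wd)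
  have hlog : Tendsto (fun X : ℕ => Real.log (X : ℝ)) atTop atTop := Real.tendsto_log_atTop.comp tendsto_natCast_atTop_atTop
  filter_upwards [h (R * primorial wd) hR'0 (dvd_mul_left _ _), hlog.eventually_ge_atTop ((R * primorial wd : ℕ) + 1 : ℝ),
    hlog.eventually_ge_atTop 1, tendsto_natCast_atTop_atTop.eventually_ge_atTop (4 * ((R * primorial wd : ℕ) : ℝ)),
    eventually_ge_atTop 1] with X hX hX1 hX2 hX3 hX4
  intro v hv hvA hvR
  obtain ⟨b, hb1, hb2, hb3⟩ := Pool.Agent.H34.EQ.shift_exists R wd hR hRp v hvR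
  have hbr : (b : ℝ) ≤ (R * primorial wd : ℕ) := by exact_mod_cast hb1.le
  have h1 := hX (fun i => v i + b) (fun i j hij => hv (Nat.add_right_cancel hij)) (fun i => by
    push_cast
    have h2 : (1 : ℝ) ≤ Real.log X ^ A := one_le_pow₀ hX2
    have h3 := hvA i
    rw [pow_succ]
    nlinarith) hb3
  refine h1.trans (mul_le_mul_of_nonneg_left ?_ (by positivity))
  have hfin : {N : ℕ | (N : ℝ) ≤ X / 2 ∧ R ∣ N ∧ 1 < wc (fun _ => 100 / (m : ℝ)) v N}.Finite := by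
    refine (Set.finite_Iic X).subset fun N hN => ?_
    have hX0 : (0 : ℝ) ≤ X := Nat.cast_nonneg _
    have h3 : (N : ℝ) ≤ X := hN.1.trans (by linarith)
    exact_mod_cast h3
  have h2 := Set.ncard_le_ncard_of_injOn (s := {N : ℕ | (N : ℝ) ≤ X / 4 ∧ R * primorial wd ∣ N ∧
    1 < wc (fun _ => 100 / (m : ℝ)) (fun i => v i + b) N}) (fun N => N + b) (by
      intro N hN
      obtain ⟨h3, h4, h5⟩ := hN
      rw [Pool.Agent.H34.EQ.wc_shift] at h5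
      refine ⟨?_, (Nat.dvd_add ((dvd_mul_right _ _).trans h4) hb2), h5⟩
      push_cast
      linarith) (fun N _ N' _ hNN => Nat.add_right_cancel hNN) hfin
  exact_mod_cast h2

open Classical in
/-- **bounded dilations at every scale in every cube** -/
theorem cubes2 (k r : ℕ) (hk : 1 ≤ k) : ∃ D m₁ : ℕ, ∀ ε : ℝ, 0 < ε → ∃ B : ℕ, ∀ A W s₀ : ℕ, 0 < W → Nat.Coprime s₀ W → ∃ X₀ : ℕ,
    ∀ (χ : ℕ → Fin r) (X z : ℕ) (b : Fin k → ℤ), X₀ ≤ X → B ≤ z → (z : ℝ) ≤ Real.log X ^ A → (∀ j, |(b j : ℝ)| ≤ Real.log X ^ A) →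
      (((Fintype.piFinset (fun j : Fin k => Ioc (b j) (b j + z))).filter (fun a => ¬ ∃ m : ℕ, 1 ≤ m ∧ m ≤ m₁ * W ∧ ∃ q : Fin r,
        (X : ℝ) ≤ Real.log X ^ D * (cnt W s₀ χ q (fun j => m * a j) X : ℝ))).card : ℝ) ≤ ε * (z : ℝ) ^ k := by
  rcases Nat.eq_zero_or_pos r with hr | hr
  · subst hr
    exact ⟨0, 0, fun ε _ => ⟨0, fun A W s₀ _ _ => ⟨0, fun χ => (χ 0).elim0⟩⟩⟩
  have hr0 : (0 : ℝ) < r := by exact_mod_cast hr
  obtain ⟨S⟩ := sys_words k hk (1 / (100 * (r : ℝ))) (by positivity)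
  obtain ⟨s, wd, hs, hsv⟩ := many_primes2 S.m S.hm
  refine ⟨S.m * s + 3, primorial wd * S.n, fun ε hε => ?_⟩
  obtain ⟨z₀, hz₀⟩ := one_conf S s hs ε hε
  refine ⟨z₀ + 1, fun A W s₀ hW hs₀ => ?_⟩
  have hsv := hsv (A + 1)
  obtain ⟨R, hRd⟩ : ∃ R : ℕ, R = W * primorial wd := ⟨_, rfl⟩
  have hR : 0 < R := by rw [hRd]; exact Nat.mul_pos hW (primorial_pos wd)
  have hRw : primorial wd ∣ R := by rw [hRd]; exact Dvd.intro_left _ rfl
  have hWR : W ∣ R := by rw [hRd]; exact Dvd.intro _ rfl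
  have : NeZero W := ⟨hW.ne'⟩
  obtain ⟨ρ, hρ1, hρ2, hρ3⟩ := Nat.forall_exists_prime_gt_and_modEq R hW.ne' hs₀
  have hρR := Nat.coprime_of_lt_prime hR.ne' hρ1 hρ2
  have hm₁ : R * S.n = primorial wd * S.n * W := by rw [hRd]; ring
  rw [← hm₁]
  obtain ⟨K, hK⟩ : ∃ K : ℕ, K = 2 * k * S.n + 1 := ⟨_, rfl⟩
  obtain ⟨C, hC⟩ : ∃ C : ℕ, C = ρ + R * (K + 2 * (k * S.n)) := ⟨_, rfl⟩
  obtain ⟨J, hJ⟩ : ∃ J : ℕ, J = Fintype.card (Fin r × Fin S.L × (Fin (k + 1) → Fin s)) := ⟨_, rfl⟩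
  have hlog : Tendsto (fun X : ℕ => Real.log (X : ℝ)) atTop atTop := Real.tendsto_log_atTop.comp tendsto_natCast_atTop_atTop
  have hpow : ∀ᶠ X : ℕ in atTop, Real.log (X : ℝ) ^ (A + 1) ≤ 1 / 2 * X := by
    have h1 := (Real.isLittleO_pow_log_id_atTop (n := A + 1)).bound (show (0 : ℝ) < 1 / 2 by norm_num)
    filter_upwards [tendsto_natCast_atTop_atTop.eventually h1, hlog.eventually_ge_atTop 0] with X h2 h3
    rw [Real.norm_of_nonneg (pow_nonneg h3 _)] at h2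
    rw [id, Real.norm_of_nonneg (Nat.cast_nonneg _)] at h2
    exact h2
  obtain ⟨X1, hX1⟩ := eventually_atTop.1 ((hsv R hR hRw).and (hpow.and ((hlog.eventually_ge_atTop (C : ℝ)).and
    ((hlog.eventually_ge_atTop (J : ℝ)).and (hlog.eventually_ge_atTop 1)))))
  refine ⟨X1 + 3, fun χ X z b hXX hz hzA hbA => ?_⟩
  obtain ⟨hsX, hX2, hX3, hX4, hX5⟩ := hX1 X (by omega)
  have hX0 : (0 : ℝ) < X := by
    have : 0 < X := by omega
    exact_mod_cast this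
  have hl0 : 0 < Real.log (X : ℝ) := by linarith
  by_contra hcon
  rw [not_le] at hcon
  obtain ⟨E, hE⟩ : ∃ E : Finset (Fin k → ℤ), E = (Fintype.piFinset (fun j : Fin k => Ioc (b j) (b j + z))).filter
      (fun a => ¬ ∃ m : ℕ, 1 ≤ m ∧ m ≤ R * S.n ∧ ∃ q : Fin r,
        (X : ℝ) ≤ Real.log X ^ (S.m * s + 3) * (cnt W s₀ χ q (fun j => m * a j) X : ℝ)) := ⟨_, rfl⟩
  rw [← hE] at hcon
  -- the translate
  obtain ⟨E', hE'⟩ : ∃ E' : Finset (Fin k → ℤ), E' = E.image (fun a => a - b) := ⟨_, rfl⟩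
  have hEc : E'.card = E.card := by
    rw [hE']
    exact card_image_of_injective _ (fun x y h => sub_left_injective h)
  have hEz : ∀ a ∈ E', ∀ i, |a i| ≤ z := by
    intro a ha i
    rw [hE', mem_image] at ha
    obtain ⟨a', ha', rfl⟩ := ha
    rw [hE, mem_filter, Fintype.mem_piFinset] at ha'
    have h1 := mem_Ioc.1 (ha'.1 i)
    rw [Pi.sub_apply, abs_le]
    constructor
    · have : (0 : ℤ) ≤ z := Nat.cast_nonneg _
      linarith [h1.1]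
    · linarith [h1.2]
  obtain ⟨u, hu0, hu1, hu2⟩ := hz₀ z (by omega) E' hEz (by rw [hEc]; exact hcon.le) (fun v => ∑ i, (S.c v i : ℤ) * b i)
  -- the bounds
  obtain ⟨β, hβ⟩ : ∃ β : ℕ, β = ⌊Real.log (X : ℝ) ^ A⌋₊ := ⟨_, rfl⟩
  have hzβ : z ≤ β := by
    rw [hβ]
    exact Nat.le_floor hzA
  have hβ1 : 1 ≤ β := by omega
  have hbβ : ∀ j, |b j| ≤ (β : ℤ) := by
    intro j
    have h1 : ((b j).natAbs : ℝ) ≤ Real.log X ^ A := by
      rw [Nat.cast_natAbs, Int.cast_abs]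
      exact hbA j
    have h2 : (b j).natAbs ≤ β := by
      rw [hβ]
      exact Nat.le_floor h1
    rw [Int.abs_eq_natAbs]
    exact_mod_cast h2
  have hτ : ∀ v : Fin S.m, |∑ i, (S.c v i : ℤ) * b i| ≤ ((k * S.n * β : ℕ) : ℤ) := by
    intro v
    refine (abs_sum_le_sum_abs _ _).trans ?_
    have h1 : ∀ i ∈ (univ : Finset (Fin k)), |(S.c v i : ℤ) * b i| ≤ ((S.n * β : ℕ) : ℤ) := by
      intro i _
      rw [abs_mul, Nat.abs_cast]
      push_cast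
      exact mul_le_mul (by exact_mod_cast S.cle v i) (hbβ i) (abs_nonneg _) (Nat.cast_nonneg _)
    refine (sum_le_card_nsmul _ _ _ h1).trans (le_of_eq ?_)
    rw [card_univ, Fintype.card_fin, nsmul_eq_mul]
    push_cast
    ring
  obtain ⟨w, hw⟩ : ∃ w : Fin S.m × Fin s → ℤ, w = fun p => u p + ∑ i, (S.c p.1 i : ℤ) * b i := ⟨_, rfl⟩
  have hw1 : Function.Injective w := by rw [hw]; exact hu1
  obtain ⟨Mb, hMb⟩ : ∃ Mb : ℤ, Mb = ((k * S.n * β : ℕ) : ℤ) := ⟨_, rfl⟩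
  have hwM : ∀ p, 0 ≤ w p + Mb := by
    intro p
    have h1 := abs_le.1 (hτ p.1)
    have h2 := (hu0 p).1
    rw [hw, hMb]
    dsimp only
    linarith [h1.1]
  have hwM2 : ∀ p, w p + Mb ≤ (((K + 2 * (k * S.n)) * β : ℕ) : ℤ) := by
    intro p
    have h1 := abs_le.1 (hτ p.1)
    have h2 := (hu0 p).2
    have h3 : (((2 * k * S.n + 1) * z : ℕ) : ℤ) ≤ ((K * β : ℕ) : ℤ) := by
      rw [← hK]
      exact_mod_cast Nat.mul_le_mul_left K hzβ
    rw [hw, hMb]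
    dsimp only
    have h4 : (((K + 2 * (k * S.n)) * β : ℕ) : ℤ) = ((K * β : ℕ) : ℤ) + ((k * S.n * β : ℕ) : ℤ) + ((k * S.n * β : ℕ) : ℤ) := by
      push_cast
      ring
    rw [h4]
    linarith [h1.2]
  obtain ⟨v, hv⟩ : ∃ v : Fin S.m × Fin s → ℕ, v = fun p => ρ + R * (w p + Mb).toNat := ⟨_, rfl⟩
  have hvz : ∀ p, (v p : ℤ) = ρ + R * (w p + Mb) := by
    intro p
    rw [hv]
    push_cast
    rw [Int.toNat_of_nonneg (hwM p)]
  have hRz : (0 : ℤ) < R := by exact_mod_cast hR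
  have hv1 : Function.Injective v := by
    intro p p' hpp
    apply hw1
    have h1 : (v p : ℤ) = v p' := by rw [hpp]
    rw [hvz, hvz] at h1
    have h2 : (R : ℤ) * (w p + Mb) = R * (w p' + Mb) := by linarith
    have h3 := mul_left_cancel₀ hRz.ne' h2
    linarith
  have hv2 : ∀ p, v p ≡ ρ [MOD R] := by
    intro p
    rw [hv]
    show (ρ + R * (w p + Mb).toNat) % R = ρ % R
    rw [Nat.add_mul_mod_self_left]
  have hv3 : ∀ p, Nat.Coprime (v p) R := by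
    intro p
    have h4 : Nat.gcd ρ R = 1 := hρR
    show Nat.gcd (v p) R = 1
    rw [← h4]
    exact Nat.ModEq.gcd_eq (hv2 p)
  have hvC : ∀ p, v p ≤ C * β := by
    intro p
    have h1 : (w p + Mb).toNat ≤ (K + 2 * (k * S.n)) * β := by
      have h2 := hwM2 p
      omega
    rw [hv, hC]
    calc ρ + R * (w p + Mb).toNat ≤ ρ * β + R * ((K + 2 * (k * S.n)) * β) :=
          Nat.add_le_add (Nat.le_mul_of_pos_right ρ hβ1) (Nat.mul_le_mul_left R h1)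
      _ = (ρ + R * (K + 2 * (k * S.n))) * β := by ring
  have hvA : ∀ p, (v p : ℝ) ≤ Real.log X ^ (A + 1) := by
    intro p
    have h1 : (v p : ℝ) ≤ ((C * β : ℕ) : ℝ) := by exact_mod_cast hvC p
    refine h1.trans ?_
    push_cast
    rw [pow_succ, mul_comm]
    refine mul_le_mul ?_ hX3 (Nat.cast_nonneg _) (by positivity)
    rw [hβ]
    exact Nat.floor_le (by positivity)
  have hv4 : ∀ (a : Fin S.L) (t : Fin (k + 1) → Fin s), ∃ a₁ ∈ E, ∀ i : Fin k,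
      (v (S.e a i.succ, t i.succ) : ℤ) - (v (S.e a 0, t 0) : ℤ) = ((R * S.μ a : ℕ) : ℤ) * a₁ i := by
    intro a t
    obtain ⟨b', hb', hbd⟩ := hu2 a t
    rw [hE', mem_image] at hb'
    obtain ⟨a₁, ha₁, rfl⟩ := hb'
    refine ⟨a₁, ha₁, fun i => ?_⟩
    rw [hvz, hvz, hw]
    have h1 := hbd i
    have h2 : ∑ j, (S.c (S.e a i.succ) j : ℤ) * b j = ∑ j, (S.c (S.e a 0) j : ℤ) * b j + S.μ a * b i := by
      rw [← sub_eq_iff_eq_add', ← sum_sub_distrib, sum_eq_single i]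
      · rw [S.smp, if_pos rfl]
        push_cast
        ring
      · intro j _ hj
        rw [S.smp, if_neg (Ne.symm hj), Nat.add_zero, sub_self]
      · intro hh
        exact absurd (mem_univ _) hh
    dsimp only
    rw [h2]
    rw [Pi.sub_apply] at h1
    push_cast
    linear_combination (R : ℤ) * h1
  -- primes
  have hmany := hsX v hv1 hvA hv3
  obtain ⟨𝒩, h𝒩⟩ : ∃ 𝒩 : Finset ℕ, 𝒩 = (range (X + 1)).filter (fun N : ℕ => (N : ℝ) ≤ X / 2 ∧ R ∣ N ∧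
      1 < wc (fun _ => 100 / (S.m : ℝ)) v N) := ⟨_, rfl⟩
  have hmany2 : (X : ℝ) ≤ Real.log X ^ (S.m * s + 2) * 𝒩.card := by
    refine hmany.trans (le_of_eq ?_)
    congr 2
    rw [h𝒩, ← Set.ncard_coe_finset]
    congr 1
    ext N
    rw [mem_coe, mem_filter]
    constructor
    · intro hN
      refine ⟨mem_range.2 (Nat.lt_succ_iff.2 ?_), hN⟩
      have h3 : (N : ℝ) ≤ X := hN.1.trans (by linarith)
      exact_mod_cast h3
    · intro hN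
      exact hN.2
  have hp : ∀ N ∈ 𝒩, ∃ x : Fin r × Fin S.L × (Fin (k + 1) → Fin s), ∀ j, Pr W s₀ χ x.1 (N + v (S.e x.2.1 j, x.2.2 j)) := by
    intro N hN
    rw [h𝒩, mem_filter] at hN
    obtain ⟨-, -, hRN, hwc⟩ := hN
    obtain ⟨q, a, t, hat⟩ := pick hr S χ N v hwc
    refine ⟨(q, a, t), fun j => ⟨(hat j).1, (hat j).2, ?_⟩⟩
    have h4 : N ≡ 0 [MOD W] := Nat.modEq_zero_iff_dvd.2 (hWR.trans hRN)
    have h6 := h4.add ((hv2 (S.e a j, t j)).of_dvd hWR)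
    rw [Nat.zero_add] at h6
    exact h6.trans hρ3
  obtain ⟨x, hx⟩ : ∃ x : Fin r × Fin S.L × (Fin (k + 1) → Fin s), 𝒩.card ≤
      J * (𝒩.filter (fun N => ∀ j, Pr W s₀ χ x.1 (N + v (S.e x.2.1 j, x.2.2 j)))).card := by
    by_contra hcon2
    push Not at hcon2
    have hNe : Nonempty (Fin r × Fin S.L × (Fin (k + 1) → Fin s)) := by
      obtain ⟨a, -, -⟩ := S.cov ⟨0, S.hm⟩
      exact ⟨(⟨0, hr⟩, a, fun _ => ⟨0, hs⟩)⟩
    have h1 : 𝒩.card ≤ ∑ x : Fin r × Fin S.L × (Fin (k + 1) → Fin s),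
        (𝒩.filter (fun N => ∀ j, Pr W s₀ χ x.1 (N + v (S.e x.2.1 j, x.2.2 j)))).card := by
      refine (card_le_card ?_).trans card_biUnion_le
      intro N hN
      obtain ⟨x, hx⟩ := hp N hN
      rw [mem_biUnion]
      exact ⟨x, mem_univ _, mem_filter.2 ⟨hN, hx⟩⟩
    have h2 : ∑ x : Fin r × Fin S.L × (Fin (k + 1) → Fin s),
        J * (𝒩.filter (fun N => ∀ j, Pr W s₀ χ x.1 (N + v (S.e x.2.1 j, x.2.2 j)))).card <
        ∑ _x : Fin r × Fin S.L × (Fin (k + 1) → Fin s), 𝒩.card :=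
      sum_lt_sum_of_nonempty univ_nonempty fun x _ => hcon2 x
    rw [← mul_sum, sum_const, card_univ, ← hJ, smul_eq_mul] at h2
    exact absurd (Nat.mul_le_mul_left J h1) (not_le.2 h2)
  obtain ⟨q, a, t⟩ := x
  obtain ⟨a₁, ha₁, hd⟩ := hv4 a t
  have hbad := (mem_filter.1 (hE ▸ ha₁)).2
  apply hbad
  refine ⟨R * S.μ a, Nat.mul_pos hR (S.μpos a), Nat.mul_le_mul_left R (S.μle a), q, ?_⟩
  have h1 : (𝒩.filter (fun N => ∀ j, Pr W s₀ χ q (N + v (S.e a j, t j)))).card ≤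
      cnt W s₀ χ q (fun j => ((R * S.μ a : ℕ) : ℤ) * a₁ j) X := by
    unfold cnt
    rw [← Set.ncard_coe_finset]
    refine Set.ncard_le_ncard_of_injOn (fun N => N + v (S.e a 0, t 0)) ?_ (fun N _ N' _ h => Nat.add_right_cancel h) ?_
    · intro N hN
      rw [mem_coe, mem_filter, h𝒩, mem_filter] at hN
      obtain ⟨⟨-, hN4, -⟩, hN2⟩ := hN
      refine ⟨?_, hN2 0, fun j => ⟨N + v (S.e a j.succ, t j.succ), ?_, hN2 j.succ⟩⟩
      · have h3 : ((N + v (S.e a 0, t 0) : ℕ) : ℝ) ≤ X := by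
          push_cast
          linarith [hvA (S.e a 0, t 0)]
        exact_mod_cast h3
      · have h3 := hd j
        push_cast
        push_cast at h3
        linarith
    · exact (Set.finite_Iic X).subset fun p hp => hp.1
  have h2 : (𝒩.card : ℝ) ≤ J * (cnt W s₀ χ q (fun j => ((R * S.μ a : ℕ) : ℤ) * a₁ j) X : ℝ) := by
    have h3 : 𝒩.card ≤ J * cnt W s₀ χ q (fun j => ((R * S.μ a : ℕ) : ℤ) * a₁ j) X := hx.trans (Nat.mul_le_mul_left J h1)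
    exact_mod_cast h3
  calc (X : ℝ) ≤ Real.log X ^ (S.m * s + 2) * 𝒩.card := hmany2
    _ ≤ Real.log X ^ (S.m * s + 2) * (Real.log X * (cnt W s₀ χ q (fun j => ((R * S.μ a : ℕ) : ℤ) * a₁ j) X : ℝ)) := by
        refine mul_le_mul_of_nonneg_left (h2.trans ?_) (by positivity)
        exact mul_le_mul_of_nonneg_right hX4 (Nat.cast_nonneg _)
    _ = Real.log X ^ (S.m * s + 3) * (cnt W s₀ χ q (fun j => ((R * S.μ a : ℕ) : ℤ) * a₁ j) X : ℝ) := by ring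

open Classical in
/-- **bounded dilations, upper Banach density, uniform constants** -/
theorem banach2 (k r : ℕ) (hk : 1 ≤ k) : ∃ m₁ : ℕ, ∀ ε : ℝ, 0 < ε → ∃ B : ℕ, ∀ W s₀ : ℕ, 0 < W → Nat.Coprime s₀ W →
    ∀ (χ : ℕ → Fin r) (z : ℕ), B ≤ z → ∀ b : Fin k → ℤ,
      (((Fintype.piFinset (fun j : Fin k => Ioc (b j) (b j + z))).filter (fun a => ¬ Gdd W s₀ χ (m₁ * W) a)).card : ℝ) ≤
        ε * (z : ℝ) ^ k := by
  obtain ⟨D, m₁, h⟩ := cubes2 k r hk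
  refine ⟨m₁, fun ε hε => ?_⟩
  obtain ⟨B, h⟩ := h ε hε
  refine ⟨B, fun W s₀ hW hs₀ χ z hz b => ?_⟩
  obtain ⟨X₀, h⟩ := h 1 W s₀ hW hs₀
  obtain ⟨E, hE⟩ : ∃ E : Finset (Fin k → ℤ), E = (Fintype.piFinset (fun j : Fin k => Ioc (b j) (b j + z))).filter
      (fun a => ¬ Gdd W s₀ χ (m₁ * W) a) := ⟨_, rfl⟩
  rw [← hE]
  obtain ⟨C, hC⟩ : ∃ C : ℕ, C = ∑ a ∈ E, ∑ m ∈ range (m₁ * W + 1), ∑ q : Fin r,
    {p : ℕ | Pr W s₀ χ q p ∧ ∀ j, ∃ p' : ℕ, (p' : ℤ) = p + m * a j ∧ Pr W s₀ χ q p'}.ncard := ⟨_, rfl⟩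
  have hlog : Tendsto (fun X : ℕ => Real.log (X : ℝ)) atTop atTop := Real.tendsto_log_atTop.comp tendsto_natCast_atTop_atTop
  have hpow : ∀ᶠ X : ℕ in atTop, Real.log (X : ℝ) ^ D ≤ 1 / (C + 1) * X := by
    have h1 := (Real.isLittleO_pow_log_id_atTop (n := D)).bound (show (0 : ℝ) < 1 / (C + 1) by positivity)
    filter_upwards [tendsto_natCast_atTop_atTop.eventually h1, hlog.eventually_ge_atTop 0] with X h2 h3
    rw [Real.norm_of_nonneg (pow_nonneg h3 _)] at h2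
    rw [id, Real.norm_of_nonneg (Nat.cast_nonneg _)] at h2
    exact h2
  obtain ⟨X, hX1, hX2, hX3, hX4, hX5⟩ := (hpow.and ((hlog.eventually_ge_atTop (z : ℝ)).and
    ((hlog.eventually_ge_atTop (∑ j, |(b j : ℝ)|)).and ((eventually_ge_atTop X₀).and (eventually_ge_atTop 1))))).exists
  have hX0 : (0 : ℝ) < X := by exact_mod_cast hX5
  refine le_trans (Nat.cast_le.2 (card_le_card fun a ha => ?_)) (h χ X z b hX4 hz (by rw [pow_one]; exact hX2) (fun j => by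
    rw [pow_one]
    exact (single_le_sum (f := fun j => |(b j : ℝ)|) (fun _ _ => abs_nonneg _) (mem_univ j)).trans hX3))
  have ha' := ha
  rw [hE, mem_filter] at ha
  rw [mem_filter]
  refine ⟨ha.1, ?_⟩
  rintro ⟨m, hm1, hm2, q, hq⟩
  have hfin : {p : ℕ | Pr W s₀ χ q p ∧ ∀ j, ∃ p' : ℕ, (p' : ℤ) = p + m * a j ∧ Pr W s₀ χ q p'}.Finite := by
    by_contra hinf
    exact ha.2 ⟨m, hm1, hm2, q, hinf⟩
  have h1 : cnt W s₀ χ q (fun j => m * a j) X ≤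
      {p : ℕ | Pr W s₀ χ q p ∧ ∀ j, ∃ p' : ℕ, (p' : ℤ) = p + m * a j ∧ Pr W s₀ χ q p'}.ncard := by
    unfold cnt
    exact Set.ncard_le_ncard (fun p hp => hp.2) hfin
  have h2 : {p : ℕ | Pr W s₀ χ q p ∧ ∀ j, ∃ p' : ℕ, (p' : ℤ) = p + m * a j ∧ Pr W s₀ χ q p'}.ncard ≤ C := by
    rw [hC]
    calc _ ≤ ∑ q : Fin r, {p : ℕ | Pr W s₀ χ q p ∧ ∀ j, ∃ p' : ℕ, (p' : ℤ) = p + m * a j ∧ Pr W s₀ χ q p'}.ncard :=
          single_le_sum (f := fun q : Fin r => {p : ℕ | Pr W s₀ χ q p ∧ ∀ j, ∃ p' : ℕ, (p' : ℤ) = p + m * a j ∧ Pr W s₀ χ q p'}.ncard)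
            (fun _ _ => Nat.zero_le _) (mem_univ q)
      _ ≤ ∑ m ∈ range (m₁ * W + 1), ∑ q : Fin r, {p : ℕ | Pr W s₀ χ q p ∧ ∀ j, ∃ p' : ℕ, (p' : ℤ) = p + m * a j ∧ Pr W s₀ χ q p'}.ncard :=
          single_le_sum (f := fun m : ℕ => ∑ q : Fin r, {p : ℕ | Pr W s₀ χ q p ∧ ∀ j, ∃ p' : ℕ, (p' : ℤ) = p + m * a j ∧ Pr W s₀ χ q p'}.ncard)
            (fun _ _ => Nat.zero_le _) (mem_range.2 (Nat.lt_succ_iff.2 hm2))
      _ ≤ _ := single_le_sum (f := fun a : Fin k → ℤ => ∑ m ∈ range (m₁ * W + 1), ∑ q : Fin r,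
            {p : ℕ | Pr W s₀ χ q p ∧ ∀ j, ∃ p' : ℕ, (p' : ℤ) = p + m * a j ∧ Pr W s₀ χ q p'}.ncard) (fun _ _ => Nat.zero_le _) ha'
  have h3 : (cnt W s₀ χ q (fun j => m * a j) X : ℝ) ≤ C := by exact_mod_cast h1.trans h2
  have hl0 : 0 ≤ Real.log (X : ℝ) ^ D := pow_nonneg (Real.log_natCast_nonneg X) _
  have hC0 : (0 : ℝ) ≤ C := Nat.cast_nonneg _
  have h4 : (X : ℝ) ≤ 1 / (C + 1) * X * C :=
    hq.trans ((mul_le_mul_of_nonneg_left h3 hl0).trans (mul_le_mul_of_nonneg_right hX1 hC0))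
  have h5 : 1 / ((C : ℝ) + 1) * X * C < X := by
    rw [div_mul_eq_mul_div, one_mul, div_mul_eq_mul_div, div_lt_iff₀ (by positivity)]
    nlinarith
  linarith

end Pool.Agent.H48.EP
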