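import Pool.Agent.H48.EP.Ban
import Pool.Agent.H62.EX.Ob2

/-!
# [H48 EP CUB] Bounded dilations at every scale and in every cube
-/

set_option autoImplicit false

namespace Pool.Agent.H48.EP

open Finset Filter Pool.Agent.H34.RR Pool.Agent.H61.UN Pool.Agent.H21.MT Pool.Agent.H92.MM

/-- many windows with many blocks containing exactly one prime, for every configuration -/
theorem many_primes (m : ℕ) (hm : 1 ≤ m) : ∃ s : ℕ, 1 ≤ s ∧ ∀ A : ℕ, ∃ wd : ℕ, ∀ R : ℕ, 0 < R → primorial wd ∣ R →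
    ∀ᶠ X : ℕ in atTop, ∀ v : Fin m × Fin s → ℕ, Function.Injective v → (∀ i, (v i : ℝ) ≤ Real.log X ^ A) →
      (∀ i, Nat.Coprime (v i) R) → (X : ℝ) ≤ Real.log X ^ (m * s + 2) *
        {N : ℕ | (N : ℝ) ≤ X / 4 ∧ R ∣ N ∧ 1 < wc (fun _ => 100 / (m : ℝ)) v N}.ncard := by
  classical
  have hm0 : (0 : ℝ) < m := by exact_mod_cast hm
  obtain ⟨s, a, hs, -, -, h⟩ := Pool.Agent.H62.EX.box_class2 m hm
  refine ⟨s, hs, fun A => ?_⟩
  obtain ⟨wd, h⟩ := h (A + 1)
  refine ⟨wd, fun R hR hRw => ?_⟩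
  obtain ⟨c, hc, hx⟩ := h (fun _ => 100 / (m : ℝ)) (fun _ => by positivity) (by
    rw [sum_const, card_univ, Fintype.card_fin, nsmul_eq_mul, mul_div_cancel₀ _ hm0.ne']) R hR hRw
  have hlog : Tendsto (fun X : ℕ => Real.log (X : ℝ)) atTop atTop := Real.tendsto_log_atTop.comp tendsto_natCast_atTop_atTop
  -- x = X / (4 log X)
  have hxt : Tendsto (fun X : ℕ => (X : ℝ) / (4 * Real.log X)) atTop atTop := by
    have h1 : Tendsto (fun x : ℝ => x / Real.log x) atTop atTop := by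
      have h2 : Tendsto (fun x : ℝ => Real.log x / x) atTop (nhds 0) := by
        have := (Real.isLittleO_pow_log_id_atTop (n := 1)).tendsto_div_nhds_zero
        simpa using this
      have h6 : ∀ᶠ x : ℝ in atTop, 0 < Real.log x / x := by
        filter_upwards [eventually_gt_atTop 1] with x hx
        have := Real.log_pos hx
        positivity
      have h7 := (tendsto_inv_nhdsGT_zero (𝕜 := ℝ)).comp (tendsto_nhdsWithin_iff.2 ⟨h2, h6⟩)
      refine h7.congr fun x => ?_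
      show (Real.log x / x)⁻¹ = _
      rw [inv_div]
    have h2 := (h1.comp tendsto_natCast_atTop_atTop).atTop_div_const (show (0 : ℝ) < 4 by norm_num)
    refine h2.congr fun X => ?_
    show (X : ℝ) / Real.log X / 4 = _
    rw [div_div, mul_comm]
  -- the Gaussian tail
  have htail : ∀ᶠ X : ℕ in atTop, 120 * Real.exp (-(Real.log (Real.log X)) ^ 2 / 4) * Real.log X ^ (m * s) ≤ c / 2 := by
    have hll : Tendsto (fun X : ℕ => Real.log (Real.log (X : ℝ))) atTop atTop := Real.tendsto_log_atTop.comp hlog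
    filter_upwards [hlog.eventually_ge_atTop 1, hll.eventually_ge_atTop (4 * (m * s : ℕ) + 4),
      hlog.eventually_ge_atTop (240 / c)] with X h1 h2 h3
    have hl0 : 0 < Real.log (X : ℝ) := by linarith
    obtain ⟨y, hy⟩ : ∃ y : ℝ, y = Real.log (Real.log (X : ℝ)) := ⟨_, rfl⟩
    rw [← hy] at h2 ⊢
    have hms : (0 : ℝ) ≤ ((m * s : ℕ) : ℝ) := Nat.cast_nonneg _
    have h4 : Real.log (X : ℝ) ^ (m * s) = Real.exp ((m * s : ℕ) * y) := by
      rw [hy, ← Real.rpow_natCast, Real.rpow_def_of_pos hl0, mul_comm]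
    have h5 : Real.exp (-y ^ 2 / 4) * Real.exp ((m * s : ℕ) * y) ≤ Real.exp (-y) := by
      rw [← Real.exp_add]
      apply Real.exp_le_exp.2
      nlinarith
    have h6 : Real.exp (-y) = 1 / Real.log (X : ℝ) := by
      rw [Real.exp_neg, hy, Real.exp_log hl0, one_div]
    rw [h4, mul_assoc]
    calc 120 * (Real.exp (-y ^ 2 / 4) * Real.exp ((m * s : ℕ) * y)) ≤ 120 * (1 / Real.log (X : ℝ)) := by
          rw [← h6]
          linarith
      _ ≤ c / 2 := by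
          rw [mul_one_div, div_le_iff₀ hl0]
          rw [div_le_iff₀ hc] at h3
          linarith
  filter_upwards [hxt.eventually hx, hxt.eventually wN_mass, htail, hlog.eventually_ge_atTop (8 / c), hlog.eventually_ge_atTop 1,
    hxt.eventually_ge_atTop 4, eventually_ge_atTop 1,
    hxt.eventually (Real.tendsto_log_atTop.eventually_ge_atTop 1),
    (hlog.eventually_ge_atTop ((2 : ℝ) ^ (A + 1))),
    hxt.eventually (Real.tendsto_log_atTop.eventually_ge_atTop 1), (show ∀ᶠ X : ℕ in atTop, Real.log (X : ℝ) / 2 ≤ Real.log ((X : ℝ) / (4 * Real.log X)) from by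
      have h1 := (Real.isLittleO_log_id_atTop.bound (show (0 : ℝ) < 1 / 8 by norm_num))
      filter_upwards [hlog.eventually h1, hlog.eventually_ge_atTop (8 * Real.log 4), hlog.eventually_ge_atTop 1, eventually_ge_atTop 1] with X h2 h3 h4 h5
      have h6 : 0 < Real.log (X : ℝ) := by linarith
      have h7 : (0 : ℝ) < X := by exact_mod_cast h5
      rw [Real.log_div h7.ne' (by positivity), Real.log_mul (by norm_num) h6.ne']
      rw [Real.norm_of_nonneg (Real.log_nonneg h4), id, Real.norm_of_nonneg h6.le] at h2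
      linarith)] with X hX1 hX2 hX3 hX4 hX5 hX6 hX7 hX8 hX9 _ hX10
  intro v hv hvA hvR
  have hX0 : (0 : ℝ) < X := by exact_mod_cast hX7
  have hl0 : 0 < Real.log (X : ℝ) := by linarith
  obtain ⟨x, hxd⟩ : ∃ x : ℝ, x = (X : ℝ) / (4 * Real.log X) := ⟨_, rfl⟩
  rw [← hxd] at hX1 hX2 hX6 hX8 hX10
  have hx0 : 0 < x := by linarith
  have hxy : x * Real.log X = X / 4 := by
    rw [hxd]
    field_simp
  have hlx : Real.log x ≤ Real.log X := by
    refine Real.log_le_log hx0 ?_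
    rw [hxd]
    refine div_le_self hX0.le ?_
    linarith
  have hlx0 : 0 < Real.log x := by linarith
  obtain ⟨L, hL⟩ : ∃ L : ℕ, L = ∑ p, v p + 1 := ⟨_, rfl⟩
  -- a window length which works
  obtain ⟨L, hL1, hvL, hLx⟩ : ∃ L : ℕ, 1 ≤ L ∧ (∀ p, v p ≤ L) ∧ (L : ℝ) ≤ Real.log x ^ (A + 1) := by
    have h1 : (1 : ℝ) ≤ Real.log X ^ A := one_le_pow₀ hX5
    refine ⟨⌊Real.log (X : ℝ) ^ A⌋₊, Nat.le_floor (by exact_mod_cast h1), fun p => Nat.le_floor (hvA p), ?_⟩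
    refine (Nat.floor_le (by positivity)).trans ?_
    have h2 : (Real.log X / 2) ^ (A + 1) ≤ Real.log x ^ (A + 1) := pow_le_pow_left₀ (by positivity) hX10 _
    refine le_trans ?_ h2
    rw [div_pow, le_div_iff₀ (by positivity), pow_succ (Real.log (X : ℝ))]
    exact mul_le_mul_of_nonneg_left hX9 (by positivity)
  have h2 := hX1 L hL1 hLx v (mem_IJ.2 ⟨hvL, hv⟩) hvR
  obtain ⟨F, hF⟩ : ∃ F : Finset ℕ, F = (Tx x).filter (fun N => R ∣ N ∧ (∀ i, Rgh (x ^ a) (N + v i)) ∧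
    1 < wc (fun _ => 100 / (m : ℝ)) v N) := ⟨_, rfl⟩
  rw [← hF] at h2
  have hsplit := sum_filter_add_sum_filter_not F (fun N : ℕ => (N : ℝ) ≤ X / 4) (fun N => gw x N)
  have hA : ∑ N ∈ F.filter (fun N : ℕ => (N : ℝ) ≤ X / 4), gw x N ≤
      {N : ℕ | (N : ℝ) ≤ X / 4 ∧ R ∣ N ∧ 1 < wc (fun _ => 100 / (m : ℝ)) v N}.ncard := by
    calc ∑ N ∈ F.filter (fun N : ℕ => (N : ℝ) ≤ X / 4), gw x N ≤ ∑ _N ∈ F.filter (fun N : ℕ => (N : ℝ) ≤ X / 4), (1 : ℝ) := by
          refine sum_le_sum fun N _ => ?_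
          unfold gw
          rw [Real.exp_le_one_iff]
          have := sq_nonneg (Real.log (N / x))
          linarith
      _ = ((F.filter (fun N : ℕ => (N : ℝ) ≤ X / 4)).card : ℝ) := by rw [sum_const, nsmul_eq_mul, mul_one]
      _ ≤ _ := by
          have hfin : {N : ℕ | (N : ℝ) ≤ X / 4 ∧ R ∣ N ∧ 1 < wc (fun _ => 100 / (m : ℝ)) v N}.Finite := by
            refine (Set.finite_Iic X).subset fun N hN => ?_
            have h3 : (N : ℝ) ≤ X := hN.1.trans (by linarith)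
            exact_mod_cast h3
          rw [← Set.ncard_coe_finset]
          have h4 : (↑(F.filter (fun N : ℕ => (N : ℝ) ≤ X / 4)) : Set ℕ) ⊆
              {N : ℕ | (N : ℝ) ≤ X / 4 ∧ R ∣ N ∧ 1 < wc (fun _ => 100 / (m : ℝ)) v N} := by
            intro N hN
            rw [mem_coe, mem_filter, hF, mem_filter] at hN
            exact ⟨hN.2, hN.1.2.1, hN.1.2.2.2⟩
          exact_mod_cast Set.ncard_le_ncard h4 hfin
  have hB : ∑ N ∈ F.filter (fun N : ℕ => ¬ (N : ℝ) ≤ X / 4), gw x N ≤ Real.exp (-(Real.log (Real.log X)) ^ 2 / 4) * (120 * x) := by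
    calc ∑ N ∈ F.filter (fun N : ℕ => ¬ (N : ℝ) ≤ X / 4), gw x N ≤
        ∑ N ∈ F.filter (fun N : ℕ => ¬ (N : ℝ) ≤ X / 4), Real.exp (-(Real.log (Real.log X)) ^ 2 / 4) * wN x N := by
          refine sum_le_sum fun N hN => ?_
          have h3 := (mem_filter.1 hN).2
          rw [not_le, ← hxy] at h3
          have h4 : Real.log X ≤ N / x := by
            rw [le_div_iff₀ hx0]
            linarith
          have h5 : Real.log (Real.log X) ≤ Real.log (N / x) := Real.log_le_log hl0 h4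
          have h6 : 0 ≤ Real.log (Real.log X) := Real.log_nonneg hX5
          unfold gw wN
          rw [← Real.exp_add]
          apply Real.exp_le_exp.2
          nlinarith
      _ = Real.exp (-(Real.log (Real.log X)) ^ 2 / 4) * ∑ N ∈ F.filter (fun N : ℕ => ¬ (N : ℝ) ≤ X / 4), wN x N := by
          rw [mul_sum]
      _ ≤ Real.exp (-(Real.log (Real.log X)) ^ 2 / 4) * ∑ N ∈ Win x, wN x N := by
          refine mul_le_mul_of_nonneg_left ?_ (Real.exp_pos _).le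
          refine sum_le_sum_of_subset_of_nonneg ?_ fun N _ _ => (wN_pos x N).le
          intro N hN
          rw [mem_filter, hF, mem_filter] at hN
          have h3 := hN.1.1
          unfold Tx at h3
          unfold Win
          rw [mem_Ioc] at h3 ⊢
          refine ⟨h3.1, h3.2.trans (Nat.floor_le_floor ?_)⟩
          rw [← Real.rpow_natCast x 2]
          refine Real.rpow_le_rpow_of_exponent_le (by linarith) ?_
          push_cast
          norm_num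
      _ ≤ _ := mul_le_mul_of_nonneg_left hX2.2 (Real.exp_pos _).le
  rw [← hsplit] at h2
  have h3 : c * x / Real.log X ^ (m * s) ≤ c * x / Real.log x ^ (m * s) := by
    refine div_le_div_of_nonneg_left (by positivity) (by positivity) ?_
    exact pow_le_pow_left₀ hlx0.le hlx _
  have h4 : Real.exp (-(Real.log (Real.log X)) ^ 2 / 4) * (120 * x) ≤ c / 2 * x / Real.log X ^ (m * s) := by
    rw [le_div_iff₀ (by positivity)]
    have := mul_le_mul_of_nonneg_right hX3 hx0.le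
    nlinarith
  obtain ⟨Q, hQ⟩ : ∃ Q : ℝ, Q = ({N : ℕ | (N : ℝ) ≤ X / 4 ∧ R ∣ N ∧ 1 < wc (fun _ => 100 / (m : ℝ)) v N}.ncard : ℝ) := ⟨_, rfl⟩
  rw [← hQ] at hA ⊢
  have h5 : c / 2 * x / Real.log X ^ (m * s) ≤ Q := by
    have h6 : c * x / Real.log X ^ (m * s) = c / 2 * x / Real.log X ^ (m * s) + c / 2 * x / Real.log X ^ (m * s) := by ring
    linarith
  rw [div_le_iff₀ (by positivity)] at h5
  have h6 : c / 8 * X ≤ Real.log X * (Q * Real.log X ^ (m * s)) := by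
    have h7 : Real.log X * (c / 2 * x) = c / 8 * X := by
      have : c / 8 * X = c / 2 * (x * Real.log X) := by rw [hxy]; ring
      rw [this]
      ring
    rw [← h7]
    exact mul_le_mul_of_nonneg_left h5 hl0.le
  have h7 : (X : ℝ) ≤ Real.log X * (c / 8 * X) := by
    rw [div_le_iff₀ hc] at hX4
    nlinarith
  calc (X : ℝ) ≤ Real.log X * (c / 8 * X) := h7
    _ ≤ Real.log X * (Real.log X * (Q * Real.log X ^ (m * s))) := mul_le_mul_of_nonneg_left h6 hl0.le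
    _ = Real.log X ^ (m * s + 2) * Q := by ring

open Classical in
/-- **bounded dilations at every scale in every cube** -/
theorem cubes (k r : ℕ) (hk : 1 ≤ k) : ∃ D : ℕ, ∀ A W s₀ : ℕ, 0 < W → Nat.Coprime s₀ W → ∃ m₀ : ℕ, ∀ ε : ℝ, 0 < ε → ∃ B : ℕ,
    ∀ (χ : ℕ → Fin r) (X z : ℕ) (b : Fin k → ℤ), B ≤ z → (z : ℝ) ≤ Real.log X ^ A → (∀ j, |(b j : ℝ)| ≤ Real.log X ^ A) →
      (((Fintype.piFinset (fun j : Fin k => Ioc (b j) (b j + z))).filter (fun a => ¬ ∃ m : ℕ, 1 ≤ m ∧ m ≤ m₀ ∧ ∃ q : Fin r,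
        (X : ℝ) ≤ Real.log X ^ D * (cnt W s₀ χ q (fun j => m * a j) X : ℝ))).card : ℝ) ≤ ε * (z : ℝ) ^ k := by
  rcases Nat.eq_zero_or_pos r with hr | hr
  · subst hr
    exact ⟨0, fun A W s₀ _ _ => ⟨0, fun ε _ => ⟨0, fun χ => (χ 0).elim0⟩⟩⟩
  have hr0 : (0 : ℝ) < r := by exact_mod_cast hr
  obtain ⟨S⟩ := sys_words k hk (1 / (100 * (r : ℝ))) (by positivity)
  obtain ⟨s, hs, hsv⟩ := many_primes S.m S.hm
  refine ⟨S.m * s + 3, fun A W s₀ hW hs₀ => ?_⟩
  obtain ⟨wd, hsv⟩ := hsv (A + 1)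
  obtain ⟨R, hRd⟩ : ∃ R : ℕ, R = W * primorial wd := ⟨_, rfl⟩
  have hR : 0 < R := by rw [hRd]; exact Nat.mul_pos hW (primorial_pos wd)
  have hRw : primorial wd ∣ R := by rw [hRd]; exact Dvd.intro_left _ rfl
  have hWR : W ∣ R := by rw [hRd]; exact Dvd.intro _ rfl
  have : NeZero W := ⟨hW.ne'⟩
  obtain ⟨ρ, hρ1, hρ2, hρ3⟩ := Nat.forall_exists_prime_gt_and_modEq R hW.ne' hs₀
  have hρR := Nat.coprime_of_lt_prime hR.ne' hρ1 hρ2
  refine ⟨R * S.n, fun ε hε => ?_⟩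
  obtain ⟨z₀, hz₀⟩ := one_conf S s hs ε hε
  obtain ⟨K, hK⟩ : ∃ K : ℕ, K = 2 * k * S.n + 1 := ⟨_, rfl⟩
  obtain ⟨C, hC⟩ : ∃ C : ℕ, C = ρ + R * (K + 2 * (k * S.n)) := ⟨_, rfl⟩
  obtain ⟨J, hJ⟩ : ∃ J : ℕ, J = Fintype.card (Fin r × Fin S.L × (Fin (k + 1) → Fin s)) := ⟨_, rfl⟩
  have hlog : Tendsto (fun X : ℕ => Real.log (X : ℝ)) atTop atTop := Real.tendsto_log_atTop.comp tendsto_natCast_atTop_atTop
  have hpow : ∀ᶠ X : ℕ in atTop, Real.log (X : ℝ) ^ (A + 1) ≤ 1 / 2 * X := by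
    have h1 := (Real.isLittleO_pow_log_id_atTop (n := A + 1)).bound (show (0 : ℝ) < 1 / 2 by norm_num)
    filter_upwards [tendsto_natCast_atTop_atTop.eventually h1, hlog.eventually_ge_atTop 0] with X h2 h3
    rw [Real.norm_of_nonneg (pow_nonneg h3 _)] at h2
    rw [id, Real.norm_of_nonneg (Nat.cast_nonneg _)] at h2
    exact h2
  obtain ⟨X1, hX1⟩ := eventually_atTop.1 ((hsv R hR hRw).and (hpow.and ((hlog.eventually_ge_atTop (C : ℝ)).and
    ((hlog.eventually_ge_atTop (J : ℝ)).and (hlog.eventually_ge_atTop 1)))))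
  refine ⟨z₀ + (⌈Real.log ((X1 : ℝ) + 3) ^ A⌉₊ + 1) + 1, fun χ X z b hz hzA hbA => ?_⟩
  have hzr : (⌈Real.log ((X1 : ℝ) + 3) ^ A⌉₊ : ℝ) + 1 ≤ z := by
    have : ⌈Real.log ((X1 : ℝ) + 3) ^ A⌉₊ + 1 ≤ z := by omega
    exact_mod_cast this
  have hlX0 : 0 ≤ Real.log (X : ℝ) := Real.log_natCast_nonneg X
  have hXX : X1 + 3 ≤ X := by
    by_contra hcon
    have h1 : Real.log (X : ℝ) ≤ Real.log ((X1 : ℝ) + 3) := by
      rcases Nat.eq_zero_or_pos X with h0 | h0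
      · rw [h0, Nat.cast_zero, Real.log_zero]
        exact Real.log_nonneg (by linarith [(Nat.cast_nonneg X1 : (0 : ℝ) ≤ X1)])
      · refine Real.log_le_log (by exact_mod_cast h0) ?_
        have h2 : X ≤ X1 + 3 := by omega
        exact_mod_cast h2
    have h2 := pow_le_pow_left₀ hlX0 h1 A
    have h3 := Nat.le_ceil (Real.log ((X1 : ℝ) + 3) ^ A)
    linarith
  obtain ⟨hsX, hX2, hX3, hX4, hX5⟩ := hX1 X (by omega)
  have hX0 : (0 : ℝ) < X := by
    have : 0 < X := by omega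
    exact_mod_cast this
  have hl0 : 0 < Real.log (X : ℝ) := by linarith
  by_contra hcon
  rw [not_le] at hcon
  obtain ⟨E, hE⟩ : ∃ E : Finset (Fin k → ℤ), E = (Fintype.piFinset (fun j : Fin k => Ioc (b j) (b j + z))).filter
      (fun a => ¬ ∃ m : ℕ, 1 ≤ m ∧ m ≤ R * S.n ∧ ∃ q : Fin r,
        (X : ℝ) ≤ Real.log X ^ (S.m * s + 3) * (cnt W s₀ χ q (fun j => m * a j) X : ℝ)) := ⟨_, rfl⟩
  rw [← hE] at hcon
  -- the translate
  obtain ⟨E', hE'⟩ : ∃ E' : Finset (Fin k → ℤ), E' = E.image (fun a => a - b) := ⟨_, rfl⟩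
  have hEc : E'.card = E.card := by
    rw [hE']
    exact card_image_of_injective _ (fun x y h => sub_left_injective h)
  have hEz : ∀ a ∈ E', ∀ i, |a i| ≤ z := by
    intro a ha i
    rw [hE', mem_image] at ha
    obtain ⟨a', ha', rfl⟩ := ha
    rw [hE, mem_filter, Fintype.mem_piFinset] at ha'
    have h1 := mem_Ioc.1 (ha'.1 i)
    rw [Pi.sub_apply, abs_le]
    constructor
    · have : (0 : ℤ) ≤ z := Nat.cast_nonneg _
      linarith [h1.1]
    · linarith [h1.2]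
  obtain ⟨u, hu0, hu1, hu2⟩ := hz₀ z (by omega) E' hEz (by rw [hEc]; exact hcon.le) (fun v => ∑ i, (S.c v i : ℤ) * b i)
  -- the bounds
  obtain ⟨β, hβ⟩ : ∃ β : ℕ, β = ⌊Real.log (X : ℝ) ^ A⌋₊ := ⟨_, rfl⟩
  have hzβ : z ≤ β := by
    rw [hβ]
    exact Nat.le_floor hzA
  have hβ1 : 1 ≤ β := by omega
  have hbβ : ∀ j, |b j| ≤ (β : ℤ) := by
    intro j
    have h1 : ((b j).natAbs : ℝ) ≤ Real.log X ^ A := by
      rw [Nat.cast_natAbs, Int.cast_abs]
      exact hbA j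
    have h2 : (b j).natAbs ≤ β := by
      rw [hβ]
      exact Nat.le_floor h1
    rw [Int.abs_eq_natAbs]
    exact_mod_cast h2
  have hτ : ∀ v : Fin S.m, |∑ i, (S.c v i : ℤ) * b i| ≤ ((k * S.n * β : ℕ) : ℤ) := by
    intro v
    refine (abs_sum_le_sum_abs _ _).trans ?_
    have h1 : ∀ i ∈ (univ : Finset (Fin k)), |(S.c v i : ℤ) * b i| ≤ ((S.n * β : ℕ) : ℤ) := by
      intro i _
      rw [abs_mul, Nat.abs_cast]
      push_cast
      exact mul_le_mul (by exact_mod_cast S.cle v i) (hbβ i) (abs_nonneg _) (Nat.cast_nonneg _)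
    refine (sum_le_card_nsmul _ _ _ h1).trans (le_of_eq ?_)
    rw [card_univ, Fintype.card_fin, nsmul_eq_mul]
    push_cast
    ring
  obtain ⟨w, hw⟩ : ∃ w : Fin S.m × Fin s → ℤ, w = fun p => u p + ∑ i, (S.c p.1 i : ℤ) * b i := ⟨_, rfl⟩
  have hw1 : Function.Injective w := by rw [hw]; exact hu1
  obtain ⟨Mb, hMb⟩ : ∃ Mb : ℤ, Mb = ((k * S.n * β : ℕ) : ℤ) := ⟨_, rfl⟩
  have hwM : ∀ p, 0 ≤ w p + Mb := by
    intro p
    have h1 := abs_le.1 (hτ p.1)
    have h2 := (hu0 p).1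
    rw [hw, hMb]
    dsimp only
    linarith [h1.1]
  have hwM2 : ∀ p, w p + Mb ≤ (((K + 2 * (k * S.n)) * β : ℕ) : ℤ) := by
    intro p
    have h1 := abs_le.1 (hτ p.1)
    have h2 := (hu0 p).2
    have h3 : (((2 * k * S.n + 1) * z : ℕ) : ℤ) ≤ ((K * β : ℕ) : ℤ) := by
      rw [← hK]
      exact_mod_cast Nat.mul_le_mul_left K hzβ
    rw [hw, hMb]
    dsimp only
    have h4 : (((K + 2 * (k * S.n)) * β : ℕ) : ℤ) = ((K * β : ℕ) : ℤ) + ((k * S.n * β : ℕ) : ℤ) + ((k * S.n * β : ℕ) : ℤ) := by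
      push_cast
      ring
    rw [h4]
    linarith [h1.2]
  obtain ⟨v, hv⟩ : ∃ v : Fin S.m × Fin s → ℕ, v = fun p => ρ + R * (w p + Mb).toNat := ⟨_, rfl⟩
  have hvz : ∀ p, (v p : ℤ) = ρ + R * (w p + Mb) := by
    intro p
    rw [hv]
    push_cast
    rw [Int.toNat_of_nonneg (hwM p)]
  have hRz : (0 : ℤ) < R := by exact_mod_cast hR
  have hv1 : Function.Injective v := by
    intro p p' hpp
    apply hw1
    have h1 : (v p : ℤ) = v p' := by rw [hpp]
    rw [hvz, hvz] at h1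
    have h2 : (R : ℤ) * (w p + Mb) = R * (w p' + Mb) := by linarith
    have h3 := mul_left_cancel₀ hRz.ne' h2
    linarith
  have hv2 : ∀ p, v p ≡ ρ [MOD R] := by
    intro p
    rw [hv]
    show (ρ + R * (w p + Mb).toNat) % R = ρ % R
    rw [Nat.add_mul_mod_self_left]
  have hv3 : ∀ p, Nat.Coprime (v p) R := by
    intro p
    have h4 : Nat.gcd ρ R = 1 := hρR
    show Nat.gcd (v p) R = 1
    rw [← h4]
    exact Nat.ModEq.gcd_eq (hv2 p)
  have hvC : ∀ p, v p ≤ C * β := by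
    intro p
    have h1 : (w p + Mb).toNat ≤ (K + 2 * (k * S.n)) * β := by
      have h2 := hwM2 p
      omega
    rw [hv, hC]
    calc ρ + R * (w p + Mb).toNat ≤ ρ * β + R * ((K + 2 * (k * S.n)) * β) :=
          Nat.add_le_add (Nat.le_mul_of_pos_right ρ hβ1) (Nat.mul_le_mul_left R h1)
      _ = (ρ + R * (K + 2 * (k * S.n))) * β := by ring
  have hvA : ∀ p, (v p : ℝ) ≤ Real.log X ^ (A + 1) := by
    intro p
    have h1 : (v p : ℝ) ≤ ((C * β : ℕ) : ℝ) := by exact_mod_cast hvC p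
    refine h1.trans ?_
    push_cast
    rw [pow_succ, mul_comm]
    refine mul_le_mul ?_ hX3 (Nat.cast_nonneg _) (by positivity)
    rw [hβ]
    exact Nat.floor_le (by positivity)
  have hv4 : ∀ (a : Fin S.L) (t : Fin (k + 1) → Fin s), ∃ a₁ ∈ E, ∀ i : Fin k,
      (v (S.e a i.succ, t i.succ) : ℤ) - (v (S.e a 0, t 0) : ℤ) = ((R * S.μ a : ℕ) : ℤ) * a₁ i := by
    intro a t
    obtain ⟨b', hb', hbd⟩ := hu2 a t
    rw [hE', mem_image] at hb'
    obtain ⟨a₁, ha₁, rfl⟩ := hb'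
    refine ⟨a₁, ha₁, fun i => ?_⟩
    rw [hvz, hvz, hw]
    have h1 := hbd i
    have h2 : ∑ j, (S.c (S.e a i.succ) j : ℤ) * b j = ∑ j, (S.c (S.e a 0) j : ℤ) * b j + S.μ a * b i := by
      rw [← sub_eq_iff_eq_add', ← sum_sub_distrib, sum_eq_single i]
      · rw [S.smp, if_pos rfl]
        push_cast
        ring
      · intro j _ hj
        rw [S.smp, if_neg (Ne.symm hj), Nat.add_zero, sub_self]
      · intro hh
        exact absurd (mem_univ _) hh
    dsimp only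
    rw [h2]
    rw [Pi.sub_apply] at h1
    push_cast
    linear_combination (R : ℤ) * h1
  -- primes
  have hmany := hsX v hv1 hvA hv3
  obtain ⟨𝒩, h𝒩⟩ : ∃ 𝒩 : Finset ℕ, 𝒩 = (range (X + 1)).filter (fun N : ℕ => (N : ℝ) ≤ X / 4 ∧ R ∣ N ∧
      1 < wc (fun _ => 100 / (S.m : ℝ)) v N) := ⟨_, rfl⟩
  have hmany2 : (X : ℝ) ≤ Real.log X ^ (S.m * s + 2) * 𝒩.card := by
    refine hmany.trans (le_of_eq ?_)
    congr 2
    rw [h𝒩, ← Set.ncard_coe_finset]
    congr 1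
    ext N
    rw [mem_coe, mem_filter]
    constructor
    · intro hN
      refine ⟨mem_range.2 (Nat.lt_succ_iff.2 ?_), hN⟩
      have h3 : (N : ℝ) ≤ X := hN.1.trans (by linarith)
      exact_mod_cast h3
    · intro hN
      exact hN.2
  have hp : ∀ N ∈ 𝒩, ∃ x : Fin r × Fin S.L × (Fin (k + 1) → Fin s), ∀ j, Pr W s₀ χ x.1 (N + v (S.e x.2.1 j, x.2.2 j)) := by
    intro N hN
    rw [h𝒩, mem_filter] at hN
    obtain ⟨-, -, hRN, hwc⟩ := hN
    obtain ⟨q, a, t, hat⟩ := pick hr S χ N v hwc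
    refine ⟨(q, a, t), fun j => ⟨(hat j).1, (hat j).2, ?_⟩⟩
    have h4 : N ≡ 0 [MOD W] := Nat.modEq_zero_iff_dvd.2 (hWR.trans hRN)
    have h6 := h4.add ((hv2 (S.e a j, t j)).of_dvd hWR)
    rw [Nat.zero_add] at h6
    exact h6.trans hρ3
  obtain ⟨x, hx⟩ : ∃ x : Fin r × Fin S.L × (Fin (k + 1) → Fin s), 𝒩.card ≤
      J * (𝒩.filter (fun N => ∀ j, Pr W s₀ χ x.1 (N + v (S.e x.2.1 j, x.2.2 j)))).card := by
    by_contra hcon2
    push Not at hcon2
    have hNe : Nonempty (Fin r × Fin S.L × (Fin (k + 1) → Fin s)) := by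
      obtain ⟨a, -, -⟩ := S.cov ⟨0, S.hm⟩
      exact ⟨(⟨0, hr⟩, a, fun _ => ⟨0, hs⟩)⟩
    have h1 : 𝒩.card ≤ ∑ x : Fin r × Fin S.L × (Fin (k + 1) → Fin s),
        (𝒩.filter (fun N => ∀ j, Pr W s₀ χ x.1 (N + v (S.e x.2.1 j, x.2.2 j)))).card := by
      refine (card_le_card ?_).trans card_biUnion_le
      intro N hN
      obtain ⟨x, hx⟩ := hp N hN
      rw [mem_biUnion]
      exact ⟨x, mem_univ _, mem_filter.2 ⟨hN, hx⟩⟩
    have h2 : ∑ x : Fin r × Fin S.L × (Fin (k + 1) → Fin s),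
        J * (𝒩.filter (fun N => ∀ j, Pr W s₀ χ x.1 (N + v (S.e x.2.1 j, x.2.2 j)))).card <
        ∑ _x : Fin r × Fin S.L × (Fin (k + 1) → Fin s), 𝒩.card :=
      sum_lt_sum_of_nonempty univ_nonempty fun x _ => hcon2 x
    rw [← mul_sum, sum_const, card_univ, ← hJ, smul_eq_mul] at h2
    exact absurd (Nat.mul_le_mul_left J h1) (not_le.2 h2)
  obtain ⟨q, a, t⟩ := x
  obtain ⟨a₁, ha₁, hd⟩ := hv4 a t
  have hbad := (mem_filter.1 (hE ▸ ha₁)).2
  apply hbad
  refine ⟨R * S.μ a, Nat.mul_pos hR (S.μpos a), Nat.mul_le_mul_left R (S.μle a), q, ?_⟩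
  have h1 : (𝒩.filter (fun N => ∀ j, Pr W s₀ χ q (N + v (S.e a j, t j)))).card ≤
      cnt W s₀ χ q (fun j => ((R * S.μ a : ℕ) : ℤ) * a₁ j) X := by
    unfold cnt
    rw [← Set.ncard_coe_finset]
    refine Set.ncard_le_ncard_of_injOn (fun N => N + v (S.e a 0, t 0)) ?_ (fun N _ N' _ h => Nat.add_right_cancel h) ?_
    · intro N hN
      rw [mem_coe, mem_filter, h𝒩, mem_filter] at hN
      obtain ⟨⟨-, hN4, -⟩, hN2⟩ := hN
      refine ⟨?_, hN2 0, fun j => ⟨N + v (S.e a j.succ, t j.succ), ?_, hN2 j.succ⟩⟩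
      · have h3 : ((N + v (S.e a 0, t 0) : ℕ) : ℝ) ≤ X := by
          push_cast
          linarith [hvA (S.e a 0, t 0)]
        exact_mod_cast h3
      · have h3 := hd j
        push_cast
        push_cast at h3
        linarith
    · exact (Set.finite_Iic X).subset fun p hp => hp.1
  have h2 : (𝒩.card : ℝ) ≤ J * (cnt W s₀ χ q (fun j => ((R * S.μ a : ℕ) : ℤ) * a₁ j) X : ℝ) := by
    have h3 : 𝒩.card ≤ J * cnt W s₀ χ q (fun j => ((R * S.μ a : ℕ) : ℤ) * a₁ j) X := hx.trans (Nat.mul_le_mul_left J h1)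
    exact_mod_cast h3
  calc (X : ℝ) ≤ Real.log X ^ (S.m * s + 2) * 𝒩.card := hmany2
    _ ≤ Real.log X ^ (S.m * s + 2) * (Real.log X * (cnt W s₀ χ q (fun j => ((R * S.μ a : ℕ) : ℤ) * a₁ j) X : ℝ)) := by
        refine mul_le_mul_of_nonneg_left (h2.trans ?_) (by positivity)
        exact mul_le_mul_of_nonneg_right hX4 (Nat.cast_nonneg _)
    _ = Real.log X ^ (S.m * s + 3) * (cnt W s₀ χ q (fun j => ((R * S.μ a : ℕ) : ℤ) * a₁ j) X : ℝ) := by ring

end Pool.Agent.H48.EP
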