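import Pool.Agent.H48.EP.Av

/-!
# [H48 EP DH] Density Hales-Jewett: definitions

`Combinatorics.Line`, `Combinatorics.Subspace` as in Mathlib.  `rp a x` replaces the letter `none` by `a`.
-/

set_option autoImplicit false

namespace Pool.Agent.H48.EP

open Finset Combinatorics

/-- density Hales-Jewett for the alphabet `α` at density `δ` -/
def DHJat (α : Type) [Fintype α] (δ : ℝ) : Prop :=
  ∃ n₀ : ℕ, ∀ (ι : Type) [Fintype ι] [DecidableEq ι], n₀ ≤ Fintype.card ι → ∀ A : Set (ι → α), δ ≤ dn A →
    ∃ l : Line α ι, ∀ a, l a ∈ A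

/-- replace `none` by `a` -/
def rp {α ι : Type} (a : α) (x : ι → Option α) : ι → α := fun i => (x i).getD a

/-- insensitive sets: `none` can be replaced by `a` and `a` by `none` -/
def Ins {α ι : Type} (a : α) (C : Set (ι → Option α)) : Prop := ∀ x y, rp a x = rp a y → x ∈ C → y ∈ C

/-- `C` is (up to `η`) a disjoint union of `d`-dimensional subspaces, in dual form: the mass in `C` of every function
which is nonpositive on all `d`-dimensional subspaces contained in `C` is at most `η` -/
def Part {α ι : Type} [Fintype α] [Fintype ι] [DecidableEq ι] (d : ℕ) (η : ℝ) (C : Set (ι → Option α)) : Prop :=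
  ∀ g : (ι → Option α) → ℝ, (∀ x, g x ≤ 1) →
    (∀ V : Subspace (Fin d) (Option α) ι, (∀ u, V u ∈ C) → ∑ u, g (V u) ≤ 0) → Ex (C.indicator g) ≤ η

end Pool.Agent.H48.EP
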