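import Pool.Agent.H48.EP.Sys

/-!
# [H48 EP SY2] The systems for `k = 1` and `k = 2` (corners theorem of Mathlib)

`k = 1`: points `0, …, m - 1` with `m > 1/δ + 1` (`c v = v`), simplices: all pairs `v < w` (`Fin L ≃` pairs), `μ = w - v`; linear.
`k = 2`: points: `(x, y)` with `x + y ≤ n`, simplices `(x,y), (x+d,y), (x,y+d)` with `d ≥ 1` (two of them share at most one point: the difference of two
points determines `d` and the two positions).  Dense: `corners_theorem_nat` of Mathlib gives `d ≠ 0` of any sign; to get `d > 0` apply it to `S ∩ (z - S)` for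
a `z` with many elements (average over `z ∈ [0, 2n]²`: at least `|S|²/(2n+1)²` elements): a corner with `d < 0` in `z - S` is one with `d > 0` in `S`.
(The triangle `x + y ≤ n` is symmetric enough: all three points are in `S`.)
-/

set_option autoImplicit false

namespace Pool.Agent.H48.EP

open Finset

/-- systems on arbitrary finite types -/
private theorem mkSys {k : ℕ} {δ : ℝ} (V Λ : Type) [Fintype V] [Nonempty V] [Fintype Λ] (n : ℕ)
    (e : Λ → Fin (k + 1) → V) (c : V → Fin k → ℕ) (μ : Λ → ℕ)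
    (inj : ∀ a, Function.Injective (e a))
    (lin : ∀ a b, ∀ i j i' j', i ≠ j → e a i = e b i' → e a j = e b j' → a = b)
    (cov : ∀ v, ∃ a i, e a i = v) (cle : ∀ v j, c v j ≤ n)
    (μpos : ∀ a, 1 ≤ μ a) (μle : ∀ a, μ a ≤ n)
    (smp : ∀ a i j, c (e a i.succ) j = c (e a 0) j + if i = j then μ a else 0)
    (dense : ∀ S : Finset V, δ * Fintype.card V ≤ S.card → ∃ a, ∀ i, e a i ∈ S) :
    Nonempty (Sys k δ) := by
  classical
  let f := Fintype.equivFin V
  let g := Fintype.equivFin Λ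
  refine ⟨{
    m := Fintype.card V
    L := Fintype.card Λ
    n := n
    e := fun a i => f (e (g.symm a) i)
    c := fun v => c (f.symm v)
    μ := fun a => μ (g.symm a)
    hm := Fintype.card_pos
    inj := fun a i j h => inj _ (f.injective h)
    lin := ?_
    cov := ?_
    cle := fun v j => cle _ j
    μpos := fun a => μpos _
    μle := fun a => μle _
    smp := ?_
    dense := ?_ }⟩
  · intro a b hab i j i' j' h1 h2
    by_contra hij
    exact hab (g.symm.injective (lin _ _ i j i' j' hij (f.injective h1) (f.injective h2)))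
  · intro v
    obtain ⟨a, i, h⟩ := cov (f.symm v)
    refine ⟨g a, i, ?_⟩
    rw [Equiv.symm_apply_apply, h, Equiv.apply_symm_apply]
  · intro a i j
    simp only [Equiv.symm_apply_apply]
    exact smp _ i j
  · intro S hS
    obtain ⟨a, ha⟩ := dense (S.map f.symm.toEmbedding) (by rw [Finset.card_map]; exact hS)
    refine ⟨g a, fun i => ?_⟩
    rw [Equiv.symm_apply_apply]
    have := ha i
    rw [Finset.mem_map_equiv] at this
    simpa using this

theorem sys_one (δ : ℝ) (hδ : 0 < δ) : Nonempty (Sys 1 δ) := by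
  classical
  obtain ⟨m₀, hm₀⟩ := exists_nat_gt (1 / δ)
  set m := m₀ + 2 with hm
  have hm1 : 1 < δ * m := by
    rw [div_lt_iff₀ hδ] at hm₀
    rw [hm]
    push_cast
    nlinarith
  refine mkSys (Fin m) {p : Fin m × Fin m // p.1 < p.2} m (fun p => ![p.1.1, p.1.2])
    (fun v _ => v) (fun p => p.1.2 - p.1.1) ?_ ?_ ?_ ?_ ?_ ?_ ?_ ?_
  · rintro ⟨⟨v, w⟩, h⟩ i j hij
    have hne : v ≠ w := ne_of_lt h
    fin_cases i <;> fin_cases j <;> simp_all
  · rintro ⟨⟨v, w⟩, h⟩ ⟨⟨v', w'⟩, h'⟩ i j i' j' hij h1 h2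
    have h3 : (v : ℕ) < w := h
    have h4 : (v' : ℕ) < w' := h'
    have : (v : ℕ) = v' ∧ (w : ℕ) = w' := by
      fin_cases i <;> fin_cases j <;> fin_cases i' <;> fin_cases j' <;>
        simp [Fin.ext_iff] at hij h1 h2 <;> omega
    apply Subtype.ext
    exact Prod.ext (Fin.ext this.1) (Fin.ext this.2)
  · intro v
    by_cases hv : (v : ℕ) = 0
    · refine ⟨⟨(v, ⟨1, by omega⟩), ?_⟩, 0, rfl⟩
      show (v : ℕ) < 1
      omega
    · refine ⟨⟨(⟨0, by omega⟩, v), ?_⟩, 1, rfl⟩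
      show 0 < (v : ℕ)
      omega
  · intro v j
    exact v.2.le
  · rintro ⟨⟨v, w⟩, h⟩
    have h3 : (v : ℕ) < w := h
    show 1 ≤ (w : ℕ) - v
    omega
  · rintro ⟨⟨v, w⟩, h⟩
    have h3 : (v : ℕ) < w := h
    have := w.2
    show (w : ℕ) - v ≤ m
    omega
  · rintro ⟨⟨v, w⟩, h⟩ i j
    have h3 : (v : ℕ) < w := h
    fin_cases i; fin_cases j
    show (w : ℕ) = v + if (0 : Fin 1) = 0 then (w : ℕ) - v else 0
    simp
    omega
  · intro S hS
    rw [Fintype.card_fin] at hS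
    have h1 : 1 < S.card := by
      have : (1 : ℝ) < S.card := lt_of_lt_of_le hm1 hS
      exact_mod_cast this
    obtain ⟨v, hv, w, hw, hvw⟩ := Finset.one_lt_card.1 h1
    rcases lt_or_gt_of_ne hvw with h | h
    · refine ⟨⟨(v, w), h⟩, fun i => ?_⟩
      fin_cases i
      · exact hv
      · exact hw
    · refine ⟨⟨(w, v), h⟩, fun i => ?_⟩
      fin_cases i
      · exact hw
      · exact hv

/-- positive corners -/
private theorem corner_pos (ε : ℝ) (hε : 0 < ε) : ∃ N₀ : ℕ, ∀ N, N₀ ≤ N → ∀ A : Finset (ℕ × ℕ),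
    A ⊆ range N ×ˢ range N → ε * N ^ 2 ≤ A.card →
      ∃ x y d : ℕ, 1 ≤ d ∧ (x, y) ∈ A ∧ (x + d, y) ∈ A ∧ (x, y + d) ∈ A := by
  classical
  refine ⟨cornersTheoremBound (ε ^ 2 / 4 / 9) + 1, fun N hN A hA hc => ?_⟩
  have hN1 : 1 ≤ N := (Nat.le_add_left _ _).trans hN
  have hN1' : (1 : ℝ) ≤ N := by exact_mod_cast hN1
  have h1 : ∀ a ∈ A ×ˢ A, (fun a : (ℕ × ℕ) × (ℕ × ℕ) => a.1 + a.2) a ∈
      range (2 * N) ×ˢ range (2 * N) := by
    rintro ⟨⟨p1, p2⟩, ⟨q1, q2⟩⟩ h
    rw [Finset.mem_product] at h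
    have h2 := hA h.1
    have h3 := hA h.2
    simp only [Finset.mem_product, Finset.mem_range] at h2 h3
    simp only [Finset.mem_product, Finset.mem_range, Prod.mk_add_mk]
    omega
  have hne : (range (2 * N) ×ˢ range (2 * N)).Nonempty := by
    refine ⟨(0, 0), ?_⟩
    simp only [Finset.mem_product, Finset.mem_range]
    omega
  have h2 : (range (2 * N) ×ˢ range (2 * N)).card • (ε ^ 2 / 4 * (N : ℝ) ^ 2) ≤ ((A ×ˢ A).card : ℝ) := by
    rw [Finset.card_product, Finset.card_product, Finset.card_range, nsmul_eq_mul]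
    push_cast
    have h3 : 0 ≤ ε * (N : ℝ) ^ 2 := by positivity
    nlinarith
  obtain ⟨z, -, hz⟩ := Finset.exists_le_card_fiber_of_nsmul_le_card_of_maps_to h1 hne h2
  set B := A.filter (fun p => p.1 ≤ z.1 ∧ p.2 ≤ z.2 ∧ (z.1 - p.1, z.2 - p.2) ∈ A) with hB
  have hcard : ((A ×ˢ A).filter (fun a => a.1 + a.2 = z)).card ≤ B.card := by
    refine Finset.card_le_card_of_injOn (fun a => a.1) ?_ ?_
    · rintro ⟨⟨p1, p2⟩, ⟨q1, q2⟩⟩ h
      rw [Finset.mem_coe, Finset.mem_filter, Finset.mem_product] at h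
      obtain ⟨⟨h3, h4⟩, h5⟩ := h
      show (p1, p2) ∈ (B : Set (ℕ × ℕ))
      have h6 : z = (p1 + q1, p2 + q2) := h5.symm
      rw [hB, h6, Finset.mem_coe, Finset.mem_filter]
      refine ⟨h3, by simp, by simp, ?_⟩
      simpa using h4
    · rintro ⟨⟨p1, p2⟩, ⟨q1, q2⟩⟩ h ⟨⟨p1', p2'⟩, ⟨q1', q2'⟩⟩ h' heq
      rw [Finset.mem_coe, Finset.mem_filter, Finset.mem_product] at h h'
      have h5 := h.2
      have h5' := h'.2
      rw [← h5'] at h5
      simp only [Prod.mk_add_mk, Prod.mk.injEq] at h5 heq ⊢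
      omega
  have hBc : ε ^ 2 / 4 * (N : ℝ) ^ 2 ≤ B.card := by
    refine hz.trans ?_
    exact_mod_cast hcard
  have hnot := corners_theorem_nat (ε := ε ^ 2 / 4) (by positivity) ((Nat.le_succ _).trans hN) B
    ((Finset.filter_subset _ _).trans hA) hBc
  unfold IsCornerFree at hnot
  push Not at hnot
  obtain ⟨x₁, y₁, x₂, y₂, hcor, hne⟩ := hnot
  have a1 := hcor.fst_fst_mem
  have a2 := hcor.fst_snd_mem
  have a3 := hcor.snd_fst_mem
  have a4 := hcor.add_eq_add
  rw [hB, Finset.mem_coe, Finset.mem_filter] at a1 a2 a3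
  rcases lt_or_gt_of_ne hne with h | h
  · refine ⟨x₁, y₁, x₂ - x₁, by omega, a1.1, ?_, ?_⟩
    · have : x₁ + (x₂ - x₁) = x₂ := by omega
      rw [this]; exact a3.1
    · have : y₁ + (x₂ - x₁) = y₂ := by omega
      rw [this]; exact a2.1
  · refine ⟨z.1 - x₁, z.2 - y₁, x₁ - x₂, by omega, a1.2.2.2, ?_, ?_⟩
    · have : z.1 - x₁ + (x₁ - x₂) = z.1 - x₂ := by
        have := a1.2.1
        have := a3.2.1
        omega
      rw [this]; exact a3.2.2.2
    · have : z.2 - y₁ + (x₁ - x₂) = z.2 - y₂ := by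
        have := a1.2.2.1
        have := a2.2.2.1
        omega
      rw [this]; exact a2.2.2.2

private theorem card_tri (n : ℕ) :
    (n + 1) ^ 2 ≤ 2 * Fintype.card {p : Fin (n + 1) × Fin (n + 1) // (p.1 : ℕ) + p.2 ≤ n} := by
  classical
  rw [Fintype.card_subtype]
  set T := Finset.univ.filter (fun p : Fin (n + 1) × Fin (n + 1) => (p.1 : ℕ) + p.2 ≤ n) with hT
  have h1 : (Finset.univ : Finset (Fin (n + 1) × Fin (n + 1))) ⊆
      T ∪ T.image (fun p => (Fin.rev p.1, Fin.rev p.2)) := by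
    rintro ⟨x, y⟩ _
    rw [Finset.mem_union, Finset.mem_image]
    by_cases h : (x : ℕ) + y ≤ n
    · left
      exact Finset.mem_filter.2 ⟨Finset.mem_univ _, h⟩
    · right
      refine ⟨(Fin.rev x, Fin.rev y), Finset.mem_filter.2 ⟨Finset.mem_univ _, ?_⟩, ?_⟩
      · have := x.2
        have := y.2
        show ((Fin.rev x : Fin _) : ℕ) + ((Fin.rev y : Fin _) : ℕ) ≤ n
        rw [Fin.val_rev, Fin.val_rev]
        omega
      · simp
  have h2 := Finset.card_le_card h1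
  have h3 := Finset.card_union_le T (T.image (fun p => (Fin.rev p.1, Fin.rev p.2)))
  have h4 := Finset.card_image_le (s := T) (f := fun p => (Fin.rev p.1, Fin.rev p.2))
  rw [Finset.card_univ, Fintype.card_prod, Fintype.card_fin] at h2
  nlinarith

/-- the triangle -/
private abbrev Tr (n : ℕ) : Type := {p : Fin (n + 1) × Fin (n + 1) // (p.1 : ℕ) + p.2 ≤ n}

/-- the simplices of the triangle -/
private abbrev Sx (n : ℕ) : Type :=
  {t : Fin (n + 1) × Fin (n + 1) × Fin (n + 1) // (t.1 : ℕ) + t.2.1 + t.2.2 ≤ n ∧ 1 ≤ (t.2.2 : ℕ)}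

/-- the vertices of a simplex -/
private def vx (n : ℕ) (t : Sx n) (i : Fin 3) : Tr n :=
  ⟨(⟨t.1.1 + (if i = 1 then (t.1.2.2 : ℕ) else 0), by have := t.2.1; split_ifs <;> omega⟩,
    ⟨t.1.2.1 + (if i = 2 then (t.1.2.2 : ℕ) else 0), by have := t.2.1; split_ifs <;> omega⟩), by
    have := t.2.1
    show ((t.1.1 : ℕ) + (if i = 1 then (t.1.2.2 : ℕ) else 0)) +
      (t.1.2.1 + (if i = 2 then (t.1.2.2 : ℕ) else 0)) ≤ n
    split_ifs with h1 h2
    · rw [h1] at h2
      exact absurd h2 (by decide)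
    all_goals omega⟩

private theorem vx1 {n : ℕ} {t t' : Sx n} {i j : Fin 3} (h : vx n t i = vx n t' j) :
    (t.1.1 : ℕ) + (if i = 1 then (t.1.2.2 : ℕ) else 0) =
      t'.1.1 + (if j = 1 then (t'.1.2.2 : ℕ) else 0) :=
  congrArg (fun p : Tr n => (p.1.1 : ℕ)) h

private theorem vx2 {n : ℕ} {t t' : Sx n} {i j : Fin 3} (h : vx n t i = vx n t' j) :
    (t.1.2.1 : ℕ) + (if i = 2 then (t.1.2.2 : ℕ) else 0) =
      t'.1.2.1 + (if j = 2 then (t'.1.2.2 : ℕ) else 0) :=
  congrArg (fun p : Tr n => (p.1.2 : ℕ)) h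

private theorem num_inj (x y d : ℕ) (hd : 1 ≤ d) (i j : Fin 3)
    (h1 : x + (if i = 1 then d else 0) = x + (if j = 1 then d else 0))
    (h2 : y + (if i = 2 then d else 0) = y + (if j = 2 then d else 0)) : i = j := by
  fin_cases i <;> fin_cases j <;> simp at h1 h2 ⊢ <;> omega

private theorem num_lin (x y d x' y' d' : ℕ) (hd : 1 ≤ d) (hd' : 1 ≤ d') (i j i' j' : Fin 3)
    (hij : i ≠ j)
    (h1 : x + (if i = 1 then d else 0) = x' + (if i' = 1 then d' else 0))
    (h2 : y + (if i = 2 then d else 0) = y' + (if i' = 2 then d' else 0))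
    (h3 : x + (if j = 1 then d else 0) = x' + (if j' = 1 then d' else 0))
    (h4 : y + (if j = 2 then d else 0) = y' + (if j' = 2 then d' else 0)) :
    x = x' ∧ y = y' ∧ d = d' := by
  fin_cases i <;> fin_cases j <;> simp at hij <;> fin_cases i' <;> fin_cases j' <;>
    simp at h1 h2 h3 h4 <;> omega

theorem sys_two (δ : ℝ) (hδ : 0 < δ) : Nonempty (Sys 2 δ) := by
  classical
  obtain ⟨N₀, hN₀⟩ := corner_pos (δ / 2) (by positivity)
  set n := N₀ + 1 with hn
  have hne : Nonempty (Tr n) := ⟨⟨(0, 0), by simp⟩⟩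
  refine mkSys (Tr n) (Sx n) n (vx n)
    (fun v => ![v.1.1, v.1.2]) (fun t => t.1.2.2) ?_ ?_ ?_ ?_ ?_ ?_ ?_ ?_
  · intro t i j hij
    exact num_inj _ _ _ t.2.2 i j (vx1 hij) (vx2 hij)
  · intro t t' i j i' j' hij e1 e2
    have := num_lin _ _ _ _ _ _ t.2.2 t'.2.2 i j i' j' hij (vx1 e1) (vx2 e1) (vx1 e2) (vx2 e2)
    apply Subtype.ext
    exact Prod.ext (Fin.ext this.1) (Prod.ext (Fin.ext this.2.1) (Fin.ext this.2.2))
  · rintro ⟨⟨x, y⟩, h⟩
    have h1 : (x : ℕ) + y ≤ n := h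
    by_cases h2 : (x : ℕ) + y < n
    · refine ⟨⟨(x, y, ⟨1, by omega⟩), ?_, le_refl 1⟩, 0, ?_⟩
      · show (x : ℕ) + y + 1 ≤ n
        omega
      · apply Subtype.ext
        refine Prod.ext (Fin.ext ?_) (Fin.ext ?_)
        · show (x : ℕ) + 0 = x
          omega
        · show (y : ℕ) + 0 = y
          omega
    · by_cases h3 : 1 ≤ (x : ℕ)
      · refine ⟨⟨(⟨x - 1, by omega⟩, y, ⟨1, by omega⟩), ?_, le_refl 1⟩, 1, ?_⟩
        · show (x : ℕ) - 1 + y + 1 ≤ n
          omega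
        · apply Subtype.ext
          refine Prod.ext (Fin.ext ?_) (Fin.ext ?_)
          · show (x : ℕ) - 1 + 1 = x
            omega
          · show (y : ℕ) + 0 = y
            omega
      · refine ⟨⟨(x, ⟨y - 1, by omega⟩, ⟨1, by omega⟩), ?_, le_refl 1⟩, 2, ?_⟩
        · show (x : ℕ) + (y - 1) + 1 ≤ n
          omega
        · apply Subtype.ext
          refine Prod.ext (Fin.ext ?_) (Fin.ext ?_)
          · show (x : ℕ) + 0 = x
            omega
          · show (y : ℕ) - 1 + 1 = y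
            omega
  · rintro ⟨⟨x, y⟩, h⟩ j
    have hx := x.2
    have hy := y.2
    fin_cases j
    · show (x : ℕ) ≤ n
      omega
    · show (y : ℕ) ≤ n
      omega
  · rintro ⟨⟨x, y, d⟩, h, h'⟩
    exact h'
  · rintro ⟨⟨x, y, d⟩, h, h'⟩
    have := d.2
    show (d : ℕ) ≤ n
    omega
  · rintro ⟨⟨x, y, d⟩, h, h'⟩ i j
    fin_cases i <;> fin_cases j <;> simp [vx]
  · intro S hS
    set A : Finset (ℕ × ℕ) := S.image (fun p => ((p.1.1 : ℕ), (p.1.2 : ℕ))) with hA
    have hcard : A.card = S.card := by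
      refine Finset.card_image_of_injective _ ?_
      rintro ⟨⟨x, y⟩, h⟩ ⟨⟨x', y'⟩, h'⟩ he
      simp only [Prod.mk.injEq] at he
      apply Subtype.ext
      exact Prod.ext (Fin.ext he.1) (Fin.ext he.2)
    have hsub : A ⊆ range (n + 1) ×ˢ range (n + 1) := by
      intro p hp
      obtain ⟨q, -, rfl⟩ := Finset.mem_image.1 hp
      simp only [Finset.mem_product, Finset.mem_range]
      exact ⟨q.1.1.2, q.1.2.2⟩
    have hdens : δ / 2 * ((n + 1 : ℕ) : ℝ) ^ 2 ≤ A.card := by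
      rw [hcard]
      refine le_trans ?_ hS
      have h1 := card_tri n
      have h2 : (((n + 1 : ℕ) : ℝ)) ^ 2 ≤ 2 * (Fintype.card (Tr n) : ℝ) := by
        exact_mod_cast h1
      nlinarith
    obtain ⟨x, y, d, hd, m1, m2, m3⟩ := hN₀ (n + 1) (by omega) A hsub hdens
    obtain ⟨p, hp, hp'⟩ := Finset.mem_image.1 m1
    obtain ⟨q, hq, hq'⟩ := Finset.mem_image.1 m2
    obtain ⟨r, hr, hr'⟩ := Finset.mem_image.1 m3
    simp only [Prod.mk.injEq] at hp' hq' hr'
    have hq2 : (q.1.1 : ℕ) + q.1.2 ≤ n := q.2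
    refine ⟨⟨(p.1.1, p.1.2, ⟨d, by omega⟩), ?_, hd⟩, fun i => ?_⟩
    · show (p.1.1 : ℕ) + p.1.2 + d ≤ n
      omega
    · have hall : ∀ (w : Tr n) (i : Fin 3), w ∈ S →
          (w.1.1 : ℕ) = p.1.1 + (if i = 1 then d else 0) →
          (w.1.2 : ℕ) = p.1.2 + (if i = 2 then d else 0) →
          vx n ⟨(p.1.1, p.1.2, ⟨d, by omega⟩), (by show (p.1.1 : ℕ) + p.1.2 + d ≤ n; omega), hd⟩ i ∈ S := by
        intro w i hw h1 h2
        have : w = vx n ⟨(p.1.1, p.1.2, ⟨d, by omega⟩), (by show (p.1.1 : ℕ) + p.1.2 + d ≤ n; omega), hd⟩ i := by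
          apply Subtype.ext
          exact Prod.ext (Fin.ext h1) (Fin.ext h2)
        rw [← this]
        exact hw
      fin_cases i
      · exact hall p 0 hp (by simp) (by simp)
      · exact hall q 1 hq (by simp; omega) (by simp; omega)
      · exact hall r 2 hr (by simp; omega) (by simp; omega)

end Pool.Agent.H48.EP
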