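import Pool.Agent.H48.EP.Fn1
import Pool.Agent.H48.EP.Abn
import Pool.Agent.H48.EP.Sy2
import Pool.Agent.H48.EP.SyW
import Pool.Agent.H62.EX.Scs

/-!
# [H48 EP FN] THEOREM E+: almost all tuples, bounded dilation, every scale
-/

set_option autoImplicit false

namespace Pool.Agent.H48.EP

open Finset Filter Pool.Agent.H34.RR Pool.Agent.H61.UN

open Classical in
/-- **THEOREM E+** -/
def ThmEP (k : ℕ) : Prop := ∀ r : ℕ, ∃ D : ℕ, ∀ A W s₀ : ℕ, 0 < W → Nat.Coprime s₀ W → ∃ m₀ : ℕ, ∀ ε : ℝ, 0 < ε →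
  ∃ d B : ℝ, 0 < d ∧ ∀ (χ : ℕ → Fin r) (X z : ℕ), B ≤ z → (z : ℝ) ≤ Real.log X ^ A →
    (((Fintype.piFinset (fun _ : Fin k => Icc (-(z : ℤ)) z)).filter (fun a => ¬ ∃ m : ℕ, 1 ≤ m ∧ m ≤ m₀ ∧ ∃ q : Fin r,
      d * (min 1 (z / Real.log X)) ^ D * X ≤ Real.log X ^ (k + 1) * (cnt W s₀ χ q (fun j => m * a j) X : ℝ))).card : ℝ) ≤
        ε * (z : ℝ) ^ k

private theorem class_exists (W s₀ R : ℕ) (hW : 0 < W) (hs : Nat.Coprime s₀ W) (hR : 0 < R) (hWR : W ∣ R) :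
    ∃ ρ : ℕ, ρ < R ∧ Nat.Coprime ρ R ∧ ρ ≡ s₀ [MOD W] := by
  have : NeZero W := ⟨hW.ne'⟩
  obtain ⟨p, hp1, hp2, hp3⟩ := Nat.forall_exists_prime_gt_and_modEq R hW.ne' hs
  have h1 := Nat.coprime_of_lt_prime hR.ne' hp1 hp2
  refine ⟨p % R, Nat.mod_lt _ hR, ?_, ?_⟩
  · show Nat.gcd (p % R) R = 1
    have h2 : Nat.gcd p R = 1 := h1
    rw [← h2]
    exact Nat.ModEq.gcd_eq (Nat.mod_modEq p R)
  · exact ((Nat.mod_modEq p R).of_dvd hWR).trans hp3

theorem thmEP_of_sys (k : ℕ) (h : ∀ δ : ℝ, 0 < δ → Nonempty (Sys k δ)) : ThmEP k := by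
  classical
  intro r
  rcases Nat.eq_zero_or_pos r with hr | hr
  · subst hr
    exact ⟨0, fun A W s₀ _ _ => ⟨0, fun ε _ => ⟨1, 1, one_pos, fun χ => (χ 0).elim0⟩⟩⟩
  have hr0 : (0 : ℝ) < r := by exact_mod_cast hr
  obtain ⟨S⟩ := h (1 / (100 * (r : ℝ))) (by positivity)
  have hm0 : (0 : ℝ) < S.m := by exact_mod_cast S.hm
  obtain ⟨s, hs, hsv⟩ := Pool.Agent.H62.EX.sieveB S.m S.hm (k + 1)
  refine ⟨2 * (S.m * s), fun A W s₀ hW hs₀ => ?_⟩
  obtain ⟨wd, hsv⟩ := hsv (A + 1)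
  obtain ⟨R, hRd⟩ : ∃ R : ℕ, R = W * primorial wd := ⟨_, rfl⟩
  have hR : 0 < R := by rw [hRd]; exact Nat.mul_pos hW (primorial_pos wd)
  have hRw : primorial wd ∣ R := by rw [hRd]; exact Dvd.intro_left _ rfl
  have hWR : W ∣ R := by rw [hRd]; exact Dvd.intro _ rfl
  obtain ⟨ρ, hρR, hρ1, hρ2⟩ := class_exists W s₀ R hW hs₀ hR hWR
  refine ⟨R * S.n, fun ε hε => ?_⟩
  obtain ⟨c, z₀, hc, habn⟩ := abund S s hs R ρ hρR ε hε
  obtain ⟨δ, T, H0, hδ, hT, hH0, hx⟩ := hsv (fun _ => 100 / (S.m : ℝ)) (fun _ => by positivity) (by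
    rw [sum_const, card_univ, Fintype.card_fin, nsmul_eq_mul]
    rw [mul_div_cancel₀ _ hm0.ne']) R hR hRw c hc
  obtain ⟨K, hK⟩ : ∃ K : ℕ, K = R * (2 * k * S.n + 1) := ⟨_, rfl⟩
  have hK1 : 1 ≤ K := by
    rw [hK]
    exact Nat.mul_pos hR (Nat.succ_pos _)
  have hKr : (1 : ℝ) ≤ K := by exact_mod_cast hK1
  -- thresholds
  have hXt : Tendsto (fun X : ℕ => (X : ℝ) / (2 * T)) atTop atTop :=
    tendsto_natCast_atTop_atTop.atTop_div_const (by positivity)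
  have hlog : Tendsto (fun X : ℕ => Real.log (X : ℝ)) atTop atTop := Real.tendsto_log_atTop.comp tendsto_natCast_atTop_atTop
  have hpow : ∀ᶠ X : ℕ in atTop, Real.log (X : ℝ) ^ (A + 1) ≤ 1 / 2 * X := by
    have h1 := (Real.isLittleO_pow_log_id_atTop (n := A + 1)).bound (show (0 : ℝ) < 1 / 2 by norm_num)
    filter_upwards [tendsto_natCast_atTop_atTop.eventually h1, hlog.eventually_ge_atTop 0] with X h2 h3
    rw [Real.norm_of_nonneg (pow_nonneg h3 _)] at h2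
    rw [id, Real.norm_of_nonneg (Nat.cast_nonneg _)] at h2
    exact h2
  have hhalf : ∀ᶠ X : ℕ in atTop, Real.log (X : ℝ) / 2 ≤ Real.log ((X : ℝ) / (2 * T)) := by
    filter_upwards [hlog.eventually_ge_atTop (2 * Real.log (2 * T)), eventually_gt_atTop 0] with X h1 h2
    rw [Real.log_div (by exact_mod_cast h2.ne') (by positivity)]
    linarith
  obtain ⟨X1, hX1⟩ := eventually_atTop.1 ((hXt.eventually hx).and (hpow.and (hhalf.and
    ((hlog.eventually_ge_atTop ((K : ℝ) * 2 ^ (A + 1))).and ((hlog.eventually_ge_atTop 4).and (hlog.eventually_ge_atTop K))))))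
  obtain ⟨C, hC⟩ : ∃ C : ℝ, C = (S.L : ℝ) * 3 ^ k * 2 * r + 1 := ⟨_, rfl⟩
  have hC0 : 0 < C := by rw [hC]; positivity
  obtain ⟨d, hd⟩ : ∃ d : ℝ, d = δ / (2 * T * C) := ⟨_, rfl⟩
  have hd0 : 0 < d := by rw [hd]; positivity
  refine ⟨d, max (Real.log ((X1 : ℝ) + 3) ^ A + 1) (z₀ + H0 + 1), hd0, fun χ X z hzB hzA => ?_⟩
  have hzB1 : Real.log ((X1 : ℝ) + 3) ^ A + 1 ≤ z := (le_max_left _ _).trans hzB
  have hzB2 : (z₀ : ℝ) + H0 + 1 ≤ z := (le_max_right _ _).trans hzB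
  have hz₀0 : (0 : ℝ) ≤ z₀ := Nat.cast_nonneg _
  have hz1 : (1 : ℝ) ≤ z := by linarith
  have hz0 : (0 : ℝ) < z := by linarith
  have hlX0 : 0 ≤ Real.log (X : ℝ) := Real.log_natCast_nonneg X
  have hXX : X1 + 3 ≤ X := by
    by_contra hcon
    have h1 : Real.log (X : ℝ) ≤ Real.log ((X1 : ℝ) + 3) := by
      rcases Nat.eq_zero_or_pos X with h0 | h0
      · rw [h0, Nat.cast_zero, Real.log_zero]
        exact Real.log_nonneg (by linarith [(Nat.cast_nonneg X1 : (0 : ℝ) ≤ X1)])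
      · refine Real.log_le_log (by exact_mod_cast h0) ?_
        have h2 : X ≤ X1 + 3 := by omega
        exact_mod_cast h2
    have h2 := pow_le_pow_left₀ hlX0 h1 A
    linarith
  obtain ⟨hsx, hX2, hX3, hX4, hX5, hX6⟩ := hX1 X (by omega)
  have hX0 : (0 : ℝ) < X := by
    have : 0 < X := by omega
    exact_mod_cast this
  obtain ⟨x, hxd⟩ : ∃ x : ℝ, x = (X : ℝ) / (2 * T) := ⟨_, rfl⟩
  rw [← hxd] at hsx hX3
  have hx0 : 0 < x := by rw [hxd]; positivity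
  have hlx0 : 0 < Real.log x := by linarith
  have hlxX : Real.log x ≤ Real.log X := by
    refine Real.log_le_log hx0 ?_
    rw [hxd]
    refine div_le_self hX0.le ?_
    linarith
  obtain ⟨L, hL⟩ : ∃ L : ℕ, L = R * ((2 * k * S.n + 1) * z) := ⟨_, rfl⟩
  have hLK : L = K * z := by rw [hL, hK]; ring
  have hLr : (L : ℝ) = K * z := by rw [hLK]; push_cast; ring
  have hzL : (z : ℝ) ≤ L := by
    rw [hLr]
    nlinarith
  have hLH : H0 ≤ L := by linarith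
  have hLx : (L : ℝ) ≤ Real.log x ^ (A + 1) := by
    have h1 : (Real.log X / 2) ^ (A + 1) ≤ Real.log x ^ (A + 1) := pow_le_pow_left₀ (by positivity) hX3 _
    refine le_trans ?_ h1
    rw [hLr, div_pow, le_div_iff₀ (by positivity), pow_succ (Real.log (X : ℝ))]
    calc (K : ℝ) * z * 2 ^ (A + 1) = z * (K * 2 ^ (A + 1)) := by ring
      _ ≤ Real.log X ^ A * Real.log X := mul_le_mul hzA hX4 (by positivity) (pow_nonneg hlX0 _)
  have hLX : (L : ℝ) ≤ 1 / 2 * X := by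
    refine le_trans ?_ hX2
    rw [hLr, pow_succ]
    calc (K : ℝ) * z = z * K := by ring
      _ ≤ Real.log X ^ A * Real.log X := mul_le_mul hzA hX6 (by positivity) (pow_nonneg hlX0 _)
  -- the bad set
  by_contra hcon
  rw [not_le] at hcon
  obtain ⟨E, hE⟩ : ∃ E : Finset (Fin k → ℤ), E = (Fintype.piFinset (fun _ : Fin k => Icc (-(z : ℤ)) z)).filter
      (fun a => ¬ ∃ m : ℕ, 1 ≤ m ∧ m ≤ R * S.n ∧ ∃ q : Fin r,
      d * (min 1 (z / Real.log X)) ^ (2 * (S.m * s)) * X ≤ Real.log X ^ (k + 1) * (cnt W s₀ χ q (fun j => m * a j) X : ℝ)) := ⟨_, rfl⟩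
  rw [← hE] at hcon
  have hEz : ∀ b ∈ E, ∀ i, |b i| ≤ z := by
    intro b hb i
    rw [hE, mem_filter, Fintype.mem_piFinset] at hb
    have h1 := mem_Icc.1 (hb.1 i)
    exact abs_le.2 h1
  obtain ⟨𝓗, h𝓗1, h𝓗2⟩ := habn z (by
    have : (z₀ : ℝ) ≤ z := by linarith
    exact_mod_cast this) E hEz hcon.le
  rw [← hL] at h𝓗2
  have hcount := hsx L hLH hLx 𝓗 (fun v hv => ⟨mem_IJ.2 ⟨fun p => by rw [hL]; exact (h𝓗1 v hv).1 p, (h𝓗1 v hv).2.1⟩, fun p => by
      have h4 : Nat.gcd ρ R = 1 := hρ1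
      show Nat.gcd (v p) R = 1
      rw [← h4, ← (h𝓗1 v hv).2.2.1 p]
      exact Nat.ModEq.gcd_eq (Nat.mod_modEq _ _).symm⟩) h𝓗2 (fun N => Fw S R W s₀ χ E L N) (by
    intro N hRN v hv hwc
    obtain ⟨hv1, hv2, hv3, hv4⟩ := h𝓗1 v hv
    obtain ⟨q, a, t, hat⟩ := pick hr S χ N v hwc
    obtain ⟨b, hb, hbd⟩ := hv4 a t
    refine ⟨fun j => v (S.e a j, t j), ?_, fun j => ⟨_, rfl⟩⟩
    unfold Fw
    rw [mem_filter, Fintype.mem_piFinset]
    refine ⟨fun j => mem_range.2 (Nat.lt_succ_iff.2 (by rw [hL]; exact hv1 _)), ?_, a, b, q, hb, hbd, fun j => ⟨(hat j).1, (hat j).2, ?_⟩⟩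
    · intro i j hij
      have h1 := hv2 hij
      exact S.inj a (congrArg Prod.fst h1)
    · have h4 : N ≡ 0 [MOD W] := Nat.modEq_zero_iff_dvd.2 (hWR.trans hRN)
      have h5 : v (S.e a j, t j) ≡ ρ [MOD R] := by
        rw [← hv3 (S.e a j, t j)]
        exact (Nat.mod_modEq _ _).symm
      have h6 := h4.add (h5.of_dvd hWR)
      rw [Nat.zero_add] at h6
      exact h6.trans hρ2) (by
    intro N y hy
    unfold Fw at hy
    rw [mem_filter, Fintype.mem_piFinset] at hy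
    obtain ⟨h1, h2, a, b, q, -, -, h3⟩ := hy
    exact ⟨h2, fun j => ⟨Nat.lt_succ_iff.1 (mem_range.1 (h1 j)), (h3 j).1⟩⟩)
  -- upper bound
  have hlX : 0 < Real.log (X : ℝ) := by linarith
  obtain ⟨μ, hμ⟩ : ∃ μ : ℝ, μ = (min 1 (z / Real.log X)) ^ (2 * (S.m * s)) := ⟨_, rfl⟩
  have hμ0 : 0 < μ := by
    rw [hμ]
    have : 0 < min 1 ((z : ℝ) / Real.log X) := lt_min one_pos (by positivity)
    positivity
  have hub := sum_Fw S R W s₀ χ E L X (range (⌊T * x⌋₊ + 1)) (by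
    intro N hN
    rw [mem_range, Nat.lt_succ_iff] at hN
    have h1 : (N : ℝ) ≤ T * x := (Nat.le_floor_iff (by positivity)).1 hN
    have h2 : T * x = 1 / 2 * X := by
      rw [hxd]
      field_simp
    have h3 : ((N + L : ℕ) : ℝ) ≤ X := by
      push_cast
      linarith
    exact_mod_cast h3) (d * μ * X / Real.log X ^ (k + 1)) (by
    intro a b hb q
    rw [hE, mem_filter] at hb
    have h1 := hb.2
    push Not at h1
    have h2 := h1 (R * S.μ a) (Nat.mul_pos hR (S.μpos a)) (Nat.mul_le_mul_left R (S.μle a)) q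
    rw [← hμ] at h2
    rw [le_div_iff₀ (by positivity), mul_comm]
    exact h2.le)
  have hEc : (E.card : ℝ) ≤ (3 * z) ^ k := by
    have h1 : E.card ≤ (2 * z + 1) ^ k := by
      rw [hE]
      refine (card_filter_le _ _).trans (le_of_eq ?_)
      rw [Fintype.card_piFinset, prod_const, card_univ, Fintype.card_fin, Int.card_Icc]
      congr 1
      omega
    have h2 : (E.card : ℝ) ≤ (2 * z + 1) ^ k := by exact_mod_cast h1
    refine h2.trans (pow_le_pow_left₀ (by positivity) ?_ k)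
    linarith
  -- comparison
  have hmin : μ ≤ (min 1 (L / Real.log x)) ^ (2 * (S.m * s)) := by
    rw [hμ]
    refine pow_le_pow_left₀ (le_min zero_le_one (by positivity)) (min_le_min le_rfl ?_) _
    exact div_le_div₀ (by positivity) hzL hlx0 hlxX
  have hlow : δ * μ * (L / Real.log X) ^ (k + 1) * x ≤
      δ * (min 1 (L / Real.log x)) ^ (2 * (S.m * s)) * (L / Real.log x) ^ (k + 1) * x := by
    refine mul_le_mul_of_nonneg_right ?_ hx0.le
    refine mul_le_mul (mul_le_mul_of_nonneg_left hmin hδ.le) ?_ (by positivity) (by positivity)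
    exact pow_le_pow_left₀ (by positivity) (div_le_div_of_nonneg_left (Nat.cast_nonneg _) hlx0 hlxX) _
  have hfin : δ * μ * (L / Real.log X) ^ (k + 1) * x ≤
      S.L * E.card * (L + 1) * r * (d * μ * X / Real.log X ^ (k + 1)) := hlow.trans (hcount.trans hub)
  have hL1 : (1 : ℝ) ≤ L := hz1.trans hzL
  have hup : (S.L : ℝ) * E.card * (L + 1) * r * (d * μ * X / Real.log X ^ (k + 1)) ≤
      S.L * (3 * z) ^ k * (2 * L) * r * (d * μ * X / Real.log X ^ (k + 1)) := by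
    refine mul_le_mul_of_nonneg_right ?_ (by positivity)
    refine mul_le_mul_of_nonneg_right ?_ hr0.le
    refine mul_le_mul ?_ (by linarith) (by positivity) (by positivity)
    exact mul_le_mul_of_nonneg_left hEc (Nat.cast_nonneg _)
  have hfin2 := hfin.trans hup
  have e1 : δ * μ * (L / Real.log X) ^ (k + 1) * x = (δ / (2 * T)) * ((μ * X * L / Real.log X ^ (k + 1)) * L ^ k) := by
    rw [hxd, div_pow, pow_succ (L : ℝ) k]
    field_simp
  have e2 : (S.L : ℝ) * (3 * z) ^ k * (2 * L) * r * (d * μ * X / Real.log X ^ (k + 1)) =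
      d * (S.L * 3 ^ k * 2 * r) * ((μ * X * L / Real.log X ^ (k + 1)) * z ^ k) := by
    rw [mul_pow]
    ring
  rw [e1, e2] at hfin2
  have hY : 0 < μ * X * L / Real.log X ^ (k + 1) := by positivity
  have hzk : (z : ℝ) ^ k ≤ L ^ k := pow_le_pow_left₀ hz0.le hzL k
  have hzk0 : (0 : ℝ) < (z : ℝ) ^ k := by positivity
  have h7 : (δ / (2 * T)) * ((μ * X * L / Real.log X ^ (k + 1)) * z ^ k) ≤
      d * (S.L * 3 ^ k * 2 * r) * ((μ * X * L / Real.log X ^ (k + 1)) * z ^ k) := by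
    refine le_trans ?_ hfin2
    refine mul_le_mul_of_nonneg_left ?_ (by positivity)
    exact mul_le_mul_of_nonneg_left hzk hY.le
  have h8 : δ / (2 * T) ≤ d * (S.L * 3 ^ k * 2 * r) := le_of_mul_le_mul_right h7 (by positivity)
  have h9 : δ / (2 * T) = d * C := by
    rw [hd]
    field_simp
  rw [h9, hC] at h8
  nlinarith

theorem thmEP_one : ThmEP 1 := thmEP_of_sys 1 sys_one

theorem thmEP_two : ThmEP 2 := thmEP_of_sys 2 sys_two

theorem thmEP (k : ℕ) (hk : 1 ≤ k) : ThmEP k := thmEP_of_sys k (sys_words k hk)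

end Pool.Agent.H48.EP
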