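import Pool.Agent.H48.EP.Sys
import Pool.Agent.H34.RR.Ob

/-!
# [H48 EP FN1] Choice of the simplex and counting of patterns
-/

set_option autoImplicit false

namespace Pool.Agent.H48.EP

open Finset Pool.Agent.H34.RR

/-- `p` is a prime `≡ s₀ (mod W)` of colour `q` -/
def Pr {r : ℕ} (W s₀ : ℕ) (χ : ℕ → Fin r) (q : Fin r) (p : ℕ) : Prop := p.Prime ∧ χ p = q ∧ p ≡ s₀ [MOD W]

/-- the number of `p ≤ X` such that `p` and all `p + b j` are primes `≡ s₀ (mod W)` of colour `q` -/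
noncomputable def cnt {k r : ℕ} (W s₀ : ℕ) (χ : ℕ → Fin r) (q : Fin r) (b : Fin k → ℤ) (X : ℕ) : ℕ :=
  {p : ℕ | p ≤ X ∧ Pr W s₀ χ q p ∧ ∀ j, ∃ p' : ℕ, (p' : ℤ) = p + b j ∧ Pr W s₀ χ q p'}.ncard

theorem pick {k r s : ℕ} (hr : 0 < r) (S : Sys k (1 / (100 * (r : ℝ)))) (χ : ℕ → Fin r) (N : ℕ) (v : Fin S.m × Fin s → ℕ)
    (hw : 1 < wc (fun _ => 100 / (S.m : ℝ)) v N) :
    ∃ (q : Fin r) (a : Fin S.L) (t : Fin (k + 1) → Fin s), ∀ j,
      (N + v (S.e a j, t j)).Prime ∧ χ (N + v (S.e a j, t j)) = q := by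
  classical
  have hm0 : (0 : ℝ) < S.m := by exact_mod_cast S.hm
  have hr0 : (0 : ℝ) < r := by exact_mod_cast hr
  by_contra hcon
  push Not at hcon
  have h1 : ∀ q : Fin r, (((univ : Finset (Fin S.m)).filter (fun d => ∃ l : Fin s, (N + v (d, l)).Prime ∧ χ (N + v (d, l)) = q)).card : ℝ) <
      1 / (100 * (r : ℝ)) * S.m := by
    intro q
    by_contra hq
    push Not at hq
    obtain ⟨a, ha⟩ := S.dense _ hq
    have h2 : ∀ i, ∃ l : Fin s, (N + v (S.e a i, l)).Prime ∧ χ (N + v (S.e a i, l)) = q := fun i => (mem_filter.1 (ha i)).2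
    choose t ht using h2
    obtain ⟨j, hj⟩ := hcon q a t
    exact hj (ht j).1 (ht j).2
  have h2 : ((univ : Finset (Fin S.m)).filter (fun d => ∃! l : Fin s, (N + v (d, l)).Prime)).card ≤
      ∑ q : Fin r, ((univ : Finset (Fin S.m)).filter (fun d => ∃ l : Fin s, (N + v (d, l)).Prime ∧ χ (N + v (d, l)) = q)).card := by
    refine (card_le_card ?_).trans card_biUnion_le
    intro d hd
    obtain ⟨l, hl, -⟩ := (mem_filter.1 hd).2
    rw [mem_biUnion]
    exact ⟨χ (N + v (d, l)), mem_univ _, mem_filter.2 ⟨mem_univ _, l, hl, rfl⟩⟩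
  have h3 : (((univ : Finset (Fin S.m)).filter (fun d => ∃! l : Fin s, (N + v (d, l)).Prime)).card : ℝ) ≤ S.m / 100 := by
    have h4 : (((univ : Finset (Fin S.m)).filter (fun d => ∃! l : Fin s, (N + v (d, l)).Prime)).card : ℝ) ≤
        ∑ q : Fin r, (((univ : Finset (Fin S.m)).filter (fun d => ∃ l : Fin s, (N + v (d, l)).Prime ∧ χ (N + v (d, l)) = q)).card : ℝ) := by
      exact_mod_cast h2
    refine h4.trans ((sum_le_sum fun q _ => (h1 q).le).trans (le_of_eq ?_))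
    rw [sum_const, card_univ, Fintype.card_fin, nsmul_eq_mul]
    field_simp
  have h5 : wc (fun _ => 100 / (S.m : ℝ)) v N =
      (((univ : Finset (Fin S.m)).filter (fun d => ∃! l : Fin s, (N + v (d, l)).Prime)).card : ℝ) * (100 / (S.m : ℝ)) := by
    unfold wc
    rw [← sum_filter, sum_const, nsmul_eq_mul]
  rw [h5] at hw
  have h6 : (((univ : Finset (Fin S.m)).filter (fun d => ∃! l : Fin s, (N + v (d, l)).Prime)).card : ℝ) * (100 / (S.m : ℝ)) ≤ 1 := by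
    rw [mul_div_assoc', div_le_one hm0]
    linarith
  linarith

open Classical in
/-- patterns in the window from `N` -/
noncomputable def Fw {k r : ℕ} {δ : ℝ} (S : Sys k δ) (R W s₀ : ℕ) (χ : ℕ → Fin r) (E : Finset (Fin k → ℤ)) (L N : ℕ) :
    Finset (Fin (k + 1) → ℕ) :=
  (Fintype.piFinset (fun _ : Fin (k + 1) => range (L + 1))).filter (fun y => Function.Injective y ∧
    ∃ (a : Fin S.L) (b : Fin k → ℤ) (q : Fin r), b ∈ E ∧ (∀ i : Fin k, (y i.succ : ℤ) - (y 0 : ℤ) = R * (S.μ a * b i)) ∧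
      ∀ j, Pr W s₀ χ q (N + y j))

/-- few patterns in all windows together -/
theorem sum_Fw {k r : ℕ} {δ : ℝ} (S : Sys k δ) (R W s₀ : ℕ) (χ : ℕ → Fin r) (E : Finset (Fin k → ℤ)) (L X : ℕ) (I : Finset ℕ)
    (hI : ∀ N ∈ I, N + L ≤ X) (V : ℝ) (hV : ∀ (a : Fin S.L), ∀ b ∈ E, ∀ q : Fin r,
      (cnt W s₀ χ q (fun j => ((R * S.μ a : ℕ) : ℤ) * b j) X : ℝ) ≤ V) :
    ∑ N ∈ I, ((Fw S R W s₀ χ E L N).card : ℝ) ≤ S.L * E.card * (L + 1) * r * V := by
  classical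
  obtain ⟨U, hU⟩ : ∃ U : Finset (Fin S.L × (Fin k → ℤ) × ℕ × Fin r), U =
    (univ : Finset (Fin S.L)) ×ˢ (E ×ˢ (range (L + 1) ×ˢ (univ : Finset (Fin r)))) := ⟨_, rfl⟩
  have hUc : (U.card : ℝ) = S.L * E.card * (L + 1) * r := by
    rw [hU, card_product, card_product, card_product, card_range, card_univ, card_univ, Fintype.card_fin, Fintype.card_fin]
    push_cast
    ring
  obtain ⟨Cn, hCn⟩ : ∃ Cn : Fin S.L × (Fin k → ℤ) × ℕ × Fin r → Finset ℕ, Cn = fun p => (range (X + 1)).filter (fun n =>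
    Pr W s₀ χ p.2.2.2 n ∧ ∀ j, ∃ p' : ℕ, (p' : ℤ) = n + ((R * S.μ p.1 : ℕ) : ℤ) * p.2.1 j ∧ Pr W s₀ χ p.2.2.2 p') := ⟨_, rfl⟩
  have hCc : ∀ p, ((Cn p).card : ℝ) = cnt W s₀ χ p.2.2.2 (fun j => ((R * S.μ p.1 : ℕ) : ℤ) * p.2.1 j) X := by
    intro p
    rw [hCn]
    unfold cnt
    rw [← Set.ncard_coe_finset]
    congr 2
    ext n
    simp only [coe_filter, mem_range, Set.mem_ofPred_eq, Nat.lt_succ_iff]
  have hkey : (I.sigma (fun N => Fw S R W s₀ χ E L N)).card ≤ (U.sigma Cn).card := by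
    have hch : ∀ x : (Σ _ : ℕ, (Fin (k + 1) → ℕ)), ∃ (p : Fin S.L × (Fin k → ℤ) × Fin r),
        x ∈ I.sigma (fun N => Fw S R W s₀ χ E L N) →
        p.2.1 ∈ E ∧ (∀ i : Fin k, (x.2 i.succ : ℤ) - (x.2 0 : ℤ) = R * (S.μ p.1 * p.2.1 i)) ∧ ∀ j, Pr W s₀ χ p.2.2 (x.1 + x.2 j) := by
      intro x
      by_cases hx : x ∈ I.sigma (fun N => Fw S R W s₀ χ E L N)
      · have h1 := (mem_sigma.1 hx).2
        unfold Fw at h1
        rw [mem_filter] at h1
        obtain ⟨-, -, a, b, q, hb, hd, hp⟩ := h1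
        exact ⟨(a, b, q), fun _ => ⟨hb, hd, hp⟩⟩
      · obtain ⟨a, -, -⟩ := S.cov ⟨0, S.hm⟩
        exact ⟨(a, 0, χ 0), fun h => absurd h hx⟩
    choose pp hpp using hch
    refine card_le_card_of_injOn (fun x => ⟨((pp x).1, (pp x).2.1, x.2 0, (pp x).2.2), x.1 + x.2 0⟩) ?_ ?_
    · intro x hx
      have hx' : x ∈ I.sigma (fun N => Fw S R W s₀ χ E L N) := hx
      obtain ⟨h1, h2, h3⟩ := hpp x hx'
      obtain ⟨hN, hz⟩ := mem_sigma.1 hx'
      unfold Fw at hz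
      rw [mem_filter, Fintype.mem_piFinset] at hz
      obtain ⟨hz1, -, -⟩ := hz
      have hz0 := Nat.lt_succ_iff.1 (mem_range.1 (hz1 0))
      rw [mem_coe, mem_sigma]
      refine ⟨?_, ?_⟩
      · rw [hU]
        exact mem_product.2 ⟨mem_univ _, mem_product.2 ⟨h1, mem_product.2 ⟨hz1 0, mem_univ _⟩⟩⟩
      · rw [hCn]
        simp only [mem_filter, mem_range]
        refine ⟨?_, h3 0, fun j => ⟨x.1 + x.2 j.succ, ?_, h3 j.succ⟩⟩
        · have := hI x.1 hN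
          omega
        · have h4 := h2 j
          push_cast
          linarith
    · intro x hx y hy hxy
      have hx' : x ∈ I.sigma (fun N => Fw S R W s₀ χ E L N) := hx
      have hy' : y ∈ I.sigma (fun N => Fw S R W s₀ χ E L N) := hy
      obtain ⟨-, hx2, -⟩ := hpp x hx'
      obtain ⟨-, hy2, -⟩ := hpp y hy'
      simp only [Sigma.mk.injEq, Prod.mk.injEq, heq_eq_eq] at hxy
      obtain ⟨⟨ha, hb, h0, -⟩, hs⟩ := hxy
      have h1 : x.1 = y.1 := by omega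
      have h2 : x.2 = y.2 := by
        funext i
        refine Fin.cases h0 (fun j => ?_) i
        have h7 := hx2 j
        have h8 := hy2 j
        rw [ha, hb, h0] at h7
        have h9 : (x.2 j.succ : ℤ) = y.2 j.succ := by linarith
        exact_mod_cast h9
      obtain ⟨x1, x2⟩ := x
      obtain ⟨y1, y2⟩ := y
      simp only at h1 h2
      rw [h1, h2]
  rw [card_sigma, card_sigma] at hkey
  have hkeyR : ∑ N ∈ I, ((Fw S R W s₀ χ E L N).card : ℝ) ≤ ∑ p ∈ U, ((Cn p).card : ℝ) := by exact_mod_cast hkey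
  refine hkeyR.trans ?_
  rw [← hUc, ← nsmul_eq_mul]
  refine sum_le_card_nsmul U _ V fun p hp => ?_
  rw [hU, mem_product, mem_product] at hp
  rw [hCc]
  exact hV p.1 p.2.1 hp.2.1 p.2.2.2

end Pool.Agent.H48.EP
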