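import Pool.Agent.H48.EP.Dh

/-!
# [H48 EP GSB] A subspace with many good lines (instead of the Graham-Rothschild theorem)

Proof.  `m₀ ≥ 1` from `h (δ/2)` (index type `Fin m₀`), `lam = (|α|+1)^(-m₀)` (at most `1/lam` lines in `Fin m₀ → α`), `θ = lam² δ / 4` or so.
`Σ = α ⊕ Fin m₀`, `Fin m ≃ Fin m₀ ⊕ (Fin m' × Fin b)`, `I = Fin m' × Fin b`.  For `s : I → Σ`, `u : Fin m₀ → α` let `P s u : Fin m → α` be `u` on `Fin m₀` and
on `I`: the letter `s c` if it is in `α`, `u j` if it is `j ∈ Fin m₀`.
(1) `s` fixed: the `y ∈ Y` for which `{u | y ∈ A (some ∘ P s u)}` has density `≥ δ/2` have density `≥ δ/2` (`markov`, `Ex_comm`); for them there is a line `l` in this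
set; by `exists_fibre` one line `l` has `dn (⋂ a, A (some ∘ P s (l a))) ≥ lam δ/2`.
(2) `exists_fibre` again, over `s`: one line `l` is good for a set `S` of `s : I → Σ` of density `≥ lam`.
(3) `g : Σ → Option α`, `g (inl a) = some a`, `g (inr j) = l.idxFun j`.  The word `τ s : Fin m → Option α`, `l.idxFun` on `Fin m₀` and `g ∘ s` on `I`, satisfies
`P s (l a) = rp a (τ s)`.  Let `l.idxFun j₀ = none` and `Σ₀ = {inl a} ∪ {inr j₀}`, `h : Option α → Σ` injective with image `Σ₀`, `g ∘ h = id`.
(4) `mix : Σ × Option α → Σ`, `mix (σ, t) = h t` if `σ ∈ Σ₀` and `σ` if not, has all fibres of size `|Option α|`; so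
`dn S = E_{r : I → Σ} E_{t : I → Option α} [mix (r, t) ∈ S]` (`Ex_map`).  The `r` such that some block `{e} × Fin b` contains no `c` with `r c ∈ Σ₀` have density
`≤ m' (1 - |Σ₀|/|Σ|)^b ≤ lam/2` for `b` large.  So there is a good `r` with `E_t [mix (r, t) ∈ S] ≥ lam/2`.  Choose `c_e` in every block with `r c_e ∈ Σ₀`; by `Ex_extend`
there is `t₀` with `E_{t' : Fin m' → Option α} [mix (r, extend c t' t₀) ∈ S] ≥ lam/2`.
(5) `W`: on `Fin m₀` the letters `l.idxFun` (one is `none`), at `(e, c_e)` the variable `e`, at the other `c` the letter `g (mix (r c, t₀ c))`.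
-/

set_option autoImplicit false

namespace Pool.Agent.H48.EP

open Finset Combinatorics

section mix

variable {S O : Type} [Fintype S] [DecidableEq S] [Fintype O] [DecidableEq O]

open Classical in
/-- replace the letters in the range of `h` by new ones -/
private noncomputable def mix (h : O → S) (p : S × O) : S := if p.1 ∈ Set.range h then h p.2 else p.1

omit [Fintype S] [DecidableEq O] in
private theorem mix_pos (h : O → S) (s : S) (o : O) (hs : s ∈ Set.range h) : mix h (s, o) = h o := by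
  unfold mix
  rw [if_pos hs]

private theorem mix_fibre (h : O → S) (hh : Function.Injective h) (y : S) :
    (univ.filter (fun p : S × O => mix h p = y)).card = Fintype.card O := by
  classical
  by_cases hy : y ∈ Set.range h
  · obtain ⟨o, rfl⟩ := hy
    have : univ.filter (fun p : S × O => mix h p = h o) = univ.image (fun o' : O => (h o', o)) := by
      ext ⟨s, t⟩
      simp only [mem_filter, mem_univ, true_and, mem_image, Prod.mk.injEq]
      constructor
      · intro hp
        unfold mix at hp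
        split_ifs at hp with hs
        · obtain ⟨o', ho'⟩ := hs
          exact ⟨o', ho', (hh hp).symm⟩
        · exact absurd ⟨o, hp.symm⟩ hs
      · rintro ⟨o', rfl, rfl⟩
        unfold mix
        rw [if_pos ⟨o', rfl⟩]
    rw [this, card_image_of_injective _ (fun a b hab => hh (Prod.mk.inj hab).1), card_univ]
  · have : univ.filter (fun p : S × O => mix h p = y) = univ.image (fun o' : O => (y, o')) := by
      ext ⟨s, t⟩
      simp only [mem_filter, mem_univ, true_and, mem_image, Prod.mk.injEq]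
      constructor
      · intro hp
        unfold mix at hp
        split_ifs at hp with hs
        · exact absurd ⟨_, hp⟩ hy
        · exact ⟨t, hp.symm, rfl⟩
      · rintro ⟨o', rfl, rfl⟩
        unfold mix
        rw [if_neg hy]
    rw [this, card_image_of_injective _ (fun a b hab => (Prod.mk.inj hab).2), card_univ]

private theorem Ex_mix {I : Type} [Fintype I] [DecidableEq I] [Nonempty S] [Nonempty O] (h : O → S)
    (hh : Function.Injective h) (G : (I → S) → ℝ) :
    Ex G = Ex (fun r : I → S => Ex (fun t : I → O => G (fun c => mix h (r c, t c)))) := by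
  classical
  rw [← Ex_prod (fun p : (I → S) × (I → O) => G (fun c => mix h (p.1 c, p.2 c))),
    ← Ex_equiv (Equiv.arrowProdEquivProdArrow I (fun _ => S) (fun _ => O))]
  refine (Ex_map (fun x : I → S × O => fun c => mix h (x c)) (Fintype.card O ^ Fintype.card I) ?_ G).symm
  intro y
  have : univ.filter (fun x : I → S × O => (fun c => mix h (x c)) = y) =
      Fintype.piFinset (fun c => univ.filter (fun p : S × O => mix h p = y c)) := by
    ext x
    simp only [mem_filter, mem_univ, true_and, Fintype.mem_piFinset, funext_iff]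
  rw [this, Fintype.card_piFinset, prod_congr rfl (fun c _ => mix_fibre h hh (y c)), prod_const, card_univ]

omit [Fintype O] [DecidableEq O] in
private theorem dn_pi [Nonempty S] (b : ℕ) (T : Finset S) :
    dn {t : Fin b → S | ∀ i, t i ∈ T} = ((T.card : ℝ) / Fintype.card S) ^ b := by
  classical
  have h1 := dn_mul_card {t : Fin b → S | ∀ i, t i ∈ T}
  have h2 : {t : Fin b → S | ∀ i, t i ∈ T} = ((Fintype.piFinset fun _ : Fin b => T : Finset (Fin b → S)) : Set (Fin b → S)) := by
    ext t
    simp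
  have h3 : (Fintype.card S : ℝ) ≠ 0 := by exact_mod_cast Fintype.card_ne_zero
  have h4 : ({t : Fin b → S | ∀ i, t i ∈ T}.ncard : ℝ) = (T.card : ℝ) ^ b := by
    rw [h2, Set.ncard_coe_finset, Fintype.card_piFinset]
    simp
  rw [h4, Fintype.card_fun, Fintype.card_fin, Nat.cast_pow] at h1
  rw [div_pow, eq_div_iff (pow_ne_zero _ h3), h1]

omit [Fintype O] [DecidableEq O] in
private theorem bad_le [Nonempty S] (m' b : ℕ) (T : Finset S) :
    dn {r : Fin m' × Fin b → S | ∃ e, ∀ b', r (e, b') ∈ T} ≤ m' * ((T.card : ℝ) / Fintype.card S) ^ b := by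
  classical
  have h1 : ∀ e : Fin m', dn {r : Fin m' × Fin b → S | ∀ b', r (e, b') ∈ T} = ((T.card : ℝ) / Fintype.card S) ^ b := by
    intro e
    have hσ : Function.Injective (fun b' : Fin b => (e, b')) := fun x y hxy => (Prod.mk.inj hxy).2
    rw [← dn_pi b T]
    unfold dn
    rw [Ex_extend (fun b' : Fin b => (e, b')) hσ]
    have h2 : ∀ (x : Fin m' × Fin b → S) (t : Fin b → S),
        {r : Fin m' × Fin b → S | ∀ b', r (e, b') ∈ T}.indicator (fun _ => (1 : ℝ)) (Function.extend (fun b' : Fin b => (e, b')) t x) =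
        {t : Fin b → S | ∀ i, t i ∈ T}.indicator (fun _ => (1 : ℝ)) t := by
      intro x t
      have h3 : (Function.extend (fun b' : Fin b => (e, b')) t x ∈ {r : Fin m' × Fin b → S | ∀ b', r (e, b') ∈ T}) ↔
          t ∈ {t : Fin b → S | ∀ i, t i ∈ T} := by
        simp only [Set.mem_ofPred_eq]
        refine forall_congr' fun b' => ?_
        have h4 : Function.extend (fun b' : Fin b => (e, b')) t x (e, b') = t b' := hσ.extend_apply t x b'
        rw [h4]
      by_cases h5 : t ∈ {t : Fin b → S | ∀ i, t i ∈ T}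
      · rw [Set.indicator_of_mem h5, Set.indicator_of_mem (h3.2 h5)]
      · rw [Set.indicator_of_notMem h5, Set.indicator_of_notMem (fun h => h5 (h3.1 h))]
    simp only [h2]
    rw [Ex_const]
  have h2 : dn {r : Fin m' × Fin b → S | ∃ e, ∀ b', r (e, b') ∈ T} ≤
      ∑ e : Fin m', dn {r : Fin m' × Fin b → S | ∀ b', r (e, b') ∈ T} := by
    unfold dn
    rw [← Ex_sum]
    refine Ex_mono fun r => ?_
    by_cases hr : r ∈ {r : Fin m' × Fin b → S | ∃ e, ∀ b', r (e, b') ∈ T}
    · obtain ⟨e, he⟩ := hr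
      rw [Set.indicator_of_mem (show r ∈ {r : Fin m' × Fin b → S | ∃ e, ∀ b', r (e, b') ∈ T} from ⟨e, he⟩)]
      have h3 : {r : Fin m' × Fin b → S | ∀ b', r (e, b') ∈ T}.indicator (fun _ => (1 : ℝ)) r = 1 :=
        Set.indicator_of_mem (show r ∈ {r : Fin m' × Fin b → S | ∀ b', r (e, b') ∈ T} from he) _
      refine h3.symm.le.trans ?_
      exact single_le_sum (f := fun e => {r : Fin m' × Fin b → S | ∀ b', r (e, b') ∈ T}.indicator (fun _ => (1 : ℝ)) r)
        (fun e _ => Set.indicator_nonneg (fun _ _ => zero_le_one) r) (mem_univ e)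
    · rw [Set.indicator_of_notMem hr]
      exact sum_nonneg fun e _ => Set.indicator_nonneg (fun _ _ => zero_le_one) r
  refine h2.trans ?_
  rw [sum_congr rfl (fun e _ => h1 e), sum_const, card_univ, Fintype.card_fin, nsmul_eq_mul]

end mix

theorem good_sub {α : Type} [Fintype α] [Nonempty α] (h : ∀ δ : ℝ, 0 < δ → DHJat α δ) (δ : ℝ) (hδ : 0 < δ) :
    ∃ θ : ℝ, 0 < θ ∧ ∀ m' : ℕ, ∃ m : ℕ, ∀ (Y : Type) [Fintype Y] [Nonempty Y] (A : (Fin m → Option α) → Set Y),
      (∀ t, δ ≤ dn (A t)) → ∃ W : Subspace (Fin m') (Option α) (Fin m), (∃ i, W.idxFun i = Sum.inl none) ∧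
        θ ≤ Ex (fun t : Fin m' → Option α => dn (⋂ a, A (fun i => some (rp a (W t) i)))) := by
  classical
  obtain ⟨m₀, hm₀⟩ := h (δ / 2) (half_pos hδ)
  -- lines in `Fin m₀ → α`
  have hline : ∀ A : Set (Fin m₀ → α), δ / 2 ≤ dn A →
      ∃ j : Fin m₀ → Option α, (∃ i, j i = none) ∧ ∀ a, (fun i => (j i).getD a) ∈ A := by
    intro A hA
    obtain ⟨l, hl⟩ := hm₀ (Fin m₀) (by rw [Fintype.card_fin]) A hA
    exact ⟨l.idxFun, l.proper, hl⟩
  set N : ℝ := (Fintype.card (Fin m₀ → Option α) : ℝ) with hN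
  have hN0 : 0 < N := by
    rw [hN]
    exact_mod_cast Fintype.card_pos
  set q : ℝ := 1 - (Fintype.card (Option α) : ℝ) / Fintype.card (α ⊕ Fin m₀) with hq
  refine ⟨1 / N / 2 * (δ / 2 / N), by positivity, ?_⟩
  intro m'
  have hS0 : (0 : ℝ) < Fintype.card (α ⊕ Fin m₀) := by exact_mod_cast Fintype.card_pos
  have hO0 : (0 : ℝ) < Fintype.card (Option α) := by exact_mod_cast Fintype.card_pos
  have hq1 : q < 1 := by
    have := div_pos hO0 hS0
    rw [hq]
    linarith
  obtain ⟨b, hb⟩ := exists_pow_lt_of_lt_one (show (0 : ℝ) < 1 / N / 2 / (m' + 1) by positivity) hq1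
  refine ⟨m₀ + m' * b, ?_⟩
  intro Y _ _ A hA
  set e : Fin (m₀ + m' * b) ≃ Fin m₀ ⊕ (Fin m' × Fin b) :=
    finSumFinEquiv.symm.trans (Equiv.sumCongr (Equiv.refl _) finProdFinEquiv.symm) with he
  set B : (Fin m₀ ⊕ (Fin m' × Fin b) → Option α) → Set Y := fun w => A (w ∘ e) with hB
  have hBd : ∀ w, δ ≤ dn (B w) := fun w => hA _
  let P : (Fin m' × Fin b → α ⊕ Fin m₀) → (Fin m₀ → α) → Fin m₀ ⊕ (Fin m' × Fin b) → α :=
    fun s u => Sum.elim u (fun c => Sum.elim id u (s c))
  -- (1)
  have step1 : ∀ s : Fin m' × Fin b → α ⊕ Fin m₀, ∃ j : Fin m₀ → Option α, (∃ i, j i = none) ∧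
      δ / 2 / N ≤ dn (⋂ a, B (fun i => some (P s (fun k => (j k).getD a) i))) := by
    intro s
    set F : Y → ℝ := fun y => dn {u : Fin m₀ → α | y ∈ B (fun i => some (P s u i))} with hF
    have hEF : Ex F = Ex (fun u : Fin m₀ → α => dn (B (fun i => some (P s u i)))) := by
      rw [hF]
      unfold dn
      rw [Ex_comm]
      refine Ex_congr fun u => Ex_congr fun y => ?_
      by_cases hy : y ∈ B (fun i => some (P s u i))
      · rw [Set.indicator_of_mem hy, Set.indicator_of_mem]
        exact hy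
      · rw [Set.indicator_of_notMem hy, Set.indicator_of_notMem]
        exact hy
    have hF1 : δ ≤ Ex F := by
      rw [hEF]
      exact le_Ex_const fun u => hBd _
    have hF2 : δ / 2 ≤ dn {y | δ / 2 ≤ F y} := by
      have := markov (f := F) (fun y => dn_le_one _) (half_pos hδ).le
      linarith
    have hl : ∀ y, ∃ j : Fin m₀ → Option α, δ / 2 ≤ F y →
        (∃ i, j i = none) ∧ ∀ a, y ∈ B (fun i => some (P s (fun k => (j k).getD a) i)) := by
      intro y
      by_cases hy : δ / 2 ≤ F y
      · obtain ⟨j, hj1, hj2⟩ := hline _ hy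
        exact ⟨j, fun _ => ⟨hj1, hj2⟩⟩
      · exact ⟨fun _ => none, fun h => absurd h hy⟩
    choose J hJ using hl
    obtain ⟨j, hj⟩ := exists_fibre {y | δ / 2 ≤ F y} J
    have h5 : δ / 2 / N ≤ dn {y | y ∈ {y | δ / 2 ≤ F y} ∧ J y = j} := by
      rw [div_le_iff₀ hN0, mul_comm]
      exact hF2.trans hj
    obtain ⟨y₀, hy₀, hy₁⟩ := nonempty_of_dn_pos (lt_of_lt_of_le (by positivity) h5)
    refine ⟨j, ?_, h5.trans (dn_mono ?_)⟩
    · rw [← hy₁]
      exact (hJ y₀ hy₀).1
    · rintro y ⟨hy, hyj⟩
      rw [Set.mem_iInter]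
      intro a
      rw [← hyj]
      exact (hJ y hy).2 a
  choose js hjs1 hjs2 using step1
  -- (2)
  obtain ⟨j, hj⟩ := exists_fibre (Set.univ : Set (Fin m' × Fin b → α ⊕ Fin m₀)) js
  set S : Set (Fin m' × Fin b → α ⊕ Fin m₀) := {s | js s = j} with hSdef
  have hS : 1 / N ≤ dn S := by
    rw [dn_univ] at hj
    rw [div_le_iff₀ hN0, mul_comm]
    refine hj.trans (mul_le_mul_of_nonneg_left (dn_mono ?_) hN0.le)
    rintro s ⟨_, hs⟩
    exact hs
  obtain ⟨s₀, hs₀⟩ := nonempty_of_dn_pos (lt_of_lt_of_le (by positivity) hS)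
  obtain ⟨i₀, hi₀⟩ := hjs1 s₀
  rw [show js s₀ = j from hs₀] at hi₀
  -- (3)
  let h' : Option α → α ⊕ Fin m₀ := fun o => o.elim (Sum.inr i₀) Sum.inl
  have hh' : Function.Injective h' := by
    intro x y hxy
    rcases x with _ | x <;> rcases y with _ | y
    · rfl
    · exact absurd hxy (by simp [h'])
    · exact absurd hxy (by simp [h'])
    · simp only [h', Option.elim_some, Sum.inl.injEq] at hxy
      rw [hxy]
  let g : α ⊕ Fin m₀ → Option α := Sum.elim some j
  have hg : ∀ o, g (h' o) = o := by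
    intro o
    rcases o with _ | x
    · exact hi₀
    · rfl
  have hgP : ∀ (σ : α ⊕ Fin m₀) (a : α), (g σ).getD a = Sum.elim id (fun k => (j k).getD a) σ := by
    intro σ a
    rcases σ with x | k
    · rfl
    · rfl
  -- (4)
  set G : (Fin m' × Fin b → α ⊕ Fin m₀) → ℝ := S.indicator (fun _ => (1 : ℝ)) with hG
  have hmix : dn S = Ex (fun r : Fin m' × Fin b → α ⊕ Fin m₀ =>
      Ex (fun t : Fin m' × Fin b → Option α => G (fun c => mix h' (r c, t c)))) := Ex_mix h' hh' G
  set T : Finset (α ⊕ Fin m₀) := (univ.image h')ᶜ with hT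
  have hTq : (T.card : ℝ) / Fintype.card (α ⊕ Fin m₀) = q := by
    rw [hT, card_compl, card_image_of_injective _ hh', card_univ, Nat.cast_sub (Fintype.card_le_of_injective h' hh'),
      sub_div, div_self hS0.ne']
  have hbad : dn {r : Fin m' × Fin b → α ⊕ Fin m₀ | ∃ e, ∀ b', r (e, b') ∈ T} ≤ 1 / N / 2 := by
    refine (bad_le m' b T).trans ?_
    rw [hTq]
    have h6 : (m' : ℝ) * q ^ b ≤ m' * (1 / N / 2 / (m' + 1)) := mul_le_mul_of_nonneg_left hb.le (Nat.cast_nonneg _)
    refine h6.trans ?_
    have h7 : (m' : ℝ) * (1 / N / 2 / (m' + 1)) = (1 / N / 2) * (m' / (m' + 1)) := by ring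
    rw [h7]
    have h8 : (m' : ℝ) / (m' + 1) ≤ 1 := by
      rw [div_le_one (by positivity)]
      linarith
    have h9 : 0 ≤ 1 / N / 2 := by positivity
    nlinarith
  set bad : Set (Fin m' × Fin b → α ⊕ Fin m₀) := {r | ∃ e, ∀ b', r (e, b') ∈ T} with hbaddef
  set Φ : (Fin m' × Fin b → α ⊕ Fin m₀) → ℝ := fun r =>
    Ex (fun t : Fin m' × Fin b → Option α => G (fun c => mix h' (r c, t c))) with hΦ
  have hG1 : ∀ x, G x ≤ 1 := fun x => Set.indicator_le_self' (fun _ _ => zero_le_one) x
  have hΦ1 : ∀ r, Φ r ≤ 1 := fun r => Ex_le_const fun t => hG1 _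
  have hgood : 1 / N / 2 ≤ Ex (badᶜ.indicator Φ) := by
    have h6 : Ex Φ ≤ dn bad + Ex (badᶜ.indicator Φ) := by
      unfold dn
      rw [← Ex_add]
      refine Ex_mono fun r => ?_
      by_cases hr : r ∈ bad
      · rw [Set.indicator_of_mem hr, Set.indicator_of_notMem (show r ∉ badᶜ from fun h => h hr), add_zero]
        exact hΦ1 r
      · rw [Set.indicator_of_notMem hr, Set.indicator_of_mem (show r ∈ badᶜ from hr), zero_add]
    have h7 : 1 / N ≤ Ex Φ := hS.trans hmix.le
    have h8 : 1 / N = 1 / N / 2 + 1 / N / 2 := by ring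
    linarith
  obtain ⟨r, hr⟩ := exists_Ex_le (badᶜ.indicator Φ)
  have hr' := hgood.trans hr
  have hrb : r ∉ bad := by
    intro hrb
    rw [Set.indicator_of_notMem (show r ∉ badᶜ from fun h => h hrb)] at hr'
    have : (0 : ℝ) < 1 / N / 2 := by positivity
    linarith
  rw [Set.indicator_of_mem (show r ∈ badᶜ from hrb)] at hr'
  have hch : ∀ e, ∃ b', r (e, b') ∈ Set.range h' := by
    intro e
    by_contra hcon
    push Not at hcon
    refine hrb ⟨e, fun b' => ?_⟩
    rw [hT, mem_compl]
    intro h6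
    obtain ⟨o, _, ho⟩ := mem_image.1 h6
    exact hcon b' ⟨o, ho⟩
  choose β hβ using hch
  let c : Fin m' → Fin m' × Fin b := fun e => (e, β e)
  have hc : Function.Injective c := fun x y hxy => (Prod.mk.inj hxy).1
  rw [hΦ] at hr'
  simp only [] at hr'
  rw [Ex_extend c hc] at hr'
  obtain ⟨t₀, ht₀⟩ := exists_Ex_le (fun x : Fin m' × Fin b → Option α => Ex (fun t : Fin m' → Option α =>
    G (fun c_1 => mix h' (r c_1, Function.extend c t x c_1))))
  have ht₁ := hr'.trans ht₀
  -- (5)
  let idx : Fin (m₀ + m' * b) → Option α ⊕ Fin m' := fun i => Sum.elim (fun k => Sum.inl (j k))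
    (fun x => if x = c x.1 then Sum.inr x.1 else Sum.inl (g (mix h' (r x, t₀ x)))) (e i)
  have hproper : ∀ e', ∃ i, idx i = Sum.inr e' := by
    intro e'
    refine ⟨e.symm (Sum.inr (c e')), ?_⟩
    simp only [idx, Equiv.apply_symm_apply, Sum.elim_inr]
    rw [if_pos]
    rfl
  let W : Subspace (Fin m') (Option α) (Fin (m₀ + m' * b)) := ⟨idx, hproper⟩
  have hW : ∀ (t : Fin m' → Option α) (i : Fin (m₀ + m' * b)),
      W t i = Sum.elim j (fun x => g (mix h' (r x, Function.extend c t t₀ x))) (e i) := by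
    intro t i
    rw [Subspace.coe_apply]
    simp only [W, idx]
    rcases hei : e i with k | x
    · rfl
    · simp only [Sum.elim_inr]
      split_ifs with hx
      · have h6 : Function.extend c t t₀ x = t x.1 := by
          conv_lhs => rw [hx]
          exact hc.extend_apply t t₀ x.1
        rw [h6, mix_pos h' (r x) (t x.1), hg]
        · rfl
        · have h7 := hβ x.1
          rw [hx]
          exact h7
      · have h6 : Function.extend c t t₀ x = t₀ x := by
          apply Function.extend_apply'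
          rintro ⟨a, ha⟩
          apply hx
          rw [← ha]
        rw [h6]
        rfl
  refine ⟨W, ⟨e.symm (Sum.inl i₀), ?_⟩, ?_⟩
  · simp only [W, idx, Equiv.apply_symm_apply, Sum.elim_inl]
    rw [hi₀]
  · have h6 : ∀ t : Fin m' → Option α, G (fun x => mix h' (r x, Function.extend c t t₀ x)) * (δ / 2 / N) ≤
        dn (⋂ a, A (fun i => some (rp a (W t) i))) := by
      intro t
      by_cases hs : (fun x => mix h' (r x, Function.extend c t t₀ x)) ∈ S
      · rw [hG, Set.indicator_of_mem hs, one_mul]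
        refine (hjs2 (fun x => mix h' (r x, Function.extend c t t₀ x))).trans (dn_mono ?_)
        rw [show js (fun x => mix h' (r x, Function.extend c t t₀ x)) = j from hs]
        refine Set.iInter_mono fun a => ?_
        simp only [hB]
        apply le_of_eq
        congr 1
        funext i
        simp only [Function.comp_apply]
        congr 1
        unfold rp
        rw [hW]
        rcases e i with k | x
        · rfl
        · simp only [P, Sum.elim_inr]
          exact (hgP _ a).symm
      · rw [hG, Set.indicator_of_notMem hs, zero_mul]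
        exact dn_nonneg _
    have h7 : 1 / N / 2 * (δ / 2 / N) ≤ Ex (fun t : Fin m' → Option α =>
        G (fun x => mix h' (r x, Function.extend c t t₀ x)) * (δ / 2 / N)) := by
      have h8 : Ex (fun t : Fin m' → Option α => G (fun x => mix h' (r x, Function.extend c t t₀ x)) * (δ / 2 / N)) =
          (δ / 2 / N) * Ex (fun t : Fin m' → Option α => G (fun x => mix h' (r x, Function.extend c t t₀ x))) := by
        rw [← Ex_mul_left]
        exact Ex_congr fun t => mul_comm _ _
      rw [h8, mul_comm]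
      exact mul_le_mul_of_nonneg_left ht₁ (by positivity)
    exact h7.trans (Ex_mono h6)

end Pool.Agent.H48.EP
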