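import Pool.Agent.H48.EP.Mdh

/-!
# [H48 EP ISS] A dense insensitive set contains a subspace

Proof.  `M₀` from `mdhj h d (η/2)`.  For `x : ι → Option α` let `J x = {i | x i ≠ none}`.  The `x` with `|J x| < M₀` have density
`≤ ∑_{|J| < M₀} |α|^|J| / (|α|+1)^n ≤ η/4` for `n = |ι|` large.  So (fibering over `J`) there is a set `J` with `|J| ≥ M₀` such that
`S = {u : J → α | (some u on J, none off J) ∈ C}` has density `≥ η/2` in `J → α`.  `mdhj` (index type `{i // i ∈ J}`) gives a subspace `V'` in `S`.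
`V`: the same word on `J` (letters `some a'`), the letter `some a` off `J`.  For `u : Fin d → Option α`:
`rp a (V u) = rp a (the point of the fibre over V' (rp a u))`, so `V u ∈ C` by `Ins`.
-/

set_option autoImplicit false

namespace Pool.Agent.H48.EP

open Finset Combinatorics

/-- the number of small sets -/
private theorem small_sets {ι : Type} [Fintype ι] [DecidableEq ι] (M : ℕ) :
    (univ.filter (fun J : Finset ι => J.card < M)).card ≤ M * (Fintype.card ι + 1) ^ M := by
  have hsub : univ.filter (fun J : Finset ι => J.card < M) ⊆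
      (range M).biUnion (fun j => powersetCard j (univ : Finset ι)) := by
    intro J hJ
    rw [mem_filter] at hJ
    rw [mem_biUnion]
    exact ⟨J.card, mem_range.2 hJ.2, mem_powersetCard.2 ⟨subset_univ _, rfl⟩⟩
  refine (card_le_card hsub).trans (card_biUnion_le.trans ?_)
  have h1 : ∀ j ∈ range M, (powersetCard j (univ : Finset ι)).card ≤ (Fintype.card ι + 1) ^ M := by
    intro j hj
    rw [card_powersetCard, card_univ]
    refine (Nat.choose_le_pow _ _).trans ?_
    refine (Nat.pow_le_pow_left (Nat.le_succ _) j).trans ?_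
    exact Nat.pow_le_pow_right (Nat.succ_pos _) (mem_range.1 hj).le
  refine (sum_le_sum h1).trans ?_
  rw [sum_const, card_range, smul_eq_mul]

/-- polynomial against exponential -/
private theorem asym (k M : ℕ) (hk : 1 ≤ k) (ε : ℝ) (hε : 0 < ε) :
    ∃ N : ℕ, ∀ n : ℕ, N ≤ n → (k : ℝ) ^ M * (M * ((n : ℝ) + 1) ^ M) < ε * ((k : ℝ) + 1) ^ n := by
  have ht := tendsto_pow_const_div_const_pow_of_one_lt M (r := (2 : ℝ)) (by norm_num)
  set c : ℝ := (k : ℝ) ^ M * M with hc
  have hc0 : 0 ≤ c := by positivity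
  have hpos : (0 : ℝ) < ε / (2 * (c + 1)) := by positivity
  have hev := (ht.eventually (gt_mem_nhds hpos))
  obtain ⟨N, hN⟩ := Filter.eventually_atTop.1 hev
  refine ⟨N, fun n hn => ?_⟩
  have h1 := hN (n + 1) (by omega)
  have h2 : (0 : ℝ) < 2 ^ (n + 1) := by positivity
  rw [div_lt_div_iff₀ h2 (by positivity)] at h1
  have h3 : (2 : ℝ) ^ n ≤ ((k : ℝ) + 1) ^ n := by
    refine pow_le_pow_left₀ (by norm_num) ?_ n
    have : (1 : ℝ) ≤ k := by exact_mod_cast hk
    linarith
  have h4 : (0 : ℝ) ≤ ((n : ℝ) + 1) ^ M := by positivity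
  push_cast at h1
  have h5 : (c + 1) * ((n : ℝ) + 1) ^ M < ε * 2 ^ n := by
    rw [pow_succ] at h1
    nlinarith [h1]
  have h5' : c * ((n : ℝ) + 1) ^ M ≤ (c + 1) * ((n : ℝ) + 1) ^ M := by nlinarith
  calc (k : ℝ) ^ M * (M * ((n : ℝ) + 1) ^ M) = c * ((n : ℝ) + 1) ^ M := by rw [hc]; ring
    _ ≤ (c + 1) * ((n : ℝ) + 1) ^ M := h5'
    _ < ε * 2 ^ n := h5
    _ ≤ ε * ((k : ℝ) + 1) ^ n := mul_le_mul_of_nonneg_left h3 hε.le

/-- the point with support `J` -/
private def pt {α ι : Type} [DecidableEq ι] (J : Finset ι) (u : {i // i ∈ J} → α) : ι → Option α :=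
  fun i => if h : i ∈ J then some (u ⟨i, h⟩) else none

private theorem pt_mem {α ι : Type} [DecidableEq ι] (J : Finset ι) (u : {i // i ∈ J} → α) (i : ι) (h : i ∈ J) :
    pt J u i = some (u ⟨i, h⟩) := by
  simp only [pt, dif_pos h]

private theorem pt_notMem {α ι : Type} [DecidableEq ι] (J : Finset ι) (u : {i // i ∈ J} → α) (i : ι) (h : i ∉ J) :
    pt J u i = none := by
  simp only [pt, dif_neg h]

open Classical in
/-- the points of `C` with support `J` -/
private theorem fibre_count {α ι : Type} [Fintype α] [Fintype ι] [DecidableEq ι] (J : Finset ι) (C : Set (ι → Option α)) :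
    ((univ.filter (fun x : ι → Option α => x ∈ C ∧ univ.filter (fun i => x i ≠ none) = J)).card : ℝ) =
      dn {u : {i // i ∈ J} → α | pt J u ∈ C} * (Fintype.card α : ℝ) ^ J.card := by
  have h1 := dn_mul_card {u : {i // i ∈ J} → α | pt J u ∈ C}
  have h2 : (Fintype.card ({i // i ∈ J} → α) : ℝ) = (Fintype.card α : ℝ) ^ J.card := by
    rw [Fintype.card_fun, Fintype.card_coe]
    push_cast
    rfl
  rw [← h2, h1]
  have h3 : {u : {i // i ∈ J} → α | pt J u ∈ C}.ncard =
      (univ.filter (fun u : {i // i ∈ J} → α => pt J u ∈ C)).card := by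
    rw [Set.ncard_eq_toFinset_card']
    congr 1
    ext u
    simp
  rw [h3]
  congr 1
  symm
  refine card_bij (fun u _ => pt J u) ?_ ?_ ?_
  · intro u hu
    rw [mem_filter] at hu ⊢
    refine ⟨mem_univ _, hu.2, ?_⟩
    ext i
    rw [mem_filter]
    constructor
    · rintro ⟨_, hi⟩
      by_contra hJ
      exact hi (pt_notMem J u i hJ)
    · intro hi
      refine ⟨mem_univ _, ?_⟩
      rw [pt_mem J u i hi]
      exact Option.some_ne_none _
  · intro u _ v _ huv
    funext ⟨i, hi⟩
    have h := congrFun huv i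
    rw [pt_mem J u i hi, pt_mem J v i hi] at h
    exact Option.some_injective _ h
  · intro x hx
    rw [mem_filter] at hx
    obtain ⟨_, hxC, hxJ⟩ := hx
    have hne : ∀ i : {i // i ∈ J}, x i.1 ≠ none := by
      intro i
      have hi : i.1 ∈ univ.filter (fun i => x i ≠ none) := by
        rw [hxJ]
        exact i.2
      exact (mem_filter.1 hi).2
    have hex : ∀ i : {i // i ∈ J}, ∃ b : α, x i.1 = some b := fun i => Option.ne_none_iff_exists'.1 (hne i)
    choose u hu using hex
    have hpt : pt J u = x := by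
      funext i
      by_cases hi : i ∈ J
      · rw [pt_mem J u i hi]
        exact (hu ⟨i, hi⟩).symm
      · rw [pt_notMem J u i hi]
        by_contra hne'
        apply hi
        rw [← hxJ, mem_filter]
        exact ⟨mem_univ _, fun h => hne' h.symm⟩
    refine ⟨u, ?_, hpt⟩
    rw [mem_filter]
    refine ⟨mem_univ _, ?_⟩
    rw [hpt]
    exact hxC

/-- the word on `J`, the letter `a` off `J` -/
private def ext {α ι : Type} [DecidableEq ι] {d : ℕ} (a : α) (J : Finset ι) (V : Subspace (Fin d) α {i // i ∈ J}) :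
    Subspace (Fin d) (Option α) ι where
  idxFun := fun i => if h : i ∈ J then (V.idxFun ⟨i, h⟩).map some id else Sum.inl (some a)
  proper := by
    intro e
    obtain ⟨⟨i, hi⟩, h⟩ := V.proper e
    refine ⟨i, ?_⟩
    rw [dif_pos hi, h]
    rfl

private theorem rp_ext {α ι : Type} [DecidableEq ι] {d : ℕ} (a : α) (J : Finset ι) (V : Subspace (Fin d) α {i // i ∈ J})
    (u : Fin d → Option α) : rp a (pt J (V (rp a u))) = rp a (ext a J V u) := by
  funext i
  unfold rp
  by_cases hi : i ∈ J
  · rw [pt_mem J _ i hi]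
    rcases hV : V.idxFun ⟨i, hi⟩ with b | e
    · rw [Subspace.apply_inl hV]
      have : (ext a J V).idxFun i = Sum.inl (some b) := by
        simp only [ext, dif_pos hi, hV]
        rfl
      rw [Subspace.apply_inl this]
    · rw [Subspace.apply_inr hV]
      have : (ext a J V).idxFun i = Sum.inr e := by
        simp only [ext, dif_pos hi, hV]
        rfl
      rw [Subspace.apply_inr this]
      rfl
  · rw [pt_notMem J _ i hi]
    have : (ext a J V).idxFun i = Sum.inl (some a) := by
      simp only [ext, dif_neg hi]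
    rw [Subspace.apply_inl this]
    rfl

open Classical in
/-- a fibre over a large set `J` is dense -/
private theorem exists_J {α ι : Type} [Fintype α] [Nonempty α] [Fintype ι] [DecidableEq ι] (M : ℕ) (η : ℝ) (hη : 0 < η)
    (hn : (Fintype.card α : ℝ) ^ M * (M * ((Fintype.card ι : ℝ) + 1) ^ M) < η / 2 * ((Fintype.card α : ℝ) + 1) ^ Fintype.card ι)
    (C : Set (ι → Option α)) (hC : η ≤ dn C) :
    ∃ J : Finset ι, M ≤ J.card ∧ η / 2 ≤ dn {u : {i // i ∈ J} → α | pt J u ∈ C} := by
  by_contra hcon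
  push Not at hcon
  set k : ℝ := (Fintype.card α : ℝ) with hk
  have hk1 : 1 ≤ k := by
    rw [hk]
    exact_mod_cast Fintype.card_pos
  have hcard : (Fintype.card (ι → Option α) : ℝ) = (k + 1) ^ Fintype.card ι := by
    rw [Fintype.card_fun, Fintype.card_option, hk]
    push_cast
    rfl
  have h1 := dn_mul_card C
  have h2 : (C.ncard : ℝ) =
      ∑ J : Finset ι, ((univ.filter (fun x : ι → Option α => x ∈ C ∧ univ.filter (fun i => x i ≠ none) = J)).card : ℝ) := by
    rw [Set.ncard_eq_toFinset_card']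
    have h3 := card_eq_sum_card_fiberwise (s := C.toFinset) (t := (univ : Finset (Finset ι)))
      (f := fun x : ι → Option α => univ.filter (fun i => x i ≠ none)) (fun _ _ => mem_coe.2 (mem_univ _))
    rw [h3]
    push_cast
    refine sum_congr rfl fun J _ => ?_
    congr 2
    ext x
    simp
  have h4 : ∀ J : Finset ι,
      ((univ.filter (fun x : ι → Option α => x ∈ C ∧ univ.filter (fun i => x i ≠ none) = J)).card : ℝ) ≤
        η / 2 * k ^ J.card + (if J.card < M then k ^ M else 0) := by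
    intro J
    rw [fibre_count]
    have hkJ : (0 : ℝ) ≤ k ^ J.card := by positivity
    by_cases hJ : J.card < M
    · rw [if_pos hJ]
      have h5 : dn {u : {i // i ∈ J} → α | pt J u ∈ C} * k ^ J.card ≤ k ^ J.card := by
        have := dn_le_one {u : {i // i ∈ J} → α | pt J u ∈ C}
        nlinarith
      have h6 : k ^ J.card ≤ k ^ M := pow_le_pow_right₀ hk1 hJ.le
      have h7 : 0 ≤ η / 2 * k ^ J.card := by positivity
      linarith
    · rw [if_neg hJ, add_zero]
      exact mul_le_mul_of_nonneg_right (hcon J (not_lt.1 hJ)).le hkJ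
  have h8 : ∑ J : Finset ι, (η / 2 * k ^ J.card + (if J.card < M then k ^ M else 0)) ≤
      η / 2 * (k + 1) ^ Fintype.card ι + k ^ M * (M * ((Fintype.card ι : ℝ) + 1) ^ M) := by
    rw [sum_add_distrib, ← mul_sum]
    have h9 : ∑ J : Finset ι, k ^ J.card = (k + 1) ^ Fintype.card ι := by
      rw [← Fintype.sum_pow_mul_eq_add_pow ι k 1]
      refine sum_congr rfl fun J _ => ?_
      rw [one_pow, mul_one]
    rw [h9]
    refine add_le_add le_rfl ?_
    rw [← sum_filter, sum_const, nsmul_eq_mul, mul_comm]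
    refine mul_le_mul_of_nonneg_left ?_ (by positivity)
    have := small_sets (ι := ι) M
    calc ((univ.filter (fun J : Finset ι => J.card < M)).card : ℝ) ≤ ((M * (Fintype.card ι + 1) ^ M : ℕ) : ℝ) := by
          refine Nat.cast_le.2 (le_trans (le_of_eq ?_) this)
          congr
      _ = M * ((Fintype.card ι : ℝ) + 1) ^ M := by push_cast; ring
  have h10 : dn C * (k + 1) ^ Fintype.card ι < η * (k + 1) ^ Fintype.card ι := by
    rw [← hcard, h1, h2, hcard]
    refine (sum_le_sum fun J _ => h4 J).trans_lt (h8.trans_lt ?_)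
    linarith
  have h11 : (0 : ℝ) < (k + 1) ^ Fintype.card ι := by positivity
  exact absurd hC (not_le.2 (lt_of_mul_lt_mul_right h10 h11.le))

theorem ins_sub {α : Type} [Fintype α] [Nonempty α] (h : ∀ δ : ℝ, 0 < δ → DHJat α δ) (d : ℕ) (η : ℝ) (hη : 0 < η) :
    ∃ n₀ : ℕ, ∀ (ι : Type) [Fintype ι] [DecidableEq ι], n₀ ≤ Fintype.card ι → ∀ (a : α) (C : Set (ι → Option α)),
      Ins a C → η ≤ dn C → ∃ V : Subspace (Fin d) (Option α) ι, ∀ u, V u ∈ C := by
  obtain ⟨M, hM⟩ := mdhj h d (η / 2) (half_pos hη)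
  obtain ⟨N, hN⟩ := asym (Fintype.card α) M Fintype.card_pos (η / 2) (half_pos hη)
  refine ⟨N, ?_⟩
  intro ι _ _ hι a C hC hd
  obtain ⟨J, hJ, hJd⟩ := exists_J M η hη (hN _ hι) C hd
  obtain ⟨V, hV⟩ := hM {i // i ∈ J} (by rw [Fintype.card_coe]; exact hJ) {u | pt J u ∈ C} hJd
  refine ⟨ext a J V, fun u => ?_⟩
  exact hC _ _ (rp_ext a J V u) (hV (rp a u))

end Pool.Agent.H48.EP
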