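import Pool.Agent.H48.EP.Ban

/-!
# [H48 EP LIN] One configuration of clusters which avoids finitely many linear relations
-/

set_option autoImplicit false

namespace Pool.Agent.H48.EP

open Finset Filter Pool.Agent.H34.RR Pool.Agent.H61.UN Pool.Agent.H21.MT Pool.Agent.H92.MM

/-- one linear relation is rare -/
theorem coin_lin {P : Type} [Fintype P] [DecidableEq P] (N : ℕ) (hN0 : 0 < N) (C : P → ℤ) (hC : C ≠ 0) (g : ℤ) :
    dn {u : P → Fin N | ∑ p, C p * ((u p : ℕ) : ℤ) = g} ≤ 1 / N := by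
  classical
  have hNe : Nonempty (Fin N) := ⟨⟨0, hN0⟩⟩
  have hNr : (0 : ℝ) < N := by exact_mod_cast hN0
  obtain ⟨p, hp⟩ : ∃ p, C p ≠ 0 := by
    by_contra hcon
    push Not at hcon
    exact hC (funext hcon)
  have hinj : Function.Injective (fun _ : Unit => p) := fun _ _ _ => rfl
  unfold dn
  rw [Ex_extend (fun _ : Unit => p) hinj]
  refine Ex_le_const fun x => ?_
  obtain ⟨G, hG⟩ : ∃ G : ℤ, G = g - ∑ q ∈ univ.erase p, C q * ((x q : ℕ) : ℤ) := ⟨_, rfl⟩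
  have hkey : ∀ t : Unit → Fin N, (∑ q, C q * (((Function.extend (fun _ : Unit => p) t x q : Fin N) : ℕ) : ℤ) = g ↔
      C p * ((t () : ℕ) : ℤ) = G) := by
    intro t
    have e1 : Function.extend (fun _ : Unit => p) t x p = t () := hinj.extend_apply t x ()
    have e2 : ∀ q ∈ univ.erase p, C q * (((Function.extend (fun _ : Unit => p) t x q : Fin N) : ℕ) : ℤ) = C q * ((x q : ℕ) : ℤ) := by
      intro q hq
      rw [Function.extend_apply']
      rintro ⟨_, h⟩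
      exact (mem_erase.1 hq).1 h.symm
    rw [← add_sum_erase _ _ (mem_univ p), e1, sum_congr rfl e2, hG]
    constructor
    · intro h
      linarith
    · intro h
      linarith
  have h1 : Ex (fun t : Unit → Fin N => ({u : P → Fin N | ∑ p, C p * ((u p : ℕ) : ℤ) = g}).indicator (fun _ => (1 : ℝ))
      (Function.extend (fun _ : Unit => p) t x)) =
      dn {t : Unit → Fin N | C p * ((t () : ℕ) : ℤ) = G} := by
    refine Ex_congr fun t => ?_
    by_cases h : C p * ((t () : ℕ) : ℤ) = G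
    · rw [Set.indicator_of_mem (show t ∈ {t : Unit → Fin N | C p * ((t () : ℕ) : ℤ) = G} from h), Set.indicator_of_mem]
      exact (hkey t).2 h
    · rw [Set.indicator_of_notMem (show t ∉ {t : Unit → Fin N | C p * ((t () : ℕ) : ℤ) = G} from h), Set.indicator_of_notMem]
      intro h2
      exact h ((hkey t).1 h2)
  rw [h1]
  have h2 := dn_mul_card {t : Unit → Fin N | C p * ((t () : ℕ) : ℤ) = G}
  have h3 : {t : Unit → Fin N | C p * ((t () : ℕ) : ℤ) = G}.ncard ≤ 1 := by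
    rw [Set.ncard_le_one_iff]
    intro t t' ht ht'
    have h4 : C p * ((t () : ℕ) : ℤ) = G := ht
    have h5 : C p * ((t' () : ℕ) : ℤ) = G := ht'
    have h6 : ((t () : ℕ) : ℤ) = (t' () : ℕ) := mul_left_cancel₀ hp (h4.trans h5.symm)
    funext i
    have h7 : (t () : ℕ) = (t' () : ℕ) := by exact_mod_cast h6
    exact Fin.ext h7
  have h4 : (({t : Unit → Fin N | C p * ((t () : ℕ) : ℤ) = G}.ncard : ℕ) : ℝ) ≤ 1 := by exact_mod_cast h3
  rw [← h2, Fintype.card_fun, Fintype.card_unit, pow_one, Fintype.card_fin] at h4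
  rw [le_div_iff₀ hNr]
  exact h4

/-- a dense family contains a map outside finitely many rare sets -/
theorem avoid_fam {P : Type} [Fintype P] [DecidableEq P] (N : ℕ) (hN0 : 0 < N) (c : ℝ) {ι : Type} [Fintype ι]
    (Bd : ι → Set (P → Fin N)) (hB : ∀ i, dn (Bd i) ≤ 1 / N) (hc : (Fintype.card ι : ℝ) < c * N) (U : Set (P → Fin N)) (hU : c ≤ dn U) :
    ∃ u ∈ U, ∀ i, u ∉ Bd i := by
  classical
  have hNr : (0 : ℝ) < N := by exact_mod_cast hN0
  by_contra hcon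
  push Not at hcon
  have h1 : dn U ≤ ∑ i, dn (Bd i) := by
    unfold dn
    rw [← Ex_sum]
    refine Ex_mono fun u => ?_
    have h0 : ∀ i ∈ (univ : Finset ι), (0 : ℝ) ≤ (Bd i).indicator (fun _ => (1 : ℝ)) u :=
      fun i _ => Set.indicator_nonneg (fun _ _ => zero_le_one) u
    by_cases hu : u ∈ U
    · rw [Set.indicator_of_mem hu]
      obtain ⟨i, hi⟩ := hcon u hu
      refine le_trans ?_ (single_le_sum h0 (mem_univ i))
      rw [Set.indicator_of_mem hi]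
    · rw [Set.indicator_of_notMem hu]
      exact sum_nonneg h0
  have h2 : ∑ i, dn (Bd i) ≤ (univ : Finset ι).card • (1 / (N : ℝ)) := sum_le_card_nsmul _ _ _ fun i _ => hB i
  rw [nsmul_eq_mul, card_univ] at h2
  have h4 : c ≤ (Fintype.card ι : ℝ) * (1 / (N : ℝ)) := hU.trans (h1.trans h2)
  rw [mul_one_div, le_div_iff₀ hNr] at h4
  linarith

/-- **one configuration of clusters, with arbitrary shifts of the clusters, outside `L` linear relations** -/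
theorem one_conf' {k : ℕ} {δ : ℝ} (S : Sys k δ) (s : ℕ) (hs : 1 ≤ s) (ε : ℝ) (hε : 0 < ε) (L : ℕ) :
    ∃ z₀ : ℕ, ∀ z : ℕ, z₀ ≤ z → ∀ E : Finset (Fin k → ℤ), (∀ b ∈ E, ∀ i, |b i| ≤ z) →
      ε * (z : ℝ) ^ k ≤ E.card → ∀ τ : Fin S.m → ℤ, ∀ C : Fin L → (Fin S.m × Fin s → ℤ), (∀ l, C l ≠ 0) → ∀ g : Fin L → ℤ,
        ∃ u : Fin S.m × Fin s → ℤ,
        (∀ p, 0 ≤ u p ∧ u p ≤ ((2 * k * S.n + 1) * z : ℕ)) ∧
        Function.Injective (fun p => u p + τ p.1) ∧ (∀ (a : Fin S.L) (t : Fin (k + 1) → Fin s), ∃ b ∈ E, ∀ i : Fin k,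
            u (S.e a i.succ, t i.succ) - u (S.e a 0, t 0) = S.μ a * b i) ∧ ∀ l, ∑ p, C l p * u p ≠ g l := by
  classical
  obtain ⟨K, hK⟩ : ∃ K, K = 2 * k * S.n + 1 := ⟨_, rfl⟩
  have hK0 : 0 < K := by omega
  have hKr : (0 : ℝ) < K := by exact_mod_cast hK0
  obtain ⟨c₁, hc₁, hrem⟩ := removal S.e S.inj S.lin S.cov (ε / (K : ℝ) ^ (k + 1)) (by positivity)
  obtain ⟨c₂, hc₂⟩ : ∃ c₂, c₂ = c₁ ^ (s ^ S.m) := ⟨_, rfl⟩
  have hc₂0 : 0 < c₂ := by
    rw [hc₂]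
    positivity
  obtain ⟨w, hw⟩ : ∃ w, w = Fintype.card ({pq : (Fin S.m × Fin s) × (Fin S.m × Fin s) // pq.1 ≠ pq.2} ⊕ Fin L) := ⟨_, rfl⟩
  refine ⟨⌈(w : ℝ) / c₂⌉₊ + 1, ?_⟩
  intro z hz E hE hEc τ C hC g
  have hz1 : 1 ≤ z := by omega
  have hzr : (0 : ℝ) < z := by exact_mod_cast hz1
  obtain ⟨N, hN⟩ : ∃ N, N = K * z := ⟨_, rfl⟩
  have hzN : z ≤ N := by
    rw [hN]
    exact Nat.le_mul_of_pos_left z hK0
  have hN0 : 0 < N := by omega
  have hNe : Nonempty (Fin N) := ⟨⟨0, hN0⟩⟩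
  have hTr := trivial_copies S z hz1 E hE
  rw [← hK, ← hN] at hTr
  obtain ⟨T, hT1, hT2, hT3⟩ := hTr
  have h1 := hrem (Fin N) (fun a => FE (S.μ a) E) T hT1 hT2 (by
    rw [Fintype.card_fin, Fintype.card_fin, hT3, hN]
    push_cast
    rw [mul_pow, ← mul_assoc, div_mul_cancel₀ _ (by positivity), pow_succ]
    calc ε * ((z : ℝ) ^ k * z) = z * (ε * (z : ℝ) ^ k) := by ring
      _ ≤ z * E.card := mul_le_mul_of_nonneg_left hEc hzr.le)
  have h2 := blowup (V := Fin S.m) (X := Fin N) s hs {x | ∀ a, x ∘ S.e a ∈ FE (S.μ a) E}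
  rw [Fintype.card_fin] at h2
  have h3 : c₂ ≤ dn {u : Fin S.m × Fin s → Fin N | ∀ t : Fin S.m → Fin s,
      (fun v => u (v, t v)) ∈ {x : Fin S.m → Fin N | ∀ a, x ∘ S.e a ∈ FE (S.μ a) E}} := by
    rw [hc₂]
    exact (pow_le_pow_left₀ hc₁.le h1 _).trans h2
  obtain ⟨u, hu, huB⟩ := avoid_fam (P := Fin S.m × Fin s) N hN0 c₂
    (ι := {pq : (Fin S.m × Fin s) × (Fin S.m × Fin s) // pq.1 ≠ pq.2} ⊕ Fin L)
    (Sum.elim (fun pq => {u : Fin S.m × Fin s → Fin N | ((u pq.1.1 : ℕ) : ℤ) + τ pq.1.1.1 = ((u pq.1.2 : ℕ) : ℤ) + τ pq.1.2.1})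
      (fun l => {u : Fin S.m × Fin s → Fin N | ∑ p, C l p * ((u p : ℕ) : ℤ) = g l}))
    (by
      rintro (pq | l)
      · exact coin N hN0 pq.1.1 pq.1.2 pq.2 _ _
      · exact coin_lin N hN0 (C l) (hC l) (g l))
    (by
      rw [← hw]
      have h5 : (w : ℝ) / c₂ < N := by
        refine lt_of_le_of_lt (Nat.le_ceil _) ?_
        have : ⌈(w : ℝ) / c₂⌉₊ < N := by omega
        exact_mod_cast this
      rw [div_lt_iff₀ hc₂0] at h5
      linarith) _ h3
  refine ⟨fun p => ((u p : ℕ) : ℤ), fun p => ⟨Nat.cast_nonneg _, ?_⟩, ?_, fun a t => ?_, fun l => ?_⟩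
  · have h6 := (u p).2
    have h7 : (u p : ℕ) ≤ (2 * k * S.n + 1) * z := by
      rw [← hK, ← hN]
      exact h6.le
    show (((u p : Fin N) : ℕ) : ℤ) ≤ (((2 * k * S.n + 1) * z : ℕ) : ℤ)
    exact_mod_cast h7
  · intro p q hpq
    by_contra hne
    exact huB (Sum.inl ⟨(p, q), hne⟩) hpq
  · -- extend the choice
    have hsel : ∃ t' : Fin S.m → Fin s, ∀ i, t' (S.e a i) = t i := by
      refine ⟨Function.extend (S.e a) t (fun _ => ⟨0, hs⟩), fun i => ?_⟩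
      exact (S.inj a).extend_apply t _ i
    obtain ⟨t', ht'⟩ := hsel
    obtain ⟨b, hb, hbd⟩ := hu t' a
    refine ⟨b, hb, fun i => ?_⟩
    have h5 := hbd i
    simp only [Function.comp_apply, ht'] at h5
    exact h5
  · exact huB (Sum.inr l)

end Pool.Agent.H48.EP
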