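import Pool.Agent.H48.EP.Dh

/-!
# [H48 EP MDH] Multidimensional density Hales-Jewett

Proof.  Induction on `d`; `d = 0`: `A` is not empty (`δ > 0`), a point is a subspace without variables.
`d + 1`: let `M` be the number of `(d, δ/2)`; `ι ≃ Fin M ⊕ Fin k` (`exists_split`), `k` large.  For `y : Fin k → α` let
`A_y = {z : Fin M → α | Sum.elim z y ∘ e.symm ∈ A}`; the `y` with `dn A_y ≥ δ/2` have density `≥ δ/2` (`markov`, `Ex_sumElim`, `Ex_comm`), for
them there is a `d`-dimensional subspace `V_y` in `A_y`; by `exists_fibre` (finitely many subspaces of `Fin M → α`: they are given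
by `idxFun : Fin M → α ⊕ Fin d`) one `V` occurs on a set `B` of density `≥ δ/2 / (|α| + d)^M`, `B` contains a line `l`, and `V × l` is a
`(d+1)`-dimensional subspace (variables `Fin d ⊕ Unit`, reindexed to `Fin (d+1)`).
-/

set_option autoImplicit false

namespace Pool.Agent.H48.EP

open Finset Combinatorics

/-- the idxFun of the product of a subspace and a line -/
private def prodIdx {α κ ι : Type} {d m : ℕ} (V : Subspace (Fin d) α (Fin m)) (l : Line α κ)
    (e : Fin m ⊕ κ ≃ ι) (i : ι) : α ⊕ Fin (d + 1) :=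
  Sum.elim (fun s : Fin m => (V.idxFun s).map id Fin.castSucc)
    (fun k : κ => (l.idxFun k).elim (Sum.inr (Fin.last d)) Sum.inl) (e.symm i)

private def prodSub {α κ ι : Type} {d m : ℕ} (V : Subspace (Fin d) α (Fin m)) (l : Line α κ)
    (e : Fin m ⊕ κ ≃ ι) : Subspace (Fin (d + 1)) α ι where
  idxFun := prodIdx V l e
  proper := by
    intro c
    refine Fin.lastCases ?_ (fun j => ?_) c
    · obtain ⟨k, hk⟩ := l.proper
      refine ⟨e (Sum.inr k), ?_⟩
      unfold prodIdx
      rw [Equiv.symm_apply_apply, Sum.elim_inr, hk]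
      rfl
    · obtain ⟨s, hs⟩ := V.proper j
      refine ⟨e (Sum.inl s), ?_⟩
      unfold prodIdx
      rw [Equiv.symm_apply_apply, Sum.elim_inl, hs]
      rfl

private theorem prodSub_apply {α κ ι : Type} {d m : ℕ} (V : Subspace (Fin d) α (Fin m))
    (l : Line α κ) (e : Fin m ⊕ κ ≃ ι) (u : Fin (d + 1) → α) :
    prodSub V l e u = Sum.elim (V (fun j => u j.castSucc)) (l (u (Fin.last d))) ∘ e.symm := by
  funext i
  rw [Subspace.coe_apply, Function.comp_apply]
  show Sum.elim id u (prodIdx V l e i) = _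
  unfold prodIdx
  rcases e.symm i with s | k
  · rw [Sum.elim_inl, Sum.elim_inl, Subspace.coe_apply]
    rcases V.idxFun s with a | j
    · rfl
    · rfl
  · rw [Sum.elim_inr, Sum.elim_inr, Line.coe_apply]
    rcases l.idxFun k with _ | a
    · rfl
    · rfl

theorem mdhj {α : Type} [Fintype α] [Nonempty α] (h : ∀ δ : ℝ, 0 < δ → DHJat α δ) (d : ℕ) (δ : ℝ) (hδ : 0 < δ) :
    ∃ n₀ : ℕ, ∀ (ι : Type) [Fintype ι] [DecidableEq ι], n₀ ≤ Fintype.card ι → ∀ A : Set (ι → α), δ ≤ dn A →
      ∃ V : Subspace (Fin d) α ι, ∀ u, V u ∈ A := by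
  classical
  induction d generalizing δ with
  | zero =>
    refine ⟨0, ?_⟩
    intro ι _ _ _ A hA
    obtain ⟨x, hx⟩ := nonempty_of_dn_pos (hδ.trans_le hA)
    refine ⟨⟨fun i => Sum.inl (x i), fun e => e.elim0⟩, fun u => ?_⟩
    have : (⟨fun i => Sum.inl (x i), fun e => e.elim0⟩ : Subspace (Fin 0) α ι) u = x := by
      funext i
      rw [Subspace.coe_apply]
      rfl
    rw [this]
    exact hx
  | succ d ih =>
    obtain ⟨M, hM⟩ := ih (δ / 2) (half_pos hδ)
    have hJ : (0 : ℝ) < Fintype.card (Fin M → α ⊕ Fin d) := by exact_mod_cast Fintype.card_pos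
    obtain ⟨k, hk⟩ := h (δ / 2 / Fintype.card (Fin M → α ⊕ Fin d)) (div_pos (half_pos hδ) hJ)
    refine ⟨M + k, ?_⟩
    intro ι _ _ hι A hA
    obtain ⟨e⟩ := exists_split (ι := ι) (a := M) (by omega)
    have hAF : dn A = Ex (fun y : Fin (Fintype.card ι - M) → α =>
        dn {z : Fin M → α | Sum.elim z y ∘ e.symm ∈ A}) := by
      unfold dn
      rw [← Ex_reindex e, Ex_sumElim, Ex_comm]
      refine Ex_congr fun y => Ex_congr fun z => ?_
      by_cases hz : Sum.elim z y ∘ e.symm ∈ A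
      · rw [Set.indicator_of_mem hz, Set.indicator_of_mem
          (show z ∈ {z : Fin M → α | Sum.elim z y ∘ e.symm ∈ A} from hz)]
      · rw [Set.indicator_of_notMem hz, Set.indicator_of_notMem
          (show z ∉ {z : Fin M → α | Sum.elim z y ∘ e.symm ∈ A} from hz)]
    have hmark := markov (f := fun y : Fin (Fintype.card ι - M) → α =>
        dn {z : Fin M → α | Sum.elim z y ∘ e.symm ∈ A}) (fun y => dn_le_one _)
        (c := δ / 2) (half_pos hδ).le
    rw [← hAF] at hmark
    have hB0 : δ / 2 ≤ dn {y : Fin (Fintype.card ι - M) → α |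
        δ / 2 ≤ dn {z : Fin M → α | Sum.elim z y ∘ e.symm ∈ A}} := by linarith
    have hV : ∀ y : Fin (Fintype.card ι - M) → α,
        y ∈ {y : Fin (Fintype.card ι - M) → α |
          δ / 2 ≤ dn {z : Fin M → α | Sum.elim z y ∘ e.symm ∈ A}} →
        ∃ V : Subspace (Fin d) α (Fin M), ∀ u, V u ∈ {z : Fin M → α | Sum.elim z y ∘ e.symm ∈ A} := by
      intro y hy
      exact hM (Fin M) (by rw [Fintype.card_fin]) _ hy
    obtain ⟨y0, hy0⟩ := nonempty_of_dn_pos ((half_pos hδ).trans_le hB0)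
    obtain ⟨V0, _⟩ := hV y0 hy0
    have : Nonempty (Subspace (Fin d) α (Fin M)) := ⟨V0⟩
    choose! V hV using hV
    obtain ⟨j, hj⟩ := exists_fibre {y : Fin (Fintype.card ι - M) → α |
        δ / 2 ≤ dn {z : Fin M → α | Sum.elim z y ∘ e.symm ∈ A}} (fun y => (V y).idxFun)
    obtain ⟨l, hl⟩ := hk (Fin (Fintype.card ι - M)) (by rw [Fintype.card_fin]; omega)
      {x | x ∈ {y : Fin (Fintype.card ι - M) → α |
        δ / 2 ≤ dn {z : Fin M → α | Sum.elim z y ∘ e.symm ∈ A}} ∧ (V x).idxFun = j} (by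
        rw [div_le_iff₀ hJ, mul_comm]
        exact hB0.trans hj)
    obtain ⟨a0⟩ := (inferInstance : Nonempty α)
    refine ⟨prodSub (V (l a0)) l e, fun u => ?_⟩
    rw [prodSub_apply]
    have h1 := hl (u (Fin.last d))
    have h2 := hl a0
    have h3 : V (l (u (Fin.last d))) = V (l a0) := by
      have h4 : (V (l (u (Fin.last d)))).idxFun = (V (l a0)).idxFun := h1.2.trans h2.2.symm
      cases hx : V (l (u (Fin.last d)))
      cases hy : V (l a0)
      rw [hx, hy] at h4
      simp only at h4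
      subst h4
      rfl
    have h5 := hV (l (u (Fin.last d))) h1.1 (fun j => u j.castSucc)
    rw [h3] at h5
    exact h5

end Pool.Agent.H48.EP
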