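import Pool.Agent.H48.EP.Iss

/-!
# [H48 EP PA1] Insensitive sets are unions of subspaces up to a small set

Proof.  `M` = number of `ins_sub h d (η/2)`, `c₀ = (|α|+1)^(-M)`, `q = 1 - c₀ < 1`, `K = |α| + 1`.  Claim(j): for `|ι| ≥ j M + d` (any `ι`) and `Ins a C`, `g ≤ 1` with
the condition of `Part` on `C`: `Ex (C.indicator g) ≤ q^j dn C + (1 - q^j) (η/2)`.  (Take `j` with `q^j ≤ η/2`; the claim for `j = 0` is
`Ex (C.indicator g) ≤ dn C`.)  Step: `e : Fin M ⊕ Fin k ≃ ι` (`exists_split`).  For `y : Fin k → Option α` let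
`C_y = {z | Sum.elim z y ∘ e.symm ∈ C}` (`Ins a`).  For every SET `D` of `Fin M → Option α` with `Ins a D`, `η/2 ≤ dn D` choose a subspace `V_D` in `D`
(so it depends only on the set `D`), `R_y = range V_{C_y}`, `R_y = ∅` if `dn C_y < η/2`.  `R = {(z,y) | z ∈ R_y}`: `∑_{R} g ≤ 0` since every `V_{C_y} × {y}` is a
subspace in `C` (`V` is injective: `proper`), `dn R ≥ c₀ dn {y | η/2 ≤ dn C_y} ≥ c₀ (dn C - η/2)` (`markov`).  For `z` fixed the section `(C \ R)_z` is
`Ins a` (if `rp a y = rp a y'` then `C_y = C_{y'}`, so `V_{C_y} = V_{C_{y'}}`) and Claim(j) applies to `g (z, ·)`; average over `z`: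
`Ex (C.indicator g) ≤ q^j dn (C \ R) + (1 - q^j)(η/2) ≤ q^j (q dn C + c₀ η/2) + (1 - q^j)(η/2)`.
-/

set_option autoImplicit false

namespace Pool.Agent.H48.EP

open Finset Combinatorics

/-- a point times a subspace -/
private def ptSub {β ι : Type} {m k d : ℕ} (e : Fin m ⊕ Fin k ≃ ι) (z : Fin m → β)
    (V : Subspace (Fin d) β (Fin k)) : Subspace (Fin d) β ι where
  idxFun := fun i => Sum.elim (fun s => Sum.inl (z s)) V.idxFun (e.symm i)
  proper := by
    intro c
    obtain ⟨t, ht⟩ := V.proper c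
    refine ⟨e (Sum.inr t), ?_⟩
    rw [Equiv.symm_apply_apply, Sum.elim_inr, ht]

private theorem ptSub_apply {β ι : Type} {m k d : ℕ} (e : Fin m ⊕ Fin k ≃ ι) (z : Fin m → β)
    (V : Subspace (Fin d) β (Fin k)) (u : Fin d → β) :
    ptSub e z V u = Sum.elim z (V u) ∘ e.symm := by
  funext i
  rw [Subspace.coe_apply, Function.comp_apply]
  show Sum.elim id u (Sum.elim (fun s => Sum.inl (z s)) V.idxFun (e.symm i)) = _
  rcases e.symm i with s | t
  · rfl
  · rw [Sum.elim_inr, Sum.elim_inr, Subspace.coe_apply]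

/-- a subspace times a point -/
private def subPt {β ι : Type} {m k d : ℕ} (e : Fin m ⊕ Fin k ≃ ι) (V : Subspace (Fin d) β (Fin m))
    (y : Fin k → β) : Subspace (Fin d) β ι where
  idxFun := fun i => Sum.elim V.idxFun (fun s => Sum.inl (y s)) (e.symm i)
  proper := by
    intro c
    obtain ⟨t, ht⟩ := V.proper c
    refine ⟨e (Sum.inl t), ?_⟩
    rw [Equiv.symm_apply_apply, Sum.elim_inl, ht]

private theorem subPt_apply {β ι : Type} {m k d : ℕ} (e : Fin m ⊕ Fin k ≃ ι)
    (V : Subspace (Fin d) β (Fin m)) (y : Fin k → β) (u : Fin d → β) :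
    subPt e V y u = Sum.elim (V u) y ∘ e.symm := by
  funext i
  rw [Subspace.coe_apply, Function.comp_apply]
  show Sum.elim id u (Sum.elim V.idxFun (fun s => Sum.inl (y s)) (e.symm i)) = _
  rcases e.symm i with s | t
  · rw [Sum.elim_inl, Sum.elim_inl, Subspace.coe_apply]
  · rfl

private theorem sub_inj {β κ : Type} {d : ℕ} (V : Subspace (Fin d) β κ) :
    Function.Injective (fun u => V u) := by
  intro u v huv
  funext c
  obtain ⟨i, hi⟩ := V.proper c
  have h := congrFun huv i
  simp only at h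
  rwa [Subspace.apply_inr hi, Subspace.apply_inr hi] at h

private theorem rp_elim_left {α ι : Type} {m k : ℕ} (e : Fin m ⊕ Fin k ≃ ι) (a : α)
    {z z' : Fin m → Option α} (y : Fin k → Option α) (h : rp a z = rp a z') :
    rp a (Sum.elim z y ∘ e.symm) = rp a (Sum.elim z' y ∘ e.symm) := by
  funext i
  show (Sum.elim z y (e.symm i)).getD a = (Sum.elim z' y (e.symm i)).getD a
  rcases e.symm i with s | t
  · exact congrFun h s
  · rfl

private theorem rp_elim_right {α ι : Type} {m k : ℕ} (e : Fin m ⊕ Fin k ≃ ι) (a : α)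
    (z : Fin m → Option α) {y y' : Fin k → Option α} (h : rp a y = rp a y') :
    rp a (Sum.elim z y ∘ e.symm) = rp a (Sum.elim z y' ∘ e.symm) := by
  funext i
  show (Sum.elim z y (e.symm i)).getD a = (Sum.elim z y' (e.symm i)).getD a
  rcases e.symm i with s | t
  · rfl
  · exact congrFun h t

/-- the sum of a function over the range of a subspace -/
private theorem Ex_range {β κ : Type} [Fintype β] [Fintype κ] [DecidableEq κ] {d : ℕ}
    (V : Subspace (Fin d) β κ) (f : (κ → β) → ℝ) :
    Ex ((Set.range fun u => V u).indicator f) = (∑ u, f (V u)) / Fintype.card (κ → β) := by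
  classical
  unfold Ex
  congr 1
  rw [← sum_image (s := univ) (g := fun u => V u) (f := f) (fun x _ y _ h => sub_inj V h),
    ← sum_subset (subset_univ (univ.image fun u => V u))
      (f := (Set.range fun u => V u).indicator f)]
  · refine sum_congr rfl fun x hx => ?_
    obtain ⟨u, -, hu⟩ := mem_image.1 hx
    rw [Set.indicator_of_mem (show x ∈ Set.range fun u => V u from ⟨u, hu⟩)]
  · intro x _ hx
    rw [Set.indicator_of_notMem]
    rintro ⟨u, hu⟩
    exact hx (mem_image.2 ⟨u, mem_univ _, hu⟩)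

private theorem dn_range {β κ : Type} [Fintype β] [Nonempty β] [Fintype κ] [DecidableEq κ] {d : ℕ}
    (V : Subspace (Fin d) β κ) :
    1 / (Fintype.card (κ → β) : ℝ) ≤ dn (Set.range fun u => V u) := by
  unfold dn
  rw [Ex_range, sum_const, card_univ, nsmul_eq_mul, mul_one]
  refine div_le_div_of_nonneg_right ?_ (Nat.cast_nonneg _)
  have : 0 < Fintype.card (Fin d → β) := Fintype.card_pos
  exact_mod_cast this

open Classical in
/-- the chosen subspace of a dense insensitive set -/
private theorem exists_choice {α : Type} [Fintype α] {d M : ℕ} {η : ℝ} (a : α)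
    (hM : ∀ C : Set (Fin M → Option α), Ins a C → η / 2 ≤ dn C →
      ∃ V : Subspace (Fin d) (Option α) (Fin M), ∀ u, V u ∈ C) :
    ∃ Φ : Set (Fin M → Option α) → Set (Fin M → Option α), (∀ D, Φ D ⊆ D) ∧
      (∀ D, Ins a D → η / 2 ≤ dn D → 1 / (Fintype.card (Fin M → Option α) : ℝ) ≤ dn (Φ D)) ∧
      ∀ D, ∀ f : (Fin M → Option α) → ℝ,
        (∀ V : Subspace (Fin d) (Option α) (Fin M), (∀ u, V u ∈ D) → ∑ u, f (V u) ≤ 0) →
        Ex ((Φ D).indicator f) ≤ 0 := by
  refine ⟨fun D => if h : Ins a D ∧ η / 2 ≤ dn D then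
    Set.range (fun u => (Classical.choose (hM D h.1 h.2)) u) else ∅, ?_, ?_, ?_⟩
  · intro D
    by_cases h : Ins a D ∧ η / 2 ≤ dn D
    · simp only [dif_pos h]
      rintro x ⟨u, rfl⟩
      exact Classical.choose_spec (hM D h.1 h.2) u
    · simp only [dif_neg h]
      exact Set.empty_subset _
  · intro D h1 h2
    simp only [dif_pos (show Ins a D ∧ η / 2 ≤ dn D from ⟨h1, h2⟩)]
    exact dn_range _
  · intro D f hf
    by_cases h : Ins a D ∧ η / 2 ≤ dn D
    · simp only [dif_pos h]
      rw [Ex_range]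
      exact div_nonpos_of_nonpos_of_nonneg (hf _ (Classical.choose_spec (hM D h.1 h.2)))
        (Nat.cast_nonneg _)
    · simp only [dif_neg h]
      rw [Set.indicator_empty]
      unfold Ex
      simp

open Classical in
private theorem claim {α : Type} [Fintype α] [Nonempty α] {d M : ℕ} {η : ℝ} (hη : 0 < η)
    (hM : ∀ (a : α) (C : Set (Fin M → Option α)), Ins a C → η / 2 ≤ dn C →
      ∃ V : Subspace (Fin d) (Option α) (Fin M), ∀ u, V u ∈ C) (q : ℝ) (hq0 : 0 ≤ q)
    (hq : q = 1 - 1 / (Fintype.card (Fin M → Option α) : ℝ)) (j : ℕ) :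
    ∀ (ι : Type) [Fintype ι] [DecidableEq ι], j * M ≤ Fintype.card ι → ∀ (a : α)
      (C : Set (ι → Option α)), Ins a C → ∀ g : (ι → Option α) → ℝ, (∀ x, g x ≤ 1) →
      (∀ V : Subspace (Fin d) (Option α) ι, (∀ u, V u ∈ C) → ∑ u, g (V u) ≤ 0) →
      Ex (C.indicator g) ≤ q ^ j * dn C + (1 - q ^ j) * (η / 2) := by
  induction j with
  | zero =>
    intro ι _ _ _ a C _ g hg _
    rw [pow_zero, one_mul, sub_self, zero_mul, add_zero]
    refine Ex_mono fun x => ?_
    by_cases hx : x ∈ C
    · rw [Set.indicator_of_mem hx, Set.indicator_of_mem hx]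
      exact hg x
    · rw [Set.indicator_of_notMem hx, Set.indicator_of_notMem hx]
  | succ j ih =>
    intro ι _ _ hι a C hC g hg hcond
    have hMι : M ≤ Fintype.card ι := by
      refine le_trans ?_ hι
      rw [Nat.succ_mul]
      exact Nat.le_add_left _ _
    obtain ⟨e⟩ := exists_split (ι := ι) hMι
    obtain ⟨k, hk⟩ : ∃ k : ℕ, k = Fintype.card ι - M := ⟨_, rfl⟩
    rw [← hk] at e
    have hjk : j * M ≤ Fintype.card (Fin k) := by
      rw [Fintype.card_fin, hk]
      rw [Nat.succ_mul] at hι
      omega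
    have hsplit : ∀ f : (ι → Option α) → ℝ, Ex f = Ex (fun z : Fin M → Option α =>
        Ex (fun y : Fin k → Option α => f (Sum.elim z y ∘ e.symm))) := by
      intro f
      rw [← Ex_reindex e f, Ex_sumElim]
    obtain ⟨Φ, hΦ1, hΦ2, hΦ3⟩ := exists_choice a (hM a)
    -- the fibres over y
    let Cy : (Fin k → Option α) → Set (Fin M → Option α) :=
      fun y => {z | Sum.elim z y ∘ e.symm ∈ C}
    have hCy : ∀ y, Ins a (Cy y) := by
      intro y z z' h hz
      exact hC _ _ (rp_elim_left e a y h) hz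
    have hCy2 : ∀ y y', rp a y = rp a y' → Cy y = Cy y' := by
      intro y y' h
      ext z
      exact ⟨fun hz => hC _ _ (rp_elim_right e a z h) hz,
        fun hz => hC _ _ (rp_elim_right e a z h.symm) hz⟩
    let S : (Fin M → Option α) → Set (Fin k → Option α) :=
      fun z => {y | z ∈ Cy y ∧ z ∉ Φ (Cy y)}
    have hS : ∀ z, Ins a (S z) := by
      intro z y y' h hy
      show z ∈ Cy y' ∧ z ∉ Φ (Cy y')
      rw [← hCy2 y y' h]
      exact hy
    -- the claim on the sections
    have h1 : ∀ z, Ex ((S z).indicator (fun y => g (Sum.elim z y ∘ e.symm)))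
        ≤ q ^ j * dn (S z) + (1 - q ^ j) * (η / 2) := by
      intro z
      refine ih (Fin k) hjk a (S z) (hS z) _ (fun y => hg _) ?_
      intro V hV
      have h2 := hcond (ptSub e z V) (fun u => by
        rw [ptSub_apply]
        exact (hV u).1)
      simp only [ptSub_apply] at h2
      exact h2
    -- the removed part
    have h2 : Ex (fun z : Fin M → Option α => Ex (fun y : Fin k → Option α =>
        (Φ (Cy y)).indicator (fun z => g (Sum.elim z y ∘ e.symm)) z)) ≤ 0 := by
      rw [Ex_comm]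
      have h3 : ∀ y : Fin k → Option α, Ex (fun z : Fin M → Option α =>
          (Φ (Cy y)).indicator (fun z => g (Sum.elim z y ∘ e.symm)) z) ≤ 0 := by
        intro y
        refine hΦ3 (Cy y) (fun z => g (Sum.elim z y ∘ e.symm)) ?_
        intro V hV
        have h4 := hcond (subPt e V y) (fun u => by
          rw [subPt_apply]
          exact hV u)
        simp only [subPt_apply] at h4
        exact h4
      refine Ex_le_const h3
    -- densities
    have hdC : dn C = Ex (fun y : Fin k → Option α => dn (Cy y)) := by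
      unfold dn
      rw [hsplit, Ex_comm]
      refine Ex_congr fun y => Ex_congr fun z => ?_
      by_cases hz : z ∈ Cy y
      · rw [Set.indicator_of_mem hz, Set.indicator_of_mem (show Sum.elim z y ∘ e.symm ∈ C from hz)]
      · rw [Set.indicator_of_notMem hz,
          Set.indicator_of_notMem (show Sum.elim z y ∘ e.symm ∉ C from hz)]
    have hdS : Ex (fun z : Fin M → Option α => dn (S z)) = dn C -
        Ex (fun y : Fin k → Option α => dn (Φ (Cy y))) := by
      rw [hdC, ← Ex_sub]
      unfold dn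
      rw [Ex_comm]
      refine Ex_congr fun y => ?_
      rw [← Ex_sub]
      refine Ex_congr fun z => ?_
      by_cases hz : z ∈ Cy y
      · by_cases hz2 : z ∈ Φ (Cy y)
        · rw [Set.indicator_of_mem hz, Set.indicator_of_mem hz2,
            Set.indicator_of_notMem (show y ∉ S z from fun h => h.2 hz2), sub_self]
        · rw [Set.indicator_of_mem hz, Set.indicator_of_notMem hz2,
            Set.indicator_of_mem (show y ∈ S z from ⟨hz, hz2⟩), sub_zero]
      · rw [Set.indicator_of_notMem hz, Set.indicator_of_notMem (fun h => hz (hΦ1 _ h)),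
          Set.indicator_of_notMem (show y ∉ S z from fun h => hz h.1), sub_zero]
    set c₀ : ℝ := 1 / (Fintype.card (Fin M → Option α) : ℝ) with hc₀
    have hc0 : 0 ≤ c₀ := by rw [hc₀]; positivity
    have hR : c₀ * (dn C - η / 2) ≤ Ex (fun y : Fin k → Option α => dn (Φ (Cy y))) := by
      have h3 := markov (f := fun y : Fin k → Option α => dn (Cy y)) (fun y => dn_le_one _)
        (c := η / 2) (by positivity)
      rw [← hdC] at h3
      have h4 : c₀ * dn {y : Fin k → Option α | η / 2 ≤ dn (Cy y)} ≤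
          Ex (fun y : Fin k → Option α => dn (Φ (Cy y))) := by
        unfold dn
        rw [← Ex_mul_left]
        refine Ex_mono fun y => ?_
        by_cases hy : η / 2 ≤ dn (Cy y)
        · rw [Set.indicator_of_mem (show y ∈ {y : Fin k → Option α | η / 2 ≤ Ex
            ((Cy y).indicator fun _ => (1 : ℝ))} from hy), mul_one]
          exact hΦ2 (Cy y) (hCy y) hy
        · rw [Set.indicator_of_notMem (show y ∉ {y : Fin k → Option α | η / 2 ≤ Ex
            ((Cy y).indicator fun _ => (1 : ℝ))} from hy), mul_zero]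
          exact dn_nonneg _
      refine le_trans ?_ h4
      exact mul_le_mul_of_nonneg_left (by linarith) hc0
    -- assemble
    have h5 : Ex (C.indicator g) = Ex (fun z : Fin M → Option α =>
        Ex ((S z).indicator (fun y => g (Sum.elim z y ∘ e.symm)))) +
        Ex (fun z : Fin M → Option α => Ex (fun y : Fin k → Option α =>
        (Φ (Cy y)).indicator (fun z => g (Sum.elim z y ∘ e.symm)) z)) := by
      rw [hsplit, ← Ex_add]
      refine Ex_congr fun z => ?_
      rw [← Ex_add]
      refine Ex_congr fun y => ?_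
      by_cases hz : z ∈ Cy y
      · rw [Set.indicator_of_mem (show Sum.elim z y ∘ e.symm ∈ C from hz)]
        by_cases hz2 : z ∈ Φ (Cy y)
        · rw [Set.indicator_of_mem hz2,
            Set.indicator_of_notMem (show y ∉ S z from fun h => h.2 hz2), zero_add]
        · rw [Set.indicator_of_notMem hz2,
            Set.indicator_of_mem (show y ∈ S z from ⟨hz, hz2⟩), add_zero]
      · rw [Set.indicator_of_notMem (show Sum.elim z y ∘ e.symm ∉ C from hz),
          Set.indicator_of_notMem (fun h => hz (hΦ1 _ h)),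
          Set.indicator_of_notMem (show y ∉ S z from fun h => hz h.1), add_zero]
    have h6 : Ex (fun z : Fin M → Option α =>
        Ex ((S z).indicator (fun y => g (Sum.elim z y ∘ e.symm)))) ≤
        q ^ j * (dn C - c₀ * (dn C - η / 2)) + (1 - q ^ j) * (η / 2) := by
      refine (Ex_mono h1).trans ?_
      rw [Ex_add, Ex_mul_left, Ex_const, hdS]
      have h7 : dn C - Ex (fun y : Fin k → Option α => dn (Φ (Cy y))) ≤
          dn C - c₀ * (dn C - η / 2) := by linarith
      have h8 := mul_le_mul_of_nonneg_left h7 (pow_nonneg hq0 j)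
      linarith
    rw [h5]
    have h9 : q ^ j * (dn C - c₀ * (dn C - η / 2)) + (1 - q ^ j) * (η / 2) =
        q ^ (j + 1) * dn C + (1 - q ^ (j + 1)) * (η / 2) := by
      rw [pow_succ, hq]
      ring
    linarith

theorem part_one {α : Type} [Fintype α] [Nonempty α] (h : ∀ δ : ℝ, 0 < δ → DHJat α δ) (d : ℕ) (η : ℝ) (hη : 0 < η) :
    ∃ n₀ : ℕ, ∀ (ι : Type) [Fintype ι] [DecidableEq ι], n₀ ≤ Fintype.card ι → ∀ (a : α) (C : Set (ι → Option α)),
      Ins a C → Part d η C := by
  classical
  obtain ⟨M, hM⟩ := ins_sub h d (η / 2) (half_pos hη)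
  have hM' : ∀ (a : α) (C : Set (Fin M → Option α)), Ins a C → η / 2 ≤ dn C →
      ∃ V : Subspace (Fin d) (Option α) (Fin M), ∀ u, V u ∈ C := fun a C h1 h2 =>
    hM (Fin M) (by rw [Fintype.card_fin]) a C h1 h2
  have hK : (1 : ℝ) ≤ (Fintype.card (Fin M → Option α) : ℝ) := by
    exact_mod_cast (Fintype.card_pos : 0 < Fintype.card (Fin M → Option α))
  obtain ⟨q, hq⟩ : ∃ q : ℝ, q = 1 - 1 / (Fintype.card (Fin M → Option α) : ℝ) := ⟨_, rfl⟩
  have hK0 : (0 : ℝ) < 1 / (Fintype.card (Fin M → Option α) : ℝ) := by positivity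
  have hq0 : 0 ≤ q := by
    rw [hq, sub_nonneg]
    exact (div_le_one (by linarith)).2 hK
  have hq1 : q < 1 := by rw [hq]; linarith
  obtain ⟨j, hj⟩ := exists_pow_lt_of_lt_one (half_pos hη) hq1
  refine ⟨j * M, fun ι _ _ hι a C hC g hg hcond => ?_⟩
  have h1 := claim hη hM' q hq0 hq j ι hι a C hC g hg hcond
  have h2 : q ^ j * dn C ≤ q ^ j := mul_le_of_le_one_right (pow_nonneg hq0 j) (dn_le_one C)
  have h3 : (1 - q ^ j) * (η / 2) ≤ η / 2 :=
    mul_le_of_le_one_left (by positivity) (by linarith [pow_nonneg hq0 j])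
  linarith

end Pool.Agent.H48.EP
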