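import Pool.Agent.H48.EP.Pa1

/-!
# [H48 EP PA2] Intersections of insensitive sets

Proof.  Induction on a finset `s` of letters, for `⋂ a ∈ s, C a` and all `d`, `η`.  `s = ∅`: `C = univ`, e.g. by `part_one` (`Ins a univ`).
`insert a s`: `d'` = number of `(s, d, η/2)`, then `part_one h d' (η/2)`.  For `g` as in `Part d η (C a ∩ C')`, `C' = ⋂ b ∈ s, C b`, let
`g'' x = C'.indicator g x - η/2 ≤ 1`.  For a `d'`-dimensional `V` in `C a`: the preimages under `V` of the `C b` are `Ins b`
(`rp b u = rp b u' → rp b (V u) = rp b (V u')`), so by induction (`Fin d'`, the function `g ∘ V`; for `W` in the preimage of `C'` the composition `V ∘ W` is a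
`d`-dimensional subspace in `C a ∩ C'`) `Ex (fun u => C'.indicator g (V u)) ≤ η/2`, i.e. `∑ u, g'' (V u) ≤ 0`.  So `Ex ((C a).indicator g'') ≤ η/2` and
`Ex ((C a ∩ C').indicator g) ≤ η/2 + η/2`.
-/

set_option autoImplicit false

namespace Pool.Agent.H48.EP

open Finset Combinatorics

/-- composition of subspaces -/
private def compSub {β ι : Type} {m d : ℕ} (V : Subspace (Fin m) β ι)
    (W : Subspace (Fin d) β (Fin m)) : Subspace (Fin d) β ι where
  idxFun := fun i => Sum.elim Sum.inl W.idxFun (V.idxFun i)
  proper := by
    intro e
    obtain ⟨e', he'⟩ := W.proper e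
    obtain ⟨i, hi⟩ := V.proper e'
    refine ⟨i, ?_⟩
    show Sum.elim Sum.inl W.idxFun (V.idxFun i) = Sum.inr e
    rw [hi, Sum.elim_inr, he']

private theorem compSub_apply {β ι : Type} {m d : ℕ} (V : Subspace (Fin m) β ι)
    (W : Subspace (Fin d) β (Fin m)) (u : Fin d → β) : compSub V W u = V (W u) := by
  funext i
  rw [Subspace.coe_apply, Subspace.coe_apply]
  show Sum.elim id u (Sum.elim Sum.inl W.idxFun (V.idxFun i)) = _
  rcases V.idxFun i with a | j
  · rfl
  · rfl

private theorem rp_sub {α ι : Type} {m : ℕ} (V : Subspace (Fin m) (Option α) ι) (b : α)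
    {x y : Fin m → Option α} (h : rp b x = rp b y) : rp b (V x) = rp b (V y) := by
  funext i
  show (V x i).getD b = (V y i).getD b
  rw [Subspace.coe_apply, Subspace.coe_apply]
  rcases V.idxFun i with a | j
  · rfl
  · exact congrFun h j

private theorem ins_preimage {α ι : Type} {m : ℕ} (V : Subspace (Fin m) (Option α) ι) (b : α)
    {C : Set (ι → Option α)} (hC : Ins b C) : Ins b {u : Fin m → Option α | V u ∈ C} := by
  intro x y h hx
  exact hC (V x) (V y) (rp_sub V b h) hx

theorem part_all {α : Type} [Fintype α] [Nonempty α] (h : ∀ δ : ℝ, 0 < δ → DHJat α δ) (d : ℕ) (η : ℝ) (hη : 0 < η) :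
    ∃ n₀ : ℕ, ∀ (ι : Type) [Fintype ι] [DecidableEq ι], n₀ ≤ Fintype.card ι → ∀ C : α → Set (ι → Option α),
      (∀ a, Ins a (C a)) → Part d η (⋂ a, C a) := by
  classical
  have main : ∀ (s : Finset α) (d : ℕ) (η : ℝ), 0 < η → ∃ n₀ : ℕ, ∀ (ι : Type) [Fintype ι]
      [DecidableEq ι], n₀ ≤ Fintype.card ι → ∀ C : α → Set (ι → Option α),
      (∀ a, Ins a (C a)) → Part d η {x | ∀ a ∈ s, x ∈ C a} := by
    intro s
    induction s using Finset.induction_on with
    | empty =>
      intro d η hη
      obtain ⟨n₀, hn⟩ := part_one h d η hη
      refine ⟨n₀, fun ι _ _ hι C _ => ?_⟩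
      obtain ⟨a⟩ := (inferInstance : Nonempty α)
      refine hn ι hι a _ ?_
      intro x y _ _ b hb
      exact absurd hb (Finset.notMem_empty b)
    | insert a s _ ih =>
      intro d η hη
      obtain ⟨d', hd'⟩ := ih d (η / 2) (half_pos hη)
      obtain ⟨n₀, hn⟩ := part_one h d' (η / 2) (half_pos hη)
      refine ⟨n₀, fun ι _ _ hι C hC => ?_⟩
      intro g hg hV
      have hle : ∀ x, ({x | ∀ a ∈ s, x ∈ C a} : Set (ι → Option α)).indicator g x ≤ 1 := by
        intro x
        by_cases hx : x ∈ ({x | ∀ a ∈ s, x ∈ C a} : Set (ι → Option α))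
        · rw [Set.indicator_of_mem hx]
          exact hg x
        · rw [Set.indicator_of_notMem hx]
          exact zero_le_one
      have h1 : Ex ((C a).indicator fun x =>
          ({x | ∀ a ∈ s, x ∈ C a} : Set (ι → Option α)).indicator g x - η / 2) ≤ η / 2 := by
        refine hn ι hι a (C a) (hC a) _ (fun x => ?_) ?_
        · have := hle x
          linarith
        · intro V hVa
          have h2 : Ex (({u : Fin d' → Option α | ∀ b ∈ s, u ∈ {u : Fin d' → Option α | V u ∈ C b}} :
              Set (Fin d' → Option α)).indicator fun u => g (V u)) ≤ η / 2 := by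
            refine hd' (Fin d') (by rw [Fintype.card_fin])
              (fun b => {u : Fin d' → Option α | V u ∈ C b})
              (fun b => ins_preimage V b (hC b)) _ (fun u => hg _) ?_
            intro W hW
            have h3 := hV (compSub V W) (by
              intro u
              rw [compSub_apply]
              intro b hb
              rcases Finset.mem_insert.1 hb with rfl | hb
              · exact hVa _
              · exact hW u b hb)
            simp only [compSub_apply] at h3
            exact h3
          have h4 : ∀ u : Fin d' → Option α,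
              ({u : Fin d' → Option α | ∀ b ∈ s, u ∈ {u : Fin d' → Option α | V u ∈ C b}} :
                Set (Fin d' → Option α)).indicator (fun u => g (V u)) u =
              ({x | ∀ a ∈ s, x ∈ C a} : Set (ι → Option α)).indicator g (V u) := by
            intro u
            by_cases hu : V u ∈ ({x | ∀ a ∈ s, x ∈ C a} : Set (ι → Option α))
            · rw [Set.indicator_of_mem hu]
              exact Set.indicator_of_mem (show u ∈ ({u : Fin d' → Option α |
                ∀ b ∈ s, u ∈ {u : Fin d' → Option α | V u ∈ C b}} :
                Set (Fin d' → Option α)) from hu) _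
            · rw [Set.indicator_of_notMem hu]
              exact Set.indicator_of_notMem (show u ∉ ({u : Fin d' → Option α |
                ∀ b ∈ s, u ∈ {u : Fin d' → Option α | V u ∈ C b}} :
                Set (Fin d' → Option α)) from hu) _
          rw [Ex_congr h4] at h2
          have hc : (0 : ℝ) < Fintype.card (Fin d' → Option α) := by
            exact_mod_cast Fintype.card_pos
          unfold Ex at h2
          rw [div_le_iff₀ hc] at h2
          rw [sum_sub_distrib, sum_const, card_univ, nsmul_eq_mul]
          linarith
      have h5 : Ex (({x | ∀ b ∈ insert a s, x ∈ C b} : Set (ι → Option α)).indicator g) ≤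
          Ex (fun x => (C a).indicator (fun x =>
          ({x | ∀ a ∈ s, x ∈ C a} : Set (ι → Option α)).indicator g x - η / 2) x + η / 2) := by
        refine Ex_mono fun x => ?_
        by_cases hxa : x ∈ C a
        · rw [Set.indicator_of_mem hxa]
          by_cases hx : x ∈ ({x | ∀ a ∈ s, x ∈ C a} : Set (ι → Option α))
          · rw [Set.indicator_of_mem hx, Set.indicator_of_mem (show x ∈
              ({x | ∀ b ∈ insert a s, x ∈ C b} : Set (ι → Option α)) from by
                intro b hb
                rcases Finset.mem_insert.1 hb with rfl | hb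
                · exact hxa
                · exact hx b hb)]
            linarith
          · rw [Set.indicator_of_notMem hx, Set.indicator_of_notMem (show x ∉
              ({x | ∀ b ∈ insert a s, x ∈ C b} : Set (ι → Option α)) from fun hcon =>
                hx fun b hb => hcon b (Finset.mem_insert_of_mem hb))]
            linarith
        · rw [Set.indicator_of_notMem hxa, Set.indicator_of_notMem (show x ∉
              ({x | ∀ b ∈ insert a s, x ∈ C b} : Set (ι → Option α)) from fun hcon =>
                hxa (hcon a (Finset.mem_insert_self a s)))]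
          linarith
      rw [Ex_add, Ex_const] at h5
      linarith
  obtain ⟨n₀, hn⟩ := main Finset.univ d η hη
  refine ⟨n₀, fun ι _ _ hι C hC => ?_⟩
  have h1 := hn ι hι C hC
  have h2 : (⋂ a, C a) = {x | ∀ a ∈ (Finset.univ : Finset α), x ∈ C a} := by
    ext x
    constructor
    · intro hx a _
      exact Set.mem_iInter.1 hx a
    · intro hx
      exact Set.mem_iInter.2 fun a => hx a (Finset.mem_univ a)
  rw [h2]
  exact h1

end Pool.Agent.H48.EP
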