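import Pool.Agent.H48.EP.Dh

/-!
# [H48 EP SEC] All sections of a block have almost full density

Proof.  `p = |β|^(-m)`, `N > 1 / (ε² p²)` (or so), `n₀ = N m`; `ι` contains `N` disjoint blocks `b_1, …, b_N` of size `m`.  `X = ι → β`, `f = 1_A`,
`φ_(j,t) x = [x on b_j = t] - p`: `Ex (φ_(j,t) φ_(j',t)) = 0` for `j ≠ j'`, `Ex (φ_(j,t)²) = p (1 - p)`.  If no block works, for every `j` there is a `t_j`
with `Ex (f [x on b_j = t_j]) < (dn A - ε) p`, i.e. `Ex (f φ_(j,t_j)) < - ε p`.  Some `t` is `t_j` for at least `N p` of the `j` (set `T`), so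
`|T| ε p < |Ex (f ∑_{j ∈ T} φ_(j,t))| ≤ (Ex (∑_{j ∈ T} φ_(j,t))²)^(1/2) ≤ (|T| p)^(1/2)`, so `|T| < 1/(ε² p)`, `N < 1/(ε² p²)`.
-/

set_option autoImplicit false

namespace Pool.Agent.H48.EP

open Finset Combinatorics

theorem Ex_cs {X : Type*} [Fintype X] (f g : X → ℝ) : Ex (fun x => f x * g x) ^ 2 ≤ Ex (fun x => f x ^ 2) * Ex (fun x => g x ^ 2) := by
  unfold Ex
  rw [div_pow, div_mul_div_comm, ← sq]
  exact div_le_div_of_nonneg_right (sum_mul_sq_le_sq_mul_sq _ _ _) (by positivity)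

/-- the restriction to the range of an injective map is uniform -/
theorem Ex_comp {ι κ β : Type*} [Fintype ι] [DecidableEq ι] [Fintype κ] [DecidableEq κ] [Fintype β] [Nonempty β]
    (σ : κ → ι) (hσ : Function.Injective σ) (h : (κ → β) → ℝ) : Ex (fun x : ι → β => h (x ∘ σ)) = Ex h := by
  rw [Ex_extend σ hσ]
  rw [Ex_congr (g := fun _ => Ex h) (fun x => Ex_congr fun t => by rw [Function.extend_comp hσ]), Ex_const]

theorem Ex_point {Y : Type*} [Fintype Y] [DecidableEq Y] (t : Y) (c : Y → ℝ) :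
    Ex (fun s => (if s = t then 1 else 0) * c s) = (1 / Fintype.card Y) * c t := by
  unfold Ex
  rw [sum_eq_single t]
  · rw [if_pos rfl]
    ring
  · intro s _ hs
    rw [if_neg hs, zero_mul]
  · intro hh
    exact absurd (mem_univ _) hh

theorem Ex_sq_sum {X J : Type*} [Fintype X] [DecidableEq J] (T : Finset J) (φ : J → X → ℝ) (p : ℝ)
    (h0 : ∀ i ∈ T, ∀ j ∈ T, i ≠ j → Ex (fun x => φ i x * φ j x) = 0) (h1 : ∀ i ∈ T, Ex (fun x => φ i x * φ i x) ≤ p) :
    Ex (fun x => (∑ j ∈ T, φ j x) ^ 2) ≤ T.card * p := by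
  have e1 : ∀ x, (∑ j ∈ T, φ j x) ^ 2 = ∑ i ∈ T, ∑ j ∈ T, φ i x * φ j x := by
    intro x
    rw [sq, sum_mul_sum]
  rw [Ex_congr e1, Ex_sum]
  rw [← nsmul_eq_mul]
  refine sum_le_card_nsmul _ _ _ fun i hi => ?_
  rw [Ex_sum, sum_eq_single i]
  · exact h1 i hi
  · intro j hj hji
    exact h0 i hi j hj (Ne.symm hji)
  · intro hh
    exact absurd hi hh

theorem sections {β : Type} [Fintype β] [Nonempty β] (m : ℕ) (ε : ℝ) (hε : 0 < ε) :
    ∃ n₀ : ℕ, ∀ (ι : Type) [Fintype ι] [DecidableEq ι], n₀ ≤ Fintype.card ι → ∀ A : Set (ι → β),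
      ∃ (k : ℕ) (e : Fin m ⊕ Fin k ≃ ι), ∀ t : Fin m → β,
        dn A - ε ≤ dn {y : Fin k → β | Sum.elim t y ∘ e.symm ∈ A} := by
  classical
  obtain ⟨P, hP⟩ : ∃ P : ℝ, P = Fintype.card (Fin m → β) := ⟨_, rfl⟩
  have hP0 : 0 < P := by
    rw [hP]
    exact_mod_cast Fintype.card_pos
  obtain ⟨N, hN⟩ : ∃ N : ℕ, P ^ 2 / ε ^ 2 < N := exists_nat_gt _
  have hN0 : 0 < N := by
    have h1 : (0 : ℝ) < N := lt_trans (by positivity) hN
    exact_mod_cast h1
  refine ⟨N * m + m, fun ι _ _ hι A => ?_⟩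
  -- the blocks
  obtain ⟨b⟩ : Nonempty (Fin N × Fin m ↪ ι) := by
    refine Function.Embedding.nonempty_of_card_le ?_
    rw [Fintype.card_prod, Fintype.card_fin, Fintype.card_fin]
    omega
  obtain ⟨k, hk⟩ : ∃ k : ℕ, k = Fintype.card ι - m := ⟨_, rfl⟩
  have hσ : ∀ j, Function.Injective (fun i : Fin m => b (j, i)) := by
    intro j i i' h
    exact congrArg Prod.snd (b.injective h)
  -- the equivalences
  have hex : ∀ j : Fin N, ∃ e : Fin m ⊕ Fin k ≃ ι, ∀ i, e (Sum.inl i) = b (j, i) := by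
    intro j
    have h1 : Fintype.card {i // i ∉ Set.range (fun i : Fin m => b (j, i))} = k := by
      rw [Fintype.card_subtype_compl, hk]
      congr 1
      rw [show Fintype.card {x // x ∈ Set.range (fun i : Fin m => b (j, i))} = Fintype.card (Fin m) from
        Fintype.card_congr (Equiv.ofInjective _ (hσ j)).symm, Fintype.card_fin]
    obtain ⟨f⟩ : Nonempty (Fin k ≃ {i // i ∉ Set.range (fun i : Fin m => b (j, i))}) := by
      refine ⟨(Fintype.equivFinOfCardEq h1).symm⟩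
    exact ⟨(Equiv.sumCongr (Equiv.ofInjective _ (hσ j)) f).trans (Equiv.sumCompl (fun i => i ∈ Set.range (fun i : Fin m => b (j, i)))),
      fun i => rfl⟩
  choose e he using hex
  by_contra hcon
  push Not at hcon
  have h2 : ∀ j : Fin N, ∃ t : Fin m → β, dn {y : Fin k → β | Sum.elim t y ∘ (e j).symm ∈ A} < dn A - ε := fun j => hcon k (e j)
  choose tt htt using h2
  -- the correlation
  have key : ∀ (j : Fin N) (t : Fin m → β), Ex (fun x : ι → β => A.indicator (fun _ => (1 : ℝ)) x * (if x ∘ (fun i : Fin m => b (j, i)) = t then 1 else 0)) =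
      1 / P * dn {y : Fin k → β | Sum.elim t y ∘ (e j).symm ∈ A} := by
    intro j t
    rw [← Ex_reindex (e j), Ex_sumElim]
    have h3 : ∀ (t' : Fin m → β) (y : Fin k → β), (Sum.elim t' y ∘ (e j).symm) ∘ (fun i : Fin m => b (j, i)) = t' := by
      intro t' y
      funext i
      rw [Function.comp_apply, Function.comp_apply, ← he j i, Equiv.symm_apply_apply, Sum.elim_inl]
    rw [Ex_congr (g := fun t' : Fin m → β => (if t' = t then 1 else 0) * dn {y : Fin k → β | Sum.elim t' y ∘ (e j).symm ∈ A})]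
    · rw [Ex_point, hP]
    · intro t'
      unfold dn
      rw [← Ex_mul_left]
      refine Ex_congr fun y => ?_
      rw [h3, mul_comm]
      rfl
  -- pigeonhole
  obtain ⟨t, ht⟩ : ∃ t : Fin m → β, N ≤ Fintype.card (Fin m → β) * (univ.filter (fun j : Fin N => tt j = t)).card := by
    by_contra hcon2
    push Not at hcon2
    have h3 := card_eq_sum_card_fiberwise (s := (univ : Finset (Fin N))) (t := (univ : Finset (Fin m → β))) (f := tt)
      (fun _ _ => mem_coe.2 (mem_univ _))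
    rw [card_univ, Fintype.card_fin] at h3
    have h4 : ∑ t : Fin m → β, Fintype.card (Fin m → β) * (univ.filter (fun j : Fin N => tt j = t)).card < ∑ _t : Fin m → β, N :=
      sum_lt_sum_of_nonempty univ_nonempty fun t _ => hcon2 t
    rw [← mul_sum, ← h3, sum_const, card_univ, smul_eq_mul] at h4
    exact lt_irrefl _ h4
  obtain ⟨T, hT⟩ : ∃ T : Finset (Fin N), T = univ.filter (fun j : Fin N => tt j = t) := ⟨_, rfl⟩
  rw [← hT] at ht
  have hTr : (N : ℝ) ≤ P * T.card := by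
    rw [hP]
    exact_mod_cast ht
  have hT0 : (0 : ℝ) < T.card := by
    have h3 : (0 : ℝ) < N := by exact_mod_cast hN0
    by_contra hcon2
    push Not at hcon2
    nlinarith
  obtain ⟨φ, hφ⟩ : ∃ φ : Fin N → (ι → β) → ℝ, φ = fun j x => (if x ∘ (fun i : Fin m => b (j, i)) = t then 1 else 0) - 1 / P := ⟨_, rfl⟩
  have hmean : ∀ j, Ex (fun x : ι → β => (if x ∘ (fun i : Fin m => b (j, i)) = t then (1 : ℝ) else 0)) = 1 / P := by
    intro j
    rw [Ex_comp (fun i : Fin m => b (j, i)) (hσ j) (fun s => if s = t then (1 : ℝ) else 0)]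
    have h3 := Ex_point t (fun _ => (1 : ℝ))
    simp only [mul_one] at h3
    rw [h3, hP]
  have hφ1 : ∀ i ∈ T, Ex (fun x => φ i x * φ i x) ≤ 1 / P := by
    intro i _
    have h3 : ∀ x, φ i x * φ i x = (1 - 2 / P) * (if x ∘ (fun l : Fin m => b (i, l)) = t then (1 : ℝ) else 0) + (1 / P) ^ 2 := by
      intro x
      rw [hφ]
      dsimp only
      split_ifs <;> ring
    rw [Ex_congr h3, Ex_add, Ex_mul_left, hmean, Ex_const]
    have h4 : 0 < 1 / P := by positivity
    have h5 : (1 - 2 / P) * (1 / P) + (1 / P) ^ 2 = 1 / P - (1 / P) ^ 2 := by ring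
    rw [h5]
    nlinarith
  have hφ0 : ∀ i ∈ T, ∀ j ∈ T, i ≠ j → Ex (fun x => φ i x * φ j x) = 0 := by
    intro i _ j _ hij
    have hinj : Function.Injective (Sum.elim (fun l : Fin m => b (i, l)) (fun l : Fin m => b (j, l))) := by
      intro x y hxy
      rcases x with x | x <;> rcases y with y | y
      · exact congrArg Sum.inl (hσ i hxy)
      · exact absurd (congrArg Prod.fst (b.injective hxy)) hij
      · exact absurd (congrArg Prod.fst (b.injective hxy)).symm hij
      · exact congrArg Sum.inr (hσ j hxy)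
    have h3 : Ex (fun x : ι → β => (if x ∘ (fun l : Fin m => b (i, l)) = t then (1 : ℝ) else 0) *
        (if x ∘ (fun l : Fin m => b (j, l)) = t then (1 : ℝ) else 0)) = 1 / P * (1 / P) := by
      have h4 := Ex_comp (β := β) _ hinj (fun s => (if s ∘ Sum.inl = t then (1 : ℝ) else 0) * (if s ∘ Sum.inr = t then (1 : ℝ) else 0))
      have h5 : ∀ x : ι → β, (x ∘ Sum.elim (fun l : Fin m => b (i, l)) (fun l : Fin m => b (j, l))) ∘ Sum.inl = x ∘ (fun l : Fin m => b (i, l)) :=
        fun x => rfl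
      have h6 : ∀ x : ι → β, (x ∘ Sum.elim (fun l : Fin m => b (i, l)) (fun l : Fin m => b (j, l))) ∘ Sum.inr = x ∘ (fun l : Fin m => b (j, l)) :=
        fun x => rfl
      simp only [h5, h6] at h4
      rw [h4, Ex_sumElim]
      have h7 : ∀ (y z : Fin m → β), (Sum.elim y z) ∘ Sum.inl = y := fun y z => rfl
      have h8 : ∀ (y z : Fin m → β), (Sum.elim y z) ∘ Sum.inr = z := fun y z => rfl
      simp only [h7, h8]
      have h9 := Ex_point t (fun _ => (1 : ℝ))
      simp only [mul_one] at h9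
      rw [Ex_congr (g := fun y => (if y = t then 1 else 0) * (1 / P)) (fun y => by rw [Ex_mul_left, h9, hP]), Ex_point, hP]
    have h4 : ∀ x, φ i x * φ j x = (if x ∘ (fun l : Fin m => b (i, l)) = t then (1 : ℝ) else 0) *
        (if x ∘ (fun l : Fin m => b (j, l)) = t then (1 : ℝ) else 0) +
        ((-(1 / P)) * (if x ∘ (fun l : Fin m => b (i, l)) = t then (1 : ℝ) else 0) +
        ((-(1 / P)) * (if x ∘ (fun l : Fin m => b (j, l)) = t then (1 : ℝ) else 0) + 1 / P * (1 / P))) := by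
      intro x
      rw [hφ]
      ring
    rw [Ex_congr h4, Ex_add, Ex_add, Ex_add, Ex_mul_left, Ex_mul_left, hmean, hmean, h3, Ex_const]
    ring
  have h5 := Ex_sq_sum T φ (1 / P) hφ0 hφ1
  have h6 := Ex_cs (A.indicator (fun _ => (1 : ℝ))) (fun x => ∑ j ∈ T, φ j x)
  have h7 : Ex (fun x => A.indicator (fun _ => (1 : ℝ)) x ^ 2) ≤ 1 := by
    refine Ex_le_const fun x => ?_
    by_cases hx : x ∈ A
    · rw [Set.indicator_of_mem hx, one_pow]
    · rw [Set.indicator_of_notMem hx]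
      norm_num
  have h8 : Ex (fun x => A.indicator (fun _ => (1 : ℝ)) x * ∑ j ∈ T, φ j x) ≤ -(T.card * (ε / P)) := by
    have h9 : ∀ x, A.indicator (fun _ => (1 : ℝ)) x * ∑ j ∈ T, φ j x = ∑ j ∈ T,
        (A.indicator (fun _ => (1 : ℝ)) x * (if x ∘ (fun l : Fin m => b (j, l)) = t then 1 else 0) - 1 / P * A.indicator (fun _ => (1 : ℝ)) x) := by
      intro x
      rw [mul_sum]
      refine sum_congr rfl fun j _ => ?_
      rw [hφ]
      ring
    rw [Ex_congr h9, Ex_sum]
    have h10 : ∀ j ∈ T, Ex (fun x => A.indicator (fun _ => (1 : ℝ)) x * (if x ∘ (fun l : Fin m => b (j, l)) = t then 1 else 0) -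
        1 / P * A.indicator (fun _ => (1 : ℝ)) x) ≤ -(ε / P) := by
      intro j hj
      rw [Ex_sub, Ex_mul_left, key]
      have h11 := htt j
      rw [hT, mem_filter] at hj
      rw [hj.2] at h11
      have h12 : 0 < 1 / P := by positivity
      have h13 := mul_lt_mul_of_pos_left h11 h12
      have h14 : Ex (A.indicator (fun _ => (1 : ℝ))) = dn A := rfl
      rw [h14, show ε / P = 1 / P * ε by ring]
      nlinarith
    calc ∑ j ∈ T, Ex (fun x => A.indicator (fun _ => (1 : ℝ)) x * (if x ∘ (fun l : Fin m => b (j, l)) = t then 1 else 0) -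
        1 / P * A.indicator (fun _ => (1 : ℝ)) x) ≤ T.card • (-(ε / P)) := sum_le_card_nsmul _ _ _ h10
      _ = -(T.card * (ε / P)) := by rw [nsmul_eq_mul]; ring
  have h9 : (T.card * (ε / P)) ^ 2 ≤ T.card * (1 / P) := by
    have h10 : (T.card * (ε / P)) ^ 2 ≤ Ex (fun x => A.indicator (fun _ => (1 : ℝ)) x * ∑ j ∈ T, φ j x) ^ 2 := by
      rw [← neg_sq (Ex _)]
      exact pow_le_pow_left₀ (by positivity) (by linarith) 2
    refine h10.trans (h6.trans ?_)
    have h11 : 0 ≤ Ex (fun x => (∑ j ∈ T, φ j x) ^ 2) := Ex_nonneg fun x => sq_nonneg _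
    nlinarith
  -- contradiction
  have h10 : T.card * ε ^ 2 ≤ P := by
    have h11 : (T.card * (ε / P)) ^ 2 = (T.card * ε ^ 2) * (T.card * (1 / P ^ 2)) := by
      field_simp
    have h12 : T.card * (1 / P) = P * (T.card * (1 / P ^ 2)) := by
      field_simp
    rw [h11, h12] at h9
    exact le_of_mul_le_mul_right h9 (by positivity)
  rw [div_lt_iff₀ (by positivity)] at hN
  nlinarith

end Pool.Agent.H48.EP
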