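import Pool.Agent.H48.EP.Wrg

/-!
# [H48 EP SRG] Strong form of the weak hypergraph regularity lemma

Proof.  `P_0 : X → Fin 1`, `P_(j+1)` from `weak_reg` for `P_j` (with `q_j` parts) and `η q_j` (numbers `q_0 = 1`, `q_(j+1) = q'(q_j, η q_j)`).  The energies
`∑ a, Ex (cn (P_j ∘ ·) (f a) ^ 2)` increase (`pyth`) and are at most `|Λ|`, so for some `j ≤ |Λ| / κ + 1` the increase from `j` to `j + 1` is at most `κ`; then
`Ex (cn .. P_(j+1) - cn .. P_j)² ≤ κ` for all `a` (`pyth`).  `Q = max` of the `q_j`.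
-/

set_option autoImplicit false

namespace Pool.Agent.H48.EP

open Finset

theorem strong_reg (K Λ : Type) [Fintype K] [DecidableEq K] [Fintype Λ] (κ : ℝ) (hκ : 0 < κ) (η : ℕ → ℝ) (hη : ∀ q, 0 < η q) :
    ∃ Q : ℕ, ∀ (X : Type) [Fintype X] [Nonempty X] (f : Λ → (K → X) → ℝ), (∀ a x, 0 ≤ f a x ∧ f a x ≤ 1) →
      ∃ (q q' : ℕ) (P : X → Fin q) (P' : X → Fin q') (ρ : Fin q' → Fin q), 1 ≤ q ∧ q ≤ Q ∧ P = ρ ∘ P' ∧
        (∀ a, Cut (η q) (fun x => f a x - cn (fun y : K → X => P' ∘ y) (f a) x)) ∧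
        ∀ a, Ex (fun x => (cn (fun y : K → X => P' ∘ y) (f a) x - cn (fun y : K → X => P ∘ y) (f a) x) ^ 2) ≤ κ := by
  choose N hN using fun q : ℕ => weak_reg K Λ q (η q) (hη q)
  obtain ⟨qs, hqs⟩ : ∃ qs : ℕ → ℕ, qs = fun j => Nat.rec (motive := fun _ => ℕ) 1 (fun _ q => N q) j := ⟨_, rfl⟩
  have hs : ∀ j, qs (j + 1) = N (qs j) := by
    intro j
    rw [hqs]
  obtain ⟨J, hJ⟩ := exists_nat_gt ((Fintype.card Λ : ℝ) / κ)
  refine ⟨∑ j ∈ range J, qs j, fun X _ _ f hf => ?_⟩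
  -- the sequence of partitions
  have hstep : ∀ (j : ℕ) (P : X → Fin (qs j)), ∃ (P' : X → Fin (qs (j + 1))) (ρ : Fin (qs (j + 1)) → Fin (qs j)),
      P = ρ ∘ P' ∧ ∀ a, Cut (η (qs j)) (fun x => f a x - cn (fun y : K → X => P' ∘ y) (f a) x) := by
    intro j P
    rw [hs j]
    exact hN (qs j) X f hf P
  choose nx rr hnx1 hnx2 using hstep
  have h0 : Nonempty (Fin (qs 0)) := by
    rw [hqs]
    exact ⟨(0 : Fin 1)⟩
  obtain ⟨P, hP⟩ : ∃ P : ∀ j, X → Fin (qs j), ∀ j, P (j + 1) = nx j (P j) :=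
    ⟨fun j => Nat.rec (motive := fun j => X → Fin (qs j)) (fun _ => h0.some) (fun j p => nx j p) j, fun j => rfl⟩
  have hPr : ∀ j, P j = rr j (P j) ∘ P (j + 1) := by
    intro j
    rw [hP j]
    exact hnx1 j (P j)
  obtain ⟨E, hE⟩ : ∃ E : ℕ → ℝ, E = fun j => ∑ a, Ex (fun x => cn (fun y : K → X => P j ∘ y) (f a) x ^ 2) := ⟨_, rfl⟩
  have hE0 : ∀ j, 0 ≤ E j := by
    intro j
    rw [hE]
    exact sum_nonneg fun a _ => Ex_nonneg fun x => sq_nonneg _
  have hE1 : ∀ j, E j ≤ Fintype.card Λ := by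
    intro j
    rw [hE]
    calc ∑ a, Ex (fun x => cn (fun y : K → X => P j ∘ y) (f a) x ^ 2) ≤ ∑ _a : Λ, (1 : ℝ) := by
          refine sum_le_sum fun a _ => Ex_le_const fun x => ?_
          obtain ⟨h1, h2⟩ := cn_mem (fun y : K → X => P j ∘ y) (hf a) x
          nlinarith
      _ = Fintype.card Λ := by simp
  have hdiff : ∀ j, E (j + 1) - E j = ∑ a, Ex (fun x => (cn (fun y : K → X => P (j + 1) ∘ y) (f a) x -
      cn (fun y : K → X => P j ∘ y) (f a) x) ^ 2) := by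
    intro j
    rw [hE, ← sum_sub_distrib]
    refine sum_congr rfl fun a _ => ?_
    have h1 := pyth (fun y : K → X => P (j + 1) ∘ y) (fun w : K → Fin (qs (j + 1)) => rr j (P j) ∘ w) (f a)
    have h2 : (fun w : K → Fin (qs (j + 1)) => rr j (P j) ∘ w) ∘ (fun y : K → X => P (j + 1) ∘ y) =
        fun y : K → X => P j ∘ y := by
      funext y
      show rr j (P j) ∘ (P (j + 1) ∘ y) = P j ∘ y
      rw [← Function.comp_assoc, ← hPr j]
    rw [h2] at h1
    exact h1.symm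
  obtain ⟨j, hjJ, hj⟩ : ∃ j, j < J ∧ E (j + 1) - E j ≤ κ := by
    by_contra hcon
    push Not at hcon
    have h1 : ∀ i, i ≤ J → (i : ℝ) * κ ≤ E i := by
      intro i
      induction i with
      | zero =>
        intro _
        simpa using hE0 0
      | succ i ih =>
        intro hi
        have h2 := ih (by omega)
        have h3 := hcon i (by omega)
        push_cast
        linarith
    have h2 := h1 J le_rfl
    have h3 := hE1 J
    rw [div_lt_iff₀ hκ] at hJ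
    linarith
  refine ⟨qs j, qs (j + 1), P j, P (j + 1), rr j (P j), ?_, ?_, hPr j, ?_, ?_⟩
  · obtain ⟨x⟩ := ‹Nonempty X›
    have := (P j x).2
    omega
  · exact single_le_sum (f := qs) (fun i _ => Nat.zero_le _) (mem_range.2 hjJ)
  · intro a
    rw [hP j]
    exact hnx2 j (P j) a
  · intro a
    refine le_trans ?_ ((hdiff j).symm.le.trans hj)
    exact single_le_sum (f := fun a => Ex (fun x => (cn (fun y : K → X => P (j + 1) ∘ y) (f a) x -
      cn (fun y : K → X => P j ∘ y) (f a) x) ^ 2)) (fun i _ => Ex_nonneg fun x => sq_nonneg _) (mem_univ a)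

end Pool.Agent.H48.EP
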