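import Pool.Agent.H48.EP.Pa2
import Pool.Agent.H48.EP.Sec
import Pool.Agent.H48.EP.Gsb

/-!
# [H48 EP STP] Density Hales-Jewett

Proof of `dhj_step` (density increment).  `k = |α|`, `θ` from `good_sub h (δ/2)` (we may take `θ ≤ 1`), `γ = δ θ / 8`.  Given `δ' ≥ δ`, `n₁` of `DHJat (Option α) (δ' + γ)`:
`d = n₁`, `η = δ θ / (4 k)`, `m'` from `part_all h d η`, `m` from `good_sub`, `n₀` from `sections m ε`, `ε = min (δ/2) (δ θ / 8)`.  Let `dn A ≥ δ'` and suppose that `A` contains
no line.  `e : Fin m ⊕ Fin k' ≃ ι` from `sections`, `A_t = {y | (t,y) ∈ A}`, `dn A_t ≥ δ' - ε ≥ δ/2`; `W` from `good_sub`.  For `y` let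
`A^y = {t : Fin m' → Option α | y ∈ A_(W t)}`, `D_a^y = {t | y ∈ A_(some ∘ rp a (W t))}`: `Ins a`, and `⋂ a, D_a^y` is disjoint from `A^y` (else the line with wildcards where `W t` is `none`,
`y` fixed: not empty, since `W` has a fixed letter `none`).  With `g = 1_(A^y) - (δ' + γ)`:
`E_y Ex ((⋂ D_a^y)ᶜ.indicator g) = E_y (dn A^y - (δ' + γ) (1 - dn (⋂ D_a^y))) ≥ δ' - ε - (δ' + γ)(1 - θ) ≥ δ θ / 2`.  Choose `y`.  `(⋂ D_a)ᶜ` is the disjoint union over `a` of
`C_a = {t | t ∉ D_a, t ∈ D_b for all b before a}` (`α ≃ Fin k`), an intersection of `Ins b` sets; so `Ex (C_a.indicator g) ≥ δ θ / (2 k) > η` for some `a`, and `part_all` gives a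
`d`-dimensional `V` with `∑ u, g (V u) > 0`: `dn (V⁻¹ A^y) ≥ δ' + γ`, so it contains a line, hence so does `A`.
-/

set_option autoImplicit false

namespace Pool.Agent.H48.EP

open Finset Combinatorics

/-- transport of a line along an equivalence of the index types -/
private def rdx {κ ι β : Type} (e : κ ≃ ι) (l : Line β κ) : Line β ι where
  idxFun i := l.idxFun (e.symm i)
  proper := by
    obtain ⟨k, hk⟩ := l.proper
    exact ⟨e k, by rw [Equiv.symm_apply_apply, hk]⟩

private theorem rdx_apply {κ ι β : Type} (e : κ ≃ ι) (l : Line β κ) (x : β) :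
    rdx e l x = l x ∘ e.symm := rfl

/-- a line inside a subspace -/
private def cmp {η ι β : Type} (V : Subspace η β ι) (l : Line β η) : Line β ι where
  idxFun i := (V.idxFun i).elim some l.idxFun
  proper := by
    obtain ⟨e, he⟩ := l.proper
    obtain ⟨i, hi⟩ := V.proper e
    exact ⟨i, by rw [hi]; exact he⟩

private theorem cmp_apply {η ι β : Type} (V : Subspace η β ι) (l : Line β η) (x : β) :
    cmp V l x = V (l x) := by
  funext i
  show ((V.idxFun i).elim some l.idxFun).getD x = (V.idxFun i).elim id (l x)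
  rcases V.idxFun i with a | e <;> rfl

/-- the line whose wildcards are the letters `none` of `w` -/
private def wld {ι α : Type} (w : ι → Option α) (h : ∃ i, w i = none) : Line (Option α) ι where
  idxFun i := (w i).map some
  proper := by
    obtain ⟨i, hi⟩ := h
    exact ⟨i, by rw [hi]; rfl⟩

private theorem wld_none {ι α : Type} (w : ι → Option α) (h : ∃ i, w i = none) :
    wld w h none = w := by
  funext i
  show ((w i).map some).getD none = w i
  rcases w i with _ | a <;> rfl

private theorem wld_some {ι α : Type} (w : ι → Option α) (h : ∃ i, w i = none) (a : α) :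
    wld w h (some a) = fun i => some (rp a w i) := by
  funext i
  show ((w i).map some).getD (some a) = some ((w i).getD a)
  rcases w i with _ | b <;> rfl

private theorem ins_compl {α ι : Type} {a : α} {C : Set (ι → Option α)} (h : Ins a C) : Ins a Cᶜ :=
  fun x y hxy hx hy => hx (h y x hxy.symm hy)

private theorem ins_univ {α ι : Type} {a : α} : Ins a (Set.univ : Set (ι → Option α)) :=
  fun _ _ _ _ => Set.mem_univ _

/-- the complement of an intersection as a disjoint union -/
private theorem exists_piece {α : Type} [Fintype α] [Nonempty α] {T : Type} [Fintype T]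
    (D : α → Set T) (g : T → ℝ) (c η : ℝ) (hc : Fintype.card α * η < c)
    (h : c ≤ Ex ((⋂ a, D a)ᶜ.indicator g)) :
    ∃ (a : α) (f : α ≃ Fin (Fintype.card α)),
      η < Ex (({t | t ∉ D a ∧ ∀ b, f b < f a → t ∈ D b} : Set T).indicator g) := by
  classical
  let f : α ≃ Fin (Fintype.card α) := Fintype.equivFin α
  by_contra hcon
  push Not at hcon
  have h1 : Ex ((⋂ a, D a)ᶜ.indicator g) =
      ∑ a, Ex (({t | t ∉ D a ∧ ∀ b, f b < f a → t ∈ D b} : Set T).indicator g) := by
    rw [← Ex_sum]
    refine Ex_congr fun t => ?_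
    by_cases ht : t ∈ ⋂ a, D a
    · rw [Set.indicator_of_notMem (by simpa using ht), Finset.sum_eq_zero]
      intro a _
      rw [Set.indicator_of_notMem]
      rintro ⟨h2, _⟩
      exact h2 (Set.mem_iInter.1 ht a)
    · rw [Set.indicator_of_mem ht]
      have hne : (univ.filter fun a => t ∉ D a).Nonempty := by
        rw [Set.mem_iInter] at ht
        push Not at ht
        obtain ⟨a, ha⟩ := ht
        exact ⟨a, by simpa using ha⟩
      obtain ⟨a₀, ha₀, hmin⟩ := Finset.exists_min_image _ f hne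
      rw [Finset.mem_filter] at ha₀
      rw [Finset.sum_eq_single a₀]
      · rw [Set.indicator_of_mem]
        refine ⟨ha₀.2, fun b hb => ?_⟩
        by_contra hbt
        exact absurd (hmin b (by simpa using hbt)) (not_le.2 hb)
      · intro a _ hne'
        rw [Set.indicator_of_notMem]
        rintro ⟨h2, h3⟩
        have h4 : f a₀ ≤ f a := hmin a (by simpa using h2)
        have h5 : f a₀ < f a := lt_of_le_of_ne h4 (fun h6 => hne' (f.injective h6).symm)
        exact ha₀.2 (h3 a₀ h5)
      · intro h2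
        exact absurd (mem_univ _) h2
  rw [h1] at h
  have h2 : ∑ a, Ex (({t | t ∉ D a ∧ ∀ b, f b < f a → t ∈ D b} : Set T).indicator g) ≤
      ∑ _a : α, η := Finset.sum_le_sum fun a _ => hcon a f
  rw [Finset.sum_const, Finset.card_univ, nsmul_eq_mul] at h2
  linarith

theorem dhj_step {α : Type} [Fintype α] [Nonempty α] (h : ∀ δ : ℝ, 0 < δ → DHJat α δ) (δ : ℝ) (hδ : 0 < δ) :
    ∃ γ : ℝ, 0 < γ ∧ ∀ δ' : ℝ, δ ≤ δ' → DHJat (Option α) (δ' + γ) → DHJat (Option α) δ' := by
  classical
  obtain ⟨θ₀, hθ₀, hgood⟩ := good_sub h (δ / 2) (by positivity)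
  obtain ⟨θ, hθdef⟩ : ∃ θ : ℝ, θ = min θ₀ 1 := ⟨_, rfl⟩
  have hθ : 0 < θ := by rw [hθdef]; exact lt_min hθ₀ one_pos
  have hθ1 : θ ≤ 1 := by rw [hθdef]; exact min_le_right _ _
  have hθθ : θ ≤ θ₀ := by rw [hθdef]; exact min_le_left _ _
  have hk : (0 : ℝ) < Fintype.card α := by exact_mod_cast Fintype.card_pos
  refine ⟨δ * θ / 8, by positivity, ?_⟩
  rintro δ' hδ' ⟨n₁, hn₁⟩
  obtain ⟨η, hη⟩ : ∃ η : ℝ, η = δ * θ / (4 * Fintype.card α) := ⟨_, rfl⟩
  have hη0 : 0 < η := by rw [hη]; positivity
  obtain ⟨m', hm'⟩ := part_all h n₁ η hη0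
  obtain ⟨m, hm⟩ := hgood m'
  obtain ⟨ε, hε⟩ : ∃ ε : ℝ, ε = min (δ / 2) (δ * θ / 8) := ⟨_, rfl⟩
  have hε0 : 0 < ε := by rw [hε]; exact lt_min (by positivity) (by positivity)
  have hε1 : ε ≤ δ / 2 := by rw [hε]; exact min_le_left _ _
  have hε2 : ε ≤ δ * θ / 8 := by rw [hε]; exact min_le_right _ _
  obtain ⟨n₀, hn₀⟩ := sections (β := Option α) m ε hε0
  refine ⟨n₀, ?_⟩
  intro ι _ _ hι A hA
  by_contra hno
  push Not at hno
  obtain ⟨k', e, hsec⟩ := hn₀ ι hι A
  -- the sections
  let S : (Fin m → Option α) → Set (Fin k' → Option α) := fun t => {y | Sum.elim t y ∘ e.symm ∈ A}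
  have hS : ∀ t, δ / 2 ≤ dn (S t) := by
    intro t
    have h1 := hsec t
    show δ / 2 ≤ dn (S t)
    have h2 : dn A - ε ≤ dn (S t) := h1
    linarith
  obtain ⟨W, ⟨i₀, hi₀⟩, hW⟩ := hm (Fin k' → Option α) S hS
  let AY : (Fin k' → Option α) → Set (Fin m' → Option α) := fun y => {t | y ∈ S (W t)}
  let D : (Fin k' → Option α) → α → Set (Fin m' → Option α) := fun y a =>
    {t | y ∈ S (fun i => some (rp a (W t) i))}
  have hWnone : ∀ t, ∃ i, (W t) i = none := fun t => ⟨i₀, Subspace.apply_inl hi₀⟩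
  -- lines in the sections
  have hlift : ∀ (l : Line (Option α) (Fin m)) (y : Fin k' → Option α),
      ¬ ∀ x, y ∈ S (l x) := by
    intro l y hl
    obtain ⟨x, hx⟩ := hno (rdx e (l.horizontal y))
    apply hx
    have h1 := hl x
    rw [rdx_apply, Line.horizontal_apply]
    exact h1
  have hdisj : ∀ y t, t ∈ ⋂ a, D y a → t ∉ AY y := by
    intro y t ht ht2
    refine hlift (wld (W t) (hWnone t)) y ?_
    intro x
    rcases x with _ | a
    · rw [wld_none]
      exact ht2
    · rw [wld_some]
      exact Set.mem_iInter.1 ht a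
  have hins : ∀ y a, Ins a (D y a) := by
    intro y a t t' htt ht
    have h1 : (fun i => some (rp a (W t) i)) = fun i => some (rp a (W t') i) := by
      funext i
      congr 1
      show ((W t) i).getD a = ((W t') i).getD a
      rcases hWi : W.idxFun i with c | c
      · rw [Subspace.apply_inl hWi, Subspace.apply_inl hWi]
      · rw [Subspace.apply_inr hWi, Subspace.apply_inr hWi]
        exact congrFun htt c
    show y ∈ S (fun i => some (rp a (W t') i))
    rw [← h1]
    exact ht
  -- the function g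
  let g : (Fin k' → Option α) → (Fin m' → Option α) → ℝ := fun y t =>
    (AY y).indicator (fun _ => (1 : ℝ)) t - (δ' + δ * θ / 8)
  have hG : ∀ y, Ex ((⋂ a, D y a)ᶜ.indicator (g y)) =
      dn (AY y) - (δ' + δ * θ / 8) * (1 - dn (⋂ a, D y a)) := by
    intro y
    rw [← dn_compl]
    unfold dn
    rw [← Ex_mul_left, ← Ex_sub]
    refine Ex_congr fun t => ?_
    by_cases ht : t ∈ ⋂ a, D y a
    · rw [Set.indicator_of_notMem (by simpa using ht), Set.indicator_of_notMem (hdisj y t ht),
        Set.indicator_of_notMem (by simpa using ht)]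
      ring
    · rw [Set.indicator_of_mem ht, Set.indicator_of_mem (show t ∈ (⋂ a, D y a)ᶜ from ht)]
      show (AY y).indicator (fun _ => (1 : ℝ)) t - (δ' + δ * θ / 8) = _
      ring
  have hE1 : δ' - ε ≤ Ex (fun y => dn (AY y)) := by
    unfold dn
    rw [Ex_comm]
    refine le_Ex_const fun t => ?_
    have h1 : dn A - ε ≤ dn (S (W t)) := hsec (W t)
    have h2 : Ex (fun y => (AY y).indicator (fun _ => (1 : ℝ)) t) = dn (S (W t)) := by
      unfold dn
      refine Ex_congr fun y => ?_
      by_cases hy : y ∈ S (W t)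
      · rw [Set.indicator_of_mem hy, Set.indicator_of_mem (show t ∈ AY y from hy)]
      · rw [Set.indicator_of_notMem hy, Set.indicator_of_notMem (show t ∉ AY y from hy)]
    rw [h2]
    linarith
  have hE2 : θ ≤ Ex (fun y => dn (⋂ a, D y a)) := by
    refine hθθ.trans (hW.trans (le_of_eq ?_))
    unfold dn
    rw [Ex_comm]
    refine Ex_congr fun y => Ex_congr fun t => ?_
    by_cases hy : t ∈ ⋂ a, D y a
    · rw [Set.indicator_of_mem hy, Set.indicator_of_mem]
      rw [Set.mem_iInter] at hy ⊢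
      exact hy
    · rw [Set.indicator_of_notMem hy, Set.indicator_of_notMem]
      rw [Set.mem_iInter] at hy ⊢
      exact hy
  have hE3 : δ * θ / 2 ≤ Ex (fun y => Ex ((⋂ a, D y a)ᶜ.indicator (g y))) := by
    have h1 : Ex (fun y => Ex ((⋂ a, D y a)ᶜ.indicator (g y))) =
        Ex (fun y => dn (AY y)) - (δ' + δ * θ / 8) * (1 - Ex (fun y => dn (⋂ a, D y a))) := by
      rw [Ex_congr hG, Ex_sub, Ex_mul_left, Ex_sub, Ex_const]
    rw [h1]
    have h2 : (δ' + δ * θ / 8) * (1 - Ex (fun y => dn (⋂ a, D y a))) ≤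
        (δ' + δ * θ / 8) * (1 - θ) := by
      have h5 : 0 < δ * θ := by positivity
      exact mul_le_mul_of_nonneg_left (by linarith) (by linarith)
    have h3 : δ * θ ≤ δ' * θ := mul_le_mul_of_nonneg_right hδ' hθ.le
    have h4 : 0 ≤ δ * θ / 8 * θ := by positivity
    nlinarith
  obtain ⟨y, hy⟩ := exists_Ex_le (fun y => Ex ((⋂ a, D y a)ᶜ.indicator (g y)))
  obtain ⟨a, f, haf⟩ := exists_piece (D y) (g y) (δ * θ / 2) η (by
    rw [hη]
    have : (Fintype.card α : ℝ) * (δ * θ / (4 * Fintype.card α)) = δ * θ / 4 := by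
      field_simp
    rw [this]
    have : 0 < δ * θ := by positivity
    linarith) (hE3.trans hy)
  -- the piece is an intersection of insensitive sets
  let C : α → Set (Fin m' → Option α) := fun b =>
    if f b < f a then D y b else if b = a then (D y b)ᶜ else Set.univ
  have hC : ∀ b, Ins b (C b) := by
    intro b
    show Ins b (if f b < f a then D y b else if b = a then (D y b)ᶜ else Set.univ)
    split_ifs
    · exact hins y b
    · exact ins_compl (hins y b)
    · exact ins_univ
  have hCC : (⋂ b, C b) = {t | t ∉ D y a ∧ ∀ b, f b < f a → t ∈ D y b} := by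
    ext t
    rw [Set.mem_iInter]
    constructor
    · intro h1
      refine ⟨?_, fun b hb => ?_⟩
      · have h2 := h1 a
        simpa [C] using h2
      · have h2 := h1 b
        simpa [C, hb] using h2
    · rintro ⟨h1, h2⟩ b
      show t ∈ (if f b < f a then D y b else if b = a then (D y b)ᶜ else Set.univ)
      split_ifs with h3 h4
      · exact h2 b h3
      · rw [h4]
        exact h1
      · exact Set.mem_univ _
  have hpart := hm' (Fin m') (by rw [Fintype.card_fin]) C hC
  rw [hCC] at hpart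
  have hV : ∃ V : Subspace (Fin n₁) (Option α) (Fin m'), 0 < ∑ u, g y (V u) := by
    by_contra hcon
    push Not at hcon
    have hg1 : ∀ t, g y t ≤ 1 := by
      intro t
      have h1 : (AY y).indicator (fun _ => (1 : ℝ)) t ≤ 1 :=
        Set.indicator_le_self' (fun _ _ => zero_le_one) t
      have h2 : 0 < δ' + δ * θ / 8 := by
        have : 0 < δ * θ := by positivity
        linarith
      show (AY y).indicator (fun _ => (1 : ℝ)) t - (δ' + δ * θ / 8) ≤ 1
      linarith
    exact absurd (hpart (g y) hg1 fun V _ => hcon V) (not_le.2 haf)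
  obtain ⟨V, hVpos⟩ := hV
  have hdV : δ' + δ * θ / 8 ≤ dn {u : Fin n₁ → Option α | V u ∈ AY y} := by
    have h1 : (0 : ℝ) < Fintype.card (Fin n₁ → Option α) := by exact_mod_cast Fintype.card_pos
    unfold dn Ex
    rw [le_div_iff₀ h1]
    have h2 : ∑ u, g y (V u) = ∑ u, ({u : Fin n₁ → Option α | V u ∈ AY y}.indicator
        (fun _ => (1 : ℝ)) u) - (δ' + δ * θ / 8) * Fintype.card (Fin n₁ → Option α) := by
      have h3 : ∀ u, g y (V u) = {u : Fin n₁ → Option α | V u ∈ AY y}.indicator
          (fun _ => (1 : ℝ)) u - (δ' + δ * θ / 8) := by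
        intro u
        rfl
      rw [Finset.sum_congr rfl fun u _ => h3 u, Finset.sum_sub_distrib, Finset.sum_const,
        Finset.card_univ, nsmul_eq_mul, mul_comm (δ' + δ * θ / 8)]
    linarith
  obtain ⟨l, hl⟩ := hn₁ (Fin n₁) (by rw [Fintype.card_fin]) _ hdV
  refine hlift (cmp W (cmp V l)) y ?_
  intro x
  rw [cmp_apply, cmp_apply]
  exact hl x

end Pool.Agent.H48.EP
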