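import Pool.Agent.H48.EP.Av

/-!
# [H48 EP SYS] Systems of simplices

`m` points with coefficients `c v ∈ ℕ^k`, `L` simplices `e a` (`k + 1` points each) which are homothetic copies of the standard simplex with ratio `μ a`;
two simplices share at most one point; every set of `δ m` points contains a simplex.
-/

set_option autoImplicit false

namespace Pool.Agent.H48.EP

open Finset

/-- a system of simplices in `ℕ^k` for the density `δ` -/
structure Sys (k : ℕ) (δ : ℝ) where
  /-- number of points -/
  m : ℕ
  /-- number of simplices -/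
  L : ℕ
  /-- bound for coefficients and ratios -/
  n : ℕ
  /-- the simplices -/
  e : Fin L → Fin (k + 1) → Fin m
  /-- the coefficients -/
  c : Fin m → Fin k → ℕ
  /-- the ratios -/
  μ : Fin L → ℕ
  hm : 1 ≤ m
  inj : ∀ a, Function.Injective (e a)
  lin : ∀ a b, a ≠ b → ∀ i j i' j', e a i = e b i' → e a j = e b j' → i = j
  cov : ∀ v, ∃ a i, e a i = v
  cle : ∀ v j, c v j ≤ n
  μpos : ∀ a, 1 ≤ μ a
  μle : ∀ a, μ a ≤ n
  smp : ∀ a i j, c (e a i.succ) j = c (e a 0) j + if i = j then μ a else 0
  dense : ∀ S : Finset (Fin m), δ * m ≤ S.card → ∃ a, ∀ i, e a i ∈ S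

end Pool.Agent.H48.EP
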