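import Pool.Agent.H48.EP.Sys

/-!
# [H48 EP TRI] The trivial copies

Proof.  For `h < z` and `b ∈ E` let `x v = k n z + h + ∑ i, c v i * b i` (between `0` and `(2 k n + 1) z - 1`, since `|∑| ≤ k n z`).  `T` = all of them.  By `smp`
`x (e a i.succ) - x (e a 0) = μ a * b i`.  Injective: `x ∘ e a` determines `b` (`μ a ≥ 1`) and then `h` (from the value at `e a 0`); so `T.ncard = z |E|` too (`Λ` might be
empty, but `m ≥ 1` and `cov` give an edge).
-/

set_option autoImplicit false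

namespace Pool.Agent.H48.EP

open Finset

/-- the edges for the exceptional set `E` and the ratio `μ` -/
def FE {k N : ℕ} (μ : ℕ) (E : Finset (Fin k → ℤ)) : Set (Fin (k + 1) → Fin N) :=
  {y | ∃ b ∈ E, ∀ i : Fin k, ((y i.succ : ℕ) : ℤ) - ((y 0 : ℕ) : ℤ) = μ * b i}

private theorem bd {k : ℕ} (n z : ℕ) (c : Fin k → ℕ) (hc : ∀ j, c j ≤ n) (b : Fin k → ℤ)
    (hb : ∀ i, |b i| ≤ z) : |∑ i, (c i : ℤ) * b i| ≤ k * n * z := by
  refine (Finset.abs_sum_le_sum_abs _ _).trans ?_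
  have h : ∀ i ∈ (univ : Finset (Fin k)), |(c i : ℤ) * b i| ≤ (n : ℤ) * z := by
    intro i _
    rw [abs_mul, Nat.abs_cast]
    exact mul_le_mul (by exact_mod_cast hc i) (hb i) (abs_nonneg _) (Nat.cast_nonneg _)
  refine (Finset.sum_le_sum h).trans ?_
  rw [Finset.sum_const, Finset.card_univ, Fintype.card_fin, nsmul_eq_mul]
  linarith

private theorem rng {k : ℕ} (n z : ℕ) (h : Fin z) (c : Fin k → ℕ) (hc : ∀ j, c j ≤ n) (b : Fin k → ℤ)
    (hb : ∀ i, |b i| ≤ z) : 0 ≤ (k : ℤ) * n * z + ((h : ℕ) : ℤ) + ∑ i, (c i : ℤ) * b i ∧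
      (k : ℤ) * n * z + ((h : ℕ) : ℤ) + ∑ i, (c i : ℤ) * b i < ((2 * k * n + 1) * z : ℕ) := by
  have h1 := abs_le.1 (bd n z c hc b hb)
  have h2 : ((h : ℕ) : ℤ) < z := by exact_mod_cast h.2
  have h3 : (0 : ℤ) ≤ ((h : ℕ) : ℤ) := Nat.cast_nonneg _
  constructor
  · linarith
  · push_cast
    nlinarith

theorem trivial_copies {k : ℕ} {δ : ℝ} (S : Sys k δ) (z : ℕ) (hz : 1 ≤ z) (E : Finset (Fin k → ℤ)) (hE : ∀ b ∈ E, ∀ i, |b i| ≤ z) :
    ∃ T : Set (Fin S.m → Fin ((2 * k * S.n + 1) * z)), (∀ x ∈ T, ∀ a, x ∘ S.e a ∈ FE (S.μ a) E) ∧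
      (∀ a, Set.InjOn (fun x : Fin S.m → Fin ((2 * k * S.n + 1) * z) => x ∘ S.e a) T) ∧ T.ncard = z * E.card := by
  classical
  set F : Fin z × E → Fin S.m → ℤ := fun p v =>
    (k : ℤ) * S.n * z + ((p.1 : ℕ) : ℤ) + ∑ i, (S.c v i : ℤ) * p.2.1 i with hF
  have hF0 : ∀ p v, 0 ≤ F p v ∧ F p v < ((2 * k * S.n + 1) * z : ℕ) := fun p v =>
    rng S.n z p.1 (S.c v) (S.cle v) p.2.1 (hE _ p.2.2)
  set f : Fin z × E → Fin S.m → Fin ((2 * k * S.n + 1) * z) := fun p v =>
    ⟨(F p v).toNat, by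
      have h1 := (hF0 p v).2
      have h2 := Int.toNat_of_nonneg (hF0 p v).1
      exact_mod_cast h2 ▸ h1⟩ with hf
  have hfv : ∀ p v, (((f p v : Fin _) : ℕ) : ℤ) = F p v := fun p v => Int.toNat_of_nonneg (hF0 p v).1
  have hdiff : ∀ p a (i : Fin k), F p (S.e a i.succ) - F p (S.e a 0) = S.μ a * p.2.1 i := by
    intro p a i
    have h1 : ∑ j, (S.c (S.e a i.succ) j : ℤ) * p.2.1 j =
        ∑ j, (S.c (S.e a 0) j : ℤ) * p.2.1 j + S.μ a * p.2.1 i := by
      have h2 : ∀ j, (S.c (S.e a i.succ) j : ℤ) * p.2.1 j =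
          (S.c (S.e a 0) j : ℤ) * p.2.1 j + (if i = j then (S.μ a : ℤ) * p.2.1 j else 0) := by
        intro j
        rw [S.smp a i j]
        split_ifs <;> push_cast <;> ring
      rw [Finset.sum_congr rfl fun j _ => h2 j, Finset.sum_add_distrib]
      congr 1
      simp
    simp only [hF]
    rw [h1]
    ring
  have hinj : ∀ a (p q : Fin z × E), (f p) ∘ S.e a = (f q) ∘ S.e a → p = q := by
    intro a p q hpq
    have h1 : ∀ i, F p (S.e a i) = F q (S.e a i) := by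
      intro i
      rw [← hfv, ← hfv]
      have := congrFun hpq i
      simp only [Function.comp] at this
      rw [this]
    have hb : p.2 = q.2 := by
      apply Subtype.ext
      funext i
      have h2 := hdiff p a i
      rw [h1, h1, hdiff q a i] at h2
      have h3 : (0 : ℤ) < S.μ a := by exact_mod_cast S.μpos a
      exact (mul_left_cancel₀ h3.ne' h2).symm
    have hh : p.1 = q.1 := by
      have h2 := h1 0
      simp only [hF] at h2
      rw [hb] at h2
      apply Fin.ext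
      have : ((p.1 : ℕ) : ℤ) = ((q.1 : ℕ) : ℤ) := by linarith
      exact_mod_cast this
    exact Prod.ext hh hb
  refine ⟨Set.range f, ?_, ?_, ?_⟩
  · rintro x ⟨p, rfl⟩ a
    refine ⟨p.2.1, p.2.2, fun i => ?_⟩
    simp only [Function.comp]
    rw [hfv, hfv]
    exact hdiff p a i
  · rintro a x ⟨p, rfl⟩ y ⟨q, rfl⟩ h
    rw [hinj a p q h]
  · have hfi : Function.Injective f := by
      obtain ⟨a, -, -⟩ := S.cov ⟨0, S.hm⟩
      intro p q h
      exact hinj a p q (by rw [h])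
    have h1 : (Set.range f).ncard = Nat.card (Fin z × E) := Nat.card_range_of_injective hfi
    rw [h1, Nat.card_eq_fintype_card, Fintype.card_prod, Fintype.card_fin, Fintype.card_coe]

end Pool.Agent.H48.EP
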