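import Pool.Agent.H48.EP.Cnd

/-!
# [H48 EP WRG] Weak hypergraph regularity (partitions of the vertices)

`f λ` are functions on `K → X` with values in `[0,1]`, `P : X → Fin q` a partition of `X`, `cut`: all products of sets.
Proof.  If some `λ`, `A` violate the bound for `P'`, refine `P'` by the sets `A i`, `i ∈ K` (`q' 2^|K|` parts, a map to `Fin` of this size, e.g. by `Fintype.equivFin`);
by `energy` (`g x = ∏ i, (A i).indicator 1 (x i)`) the energy `∑ λ, Ex (cn (P' ∘ ·) (f λ) ^ 2) ≤ |Λ|` increases by `η²` (the other energies do not decrease by `pyth`).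
So at most `|Λ| / η² + 1` steps; the number of parts after `j` steps is `q 2^(|K| j)`; to have exactly `q'` parts compose with `Fin.castLE`
(and extend `ρ` outside arbitrarily, `X` is not empty).
-/

set_option autoImplicit false

namespace Pool.Agent.H48.EP

open Finset

/-- bound for the products of sets -/
def Cut {K X : Type} [Fintype K] [DecidableEq K] [Fintype X] (η : ℝ) (g : (K → X) → ℝ) : Prop :=
  ∀ A : K → Set X, |Ex (fun x : K → X => g x * ∏ i, (A i).indicator (fun _ => (1 : ℝ)) (x i))| ≤ η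

private theorem cn_inj {Z Q Q' : Type} [Fintype Z] {ι : Q → Q'} (hι : Function.Injective ι) (π : Z → Q) (f : Z → ℝ) :
    cn (ι ∘ π) f = cn π f := by
  classical
  funext z
  unfold cn
  have h : univ.filter (fun z' => (ι ∘ π) z' = (ι ∘ π) z) = univ.filter (fun z' => π z' = π z) :=
    filter_congr fun z' _ => hι.eq_iff
  have e : ∀ S T : Finset Z, S = T → (∑ z' ∈ S, f z') / (S.card : ℝ) = (∑ z' ∈ T, f z') / (T.card : ℝ) := by
    intro S T hST
    rw [hST]
  refine e _ _ (Finset.ext fun z' => ?_)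
  simp only [mem_filter, mem_univ, true_and]
  exact hι.eq_iff

private theorem cn_inj' {K X Q Q' : Type} [Fintype K] [DecidableEq K] [Fintype X] {ι : Q → Q'} (hι : Function.Injective ι)
    (P : X → Q) (f : (K → X) → ℝ) :
    cn (fun y : K → X => (ι ∘ P) ∘ y) f = cn (fun y : K → X => P ∘ y) f := by
  have h : (fun y : K → X => (ι ∘ P) ∘ y) = (fun z : K → Q => ι ∘ z) ∘ (fun y : K → X => P ∘ y) := rfl
  rw [h]
  exact cn_inj (fun a b hab => funext fun i => hι (congrFun hab i)) _ f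

/-- more parts -/
private theorem lift {K X : Type} [Fintype K] [DecidableEq K] [Fintype X] [Nonempty X] {q a b : ℕ} (hab : a ≤ b)
    (P : X → Fin q) (P' : X → Fin a) (ρ : Fin a → Fin q) (h : P = ρ ∘ P') :
    ∃ (P'' : X → Fin b) (ρ' : Fin b → Fin q), P = ρ' ∘ P'' ∧
      ∀ f : (K → X) → ℝ, cn (fun y : K → X => P'' ∘ y) f = cn (fun y : K → X => P' ∘ y) f := by
  obtain ⟨x0⟩ := (inferInstance : Nonempty X)
  refine ⟨Fin.castLE hab ∘ P', fun j => if hj : j.val < a then ρ ⟨j.val, hj⟩ else P x0, ?_, ?_⟩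
  · funext x
    rw [h, Function.comp_apply, Function.comp_apply, Function.comp_apply]
    rw [dif_pos (by simp)]
    congr 1
  · intro f
    exact cn_inj' (Fin.castLE_injective hab) P' f

/-- one step -/
private theorem step {K Λ X : Type} [Fintype K] [DecidableEq K] [Fintype Λ] [Fintype X] {Q : Type}
    (f : Λ → (K → X) → ℝ) (P : X → Q) {η : ℝ} (hη : 0 < η)
    (h : ¬ ∀ a, Cut η (fun x => f a x - cn (fun y : K → X => P ∘ y) (f a) x)) :
    ∃ P₂ : X → Q × (K → Bool), P = Prod.fst ∘ P₂ ∧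
      ∑ a, Ex (fun x => cn (fun y : K → X => P ∘ y) (f a) x ^ 2) + η ^ 2 ≤
        ∑ a, Ex (fun x => cn (fun y : K → X => P₂ ∘ y) (f a) x ^ 2) := by
  classical
  unfold Cut at h
  push Not at h
  obtain ⟨a, A, hA⟩ := h
  obtain ⟨P₂, hP₂⟩ : ∃ P₂ : X → Q × (K → Bool), P₂ = fun x => (P x, fun i => decide (x ∈ A i)) := ⟨_, rfl⟩
  have hP : P = Prod.fst ∘ P₂ := by
    rw [hP₂]
    rfl
  have hPy : (fun y : K → X => P ∘ y) = (fun z : K → Q × (K → Bool) => Prod.fst ∘ z) ∘ (fun y : K → X => P₂ ∘ y) := by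
    rw [hP]
    rfl
  refine ⟨P₂, hP, ?_⟩
  obtain ⟨g, hg⟩ : ∃ g : (K → X) → ℝ, g = fun x => ∏ i, (A i).indicator (fun _ => (1 : ℝ)) (x i) := ⟨_, rfl⟩
  have hgc : ∀ z z' : K → X, P₂ ∘ z = P₂ ∘ z' → g z = g z' := by
    intro z z' hz
    rw [hg]
    refine prod_congr rfl fun i _ => ?_
    have h1 := congrFun (congrArg Prod.snd (congrFun hz i)) i
    rw [hP₂] at h1
    simp only [Function.comp_apply, decide_eq_decide] at h1
    by_cases h2 : z i ∈ A i
    · rw [Set.indicator_of_mem h2, Set.indicator_of_mem (h1.1 h2)]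
    · rw [Set.indicator_of_notMem h2, Set.indicator_of_notMem (fun h3 => h2 (h1.2 h3))]
  have hg1 : ∀ z, |g z| ≤ 1 := by
    intro z
    rw [hg]
    rw [abs_prod]
    refine prod_le_one (fun i _ => abs_nonneg _) fun i _ => ?_
    by_cases h2 : z i ∈ A i
    · rw [Set.indicator_of_mem h2, abs_one]
    · rw [Set.indicator_of_notMem h2, abs_zero]
      exact zero_le_one
  rw [← add_sum_erase univ _ (mem_univ a), ← add_sum_erase univ (fun a => Ex (fun x => cn (fun y : K → X => P₂ ∘ y) (f a) x ^ 2)) (mem_univ a)]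
  have h3 : Ex (fun x => cn (fun y : K → X => P ∘ y) (f a) x ^ 2) + η ^ 2 ≤
      Ex (fun x => cn (fun y : K → X => P₂ ∘ y) (f a) x ^ 2) := by
    rw [hPy]
    refine energy (fun y : K → X => P₂ ∘ y) _ hgc hg1 hη.le ?_
    rw [← hPy, hg]
    exact hA.le
  have h4 : ∑ b ∈ univ.erase a, Ex (fun x => cn (fun y : K → X => P ∘ y) (f b) x ^ 2) ≤
      ∑ b ∈ univ.erase a, Ex (fun x => cn (fun y : K → X => P₂ ∘ y) (f b) x ^ 2) := by
    refine sum_le_sum fun b _ => ?_
    rw [hPy]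
    have h5 := pyth (fun y : K → X => P₂ ∘ y) (fun z : K → Q × (K → Bool) => Prod.fst ∘ z) (f b)
    have h6 : 0 ≤ Ex (fun z => (cn (fun y : K → X => P₂ ∘ y) (f b) z -
        cn ((fun z : K → Q × (K → Bool) => Prod.fst ∘ z) ∘ (fun y : K → X => P₂ ∘ y)) (f b) z) ^ 2) :=
      Ex_nonneg fun z => sq_nonneg _
    linarith
  linarith

private theorem en_le {K Λ X : Type} [Fintype K] [DecidableEq K] [Fintype Λ] [Fintype X] [Nonempty X] {Q : Type}
    (f : Λ → (K → X) → ℝ) (hf : ∀ a x, 0 ≤ f a x ∧ f a x ≤ 1) (P : X → Q) :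
    ∑ a, Ex (fun x => cn (fun y : K → X => P ∘ y) (f a) x ^ 2) ≤ Fintype.card Λ := by
  calc ∑ a, Ex (fun x => cn (fun y : K → X => P ∘ y) (f a) x ^ 2) ≤ ∑ _a : Λ, (1 : ℝ) := by
        refine sum_le_sum fun a _ => Ex_le_const fun x => ?_
        obtain ⟨h1, h2⟩ := cn_mem (fun y : K → X => P ∘ y) (hf a) x
        exact pow_le_one₀ h1 h2
    _ = Fintype.card Λ := by rw [sum_const, nsmul_eq_mul, mul_one, card_univ]

private theorem main (K Λ : Type) [Fintype K] [DecidableEq K] [Fintype Λ] (η : ℝ) (hη : 0 < η) (J : ℕ) :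
    ∀ q : ℕ, ∃ q' : ℕ, ∀ (X : Type) [Fintype X] [Nonempty X] (f : Λ → (K → X) → ℝ), (∀ a x, 0 ≤ f a x ∧ f a x ≤ 1) →
      ∀ P : X → Fin q, (Fintype.card Λ : ℝ) ≤ ∑ a, Ex (fun x => cn (fun y : K → X => P ∘ y) (f a) x ^ 2) + J * η ^ 2 →
        ∃ (P' : X → Fin q') (ρ : Fin q' → Fin q), P = ρ ∘ P' ∧
          ∀ a, Cut η (fun x => f a x - cn (fun y : K → X => P' ∘ y) (f a) x) := by
  induction J with
  | zero =>
    intro q
    refine ⟨q, ?_⟩
    intro X _ _ f hf P hE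
    refine ⟨P, id, rfl, ?_⟩
    by_contra hcon
    obtain ⟨P₂, _, h2⟩ := step f P hη hcon
    have h3 := en_le f hf P₂
    have h4 : 0 < η ^ 2 := by positivity
    simp only [Nat.cast_zero, zero_mul, add_zero] at hE
    linarith
  | succ J ih =>
    intro q
    obtain ⟨q₂, hq₂⟩ : ∃ q₂, q₂ = Fintype.card (Fin q × (K → Bool)) := ⟨_, rfl⟩
    obtain ⟨q', hq'⟩ := ih q₂
    refine ⟨max q q', ?_⟩
    intro X _ _ f hf P hE
    by_cases hgood : ∀ a, Cut η (fun x => f a x - cn (fun y : K → X => P ∘ y) (f a) x)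
    · obtain ⟨P'', ρ', h1, h2⟩ := lift (K := K) (le_max_left q q') P P id rfl
      refine ⟨P'', ρ', h1, fun a => ?_⟩
      rw [h2]
      exact hgood a
    · obtain ⟨P₂, h1, h2⟩ := step f P hη hgood
      obtain ⟨ι, _⟩ : ∃ ι : Fin q × (K → Bool) ≃ Fin q₂, True := by
        rw [hq₂]
        exact ⟨Fintype.equivFin _, trivial⟩
      have h3 : ∀ a, cn (fun y : K → X => (ι ∘ P₂) ∘ y) (f a) = cn (fun y : K → X => P₂ ∘ y) (f a) := fun a =>
        cn_inj' ι.injective P₂ (f a)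
      obtain ⟨P', ρ, h4, h5⟩ := hq' X f hf (ι ∘ P₂) (by
        have e : ∑ a, Ex (fun x => cn (fun y : K → X => (ι ∘ P₂) ∘ y) (f a) x ^ 2) =
            ∑ a, Ex (fun x => cn (fun y : K → X => P₂ ∘ y) (f a) x ^ 2) :=
          sum_congr rfl fun a _ => by rw [h3 a]
        rw [e]
        push_cast at hE
        linarith)
      have h6 : P = (Prod.fst ∘ ι.symm ∘ ρ) ∘ P' := by
        funext x
        have h7 := congrFun h4 x
        simp only [Function.comp_apply] at h7 ⊢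
        rw [← h7, Equiv.symm_apply_apply]
        exact congrFun h1 x
      obtain ⟨P'', ρ', h8, h9⟩ := lift (K := K) (le_max_right q q') P P' _ h6
      refine ⟨P'', ρ', h8, fun a => ?_⟩
      rw [h9]
      exact h5 a

theorem weak_reg (K Λ : Type) [Fintype K] [DecidableEq K] [Fintype Λ] (q : ℕ) (η : ℝ) (hη : 0 < η) :
    ∃ q' : ℕ, ∀ (X : Type) [Fintype X] [Nonempty X] (f : Λ → (K → X) → ℝ), (∀ a x, 0 ≤ f a x ∧ f a x ≤ 1) →
      ∀ P : X → Fin q, ∃ (P' : X → Fin q') (ρ : Fin q' → Fin q), P = ρ ∘ P' ∧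
        ∀ a, Cut η (fun x => f a x - cn (fun y : K → X => P' ∘ y) (f a) x) := by
  obtain ⟨J, hJ⟩ := exists_nat_ge ((Fintype.card Λ : ℝ) / η ^ 2)
  have h4 : 0 < η ^ 2 := by positivity
  obtain ⟨q', hq'⟩ := main K Λ η hη J q
  refine ⟨q', ?_⟩
  intro X _ _ f hf P
  refine hq' X f hf P ?_
  have h5 : (Fintype.card Λ : ℝ) ≤ J * η ^ 2 := (div_le_iff₀ h4).1 hJ
  have h6 : 0 ≤ ∑ a, Ex (fun x => cn (fun y : K → X => P ∘ y) (f a) x ^ 2) :=
    sum_nonneg fun a _ => Ex_nonneg fun x => sq_nonneg _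
  linarith

end Pool.Agent.H48.EP
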